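import Pool.Agent.Lib.MP_aa40d3_nt.NP.Defs
import Pool.Agent.Lib.MP_aa40d3_nt.GR.PFun
import Pool.Agent.Lib.MP_aa40d3_nt.CV.Alg

/-! A virtually unipotent monodromy group gives a triangular system in an algebraic basis. -/

open Polynomial Matrix Set Filter Topology
open scoped Matrix.Norms.Operator

namespace Pool.Agent.GR.NP

variable {n r : ℕ}

theorem lu1_step {G : Type} [Group G] {σ : G →* Mt r} {H : Subgroup G} {k : ℕ}
    (h : Unip σ H k 1) {W : Submodule ℂ (Fin r → ℂ)} (hW : W ≠ ⊤) :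
    ∃ w, w ∉ W ∧ ∀ x ∈ H, (σ x - 1) *ᵥ w ∈ W := by
  by_contra hn
  push Not at hn
  obtain ⟨w, hw⟩ : ∃ w, w ∉ W := by
    by_contra h1
    push Not at h1
    exact hW (eq_top_iff.2 fun w _ => h1 w)
  have key : ∀ j : ℕ, ∃ l : List G, (∀ x ∈ l, x ∈ H) ∧ l.length = j ∧
      (l.map fun x => σ x - 1).prod *ᵥ w ∉ W := by
    intro j
    induction j with
    | zero => exact ⟨[], by simp, rfl, by simpa using hw⟩
    | succ j ih =>
      obtain ⟨l, h1, h2, h3⟩ := ih
      obtain ⟨x, hx, h4⟩ := hn _ h3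
      refine ⟨x :: l, List.forall_mem_cons.2 ⟨hx, h1⟩, by simp [h2], ?_⟩
      rwa [List.map_cons, List.prod_cons, ← Matrix.mulVec_mulVec]
  obtain ⟨l, h1, h2, h3⟩ := key k
  have h4 := h l h1 h2
  rw [mul_one] at h4
  rw [h4, Matrix.zero_mulVec] at h3
  exact h3 W.zero_mem

theorem lu1_vec {G : Type} [Group G] {σ : G →* Mt r} {H : Subgroup G} {k : ℕ}
    (h : Unip σ H k 1) (m : ℕ) (hm : m ≤ r) : ∃ v : Fin m → Fin r → ℂ, LinearIndependent ℂ v ∧
      ∀ x ∈ H, ∀ b, ∃ c : Fin m → ℂ, (∀ a, b ≤ a → c a = 0) ∧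
        (σ x - 1) *ᵥ v b = ∑ a, c a • v a := by
  induction m with
  | zero => exact ⟨Fin.elim0, linearIndependent_empty_type, fun _ _ b => b.elim0⟩
  | succ m ih =>
    obtain ⟨v, hv, hv'⟩ := ih (by omega)
    obtain ⟨w, hw, hw'⟩ := lu1_step h (W := Submodule.span ℂ (Set.range v)) fun e => by
      have h1 := finrank_span_eq_card hv
      rw [e, finrank_top, Module.finrank_fin_fun, Fintype.card_fin] at h1
      omega
    refine ⟨Fin.snoc v w, linearIndependent_finSnoc.2 ⟨hv, hw⟩, fun x hx b => ?_⟩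
    induction b using Fin.lastCases with
    | last =>
      obtain ⟨c, hc⟩ := (Submodule.mem_span_range_iff_exists_fun ℂ).1 (hw' x hx)
      refine ⟨Fin.snoc c 0, fun a ha => ?_, ?_⟩
      · rw [Fin.last_le_iff.1 ha, Fin.snoc_last]
      · simp [Fin.sum_univ_castSucc, hc]
    | cast b =>
      obtain ⟨c, hc, hc'⟩ := hv' x hx b
      refine ⟨Fin.snoc c 0, fun a ha => ?_, ?_⟩
      · induction a using Fin.lastCases with
        | last => exact Fin.snoc_last ..
        | cast a => rw [Fin.snoc_castSucc, hc a (Fin.castSucc_le_castSucc_iff.1 ha)]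
      · simp [Fin.sum_univ_castSucc, hc']

/-- Let `V j` be the space of vectors killed by all products of `j` factors. Build independent
vectors one at a time (`Fin.snoc`), each sent by all `σ x - 1` into the span of the earlier ones:
if the span `W` of the vectors found is not everything, take the least `j` with `V j ⊄ W`. -/
theorem exists_flag {G : Type} [Group G] {σ : G →* Mt r} {H : Subgroup G} {k : ℕ}
    (h : Unip σ H k 1) : ∃ c : (Mt r)ˣ, ∀ x ∈ H, Up ((c⁻¹).val * σ x * c.val - 1) := by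
  obtain ⟨v, hv, hv'⟩ := lu1_vec h r le_rfl
  obtain ⟨c, hc⟩ : IsUnit (Matrix.of v)ᵀ := Matrix.linearIndependent_cols_iff_isUnit.1 hv
  refine ⟨c, fun x hx => ?_⟩
  choose T hT hT' using hv' x hx
  have e : (σ x - 1) * c.val = c.val * (Matrix.of T)ᵀ := by
    rw [hc]
    ext i b
    have h1 := congrFun (hT' b) i
    simp only [Matrix.mulVec, dotProduct, Finset.sum_apply, Pi.smul_apply, smul_eq_mul] at h1
    simp only [Matrix.mul_apply, Matrix.transpose_apply, Matrix.of_apply, h1, mul_comm (v _ i)]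
  have e' : (c⁻¹).val * σ x * c.val - 1 = (Matrix.of T)ᵀ := by
    rw [← Units.inv_mul_cancel_left c (Matrix.of T)ᵀ, ← e, Matrix.sub_mul, Matrix.mul_sub,
      Matrix.one_mul, Units.inv_mul, Matrix.mul_assoc]
  rw [e']
  exact fun a b hab => hT b a hab

theorem lu1_pf [NeZero r] {F : Mat r → ℂ} (hF : F ∈ PF r) (B : Mat r) :
    (fun M : Mat r => F (M * B)) ∈ PF r := by
  induction hF using Algebra.adjoin_induction with
  | mem x hx =>
    obtain ⟨q, rfl⟩ := hx
    exact PF.entry_mul B q.1 q.2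
  | algebraMap a => exact (PF r).algebraMap_mem a
  | add x y _ _ hx hy => exact (PF r).add_mem hx hy
  | mul x y _ _ hx hy => exact (PF r).mul_mem hx hy

/-- As `alg_of_finite`, with the product over the cosets of `H`. -/
theorem alg_of_inv [NeZero r] {t : Fin n → ℂ} {g : Fin n → (Mat r)ˣ}
    {H : Subgroup (Subgroup.closure (Set.range g))} (hH : H.FiniteIndex) {U : Set ℂ}
    {Y : ℂ → Mat r} (he : ExtProp t g U Y) {F : Mat r → ℂ} (hF : F ∈ PF r)
    (hi : ∀ M : Mat r, ∀ h ∈ H, F (M * h.val.val) = F M) : CV.AlgF U fun x => F (Y x) := by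
  classical
  have := Fintype.ofFinite (Subgroup.closure (Set.range g) ⧸ H)
  have key : ∀ (M : Mat r) (γ : Subgroup.closure (Set.range g)),
      F (M * (QuotientGroup.mk (s := H) γ).out.val.val) = F (M * γ.val.val) := by
    intro M γ
    obtain ⟨h, e⟩ := QuotientGroup.mk_out_eq_mul H γ
    rw [e, Subgroup.coe_mul, Units.val_mul, ← mul_assoc, hi _ _ h.2]
  let Pr : (PF r)[X] := ∏ γ : Subgroup.closure (Set.range g) ⧸ H,
    (X - C (⟨fun M : Mat r => F (M * γ.out.val.val), lu1_pf hF _⟩ : PF r))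
  have hPr : ∀ M : Mat r, Pr.map (pfunEv M) =
      ∏ γ : Subgroup.closure (Set.range g) ⧸ H, (X - C (F (M * γ.out.val.val))) := by
    intro M
    simp only [Pr, Polynomial.map_prod, Polynomial.map_sub, map_X, map_C, pfun_ev]
  obtain ⟨N, hN⟩ : ∃ N, N = Fintype.card (Subgroup.closure (Set.range g) ⧸ H) := ⟨_, rfl⟩
  obtain ⟨m, q, hq⟩ := pfun_unif (ι := Fin N) (U := U) (dl t)
    (fun i x => (Pr.coeff i).val (Y x)) (by
      intro i
      refine he _ (Pr.coeff i).2 fun M c => ?_
      rw [← pfun_ev, ← pfun_ev, ← coeff_map, ← coeff_map, hPr, hPr]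
      congr 1
      refine Fintype.prod_equiv (MulAction.toPerm (⟨g c, Subgroup.subset_closure
        (Set.mem_range_self c)⟩ : Subgroup.closure (Set.range g))) _ _ fun γ => ?_
      rw [MulAction.toPerm_apply, ← MulAction.Quotient.mk_smul_out, key, Units.val_mul, mul_assoc]
      rfl)
  have hδ : dl t ≠ 0 := (monic_prod_X_sub_C t Finset.univ).ne_zero
  refine ⟨C (dl t ^ m) * X ^ N + ∑ i : Fin N, C (q i) * X ^ (i : ℕ), fun h0 => ?_, fun x hx => ?_⟩
  · have h1 := congrArg (fun P : ℂ[X][X] => P.coeff N) h0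
    simp only [coeff_add, finsetSum_coeff, coeff_C_mul_X_pow, if_true, coeff_zero] at h1
    rw [Finset.sum_eq_zero fun i _ => if_neg i.2.ne', add_zero] at h1
    exact pow_ne_zero m hδ h1
  · have hm : (Pr.map (pfunEv (Y x))).Monic := by
      rw [hPr]
      exact monic_prod_X_sub_C _ _
    have hd : (Pr.map (pfunEv (Y x))).natDegree = N := by
      rw [hPr, natDegree_finsetProd_X_sub_C_eq_card, hN, Finset.card_univ]
    have h0 : (Pr.map (pfunEv (Y x))).eval (F (Y x)) = 0 := by
      rw [hPr, eval_prod]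
      refine Finset.prod_eq_zero (Finset.mem_univ (QuotientGroup.mk 1)) ?_
      rw [key]
      simp
    rw [hm.as_sum, hd, Finset.sum_range] at h0
    simp only [eval_add, eval_pow, eval_X, eval_finsetSum, eval_mul, eval_C, coeff_map,
      pfun_ev] at h0
    simp only [evalEval, eval_add, eval_pow, eval_X, eval_finsetSum, eval_mul, eval_C,
      ← hq _ x hx, mul_assoc, ← Finset.mul_sum]
    rw [← mul_add, h0, mul_zero]

/-- Reverse the coefficients. -/
theorem algF_inv {V : Set ℂ} {f : ℂ → ℂ} (h : CV.AlgF V f) (h0 : ∀ x ∈ V, f x ≠ 0) :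
    CV.AlgF V fun x => (f x)⁻¹ := by
  obtain ⟨Q, hQ, h⟩ := h
  refine ⟨Q.reverse, fun e => hQ (reverse_eq_zero.1 e), fun x hx => ?_⟩
  let _ := invertibleOfNonzero (h0 x hx)
  beta_reduce
  rw [← eval₂_evalRingHom, ← invOf_eq_inv, eval₂_reverse_eq_zero_iff, eval₂_evalRingHom]
  exact h x hx

/-- The first `k` rows of `M`, then the rows of the identity. -/
def topR (k : Fin r) (M : Mat r) : Mat r :=
  Matrix.of fun a b => if a < k then M a b else (1 : Mat r) a b

theorem lu2_ent {h : Mat r} (hh : Up (h - 1)) {a b : Fin r} (hab : b ≤ a) :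
    h a b = (1 : Mat r) a b := sub_eq_zero.1 (hh a b hab)

theorem lu2_tri {h : Mat r} (hh : Up (h - 1)) : h.BlockTriangular id := fun a b hab => by
  have h1 : b < a := hab
  rw [lu2_ent hh h1.le, Matrix.one_apply_ne h1.ne']

theorem lu2_det {h : Mat r} (hh : Up (h - 1)) : h.det = 1 := by
  rw [Matrix.det_of_isUpperTriangular (lu2_tri hh)]
  exact Finset.prod_eq_one fun a _ => by rw [lu2_ent hh le_rfl, Matrix.one_apply_eq]

/-- The first `k` rows of the identity, then the rows of `h`. -/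
def lu2_P (k : Fin r) (h : Mat r) : Mat r :=
  Matrix.of fun a b => if a < k then (1 : Mat r) a b else h a b

theorem lu2_up (k : Fin r) {h : Mat r} (hh : Up (h - 1)) : Up (lu2_P k h - 1) := by
  intro a b hab
  simp only [lu2_P, Matrix.sub_apply, Matrix.of_apply]
  split_ifs
  · exact sub_self _
  · exact hh a b hab

theorem lu2_row (a b : Fin r) (M : Mat r) : ∑ c, (1 : Mat r) a c * M c b = M a b := by
  rw [← Matrix.mul_apply, Matrix.one_mul]

theorem lu2_mul (k : Fin r) (M : Mat r) {h : Mat r} (hh : Up (h - 1)) :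
    topR k M * h = lu2_P k h * topR k (M * h) := by
  ext a b
  rw [Matrix.mul_apply, Matrix.mul_apply]
  by_cases ha : a < k
  · simp only [lu2_P, Matrix.of_apply, if_pos ha, lu2_row]
    simp only [topR, Matrix.of_apply, if_pos ha, Matrix.mul_apply]
  · have e : ∀ c, h a c * topR k (M * h) c b = h a c * (1 : Mat r) c b := fun c => by
      by_cases hc : c < k
      · have h1 : c < a := hc.trans_le (not_lt.1 ha)
        rw [lu2_tri hh h1, zero_mul, zero_mul]
      · simp only [topR, Matrix.of_apply, if_neg hc]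
    simp only [lu2_P, Matrix.of_apply, if_neg ha, e]
    simp only [topR, Matrix.of_apply, if_neg ha, lu2_row]
    rw [← Matrix.mul_apply, Matrix.mul_one]

/-- `topR k M * h = P * topR k (M * h)`, where `P` has the first `k` rows of the identity and then
the rows of `h`. `P` is upper triangular with diagonal one, and its column `k` is the basis
vector. -/
theorem topR_det (k : Fin r) (M : Mat r) {h : Mat r} (hh : Up (h - 1)) :
    (topR k (M * h)).det = (topR k M).det := by
  have h1 := congrArg Matrix.det (lu2_mul k M hh)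
  rw [Matrix.det_mul, Matrix.det_mul, lu2_det hh, lu2_det (lu2_up k hh), mul_one, one_mul] at h1
  exact h1.symm

/-- `adjugate_mul_distrib`. -/
theorem topR_adj (k a : Fin r) (M : Mat r) {h : Mat r} (hh : Up (h - 1)) :
    (M * h * (topR k (M * h)).adjugate) a k = (M * (topR k M).adjugate) a k := by
  have h1 := congrArg (fun N => h * Matrix.adjugate N * lu2_P k h) (lu2_mul k M hh)
  simp only [Matrix.adjugate_mul_distrib] at h1
  rw [← Matrix.mul_assoc h, Matrix.mul_adjugate, lu2_det hh, one_smul, Matrix.one_mul,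
    Matrix.mul_assoc h, Matrix.mul_assoc, Matrix.adjugate_mul, lu2_det (lu2_up k hh), one_smul,
    Matrix.mul_one] at h1
  rw [Matrix.mul_assoc, ← h1, ← Matrix.mul_assoc, Matrix.mul_apply]
  have e : ∀ c, lu2_P k h c k = (1 : Mat r) c k := fun c => by
    simp only [lu2_P, Matrix.of_apply]
    split_ifs with hc
    · rfl
    · exact lu2_ent hh (not_lt.1 hc)
  simp only [e]
  rw [← Matrix.mul_apply, Matrix.mul_one]

/-- The column `k` is the column `k` of the inverse of `topR k M`. -/
noncomputable def luU (M : Mat r) : Mat r :=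
  Matrix.of fun a k => (topR k M).det⁻¹ * (topR k M).adjugate a k

/-- Read the rows `a ≥ k` of `topR k M * adjugate = det • 1`. -/
theorem luU_up {M : Mat r} (hM : ∀ k, (topR k M).det ≠ 0) : Up (luU M - 1) := by
  intro a b hab
  have h1 := congrFun (congrFun (Matrix.mul_adjugate (topR b M)) a) b
  rw [Matrix.mul_apply] at h1
  have e : ∀ c, topR b M a c = (1 : Mat r) a c := fun c => by
    simp only [topR, Matrix.of_apply, if_neg (not_lt.2 hab)]
  simp only [e, lu2_row, Matrix.smul_apply, smul_eq_mul] at h1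
  rw [Matrix.sub_apply, luU, Matrix.of_apply, h1, inv_mul_cancel_left₀ (hM b), sub_self]

theorem lu2_pf (k a b : Fin r) : (fun M : Mat r => topR k M a b) ∈ PF r := by
  by_cases h : a < k
  · simp only [topR, Matrix.of_apply, if_pos h]
    exact Algebra.subset_adjoin ⟨(a, b), rfl⟩
  · simp only [topR, Matrix.of_apply, if_neg h]
    exact (PF r).algebraMap_mem ((1 : Mat r) a b)

theorem lu2_one (k : Fin r) : topR k 1 = 1 := by
  ext a b
  simp only [topR, Matrix.of_apply, ite_self]

theorem lu2_strict {P T : Mat r} (hP : P.BlockTriangular id) (hT : Up T) : Up (P * T) := by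
  intro a b hab
  rw [Matrix.mul_apply]
  refine Finset.sum_eq_zero fun c _ => ?_
  by_cases hc : c < a
  · rw [hP hc, zero_mul]
  · rw [hT c b (hab.trans (not_lt.1 hc)), mul_zero]

/-- On a disc where no `(topR k (W x)).det` vanishes, `W x = L * Y x * c`, take
`Y x * c * u x` with `u x = luU (W x)` and `T = u⁻¹ * u'`. -/
theorem algSolT_of_flag [NeZero r] {t : Fin n → ℂ} {A : Fin n → Mat r} {U : Set ℂ} (hU : IsOpen U)
    {x₀ : ℂ} (hx₀ : x₀ ∈ U) {Y : ℂ → Mat r} (hY0 : Y x₀ = 1)
    (hY : ∀ x ∈ U, (∀ i, x ≠ t i) ∧ (Y x).det ≠ 0 ∧ HasDerivAt Y (sys t A x * Y x) x)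
    (c : (Mat r)ˣ) (h1 : ∀ k, CV.AlgF U fun x => (topR k ((c⁻¹).val * Y x * c.val)).det)
    (h2 : ∀ a k, CV.AlgF U fun x =>
      ((c⁻¹).val * Y x * c.val * (topR k ((c⁻¹).val * Y x * c.val)).adjugate) a k) :
    AlgSolT t A := by
  obtain ⟨Z, hZ⟩ : ∃ Z : ℂ → Mat r, Z = fun x => (c⁻¹).val * Y x * c.val := ⟨_, rfl⟩
  have hZ' : ∀ x, (c⁻¹).val * Y x * c.val = Z x := fun x => by rw [hZ]
  simp only [hZ'] at h1 h2
  have dZ : ∀ x ∈ U, DifferentiableAt ℂ Z x := fun x hx => by
    rw [hZ]
    exact ((hY x hx).2.2.differentiableAt.const_mul _).mul_const _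
  have dd : ∀ k, ∀ x ∈ U, DifferentiableAt ℂ (fun x => (topR k (Z x)).det) x := fun k x hx =>
    (PF.differentiable (PF.det (lu2_pf k)) (Z x)).comp x (dZ x hx)
  have hev : ∀ᶠ x in 𝓝 x₀, x ∈ U ∧ ∀ k, (topR k (Z x)).det ≠ 0 := by
    refine (hU.eventually_mem hx₀).and (eventually_all.2 fun k => ?_)
    refine (dd k x₀ hx₀).continuousAt.eventually_ne ?_
    rw [← hZ', hY0, Matrix.mul_one, Units.inv_mul, lu2_one, Matrix.det_one]
    exact one_ne_zero
  obtain ⟨ε, hε, hb⟩ := Metric.eventually_nhds_iff_ball.1 hev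
  have du : ∀ x ∈ Metric.ball x₀ ε, DifferentiableAt ℂ (fun x => luU (Z x)) x := fun x hx =>
    differentiableAt_mat.2 fun a k => ((dd k x (hb x hx).1).inv ((hb x hx).2 k)).mul
      ((PF.differentiable (PF.adjugate (lu2_pf k) a k) (Z x)).comp x (dZ x (hb x hx).1))
  refine ⟨x₀, ε, fun x => Y x * c.val * luU (Z x),
    fun x => (luU (Z x))⁻¹ * deriv (fun x => luU (Z x)) x, hε, fun x hx => ?_, fun a k => ?_⟩
  · obtain ⟨y1, y2, y3⟩ := hY x (hb x hx).1
    have hu := luU_up (hb x hx).2
    have hd : IsUnit (luU (Z x)).det := by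
      rw [lu2_det hu]
      exact isUnit_one
    refine ⟨y1, ?_, ?_, ?_⟩
    · rw [Matrix.det_mul, Matrix.det_mul]
      exact mul_ne_zero (mul_ne_zero y2 (Matrix.isUnits_det_units c).ne_zero) hd.ne_zero
    · let _ := Matrix.invertibleOfIsUnitDet _ hd
      refine lu2_strict (Matrix.blockTriangular_inv_of_blockTriangular (lu2_tri hu))
        fun a b hab => ?_
      refine (hasDerivAt_mat.1 (du x hx).hasDerivAt a b).unique ?_
      refine (hasDerivAt_const x ((1 : Mat r) a b)).congr_of_eventuallyEq ?_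
      filter_upwards [Metric.isOpen_ball.mem_nhds hx] with y hy
      exact lu2_ent (luU_up (hb y hy).2) hab
    · refine hasDerivAt_mat.1 ?_
      refine ((y3.mul_const c.val).mul (du x hx).hasDerivAt).congr_deriv ?_
      rw [Matrix.mul_assoc _ (luU (Z x)), Matrix.mul_nonsing_inv_cancel_left _ _ hd]
      simp only [sys, Matrix.mul_assoc]
      rfl
  · have e : ∀ x, (Y x * c.val * luU (Z x)) a k =
        ∑ b, c.val a b * ((topR k (Z x)).det⁻¹ * (Z x * (topR k (Z x)).adjugate) b k) := fun x => by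
      have e1 : Y x * c.val * luU (Z x) = c.val * (Z x * luU (Z x)) := by
        rw [← Matrix.mul_assoc c.val, ← hZ' x]
        simp only [Matrix.mul_assoc, Units.mul_inv_cancel_left]
      rw [e1, Matrix.mul_apply]
      refine Finset.sum_congr rfl fun b _ => congrArg _ ?_
      simp only [Matrix.mul_apply, luU, Matrix.of_apply, Finset.mul_sum, mul_left_comm]
    have hs : Metric.ball x₀ ε ⊆ U := fun x hx => (hb x hx).1
    exact (CV.AlgF.sum fun b _ => (CV.algF_const _ (c.val a b)).mul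
      ((algF_inv ((h1 k).mono hs) fun x hx => (hb x hx).2 k).mul ((h2 b k).mono hs))).congr
      fun x _ => e x

theorem pf_conj [NeZero r] (B B' : Mat r) (a b : Fin r) : (fun M : Mat r => (B * M * B') a b) ∈ PF r := by
  have h := (PF r).sum_mem (t := Finset.univ) fun c _ =>
    (PF r).smul_mem (PF.entry_mul B' c b) (B a c)
  have e : (fun M : Mat r => (B * M * B') a b) = ∑ c, B a c • fun M : Mat r => (M * B') c b := by
    funext M
    rw [Matrix.mul_assoc, Matrix.mul_apply]
    simp only [Finset.sum_apply, Pi.smul_apply, smul_eq_mul]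
  rw [e]
  exact h

theorem algSolT_of_VU [NeZero r] {t : Fin n → ℂ} {A : Fin n → Mat r} {g : Fin n → (Mat r)ˣ}
    (hv : VU (incl (Subgroup.closure (Set.range g)))) {U : Set ℂ} (hU : IsOpen U)
    {x₀ : ℂ} (hx₀ : x₀ ∈ U) {Y : ℂ → Mat r} (hY0 : Y x₀ = 1)
    (hY : ∀ x ∈ U, (∀ i, x ≠ t i) ∧ (Y x).det ≠ 0 ∧ HasDerivAt Y (sys t A x * Y x) x)
    (he : ExtProp t g U Y) : AlgSolT t A := by
  obtain ⟨H, k, hH, hu⟩ := hv
  obtain ⟨c, hc⟩ := exists_flag hu
  have e : ∀ M h : Mat r, (c⁻¹).val * (M * h) * c.val =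
      (c⁻¹).val * M * c.val * ((c⁻¹).val * h * c.val) := fun M h => by
    simp only [Matrix.mul_assoc, Units.mul_inv_cancel_left]
  have ht : ∀ k a b, (fun M : Mat r => topR k ((c⁻¹).val * M * c.val) a b) ∈ PF r := by
    intro k a b
    by_cases h : a < k
    · simpa only [topR, Matrix.of_apply, if_pos h] using pf_conj _ _ a b
    · simp only [topR, Matrix.of_apply, if_neg h]
      exact (PF r).algebraMap_mem ((1 : Mat r) a b)
  refine algSolT_of_flag hU hx₀ hY0 hY c (fun k => alg_of_inv hH he (PF.det (ht k)) fun M h hh => ?_)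
    fun a k => alg_of_inv hH he
      (F := fun M => ((c⁻¹).val * M * c.val * (topR k ((c⁻¹).val * M * c.val)).adjugate) a k) ?_
      fun M h hh => ?_
  · rw [e]
    exact topR_det k _ (hc h hh)
  · have h := (PF r).sum_mem (t := Finset.univ) fun b _ =>
      (PF r).mul_mem (pf_conj (c⁻¹).val c.val a b) (PF.adjugate (ht k) b k)
    convert h using 1
    funext M
    rw [Matrix.mul_apply]
    simp only [Finset.sum_apply, Pi.mul_apply]
  · simp only [e]
    exact topR_adj k a _ (hc h hh)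

end Pool.Agent.GR.NP
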