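import Pool.Agent.Lib.MP_aa40d3_nt.NP.OpB

/-! Affine changes of variable. -/

open Polynomial Matrix

namespace Pool.Agent.GR.NP

variable {n r : ℕ}

theorem PCN.aff {t t' : Fin n → ℂ} {c b : ℂ} (hc : c ≠ 0) (ht : ∀ i, t i = c * t' i + b)
    {A : Fin n → Matrix (Fin r) (Fin r) ℂ} (h : PCN t A) : PCN t' A := by
  classical
  obtain ⟨S, P0, h⟩ := h
  refine ⟨insert c (insert c⁻¹ (insert b S)), P0, ?_⟩
  intro R _ ι hι hS u A' hu hA p hp hP k _ _ φ
  obtain ⟨c0, hc0⟩ := hS c (by simp)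
  obtain ⟨c1, hc1⟩ := hS c⁻¹ (by simp)
  obtain ⟨b0, hb0⟩ := hS b (by simp)
  have h1 : c0 * c1 = 1 := hι (by rw [map_mul, hc0, hc1, map_one, mul_inv_cancel₀ hc])
  have h2 : φ c0 ≠ 0 := left_ne_zero_of_mul_eq_one (by rw [← map_mul, h1, map_one])
  have h3 := h R ι hι (fun s hs => hS s (by simp [hs])) (fun i => c0 * u i + b0) A'
    (fun i => by rw [map_add, map_mul, hc0, hb0, hu, ht]) hA p hp hP k φ
  exact nilB_aff (b := φ b0) h2 (fun i => by rw [map_add, map_mul]) h3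

theorem AlgSolT.aff {t t' : Fin n → ℂ} {c b : ℂ} (hc : c ≠ 0) (ht : ∀ i, t i = c * t' i + b)
    {A : Fin n → Matrix (Fin r) (Fin r) ℂ} (h : AlgSolT t' A) : AlgSolT t A := by
  obtain ⟨x₀, ε, Y, T, hε, h1, h2⟩ := h
  have hb : ∀ x ∈ Metric.ball (c * x₀ + b) (‖c‖ * ε), c⁻¹ * (x - b) ∈ Metric.ball x₀ ε := by
    intro x hx
    rw [Metric.mem_ball, dist_eq_norm] at hx ⊢
    rw [show c⁻¹ * (x - b) - x₀ = c⁻¹ * (x - (c * x₀ + b)) by field_simp; ring, norm_mul, norm_inv,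
      inv_mul_lt_iff₀ (norm_pos_iff.2 hc)]
    exact hx
  have he : ∀ x i, x - t i = c * (c⁻¹ * (x - b) - t' i) := fun x i => by
    rw [ht]
    field_simp
    ring
  refine ⟨c * x₀ + b, ‖c‖ * ε, fun x => Y (c⁻¹ * (x - b)), fun x => c⁻¹ • T (c⁻¹ * (x - b)),
    mul_pos (norm_pos_iff.2 hc) hε, fun x hx => ?_, fun a b' => ?_⟩
  · obtain ⟨h3, h4, hT, h5⟩ := h1 _ (hb x hx)
    refine ⟨fun i => sub_ne_zero.1 ?_, h4, fun a b' h => ?_, fun a b' => ?_⟩
    · rw [he]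
      exact mul_ne_zero hc (sub_ne_zero.2 (h3 i))
    · simp only [Matrix.smul_apply, hT a b' h, smul_zero]
    · have h6 : HasDerivAt (fun x : ℂ => c⁻¹ * (x - b)) c⁻¹ x := by
        simpa using ((hasDerivAt_id x).sub_const b).const_mul c⁻¹
      have h7 : ∑ i, (x - t i)⁻¹ • A i = c⁻¹ • ∑ i, (c⁻¹ * (x - b) - t' i)⁻¹ • A i := by
        rw [Finset.smul_sum]
        exact Finset.sum_congr rfl fun i _ => by rw [he, mul_inv, mul_smul]
      rw [h7, smul_mul_assoc, mul_smul_comm, ← smul_add, Matrix.smul_apply, smul_eq_mul, mul_comm]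
      exact (h5 a b').comp x h6
  · obtain ⟨P, hP, h3⟩ := h2 a b'
    have hq : Function.Injective (compRingHom (C c⁻¹ * (X - C b)) : ℂ[X] →+* ℂ[X]) := by
      refine Function.LeftInverse.injective (g := fun p : ℂ[X] => p.comp (C c * X + C b))
        fun p => ?_
      show (p.comp (C c⁻¹ * (X - C b))).comp (C c * X + C b) = p
      rw [comp_assoc, mul_comp, sub_comp, C_comp, C_comp, X_comp, add_sub_cancel_right,
        ← mul_assoc, ← C_mul, inv_mul_cancel₀ hc, C_1, one_mul, comp_X]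
    refine ⟨P.map (compRingHom (C c⁻¹ * (X - C b))), (Polynomial.map_ne_zero_iff hq).2 hP,
      fun x hx => ?_⟩
    have h4 := eval_map_apply (p := P) (compRingHom (C c⁻¹ * (X - C b)))
      (C (Y (c⁻¹ * (x - b)) a b'))
    rw [coe_compRingHom_apply, C_comp, coe_compRingHom_apply] at h4
    have h5 := h3 _ (hb x hx)
    unfold evalEval at h5 ⊢
    rw [h4, eval_comp, ← h5]
    simp

end Pool.Agent.GR.NP
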