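import Pool.Agent.Lib.MP_aa40d3_nt.NP.Small
import Pool.Agent.Lib.MP_aa40d3_nt.GD.Big

/-! The monodromy group of a connected covering is virtually unipotent. -/

open Matrix

namespace Pool.Agent.GR.NP

open GC

variable {G : Type} [Group G] {d m : ℕ} {σ : G →* Mt m} {S : Finset (Fin d)}

theorem restrictQ (b : BR σ d) (H : Subgroup G) (hs : b.bs.Sup H S) :
    ∃ (m' : ℕ) (σ' : H →* Mt m') (b' : BR σ' d), m' ≤ ∑ i ∈ S, (b.e i).rank ∧
      (∀ y, b'.π y = b.π y.val) ∧ (∀ y i, y ∈ b'.K i ↔ y.val ∈ b.K i) ∧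
      (∀ i, i ∉ S → b'.e i = 0) ∧ (∀ i ∈ S, b.e i ≠ 0 → m' ≠ 0) ∧
      (∀ y : H, QU (σ y) → QU (σ' y)) ∧ (VU σ' → VU (σ.comp H.subtype)) := by
  set E : Mt m := ∑ i ∈ S, b.e i with hE
  have eE : ∀ i, b.e i * E = if i ∈ S then b.e i else 0 := fun i => by
    rw [hE, Finset.mul_sum]
    split_ifs with h
    · rw [Finset.sum_eq_single i (fun j _ hj => b.orth i j hj.symm) fun h' => absurd h h', b.idem]
    · exact Finset.sum_eq_zero fun j hj => b.orth i j fun e => h (e ▸ hj)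
  have Ee : ∀ i, E * b.e i = if i ∈ S then b.e i else 0 := fun i => by
    rw [hE, Finset.sum_mul]
    split_ifs with h
    · rw [Finset.sum_eq_single i (fun j _ hj => b.orth j i hj) fun h' => absurd h h', b.idem]
    · exact Finset.sum_eq_zero fun j hj => b.orth j i fun e => h (e ▸ hj)
  have ce : ∀ i, E * b.e i = b.e i * E := fun i => by rw [eE, Ee]
  have EE : E * E = E := by
    conv_lhs => rw [hE, Finset.sum_mul]
    exact Finset.sum_congr rfl fun i hi => by rw [eE, if_pos hi]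
  have hc : 1 - E = ∑ i ∈ Sᶜ, b.e i := by
    rw [← b.sum, ← Finset.sum_add_sum_compl S, add_sub_cancel_left]
  have h1 : ∀ y : H, σ y * (1 - E) = 1 - E := fun y => by
    rw [hc, Finset.mul_sum]
    exact Finset.sum_congr rfl fun l hl => (hs y y.2 l (Finset.mem_compl.1 hl)).2
  have h2 : ∀ y : H, (1 - E) * σ y = 1 - E := fun y => by
    rw [hc, Finset.sum_mul]
    refine Finset.sum_congr rfl fun l hl => ?_
    have h := hs y y.2 l (Finset.mem_compl.1 hl)
    have h' := b.act y l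
    rw [h.1, h.2] at h'
    exact h'.symm
  have cs : ∀ y : H, E * σ y = σ y * E := fun y => by
    have h := (h1 y).trans (h2 y).symm
    rw [mul_sub, sub_mul, mul_one, one_mul] at h
    exact (sub_right_injective h).symm
  obtain ⟨m', P, Q, hQP, hPQ, hm⟩ : ∃ (m' : ℕ) (P : Matrix (Fin m) (Fin m') ℂ)
      (Q : Matrix (Fin m') (Fin m) ℂ), Q * P = 1 ∧ P * Q = E ∧ m' ≤ ∑ i ∈ S, (b.e i).rank := by
    obtain ⟨P, Q, h, h'⟩ := idem_fac EE
    exact ⟨_, P, Q, h, h', rank_sum_le _ _⟩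
  have hne : ∀ i ∈ S, b.e i ≠ 0 → m' ≠ 0 := by
    rintro i hi h rfl
    apply h
    have h0 : P * Q = 0 := by
      ext a c
      simp [Matrix.mul_apply]
    rw [← if_pos (c := i ∈ S) (t := b.e i) (e := 0) hi, ← eE, ← hPQ, h0, mul_zero]
  have EP : E * P = P := by rw [← hPQ, Matrix.mul_assoc, hQP, Matrix.mul_one]
  have key : ∀ x y : Mt m, E * y = y * E → Q * x * P * (Q * y * P) = Q * (x * y) * P := by
    intro x y h
    calc Q * x * P * (Q * y * P) = Q * x * (P * Q * y * P) := by simp only [Matrix.mul_assoc]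
      _ = Q * (x * y) * P := by rw [hPQ, h]; simp only [Matrix.mul_assoc, EP]
  have back : ∀ x : Mt m, P * (Q * x * P) * Q = E * x * E := fun x => by
    simp only [← hPQ, Matrix.mul_assoc]
  let σ' : H →* Mt m' :=
    { toFun := fun y => Q * σ y * P
      map_one' := by rw [OneMemClass.coe_one, map_one, Matrix.mul_one, hQP]
      map_mul' := fun x y => by rw [Subgroup.coe_mul, map_mul, key _ _ (cs y)] }
  let b' : BR σ' d :=
    { e := fun i => Q * b.e i * P
      π := b.π.comp H.subtype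
      orth := fun i j h => by rw [key _ _ (ce j), b.orth i j h, Matrix.mul_zero, Matrix.zero_mul]
      sum := by rw [← Matrix.sum_mul, ← Matrix.mul_sum, b.sum, Matrix.mul_one, hQP]
      act := fun x i => by
        change Q * σ x * P * (Q * b.e i * P) = Q * b.e (b.π x i) * P * (Q * σ x * P)
        rw [key _ _ (ce i), key _ _ (cs x), b.act]
      inj := fun x y h => by
        have h' : Q * σ x * P = Q * σ y * P := h
        have h3 := back (σ x)
        rw [h', back, cs, cs, Matrix.mul_assoc, Matrix.mul_assoc, EE] at h3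
        have h4 := (h1 x).trans (h1 y).symm
        rw [mul_sub, mul_sub, mul_one, mul_one, h3] at h4
        exact Subtype.ext (b.inj (sub_left_injective h4)) }
  have hz : ∀ i, i ∉ S → b'.e i = 0 := fun i hi => by
    change Q * b.e i * P = 0
    rw [← EP, Matrix.mul_assoc, ← Matrix.mul_assoc (b.e i), eE, if_neg hi, Matrix.zero_mul,
      Matrix.mul_zero]
  refine ⟨m', σ', b', hm, fun _ => rfl, fun y i => ?_, hz, hne,
    fun y => QU.of_lin (σ := σ.comp H.subtype) (L := sandL Q P) fun _ => rfl, ?_⟩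
  · change b.π y i = i ∧ Q * σ y * P * (Q * b.e i * P) = Q * b.e i * P ↔ _
    rw [key _ _ (ce i), BR.mem_K]
    refine and_congr_right fun _ => ⟨fun h => ?_, fun h => by rw [h]⟩
    by_cases hi : i ∈ S
    · have h3 := back (σ y * b.e i)
      rw [h, back, ← Matrix.mul_assoc, cs, Matrix.mul_assoc (σ y), Matrix.mul_assoc (σ y), Ee,
        if_pos hi, eE, if_pos hi] at h3
      exact h3.symm
    · exact (hs y y.2 i hi).2
  · rintro ⟨H', k, k1, k2⟩
    have e : ∀ y : H, σ y - 1 = P * (σ' y - 1) * Q := fun y => by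
      change _ = P * (Q * σ y * P - 1) * Q
      rw [Matrix.mul_sub, Matrix.sub_mul, back, Matrix.mul_one, hPQ, cs, Matrix.mul_assoc, EE,
        sub_eq_sub_iff_sub_eq_sub, ← h1 y, mul_sub, mul_one]
    have e2 : ∀ L : List H, (L.map fun y : H => σ y - 1).prod * P =
        P * (L.map fun y => σ' y - 1).prod := fun L => by
      induction L with
      | nil => simp
      | cons y L ih =>
        rw [List.map_cons, List.map_cons, List.prod_cons, List.prod_cons, Matrix.mul_assoc, ih, e,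
          Matrix.mul_assoc, ← Matrix.mul_assoc Q, hQP, Matrix.one_mul, Matrix.mul_assoc]
    refine ⟨H', k + 1, k1, fun L k3 k4 => ?_⟩
    rcases List.eq_nil_or_concat L with rfl | ⟨L', y, rfl⟩
    · simp at k4
    have k5 := k2 L' (fun x hx => k3 x (by simp [hx])) (by simpa using k4)
    rw [mul_one] at k5
    rw [List.concat_eq_append, List.map_append, List.prod_append, mul_one]
    change (L'.map fun y : H => σ y - 1).prod * ((σ y - 1) * 1) = 0
    rw [mul_one, e, ← Matrix.mul_assoc, ← Matrix.mul_assoc, e2, k5, Matrix.mul_zero,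
      Matrix.zero_mul, Matrix.zero_mul]

theorem bg1_prod {H : Subgroup G} (H' : Subgroup H) (e : Mt m)
    (hc : ∀ g ∈ H', σ g.val * e = e * σ g.val) (l : List G)
    (hl : ∀ y ∈ l, ∃ g ∈ H', σ y * e = σ g.val * e) :
    ∃ l' : List H, (∀ g ∈ l', g ∈ H') ∧ l'.length = l.length ∧
      (l.map fun x => σ x - 1).prod * e = e * (l'.map fun g : H => σ g.val - 1).prod := by
  induction l with
  | nil => exact ⟨[], by simp, rfl, by simp⟩
  | cons y t ih =>
    obtain ⟨t', h1, h2, h3⟩ := ih fun x hx => hl x (List.mem_cons_of_mem _ hx)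
    obtain ⟨g, hg, h4⟩ := hl y List.mem_cons_self
    refine ⟨g :: t', fun x hx => ?_, by rw [List.length_cons, List.length_cons, h2], ?_⟩
    · rcases List.mem_cons.1 hx with rfl | hx
      · exact hg
      · exact h1 x hx
    · rw [List.map_cons, List.map_cons, List.prod_cons, List.prod_cons, mul_assoc, h3,
        ← mul_assoc, ← mul_assoc, sub_mul, mul_sub, h4, hc g hg, one_mul, mul_one]

theorem bg1_conj (γ : G) (l : List G) : (l.map fun x => σ x - 1).prod * σ γ =
    σ γ * ((l.map fun x => γ⁻¹ * x * γ).map fun x => σ x - 1).prod := by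
  induction l with
  | nil => simp
  | cons y t ih =>
    rw [List.map_cons, List.map_cons, List.map_cons, List.prod_cons, List.prod_cons, mul_assoc, ih,
      ← mul_assoc, ← mul_assoc, sub_mul, mul_sub, ← map_mul, ← map_mul, one_mul, mul_one,
      mul_assoc γ⁻¹, mul_inv_cancel_left]

/-- The elements that act on `e` as members of `H'`. -/
def bg1_sub (σ : G →* Mt m) {H : Subgroup G} (H' : Subgroup H) (e : Mt m)
    (hc : ∀ g ∈ H', σ g.val * e = e * σ g.val) : Subgroup G where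
  carrier := {y | ∃ g ∈ H', σ y * e = σ g.val * e}
  one_mem' := ⟨1, H'.one_mem, rfl⟩
  mul_mem' := by
    rintro x y ⟨g, hg, h1⟩ ⟨g', hg', h2⟩
    refine ⟨g * g', H'.mul_mem hg hg', ?_⟩
    rw [Subgroup.coe_mul, map_mul, map_mul, mul_assoc, h2, mul_assoc, hc g' hg', ← mul_assoc, h1,
      mul_assoc]
  inv_mem' := by
    rintro x ⟨g, hg, h1⟩
    refine ⟨g⁻¹, H'.inv_mem hg, ?_⟩
    have h2 : e = σ x⁻¹ * e * σ g.val := by
      rw [mul_assoc, ← hc g hg, ← h1, ← mul_assoc, rep_inv_mul, one_mul]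
    rw [hc _ (H'.inv_mem hg)]
    conv_rhs => rw [h2]
    rw [mul_assoc, Subgroup.coe_inv, rep_mul_inv, mul_one]

/-- Let `H' ≤ H` be unipotent of finite index. The `y` with `π y i = i` and `h⁻¹ y ∈ K i` for some
`h ∈ H'` form a subgroup of finite index, whose products kill `e i`; conjugate to the other sheets
and intersect. -/
theorem vu_of_agree (b : BR σ d) {H : Subgroup G} {i : Fin d} (ht : b.bs.Trans ⊤ Finset.univ)
    (hi : i ∈ S) (h : b.bs.Agree ⊤ H S) (hv : VU (σ.comp H.subtype)) : VU σ := by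
  obtain ⟨H₀, k, f0, u0⟩ := hv
  set H' : Subgroup H := H₀ ⊓ (b.π.comp H.subtype).ker with hH'
  have f1 : H'.FiniteIndex := inferInstance
  have hc : ∀ g ∈ H', σ g.val * b.e i = b.e i * σ g.val := fun g hg => by
    have h1 : b.π g.val = 1 := hg.2
    rw [b.act, h1]
    rfl
  choose γ hγ using fun c => ht i (Finset.mem_univ _) c (Finset.mem_univ _)
  have hγ' : ∀ c, b.π (γ c) i = c := fun c => (hγ c).2
  set L := bg1_sub σ H' (b.e i) hc with hL
  have f2 : Finite (G ⧸ L) := by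
    refine Finite.of_surjective
      (fun q : Fin d × (H ⧸ H') => ((γ q.1 * q.2.out.val : G) : G ⧸ L)) fun q => ?_
    obtain ⟨y, rfl⟩ := QuotientGroup.mk_surjective q
    obtain ⟨g, hg, h1⟩ := h ((γ (b.π y i))⁻¹ * y) trivial i hi (by
      change b.π _ i ∈ S
      rw [map_mul, map_inv, Equiv.Perm.mul_apply, Equiv.Perm.inv_eq_iff_eq.2 (hγ' (b.π y i)).symm]
      exact hi)
    refine ⟨(b.π y i, ((⟨g, hg⟩ : H) : H ⧸ H')), QuotientGroup.eq.2 ?_⟩
    have h2 := QuotientGroup.eq.1 (QuotientGroup.out_eq' ((⟨g, hg⟩ : H) : H ⧸ H'))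
    refine ⟨_, h2, ?_⟩
    have h3 : σ (g⁻¹ * ((γ (b.π y i))⁻¹ * y)) * b.e i = b.e i := h1.2
    conv_rhs => rw [← h3, ← mul_assoc, ← map_mul]
    simp only [Subgroup.coe_mul, Subgroup.coe_inv, _root_.mul_inv_rev, mul_assoc,
      mul_inv_cancel_left]
  have f3 : L.FiniteIndex := Subgroup.finiteIndex_of_finite_quotient
  have f4 : ∀ c, (L.comap (MulAut.conj (γ c)⁻¹).toMonoidHom).FiniteIndex := fun c =>
    ⟨by rw [Subgroup.index_comap_of_surjective _ (MulAut.conj (γ c)⁻¹).surjective]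
        exact f3.index_ne_zero⟩
  refine ⟨⨅ c, L.comap (MulAut.conj (γ c)⁻¹).toMonoidHom, k, Subgroup.finiteIndex_iInf f4,
    fun l hl hk => ?_⟩
  refine (congrArg (_ * ·) b.sum.symm).trans ?_
  rw [Finset.mul_sum]
  refine Finset.sum_eq_zero fun c _ => ?_
  obtain ⟨l', h1, h2, h3⟩ := bg1_prod H' (b.e i) hc (l.map fun x => (γ c)⁻¹ * x * γ c)
    fun y hy => by
      obtain ⟨x, hx, rfl⟩ := List.mem_map.1 hy
      have h4 : (γ c)⁻¹ * x * (γ c)⁻¹⁻¹ ∈ L := Subgroup.mem_iInf.1 (hl x hx) c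
      rw [inv_inv] at h4
      exact h4
  have h4 := u0 l' (fun g hg => (h1 g hg).1) (by rw [h2, List.length_map, hk])
  rw [mul_one] at h4
  have h5 : (l'.map fun g : H => σ g.val - 1).prod = 0 := h4
  have h6 : b.e c = σ (γ c) * b.e i * σ (γ c)⁻¹ := by
    rw [b.act, hγ', mul_assoc, rep_mul_inv, mul_one]
  rw [h6, ← mul_assoc, ← mul_assoc, bg1_conj, mul_assoc (σ (γ c)), h3, h5, mul_zero, mul_zero,
    zero_mul]

theorem vu_big (r : ℕ) (hr : 1 ≤ r) : ∃ k : ℕ, ∀ (d m : ℕ) (G : Type) [Group G]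
    (σ : G →* Mt m) (b : BR σ d) (l : List G), r + 2 ≤ d → gen l = ⊤ →
    b.bs.Trans ⊤ Finset.univ →
    (∀ i, (b.e i).rank = r) → (∀ x ∈ l, (σ x - 1).rank ≤ r) → (σ l.prod - 1).rank ≤ r → QuL σ l →
    2 * d + k ≤ b.bs.cnt l → VU σ := by
  obtain ⟨k, hk⟩ := vu_small r hr
  refine ⟨k, fun d m G _ σ b l hd hg ht hrk hl hp hf hc => ?_⟩
  have h0 : ∀ i, b.e i ≠ 0 := fun i e => by
    have := hrk i
    rw [e, Matrix.rank_zero] at this
    omega
  have hok : ∀ x ∈ l, b.bs.Ok r x := fun x hx => b.ok hr hrk (hl x hx)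
  obtain ⟨S₀, h1, h2⟩ := (b.ok hr hrk hp).supp hr
  obtain ⟨c, rfl⟩ := Nat.exists_eq_add_of_le hd
  obtain ⟨S, -, hS, A, B, h3, h4, h5, h6⟩ := reduce hr h1 c Finset.univ l (by simp) hok
    (fun x _ j hj => absurd (Finset.mem_univ j) hj) (hg ▸ ht) h2
  rw [hg] at h5
  obtain ⟨i, hi⟩ : S.Nonempty := Finset.card_pos.1 (by omega)
  obtain ⟨m', σ', b', k1, k2, k3, k4, k5, k6, k7⟩ := restrictQ b (gen A) h4
  refine vu_of_agree b ht hi h5 (k7 ?_)
  let l' : List (gen A) := A.pmap Subtype.mk fun _ => mem_gen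
  have hl' : l'.map (gen A).subtype = A := by
    simp only [l', List.map_pmap, Subgroup.coe_subtype, List.pmap_eq_map, List.map_id']
  have hm : ∀ x : gen A, x ∈ l' ↔ x.val ∈ A := fun x =>
    (List.mem_map_of_injective (gen A).subtype_injective).symm.trans
      (iff_of_eq (congrArg (fun L => x.val ∈ L) hl'))
  have hπ : ∀ y, b'.bs.π y = b.bs.π y.val := k2
  have hK : ∀ y i, y ∈ b'.bs.K i ↔ y.val ∈ b.bs.K i := k3
  refine hk m' (k1.trans ?_) _ (gen A) σ' b' S l' (k5 i hi (h0 i)) hS ?_ (fun x hx => ?_)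
    (fun x _ j hj => (hK x j).2 (h4 x x.2 j hj)) (fun u hu v hv => ?_) k4
    (fun C D h => k6 _ ?_) ?_
  · simp only [hrk, Finset.sum_const, hS, smul_eq_mul, le_refl]
  · apply Subgroup.map_injective (gen A).subtype_injective
    rw [← MonoidHom.range_eq_map, Subgroup.range_subtype]
    refine (MonoidHom.map_closure _ _).trans (congrArg Subgroup.closure ?_)
    ext x
    exact ⟨fun ⟨y, hy, e⟩ => e ▸ (hm y).1 hy, fun hx => ⟨⟨x, mem_gen hx⟩, (hm _).2 hx, rfl⟩⟩
  · rcases h3.all (P := b.bs.Ok r) (fun γ x h => BS.Ok.conj h γ) hok x (List.mem_append_left _ ((hm x).1 hx)) with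
      ⟨u, v, e1, e2, e3, e4⟩ | ⟨e1, T, e2, e3⟩
    · exact Or.inl ⟨u, v, e1, (hπ x).trans e2, Subtype.ext e3, fun w a1 a2 =>
        (hK x w).2 (e4 w a1 a2)⟩
    · exact Or.inr ⟨(hπ x).trans e1, T, e2, fun w a1 => (hK x w).2 (e3 w a1)⟩
  · obtain ⟨x, hx, e⟩ := h5.trans_of ht (Finset.subset_univ S) u hu v hv
    exact ⟨⟨x, hx⟩, Subgroup.mem_top _, by rw [hπ]; exact e⟩
  · have h7 := (hf.hur h3).left (C.map (gen A).subtype) (D.map (gen A).subtype) (by
      have h8 := h.map (gen A).subtype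
      rwa [hl', List.map_append] at h8)
    rwa [← map_list_prod] at h7
  · have : b'.bs.cnt l' = b.bs.cnt A := by
      conv_rhs => rw [← hl', BS.cnt, List.countP_map]
      exact List.countP_congr fun x _ => by simp [hπ]
    omega

theorem group_VU (r : ℕ) (hr : 1 ≤ r) : ∃ k : ℕ, ∀ (d n : ℕ) (g : Fin n → GLr (r * d))
    (ρ : Fin n → ℝ), r + 2 ≤ d → Function.Injective ρ →
    LoopsQ Finset.univ ρ g → (∀ a, ((g a).val - 1).rank ≤ r) →
    (∀ L, LowerL ρ L → (∀ a, a ∈ L) → (((L.map g).prod).val - 1).rank ≤ r) →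
    ∀ Z : Subalgebra ℂ (Mt (r * d)),
      SimpZ (incl (Subgroup.closure (Set.range g))) Z →
      (∀ γ ∈ Subgroup.closure (Set.range g), ∀ x ∈ Z, γ.val * x * (γ⁻¹).val ∈ Z) → CommA Z →
      Module.finrank ℂ Z = d → ∀ M : Finset (Fin n), 2 * d + k ≤ M.card →
      (∀ a ∈ M, ∃ x ∈ Z, (g a).val * x ≠ x * (g a).val) →
      VU (incl (Subgroup.closure (Set.range g))) := by
  classical
  obtain ⟨k, hk⟩ := vu_big r hr
  refine ⟨k, fun d n g ρ hd hρ ho hrk hinf Z hI hZ hc hfr M hM hMa => ?_⟩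
  obtain ⟨L0, h1, h2⟩ := exists_lowerL hρ Finset.univ fun _ _ _ _ => Finset.mem_univ _
  have h0 : L0.Nodup := h1.1.imp fun hab e => hab.ne (congrArg _ e)
  have hall : ∀ a, a ∈ L0 := fun a => List.mem_toFinset.1 (h2 ▸ Finset.mem_univ a)
  set Γ := Subgroup.closure (Set.range g) with hΓ
  let g' : Fin n → Γ := fun a => ⟨g a, Subgroup.subset_closure ⟨a, rfl⟩⟩
  have hg : Subgroup.closure (Set.range g') = ⊤ := by
    apply Subgroup.map_injective Γ.subtype_injective
    rw [MonoidHom.map_closure, ← Set.range_comp, ← MonoidHom.range_eq_map, Subgroup.range_subtype]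
    rfl
  have hl : ∀ x, IsLoop Finset.univ L0 g' x → QU (incl Γ x) := fun x hx => by
    obtain ⟨l, R, h, k1, k2, k3⟩ := hx.map Γ.subtype
    obtain ⟨μ, a1, a2, rfl⟩ := k1.low h1
    have k4 : QU ((l.map (mvTL μ ρ (Γ.subtype ∘ g'))).prod).val := ho μ a1 l (link_left a2) k2
    rwa [← k3] at k4
  have hZ' : InvR (incl Γ) Z := fun γ => hZ γ γ.2
  have : NeZero (r * d) := ⟨Nat.mul_ne_zero (by omega) (by omega)⟩
  have := hI.semi hZ'
  obtain ⟨e, e0, e1, e2, e3, e4⟩ := exists_idemS hc hfr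
  obtain ⟨b, rfl⟩ := exists_BR (incl_inj Γ) hZ' e0 e1 e2 e3 e4
  have hE := hI.trans hZ' b e0 e1
  have hf := quL_of_loops h0 hg hl
  have hp : ((L0.map g').prod).val = (L0.map g).prod := by
    rw [← Γ.coe_subtype, map_list_prod, List.map_map]
    rfl
  refine hk d _ Γ (incl Γ) b (L0.map g') hd ?_ hE (b.rank_eq hE rfl)
    (fun x hx => ?_) ?_ hf (hM.trans ?_)
  · rw [← hg, gen]
    congr 1
    ext x
    simp [hall]
  · obtain ⟨a, -, rfl⟩ := List.mem_map.1 hx
    exact hrk a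
  · rw [incl_apply, hp]
    exact hinf L0 h1 hall
  · rw [BS.cnt, List.countP_map, List.countP_eq_length_filter,
      ← List.toFinset_card_of_nodup (h0.filter _)]
    refine Finset.card_le_card fun a ha => ?_
    obtain ⟨x, hx, h3⟩ := hMa a ha
    refine List.mem_toFinset.2 (List.mem_filter.2 ⟨hall a, decide_eq_true fun h4 => h3 ?_⟩)
    obtain ⟨c, rfl⟩ := e4 x hx
    rw [Finset.mul_sum, Finset.sum_mul]
    refine Finset.sum_congr rfl fun i _ => ?_
    have h5 := b.act (g' a) i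
    rw [show b.π (g' a) = 1 from h4] at h5
    rw [Matrix.mul_smul, Matrix.smul_mul]
    exact congrArg _ h5

end Pool.Agent.GR.NP
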