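import Pool.Agent.Lib.MP_aa40d3_nt.NP.Defs
import Pool.Agent.Lib.MP_aa40d3_nt.MR.ModelEx3

/-! Existence of the family. -/

open Polynomial Matrix

namespace Pool.Agent.GR.NP

variable {n r : ℕ}

theorem exists_model4 [NeZero r] {Mov : Finset (Fin n)} {t : Fin n → ℂ} (ht : Gen Mov t)
    {A : Fin n → Matrix (Fin r) (Fin r) ℂ} (hc : cycH 1 (dl t) (pm t A) ≠ 0) (hpc : PCN t A) :
    ∃ (M : Model4 n r Mov) (w : Fin n ⊕ Fin M.m → ℂ) (θ : ℂ),
      (∀ z ∈ M.Z, ev1 w z = 0) ∧ ev2 w θ M.F3 = 0 ∧ ev1 w M.G ≠ 0 ∧ (∀ i, w (Sum.inl i) = t i) ∧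
      M.toModel2.mA w θ = A := by
  classical
  obtain ⟨S, P0, hS⟩ := hpc
  obtain ⟨e, he⟩ : ∃ e, (cycH 1 (dl t) (pm t A)).coeff e ≠ 0 := by
    by_contra h
    push Not at h
    exact hc (Polynomial.ext fun e => by simpa using h e)
  let x : ℂ := (cycH 1 (dl t) (pm t A)).coeff e
  let S' : Finset ℂ := S ∪ (Finset.univ.image fun p : Fin n × Fin r × Fin r => A p.1 p.2.1 p.2.2) ∪
    {x⁻¹}
  obtain ⟨m, w, θ, F, G, hFm, hw, hG, hF, hker, hS', v, hv⟩ := exists_presentation3 ht S'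
  obtain ⟨Λ, _, ι, π, g, hι, hg, hπ, hφ⟩ := modelex3_ring w θ G hG
  have hιg : ι g = (ev1 w G)⁻¹ := by
    have h := congrArg ι hg
    rw [map_mul, map_one, hπ, modelex_ev2_C] at h
    exact eq_inv_of_mul_eq_one_right h
  have hrange : ∀ s ∈ S', ∃ q, ev2 w θ q = ev1 w G * s ∧ ι (g * π q) = s := by
    intro s hs
    obtain ⟨q, hq⟩ := hS' s hs
    refine ⟨q, hq, ?_⟩
    rw [map_mul, hιg, hπ, hq, ← mul_assoc, inv_mul_cancel₀ hG, one_mul]
  have hA : ∀ i a b, ∃ q, ev2 w θ q = ev1 w G * A i a b ∧ ι (g * π q) = A i a b := by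
    intro i a b
    refine hrange _ ?_
    simp only [S', Finset.mem_union, Finset.mem_image, Finset.mem_univ, true_and]
    exact Or.inl (Or.inr ⟨(i, a, b), rfl⟩)
  choose Q hQ1 hQ2 using hA
  let Q' : Fin n → Matrix (Fin r) (Fin r) (MvPolynomial (Fin n ⊕ Fin m) ℤ)[X] :=
    fun i => Matrix.of fun a b => Q i a b
  let t' : Fin n → Λ := fun i => π (C (MvPolynomial.X (Sum.inl i)))
  let A' : Fin n → Matrix (Fin r) (Fin r) Λ := fun i => Matrix.of fun a b => g * π (Q i a b)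
  have ht' : ∀ i, ι (t' i) = t i := by
    intro i
    simp only [t']
    rw [hπ, modelex_ev2_C, modelex_ev1_X, hw]
  have hA' : ∀ i, (A' i).map ι = A i := by
    intro i
    ext a b
    exact hQ2 i a b
  have hx : ∃ y : Λ, (cycH 1 (dl t') (pm t' A')).coeff e * y = 1 := by
    obtain ⟨q, -, hq⟩ := hrange x⁻¹ (by
      simp only [S', Finset.mem_union, Finset.mem_singleton]
      exact Or.inr trivial)
    refine ⟨g * π q, hι ?_⟩
    rw [map_mul, hq, modelex_cyc, map_one]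
    simp only [ht', hA']
    exact mul_inv_cancel₀ he
  let Z : Set (MvPolynomial (Fin n ⊕ Fin m) ℤ) := {z | Loc Mov z ∧ ev1 w z = 0}
  have hpt : ∀ (k : Type) [Field k] (w' : Fin n ⊕ Fin m → k) (θ' : k), (∀ z ∈ Z, ev1 w' z = 0) →
      ev2 w' θ' F = 0 → ev1 w' G ≠ 0 → ∃ φ : Λ →+* k, (fun i => w' (Sum.inl i)) = (fun i => φ (t' i)) ∧
        (fun i => (ev1 w' G)⁻¹ • (Q' i).map (ev2 w' θ')) = fun i => (A' i).map φ := by
    intro k _ w' θ' hZ h1 h2
    obtain ⟨φ, hφ'⟩ := hφ k w' θ'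
      (fun q hq => hker q hq k w' θ' (fun z a b => hZ z ⟨a, b⟩) h1) h2
    have hφg : φ g = (ev1 w' G)⁻¹ := by
      have h := congrArg φ hg
      rw [map_mul, map_one, hφ', modelex_ev2_C] at h
      exact eq_inv_of_mul_eq_one_right h
    refine ⟨φ, ?_, ?_⟩
    · funext i
      simp only [t']
      rw [hφ', modelex_ev2_C, modelex_ev1_X]
    · funext i
      ext a b
      simp only [A', Q', Matrix.smul_apply, Matrix.map_apply, Matrix.of_apply, smul_eq_mul,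
        map_mul, hφg, hφ']
  have hone : ∀ (k : Type) [Field k] (w' : Fin n ⊕ Fin m → k) (θ' : k), ev2 w' θ' 1 ≠ 0 := by
    intro k _ w' θ'
    rw [map_one]
    exact one_ne_zero
  refine ⟨⟨⟨m, 1, G, Q', 1, 0, P0, monic_one, one_pos, fun k _ w' θ' h1 => absurd h1 (hone k w' θ'),
    fun k _ w' θ' h1 => absurd h1 (hone k w' θ'), fun k _ w' θ' h1 => absurd h1 (hone k w' θ')⟩,
    F, Z, hFm, fun z hz => hz.1, ?_, ?_, ?_⟩, w, θ, fun z hz => hz.2, hF, hG, hw, ?_⟩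
  · intro k _ w' θ' hZ h1 h2 h3
    have h := hker (v * derivative F - C G) (by rw [map_sub, hv, modelex_ev2_C, sub_self]) k w' θ'
      (fun z a b => hZ z ⟨a, b⟩) h1
    rw [map_sub, map_mul, h3, modelex_ev2_C, mul_zero, zero_sub, neg_eq_zero] at h
    exact h2 h
  · intro k _ w' θ' hZ h1 h2
    obtain ⟨φ, e1, e2⟩ := hpt k w' θ' hZ h1 h2
    rw [e1, e2]
    intro h0
    obtain ⟨y, hy⟩ := hx
    have h := congrArg φ hy
    rw [map_mul, modelex_cyc, h0, coeff_zero, zero_mul, map_one] at h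
    exact zero_ne_one h
  · intro k _ w' θ' hZ h1 h2 p hp hP hch
    obtain ⟨φ, e1, e2⟩ := hpt k w' θ' hZ h1 h2
    rw [e1, e2]
    refine hS Λ ι hι (fun s hs => ?_) t' A' ht' hA' p hp hP k φ
    obtain ⟨q, -, hq⟩ := hrange s (by
      simp only [S', Finset.mem_union]
      exact Or.inl (Or.inl hs))
    exact ⟨_, hq⟩
  · funext i
    ext a b
    simp only [Model2.mA, Q', Matrix.smul_apply, Matrix.map_apply, Matrix.of_apply, smul_eq_mul,
      hQ1]
    rw [← mul_assoc, inv_mul_cancel₀ hG, one_mul]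

end Pool.Agent.GR.NP
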