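import Pool.Agent.Lib.MP_aa40d3_nt.NP.Defs
import Pool.Agent.Lib.MP_aa40d3_nt.GC.Rk
import Pool.Agent.Lib.MP_aa40d3_nt.GC.Inf

/-! Single valued solutions bound the rank of the monodromy minus one. -/

open Polynomial Matrix Set Filter Topology
open scoped Matrix.Norms.Operator

namespace Pool.Agent.GR.NP

variable {n N m : ℕ}

theorem rk1_mono {t : Fin n → ℂ} {A : Fin n → Mat N} {W : Set ℂ} (h : AS m t A W) {m' : ℕ}
    (hm : m' ≤ m) : AS m' t A W := by
  obtain ⟨u, hu⟩ := h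
  exact ⟨fun j => u (Fin.castLE hm j), fun x hx =>
    ⟨(hu x hx).1.comp _ (Fin.castLE_injective hm), fun j a => (hu x hx).2 _ a⟩⟩

theorem rk1_sub {t : Fin n → ℂ} {A : Fin n → Mat N} {W W' : Set ℂ} (h : AS m t A W)
    (hW : W' ⊆ W) : AS m t A W' :=
  h.imp fun _ hu x hx => hu x (hW hx)

theorem ASp.mono {t : Fin n → ℂ} {A : Fin n → Mat N} {i : Fin n} (h : ASp m t A i) {m' : ℕ}
    (hm : m' ≤ m) : ASp m' t A i :=
  h.imp fun _ h => ⟨h.1, rk1_mono h.2 hm⟩

theorem ASi.mono {t : Fin n → ℂ} {A : Fin n → Mat N} (h : ASi m t A) {m' : ℕ} (hm : m' ≤ m) :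
    ASi m' t A :=
  h.imp fun _ h => rk1_mono h hm

theorem rk1_aff {t t' : Fin n → ℂ} {c b : ℂ} (hc : c ≠ 0) (ht : ∀ i, t i = c * t' i + b)
    {A : Fin n → Mat N} {W : Set ℂ} (h : AS m t A W) : AS m t' A {x | c * x + b ∈ W} := by
  obtain ⟨u, hu⟩ := h
  refine ⟨fun j z => u j (c * z + b), fun x hx => ⟨(hu _ hx).1, fun j a => ?_⟩⟩
  have h1 : HasDerivAt (fun z : ℂ => c * z + b) c x := by
    simpa using ((hasDerivAt_id x).const_mul c).add_const b
  have h2 := HasDerivAt.comp x ((hu _ hx).2 j a) h1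
  have h3 : ∑ i, (x - t' i)⁻¹ • A i = c • ∑ i, (c * x + b - t i)⁻¹ • A i := by
    rw [Finset.smul_sum]
    refine Finset.sum_congr rfl fun i _ => ?_
    rw [smul_smul, ht i, show c * x + b - (c * t' i + b) = c * (x - t' i) by ring, mul_inv,
      mul_inv_cancel_left₀ hc]
  refine h2.congr_deriv ?_
  rw [h3, vecMul_smul, Pi.smul_apply, smul_eq_mul]
  ring

/-- Chain rule. -/
theorem ASp.aff {t t' : Fin n → ℂ} {c b : ℂ} (hc : c ≠ 0) (ht : ∀ i, t i = c * t' i + b)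
    {A : Fin n → Mat N} {i : Fin n} (h : ASp m t A i) : ASp m t' A i := by
  obtain ⟨ε, hε, h⟩ := h
  have hc' : 0 < ‖c‖ := norm_pos_iff.2 hc
  refine ⟨ε / ‖c‖, div_pos hε hc', rk1_sub (rk1_aff hc ht h) fun x hx => ⟨?_, fun e => hx.2 ?_⟩⟩
  · have h1 := mem_ball_iff_norm.1 hx.1
    rw [mem_ball_iff_norm, ht i, show c * x + b - (c * t' i + b) = c * (x - t' i) by ring, norm_mul,
      mul_comm]
    exact (lt_div_iff₀ hc').1 h1
  · have e' : c * x + b = c * t' i + b := Eq.trans e (ht i)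
    exact mul_left_cancel₀ hc (add_right_cancel e')

theorem ASi.aff {t t' : Fin n → ℂ} {c b : ℂ} (hc : c ≠ 0) (ht : ∀ i, t i = c * t' i + b)
    {A : Fin n → Mat N} (h : ASi m t A) : ASi m t' A := by
  obtain ⟨ρ, h⟩ := h
  have hc' : 0 < ‖c‖ := norm_pos_iff.2 hc
  refine ⟨(ρ + ‖b‖) / ‖c‖, rk1_sub (rk1_aff hc ht h) fun x hx => ?_⟩
  have h1 : ρ + ‖b‖ < ‖x‖ * ‖c‖ := (div_lt_iff₀ hc').1 hx
  have h2 := norm_sub_le (c * x + b) b
  rw [add_sub_cancel_right, norm_mul, mul_comm] at h2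
  show ρ < ‖c * x + b‖
  linarith

theorem rk1_zero {𝔸 : Type} [NormedRing 𝔸] [NormedAlgebra ℂ 𝔸] [CompleteSpace 𝔸] :
    Tr (0 : C(unitInterval, 𝔸)) = 1 := by
  have h := Tr_unique (0 : C(unitInterval, 𝔸)) (fun _ => 1) fun s _ =>
    (hasDerivAt_const s (1 : 𝔸)).congr_deriv (zero_mul _).symm
  rw [mul_one] at h
  exact h.symm

theorem rk1_side {t : Fin n → ℂ} {A : Fin n → Mat N} {u : ℂ → Fin N → ℂ} {ya yb : ℂ}
    (ht : ∀ i, t i ∉ segment ℝ ya yb) (hu : ∀ x ∈ segment ℝ ya yb, ∀ a,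
      HasDerivAt (fun z => u z a) (-(u x ᵥ* ∑ i, (x - t i)⁻¹ • A i) a) x) :
    u yb ᵥ* T t A ya yb = u ya := by
  have hm : ∀ s, lin ya yb s ∈ segment ℝ ya yb := fun s => by
    rw [segment_eq_image']
    exact ⟨s, s.2, by simp [loop_lin]⟩
  have h := loopa_gauge (coef t A ya yb) 0 (fun y => Matrix.of fun _ k => u y k)
    (fun y => Matrix.of fun _ k => -(u y ᵥ* sys t A y) k) ya yb
    (fun s => hasDerivAt_mat.2 fun _ k => hu _ (hm s) k) fun s => by
      rw [coef_apply A ht, ContinuousMap.zero_apply, zero_mul, Matrix.mul_smul, ← smul_add]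
      refine smul_eq_zero_of_right _ (Matrix.ext fun a k => ?_)
      exact neg_add_cancel _
  rw [rk1_zero, one_mul] at h
  funext k
  exact congrFun (congrFun h k) k

theorem rk1_conj (g : Mat N) (u : (Mat N)ˣ) :
    (u.val * g * (u⁻¹).val - 1).rank = (g - 1).rank := by
  have h : u.val * g * (u⁻¹).val - 1 = u.val * (g - 1) * (u⁻¹).val := by
    rw [mul_sub, sub_mul, mul_one, Units.mul_inv]
  rw [h, rank_mul_eq_left_of_isUnit_det _ _ ((isUnit_iff_isUnit_det _).1 (u⁻¹).isUnit),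
    rank_mul_eq_right_of_isUnit_det _ _ ((isUnit_iff_isUnit_det _).1 u.isUnit)]

theorem rk1_seg {ya yb c ρ x : ℂ} (h : LoopSd ya yb)
    (hx : x ∈ segment ℝ (c + ρ * ya) (c + ρ * yb)) :
    ‖ρ‖ ≤ ‖x - c‖ ∧ ‖x - c‖ ≤ ‖ρ‖ * 2 := by
  rw [segment_eq_image'] at hx
  obtain ⟨θ, hθ, rfl⟩ := hx
  have e : c + ρ * ya + θ • (c + ρ * yb - (c + ρ * ya)) - c = ρ * lin ya yb ⟨θ, hθ⟩ := by
    simp only [loop_lin, Complex.real_smul]
    ring
  beta_reduce
  rw [e, norm_mul]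
  exact ⟨le_mul_of_one_le_right (norm_nonneg _) (h _).1,
    mul_le_mul_of_nonneg_left (h _).2 (norm_nonneg _)⟩

/-- Along a side, `u (y) ᵥ* T t A x y` has derivative zero (`Tr_gauge` with `b = 0` for the matrix
whose rows all equal `u`). So the values at the corner are fixed by the loop; rank and nullity. -/
theorem AS.rank_sq {t : Fin n → ℂ} {A : Fin n → Mat N} {W : Set ℂ} (h : AS m t A W) {c ρ : ℂ}
    (hW : ∀ ya yb : ℂ, LoopSd ya yb → segment ℝ (c + ρ * ya) (c + ρ * yb) ⊆ W)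
    (ht : ∀ i, t i ∉ W) : (sqLoop t A c ρ - 1).rank + m ≤ N := by
  obtain ⟨u, hu⟩ := h
  have key : ∀ {ya yb : ℂ}, LoopSd ya yb → ∀ j,
      u j (c + ρ * yb) ᵥ* T t A (c + ρ * ya) (c + ρ * yb) = u j (c + ρ * ya) :=
    fun {ya yb} hy j => rk1_side (fun i hi => ht i (hW ya yb hy hi))
      fun x hx a => (hu x (hW ya yb hy hx)).2 j a
  obtain ⟨h0, h1, h2, h3⟩ := loop_sides
  let M : Matrix (Fin m) (Fin N) ℂ := Matrix.of fun j => u j (c + ρ * (-1 - Complex.I))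
  have hM : M.rank = m := by
    have h4 : LinearIndependent ℂ M.row := (hu _ (hW _ _ h0 (left_mem_segment _ _ _))).1
    rw [h4.rank_matrix, Fintype.card_fin]
  have h5 : M * (sqLoop t A c ρ - 1) = 0 := by
    ext j k
    have h6 : u j (c + ρ * (-1 - Complex.I)) ᵥ* (sqLoop t A c ρ - 1) = 0 := by
      rw [vecMul_sub, vecMul_one, sqLoop, loop, ← vecMul_vecMul, ← vecMul_vecMul, ← vecMul_vecMul,
        key h3, key h2, key h1, key h0, sub_self]
    exact congrFun h6 k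
  have h7 := rank_add_rank_le_card_of_mul_eq_zero h5
  rw [hM, Fintype.card_fin] at h7
  omega

/-- As `rank_vt`, with one small square. -/
theorem rank_vtN {t : Fin n → ℂ} (hre : Function.Injective fun i => (t i).re)
    (A : Fin n → Mat N) {H : ℝ} (hb : InBox (pp t) H) (i : Fin n) (h : ASp m t A i) :
    ((vt (TT t A) (pp t) H i).val - 1).rank + m ≤ N := by
  have hti : Function.Injective t := fun i j hij => hre (by simp only [hij])
  obtain ⟨ε, hε, hval⟩ := exists_validAt hre i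
  obtain ⟨δ, hδ, h⟩ := h
  have him : |(t i).im| < H := (hb i).2
  have hev : ∀ᶠ ρ : ℝ in 𝓝[>] 0, ∀ j, j ≠ i → ρ < ‖t j - t i‖ / 2 := by
    refine Filter.eventually_all.2 fun j => ?_
    by_cases hj : j = i
    · exact Filter.Eventually.of_forall fun _ h => absurd hj h
    · exact ((eventually_lt_nhds (half_pos (norm_pos_iff.2 (sub_ne_zero.2 (hti.ne hj))))).filter_mono
        nhdsWithin_le_nhds).mono fun _ h _ => h
  obtain ⟨ρ, hρ3, hρ⟩ :=
    (hev.and (Ioo_mem_nhdsGT (lt_min (lt_min hε (sub_pos.2 him)) (half_pos hδ)))).exists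
  have hρ0 := hρ.1
  have hρ1 := hρ.2.trans_le ((min_le_left _ _).trans (min_le_left _ _))
  have hρ2 := hρ.2.trans_le ((min_le_left _ _).trans (min_le_right _ _))
  have hρ4 := hρ.2.trans_le (min_le_right _ _)
  have hv : ValidAt (fun j => (pp t j).1) i ((t i).re - ρ) ((t i).re + ρ) :=
    hval _ _ (by linarith) (by linarith) (by linarith) (by linarith)
  have l1 := le_abs_self (t i).im
  have l2 := neg_abs_le (t i).im
  have hvt := vt_eq_RL (rectT_TT t A) hb hv (y1 := (t i).im - ρ) (y2 := (t i).im + ρ)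
    (by linarith) (by show _ < (t i).im; linarith) (by show (t i).im < _; linarith) (by linarith)
  have hn : ‖(ρ : ℂ)‖ = ρ := by rw [Complex.norm_real, Real.norm_of_nonneg hρ0.le]
  have h1 := AS.rank_sq (W := {x | ρ ≤ ‖x - t i‖ ∧ ‖x - t i‖ ≤ ρ * 2}) (c := t i) (ρ := ρ)
    (rk1_sub h fun x hx => ⟨mem_ball_iff_norm.2 (by linarith [hx.2]), fun e => by
      have h2 := hx.1
      rw [show x = t i from e, sub_self, norm_zero] at h2
      linarith⟩)
    (fun ya yb hy x hx => hn ▸ rk1_seg hy hx) fun j hj => by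
      by_cases e : j = i
      · have h2 := hj.1
        rw [e, sub_self, norm_zero] at h2
        linarith
      · linarith [hρ3 j e, hj.2]
  have h2 := rk1_conj (sqLoop t A (t i) ρ) (Ybot (TT t A) H ((t i).re - ρ, (t i).im - ρ))⁻¹
  rw [inv_inv] at h2
  rw [hvt, Units.val_mul, Units.val_mul, RL_TT, h2]
  exact h1

/-- `inf_conj`, `inf_scale`, with one large square. -/
theorem rank_infN {t : Fin n → ℂ} (hre : Function.Injective fun i => (t i).re) (A : Fin n → Mat N)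
    {H : ℝ} (hH : 0 < H) (hb : InBox (pp t) H) {L : List (Fin n)}
    (hL : LowerL (fun i => (t i).re) L) (hall : ∀ a, a ∈ L) (h : ASi m t A) :
    (((L.map (vt (TT t A) (pp t) H)).prod).val - 1).rank + m ≤ N := by
  obtain ⟨ρ, h⟩ := h
  have hev : ∀ᶠ s : ℝ in 𝓝[>] 0, ρ < s⁻¹ ∧ ∀ i, ‖t i‖ < s⁻¹ :=
    (tendsto_inv_nhdsGT_zero.eventually_gt_atTop ρ).and
      (Filter.eventually_all.2 fun i => tendsto_inv_nhdsGT_zero.eventually_gt_atTop _)
  obtain ⟨s, ⟨⟨u, hu⟩, h1, h2⟩, hs⟩ :=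
    (((GC.inf_conj hre A hH hb hL hall).and hev).and self_mem_nhdsWithin).exists
  have hs0 : 0 < s := hs
  have hn : ‖((s⁻¹ : ℝ) : ℂ)‖ = s⁻¹ := by
    rw [Complex.norm_real, Real.norm_of_nonneg (inv_pos.2 hs0).le]
  have h3 := AS.rank_sq (W := {x | s⁻¹ ≤ ‖x‖}) (c := 0) (ρ := ((s⁻¹ : ℝ) : ℂ))
    (rk1_sub h fun x hx => h1.trans_le hx)
    (fun ya yb hy x hx => by
      have h4 := (rk1_seg hy hx).1
      rwa [hn, sub_zero] at h4) fun i hi => (h2 i).not_ge hi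
  rw [← GC.inf_scale t A hs0 h2, hu, rk1_conj] at h3
  exact h3

end Pool.Agent.GR.NP
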