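import Pool.Agent.Lib.MP_aa40d3_nt.NP.Qu
import Pool.Agent.Lib.MP_aa40d3_nt.GD.Fld

/-! The fibre has no invariant ideal, for quasi-unipotent generators. -/

open Polynomial Matrix Set Filter Topology
open scoped Matrix.Norms.Operator

namespace Pool.Agent.GR.NP

open GC MP

variable {n r N : ℕ}

theorem sq1_tw {a z : Mat r} {d : ℂ} (ha : IsNilpotent (a - 1)) (h : a * z = d • (z * a))
    (hz : z ≠ 0) : d = 1 := by
  by_contra hd
  obtain ⟨k, hk⟩ := ha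
  have h1 : ∀ j : ℕ, (a - 1) ^ j * z = z * (d • a - 1) ^ j := fun j =>
    (SemiconjBy.pow_right (a := z) (x := d • a - 1) (y := a - 1) (by
      rw [SemiconjBy, sub_mul, mul_sub, h, mul_smul_comm, one_mul, mul_one]) j).symm
  have h2 : IsUnit (d • a - 1) := by
    rw [show d • a - 1 = (d - 1) • (1 : Mat r) + d • (a - 1) by module]
    exact IsNilpotent.isUnit_add_left_of_commute (IsNilpotent.smul ⟨k, hk⟩ d)
      (IsUnit.smul (Units.mk0 _ (sub_ne_zero.2 hd)) isUnit_one)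
      ((Commute.one_right _).smul_right _)
  exact hz ((h2.pow k).mul_left_eq_zero.1 (by rw [← h1, hk, zero_mul]))

theorem sq1_pow {a z : Mat r} {d : ℂ} (h : a * z = d • (z * a)) (j : ℕ) :
    a ^ j * z = d ^ j • (z * a ^ j) := by
  induction j with
  | zero => simp
  | succ j ih => rw [pow_succ, mul_assoc, h, mul_smul_comm, ← mul_assoc, ih, smul_mul_assoc,
      smul_smul, mul_assoc, pow_succ']

/-- `adM_pow`; for unipotent `u` the adjugate `v` is the inverse, hence unipotent, and on matrices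
`x ↦ u x v - x = (u - 1) x v + x (v - 1)` is a sum of two commuting nilpotent maps (`adM_mulVec`,
`vecM_surj`). -/
theorem qu_adM {x : Mat r} (h : QU x) : QU (adM x) := by
  refine qu_iff.2 fun μ hμ => ?_
  rw [spectrum.mem_iff, Matrix.isUnit_iff_isUnit_det, isUnit_iff_ne_zero, not_not,
    Algebra.algebraMap_eq_smul_one] at hμ
  obtain ⟨v, hv, h1⟩ := Matrix.exists_mulVec_eq_zero_iff.2 hμ
  obtain ⟨z, rfl⟩ := vecM_surj v
  rw [sub_mulVec, smul_mulVec, one_mulVec, adM_mulVec, sub_eq_zero] at h1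
  have h2 : μ • z = x * z * x.adjugate := by
    ext a b
    rw [← vecM_apply (x * z * x.adjugate), ← h1, Pi.smul_apply, vecM_apply, Matrix.smul_apply]
  have hd := h.det
  have hd0 : x.det ≠ 0 := hd.isUnit.ne_zero
  have h3 : x * z = (μ / x.det) • (z * x) := by
    rw [div_eq_inv_mul, mul_smul, ← smul_mul_assoc, h2, mul_assoc, adjugate_mul, mul_smul_comm,
      mul_one, inv_smul_smul₀ hd0]
  obtain ⟨E, hE, hn⟩ := h
  have h4 := sq1_tw hn (sq1_pow h3 E) (by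
    rintro rfl
    exact hv rfl)
  rw [← div_mul_cancel₀ μ hd0]
  exact (isOfFinOrder_iff_pow_eq_one.2 ⟨E, hE, h4⟩).mul hd

theorem sq1_cpow {Q z : Mat N} (hQ : Q * Q = Q) (hz : Q * z * Q = z * Q) (k : ℕ) :
    Q * (z ^ k * Q) = z ^ k * Q := by
  induction k with
  | zero => simpa using hQ
  | succ k ih => rw [pow_succ', mul_assoc z, ← ih, ← mul_assoc z, ← mul_assoc, ← mul_assoc Q, hz]

/-- `(Q y Q + 1 - Q) ^ E - 1 = (y ^ E - 1) Q` and `((y ^ E - 1) Q) ^ (k + 1) = (y ^ E - 1) ^ (k + 1) Q`. -/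
theorem qu_corner {Q y : Mat N} (hQ : Q * Q = Q) (hy : Q * y * Q = y * Q) (h : QU y) :
    QU (Q * y * Q + (1 - Q)) := by
  obtain ⟨E, hE, k, hk⟩ := h
  have h1 : ∀ j : ℕ, (Q * y * Q + (1 - Q)) ^ j = y ^ j * Q + (1 - Q) := fun j => by
    induction j with
    | zero => simp
    | succ j ih =>
      rw [pow_succ', ih, hy, pow_succ']
      simp only [add_mul, mul_add, sub_mul, mul_sub, mul_assoc, one_mul, mul_one, hQ,
        sq1_cpow hQ hy j]
      abel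
  have h2 : Q * (y ^ E - 1) * Q = (y ^ E - 1) * Q := by
    rw [mul_assoc, sub_mul, mul_sub, sq1_cpow hQ hy, one_mul, hQ]
  have h3 : ∀ j : ℕ, ((y ^ E - 1) * Q) ^ (j + 1) = (y ^ E - 1) ^ (j + 1) * Q := fun j => by
    induction j with
    | zero => simp
    | succ j ih => rw [pow_succ', ih, mul_assoc, sq1_cpow hQ h2, ← mul_assoc, ← pow_succ']
  refine ⟨E, hE, k + 1, ?_⟩
  rw [h1, show y ^ E * Q + (1 - Q) - 1 = (y ^ E - 1) * Q by noncomm_ring, h3, pow_succ', hk,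
    mul_zero, zero_mul]

theorem fact_ontoQ [NeZero r] {t : Fin n → ℂ} {g : Fin n → (Mat r)ˣ} (hζ : ∀ a, QU (g a).val) {U : Set ℂ} {x₀ : ℂ} (hx₀ : x₀ ∈ U) (hne : ∀ i, x₀ ≠ t i)
    {Y : ℂ → Mat r} (hY0 : Y x₀ = 1) (he : ExtProp t g U Y) {Z : Submodule ℂ (Mat r)}
    (hZ : InvS (Subgroup.closure (Set.range g)) Z) {z₀ : Mat r} (hz₀ : z₀ ∈ Z) :
    ∃ Φ ∈ primW U Y Z, ∃ c : ℂ, c ≠ 0 ∧ Φ.map (eval x₀) = c • z₀ := by
  obtain ⟨Q, hQ1, hQ2⟩ := mono_proj (Z.map (vecL r))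
  have hQ : Q * Q = Q := by
    refine Matrix.ext_iff_mulVec.2 fun v => ?_
    rw [← mulVec_mulVec, hQ2 _ (hQ1 v)]
  have hV : ∀ a, ∀ v ∈ Z.map (vecL r), adM (g a).val *ᵥ v ∈ Z.map (vecL r) := by
    rintro a _ ⟨x, hx, rfl⟩
    refine ⟨(g a).val * x * (g a).val.adjugate, ?_, (adM_mulVec _ x).symm⟩
    have e : (g a).val.adjugate = (g a).val.det • ((g a)⁻¹).val := by
      rw [← one_mul (g a).val.adjugate, ← (g a).inv_mul, Matrix.mul_assoc, mul_adjugate,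
        mul_smul_comm, mul_one]
    rw [e, mul_smul_comm]
    exact Z.smul_mem _ (hZ _ (Subgroup.subset_closure ⟨a, rfl⟩) x hx)
  have hg : ∀ a, Q * adM (g a).val * Q = adM (g a).val * Q := fun a => by
    refine Matrix.ext_iff_mulVec.2 fun v => ?_
    rw [← mulVec_mulVec, ← mulVec_mulVec, ← mulVec_mulVec, hQ2 _ (hV a _ (hQ1 v))]
  obtain ⟨D, hD, hd⟩ : ∃ D : ℕ, 0 < D ∧ ∀ a, (Q * adM (g a).val * Q + (1 - Q)).det ^ D = 1 := by
    choose k hk0 hk using fun a =>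
      isOfFinOrder_iff_pow_eq_one.1 (qu_corner hQ (hg a) (qu_adM (hζ a))).det
    refine ⟨∏ i, k i, Finset.prod_pos fun i _ => hk0 i, fun i => ?_⟩
    obtain ⟨c, hc⟩ := Finset.dvd_prod_of_mem k (Finset.mem_univ i)
    rw [hc, pow_mul, hk, one_pow]
  obtain ⟨m, q, hq⟩ := mono_unif (ι := Fin (r * r)) (U := U) (dl t)
    (fun p x => (monoP Q D (adM (Y x)) *ᵥ vecM z₀) p) fun p =>
      he _ (primt_P Q D (vecM z₀) p) fun M a => by
        rw [Units.val_mul, adM_mul, mono_P_inv hD hQ (hg a) (hd a)]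
  let Φ : Matrix (Fin r) (Fin r) ℂ[X] := Matrix.of fun a b => q (finProdFinEquiv (a, b))
  have hΦ : Φ ∈ primW U Y Z := by
    intro x hx
    obtain ⟨z, hz, e⟩ := hQ1 ((adM (Y x) * Q + (1 - Q)).adjugate *ᵥ vecM z₀)
    have e' : vecM z = Q *ᵥ ((adM (Y x) * Q + (1 - Q)).adjugate *ᵥ vecM z₀) := e
    refine ⟨((dl t).eval x ^ m * (adM (Y x) * Q + (1 - Q)).det ^ (D - 1) * (Y x).det) • z,
      Z.smul_mem _ hz, ?_⟩
    have e2 : Φ.map (eval x) = ((dl t).eval x ^ m * (adM (Y x) * Q + (1 - Q)).det ^ (D - 1)) •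
        (Y x * z * (Y x).adjugate) := by
      ext a b
      change (q (finProdFinEquiv (a, b))).eval x = _
      rw [← hq _ x hx, monoP, smul_mulVec, ← mulVec_mulVec,
        ← mulVec_mulVec, ← e', adM_mulVec, Pi.smul_apply, vecM_apply, Matrix.smul_apply,
        smul_eq_mul, smul_eq_mul, ← mul_assoc]
    rw [e2, smul_mul_assoc, Matrix.mul_assoc, adjugate_mul, mul_smul_comm, mul_one, smul_smul,
      mul_smul_comm]
  refine ⟨Φ, hΦ, (dl t).eval x₀ ^ m, pow_ne_zero m (mono_dl_ne t hne), ?_⟩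
  ext a b
  have h1 := hq (finProdFinEquiv (a, b)) x₀ hx₀
  have e2 : monoP Q D (adM (Y x₀)) = Q := by simp [monoP, hY0, adM_one]
  rw [e2, hQ2 (vecM z₀) ⟨z₀, hz₀, rfl⟩, vecM_apply] at h1
  exact h1.symm

theorem simp_of_fieldQ [NeZero N] {t : Fin n → ℂ} {g : Fin n → (Mat N)ˣ}
    (hζ : ∀ a, QU (g a).val) {U : Set ℂ} (hU : U.Infinite) {x₀ : ℂ} (hx₀ : x₀ ∈ U)
    (hne : ∀ i, x₀ ≠ t i) {Y : ℂ → Mat N} (hY0 : Y x₀ = 1) (hY : ∀ x ∈ U, (Y x).det ≠ 0)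
    (he : ExtProp t g U Y) {W : Subalgebra ℂ[X] (Matrix (Fin N) (Fin N) ℂ[X])}
    (hF : ∀ Φ ∈ W, Φ ≠ 0 → Φ.det ≠ 0)
    (hW : ∀ Φ ∈ W, Φ ∈ primW U Y (Subalgebra.toSubmodule (GC.fib W x₀))) :
    SimpZ (incl (Subgroup.closure (Set.range g))) (GC.fib W x₀) := by
  intro J hJZ hJl hJc
  by_cases hJ : J = ⊥
  · exact Or.inl hJ
  refine Or.inr ?_
  obtain ⟨z₀, hz₀, h0⟩ := Submodule.exists_mem_ne_zero_of_ne_bot hJ
  obtain ⟨Φ, hΦ, c, hc, e⟩ := fact_ontoQ hζ hx₀ hne hY0 he (Z := J)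
    (fun γ hγ y hy => hJc ⟨γ, hγ⟩ y hy) hz₀
  have hΦ0 : Φ ≠ 0 := by
    rintro rfl
    rw [Matrix.map_zero _ eval_zero] at e
    exact h0 ((smul_eq_zero.1 e.symm).resolve_left hc)
  have hΦZ : Φ ∈ primW U Y (Subalgebra.toSubmodule (GC.fib W x₀)) := fun x hx => by
    obtain ⟨z, hz, e'⟩ := hΦ x hx
    exact ⟨z, hJZ z hz, e'⟩
  have r1 := fib_rank hU hY hW
  have r2 := MP.fact_rank (x₀ := x₀) hU hY (Z := Subalgebra.toSubmodule (GC.fib W x₀))
    (fun z hz => by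
      obtain ⟨Ψ, hΨ, e'⟩ := mem_fib.1 hz
      exact ⟨Ψ, hW Ψ hΨ, 1, one_ne_zero, by rw [one_smul, e']⟩)
  obtain ⟨q, hq, hqΦ⟩ := fld_sat (P := Subalgebra.toSubmodule W) (fun Ψ hΨ => hW Ψ hΨ)
    (r2.trans r1) hΦZ
  have hd : Φ.det ≠ 0 := by
    intro hd
    refine hF _ hqΦ (smul_ne_zero hq hΦ0) ?_
    rw [det_smul, hd, mul_zero]
  obtain ⟨x, hx, hxr⟩ : ∃ x ∈ U, Φ.det.eval x ≠ 0 := by
    by_contra hn
    refine hd (Polynomial.eq_zero_of_infinite_isRoot _ (hU.mono fun x hx => ?_))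
    by_contra h1
    exact hn ⟨x, hx, h1⟩
  obtain ⟨z, hz, e'⟩ := hΦ x hx
  have hzd : z.det ≠ 0 := by
    intro h1
    have h2 := congrArg Matrix.det e'
    have h3 : (Φ.map (eval x)).det = Φ.det.eval x := ((evalRingHom x).map_det Φ).symm
    rw [det_mul, det_mul, h1, mul_zero, h3] at h2
    exact mul_ne_zero hxr (hY x hx) h2
  let L : GC.fib W x₀ →ₗ[ℂ] GC.fib W x₀ := LinearMap.mulRight ℂ ⟨z, hJZ z hz⟩
  have hL : Function.Injective L := by
    intro a b hab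
    have h1 : (a : Mat N) * z = (b : Mat N) * z := congrArg Subtype.val hab
    refine Subtype.ext ?_
    rw [← mul_nonsing_inv_cancel_right z (a : Mat N) hzd.isUnit, h1,
      mul_nonsing_inv_cancel_right z (b : Mat N) hzd.isUnit]
  obtain ⟨y, hy⟩ := LinearMap.injective_iff_surjective.1 hL 1
  have h1 : (y : Mat N) * z = 1 := congrArg Subtype.val hy
  exact h1 ▸ hJl _ y.2 z hz

end Pool.Agent.GR.NP
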