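import Pool.Agent.Lib.MP_aa40d3_nt.NP.OpA
import Pool.Agent.Lib.MP_aa40d3_nt.CV.Gau
import Pool.Agent.Lib.MP_aa40d3_nt.GR.Aff

/-! Transport of nilpotence. -/

open Polynomial Matrix

namespace Pool.Agent.GR.NP

variable {n N : ℕ} {R R' : Type} [CommRing R] [CommRing R'] {D D' : R[X]}
  {B B' : Matrix (Fin N) (Fin N) R[X]}

theorem NilB.map {p : ℕ} (h : NilB p D B) (φ : R →+* R') :
    NilB p (D.map φ) (B.map (Polynomial.map φ)) := by
  rw [NilB, ← iterB_map, h]
  exact Matrix.map_zero _ (Polynomial.map_zero φ)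

theorem NilB.of_map {p : ℕ} {φ : R →+* R'} (hφ : Function.Injective φ)
    (h : NilB p (D.map φ) (B.map (Polynomial.map φ))) : NilB p D B := by
  rw [NilB, ← iterB_map] at h
  exact Matrix.ext fun a b => Polynomial.map_injective φ hφ
    ((congrFun (congrFun h a) b).trans (Polynomial.map_zero φ).symm)

theorem ob1_iter (ψ : R[X] →+* R[X]) {u : R}
    (hψ : ∀ f, derivative (ψ f) = C u * ψ (derivative f)) (c : R) (D : R[X])
    (B : Matrix (Fin N) (Fin N) R[X]) (k : ℕ) :
    iterB (C c * ψ D) ((C c * C u : R[X]) • B.map ψ) k =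
      (C c * C u : R[X]) ^ k • (iterB D B k).map ψ := by
  induction k with
  | zero => rw [iterB, iterB, pow_zero, one_smul, Matrix.map_one _ (map_zero ψ) (map_one ψ)]
  | succ k ih =>
    rw [iterB, iterB, ih, Matrix.map_add _ (map_add ψ), Matrix.map_mul, Matrix.smul_mul,
      Matrix.mul_smul, smul_smul _ (C c * C u), ← pow_succ, smul_add]
    congr 1
    refine Matrix.ext fun a b => ?_
    have h1 : ∀ f, derivative ((C c * C u : R[X]) ^ k * f) = (C c * C u) ^ k * derivative f :=
      fun f => by rw [← C_mul, ← C_pow, derivative_C_mul]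
    simp only [Matrix.sub_apply, Matrix.smul_apply, Matrix.map_apply, smul_eq_mul, map_sub,
      map_mul, map_natCast, h1, derivative_C_mul, hψ]
    ring

/-- `iterB (C c * D) (C c • B) k = C c ^ k • iterB D B k`. -/
theorem nilB_smul [IsDomain R] {p : ℕ} {c : R} (hc : c ≠ 0) :
    NilB p (C c * D) ((C c : R[X]) • B) ↔ NilB p D B := by
  have h := ob1_iter (RingHom.id R[X]) (u := 1) (fun f => by simp) c D B (p * N)
  simp only [RingHom.id_apply, C_1, mul_one, RingHom.coe_id, Matrix.map_id] at h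
  rw [NilB, NilB, h]
  exact smul_eq_zero_iff_right (pow_ne_zero _ (C_ne_zero.2 hc))

/-- `iterB (D ∘ φ) (C u • B ∘ φ) k = C u ^ k • (iterB D B k) ∘ φ` for `φ = C u * X + C v`. -/
theorem NilB.comp {p : ℕ} (h : NilB p D B) (u v : R) :
    NilB p (D.comp (C u * X + C v)) ((C u : R[X]) • B.map fun f => f.comp (C u * X + C v)) := by
  have h1 := ob1_iter (compRingHom (C u * X + C v)) (u := u) (fun f => by
    rw [coe_compRingHom_apply, coe_compRingHom_apply, derivative_comp, derivative_add,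
      derivative_C, derivative_C_mul_X, add_zero]) 1 D B (p * N)
  rw [C_1, one_mul, one_mul, h, Matrix.map_zero _ (map_zero _), smul_zero] at h1
  exact h1

/-- As `hasFund_aff`, from `NilB.comp` and `nilB_smul`. -/
theorem nilB_aff {k : Type} [Field k] {p : ℕ} {t t' : Fin n → k} {c b : k} (hc : c ≠ 0)
    (h : ∀ i, t i = c * t' i + b) {A : Fin n → Matrix (Fin N) (Fin N) k}
    (hf : NilB p (dl t) (pm t A)) : NilB p (dl t') (pm t' A) := by
  have h1 := hf.comp c b
  have h2 : ((C c : k[X]) • (pm t A).map fun f => f.comp (C c * X + C b)) =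
      (C (c ^ n) : k[X]) • pm t' A := Matrix.ext fun a a' => by
    rw [C_pow]
    exact aff_pm h A a a'
  rw [aff_dl h, h2, ← C_pow] at h1
  exact (nilB_smul (pow_ne_zero n hc)).1 h1

section ob2
variable {K : Type} [Field K] [Algebra R[X] K] {d : K →+ K}

theorem ob2_mul (f g : AddMonoid.End (Fin N → K)) (l : Fin N → K) : (f * g) l = f (g l) := rfl

theorem ob2_one (hd : Der R K d) {W M M' : Matrix (Fin N) (Fin N) K}
    (h : W.map d + W * M = M' * W) (l : Fin N → K) :
    rowOp 1 d M (l ᵥ* W) = rowOp 1 d M' l ᵥ* W := by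
  have h1 : (fun a => 1 * d ((l ᵥ* W) a)) = (fun a => 1 * d (l a)) ᵥ* W + l ᵥ* W.map d := by
    funext a
    simp only [one_mul, vecMul, dotProduct, map_sum, hd.mul, Pi.add_apply, map_apply,
      ← Finset.sum_add_distrib]
    exact Finset.sum_congr rfl fun b _ => by ring
  rw [rowOp_apply, rowOp_apply, h1, add_vecMul, vecMul_vecMul, vecMul_vecMul, ← h, vecMul_add,
    add_assoc]

theorem ob2_zero (hd : Der R K d) {W M M' : Matrix (Fin N) (Fin N) K}
    (h : W.map d + W * M = M' * W) (hW : W.det ≠ 0) {k : ℕ} (h0 : rowOp 1 d M ^ k = 0) :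
    rowOp 1 d M' ^ k = 0 := by
  have h1 : ∀ (k : ℕ) (l : Fin N → K),
      (rowOp 1 d M ^ k) (l ᵥ* W) = (rowOp 1 d M' ^ k) l ᵥ* W := fun k => by
    induction k with
    | zero => exact fun _ => rfl
    | succ k ih =>
      intro l
      rw [pow_succ, pow_succ, ob2_mul, ob2_mul, ob2_one hd h, ih]
  refine AddMonoidHom.ext fun l => eq_zero_of_vecMul_eq_zero hW ((h1 k l).symm.trans ?_)
  rw [h0]
  rfl

theorem ob2_det [IsDomain R] [IsFractionRing R[X] K] {G : Matrix (Fin N) (Fin N) R[X]}
    (hG : G.det ≠ 0) : (G.map (algebraMap R[X] K)).det ≠ 0 := by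
  rw [← RingHom.mapMatrix_apply, ← RingHom.map_det]
  exact (map_ne_zero_iff _ (IsFractionRing.injective R[X] K)).2 hG

theorem ob2_tri {U : Matrix (Fin N) (Fin N) K} (hU : Up U) {j : ℕ} {l : Fin N → K}
    (hl : ∀ a : Fin N, (a : ℕ) < j → l a = 0) (k : ℕ) :
    ∀ a : Fin N, (a : ℕ) ≤ j → (rowOp 1 d U ^ k) l a = d^[k] (l a) := by
  induction k with
  | zero => exact fun _ _ => rfl
  | succ k ih =>
    intro a ha
    rw [pow_succ', ob2_mul, rowOp_apply, Function.iterate_succ_apply',
      Pi.add_apply, one_mul, ih a ha, add_eq_left, vecMul, dotProduct]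
    refine Finset.sum_eq_zero fun b _ => ?_
    rcases le_or_gt a b with h | h
    · rw [hU b a h, mul_zero]
    · have h' : (b : ℕ) < a := h
      rw [ih b (by omega), hl b (by omega), iterate_map_zero, zero_mul]

theorem ob2_dp [IsDomain R] [IsFractionRing R[X] K] (hd : Der R K d) (p : ℕ) [Fact p.Prime]
    [CharP R p] (f : K) : d^[p] f = 0 := by
  have h1 : ∀ l : Fin 1 → K, (rowOp 1 d 0 ^ p) l 0 = d^[p] (l 0) := fun l =>
    ob2_tri (j := 0) (fun _ _ _ => rfl) (fun _ h => absurd h (Nat.not_lt_zero _)) p 0 le_rfl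
  have h2 := congrFun (rowOp_pow_smul hd p (0 : Matrix (Fin 1) (Fin 1) K) 1 f 1) 0
  have h3 : d 1 = 0 := by simpa using hd.ext 1
  obtain ⟨q, rfl⟩ := Nat.exists_eq_succ_of_ne_zero (Fact.out : p.Prime).ne_zero
  rw [mul_one, Pi.smul_apply, h1, h1, Pi.smul_apply, Pi.one_apply, smul_eq_mul, mul_one,
    Function.iterate_succ_apply d q 1, h3, iterate_map_zero, smul_zero] at h2
  exact h2

theorem ob2_nil [IsDomain R] [IsFractionRing R[X] K] (hd : Der R K d) (p : ℕ) [Fact p.Prime]
    [CharP R p] {U : Matrix (Fin N) (Fin N) K} (hU : Up U) : rowOp 1 d U ^ (p * N) = 0 := by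
  have h1 : ∀ (j : ℕ) (l : Fin N → K) (a : Fin N), (a : ℕ) < j →
      (rowOp 1 d U ^ (p * j)) l a = 0 := fun j l => by
    induction j with
    | zero => exact fun _ h => absurd h (Nat.not_lt_zero _)
    | succ j ih =>
      intro a ha
      rw [mul_add, mul_one, add_comm, pow_add, ob2_mul,
        ob2_tri hU ih p a (by omega), ob2_dp hd p]
  exact AddMonoidHom.ext fun l => funext fun a => h1 N l a a.2

end ob2

/-- `l ↦ ρ⁻¹ • l ᵥ* G` is a bijection of rows over the field of fractions that carries the operator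
of `(D', B')` to the operator of `(D, B)`; `nilB_iff`. -/
theorem NilB.gau [IsDomain R] (p : ℕ) [Fact p.Prime] [CharP R p] {ρ : R[X]}
    {G : Matrix (Fin N) (Fin N) R[X]} (h : CV.Gau D B D' B' ρ G) (hD : D ≠ 0) (hD' : D' ≠ 0)
    (hρ : ρ ≠ 0) (hG : G.det ≠ 0) (hf : NilB p D B) : NilB p D' B' := by
  obtain ⟨d, hd⟩ := exists_der (R := R) (K := FractionRing R[X])
  have hi := IsFractionRing.injective R[X] (FractionRing R[X])
  have e1 := (map_ne_zero_iff _ hi).2 hD
  have e2 := (map_ne_zero_iff _ hi).2 hD'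
  have e3 := (map_ne_zero_iff _ hi).2 hρ
  rw [nilB_iff hd p hD] at hf
  rw [nilB_iff hd p hD']
  refine ob2_zero hd
    (W := (algebraMap R[X] (FractionRing R[X]) ρ)⁻¹ • G.map (algebraMap R[X] _)) ?_ ?_ hf
  · refine Matrix.ext fun a b => ?_
    have h1 := congrArg (algebraMap R[X] (FractionRing R[X])) (congrFun (congrFun h a) b)
    have h2 := hd.mul (algebraMap R[X] _ ρ)
      ((algebraMap R[X] _ ρ)⁻¹ * algebraMap R[X] (FractionRing R[X]) (G a b))
    rw [mul_inv_cancel_left₀ e3, hd.ext, hd.ext] at h2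
    simp only [Matrix.smul_apply, Matrix.add_apply, Matrix.sub_apply, smul_eq_mul, map_apply,
      map_mul, map_add, map_sub] at h1
    simp only [Matrix.smul_mul, Matrix.mul_smul, ← Matrix.map_mul, Matrix.smul_apply,
      Matrix.add_apply, smul_eq_mul, map_apply]
    rw [h2] at h1
    generalize d _ = w at h1 ⊢
    field_simp
    field_simp at h1
    exact mul_left_cancel₀ e3 (by linear_combination h1)
  · rw [det_smul]
    exact mul_ne_zero (pow_ne_zero _ (inv_ne_zero e3)) (ob2_det hG)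

/-- `l ↦ l ᵥ* Φ` carries the operator of `(D, B)` to `rowOp 1 d (-T')`, `T' = (c D)⁻¹ • T` strictly
upper triangular. On the rows whose first `j` entries vanish the entry `j` is just differentiated,
and `d ^ p = 0`. -/
theorem HT.nilB [IsDomain R] (p : ℕ) [Fact p.Prime] [CharP R p] (hD : D ≠ 0) (h : HT D B) :
    NilB p D B := by
  obtain ⟨d, hd⟩ := exists_der (R := R) (K := FractionRing R[X])
  obtain ⟨Φ, T, c, h0, hc, hT, h⟩ := h
  have hi := IsFractionRing.injective R[X] (FractionRing R[X])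
  have e1 := (map_ne_zero_iff _ hi).2 hD
  have e2 := (map_ne_zero_iff _ hi).2 hc
  rw [nilB_iff hd p hD]
  refine ob2_zero hd (W := Φ.map (algebraMap R[X] _))
    (M := (-(algebraMap R[X] (FractionRing R[X]) c * algebraMap R[X] _ D)⁻¹) •
      T.map (algebraMap R[X] _)) ?_
    (ob2_det h0) (ob2_nil hd p fun a b hab => ?_)
  · refine Matrix.ext fun a b => ?_
    have h1 := congrArg (algebraMap R[X] (FractionRing R[X])) (congrFun (congrFun h a) b)
    simp only [Matrix.smul_apply, Matrix.sub_apply, smul_eq_mul, map_apply, map_mul,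
      map_sub] at h1
    simp only [Matrix.smul_mul, Matrix.mul_smul, ← Matrix.map_mul, Matrix.smul_apply,
      Matrix.add_apply, smul_eq_mul, map_apply, hd.ext]
    field_simp
    linear_combination h1
  · rw [Matrix.smul_apply, map_apply, hT a b hab, map_zero, smul_zero]

end Pool.Agent.GR.NP
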