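import Pool.Agent.Lib.MP_aa40d3_nt.NP.Push
import Pool.Agent.Lib.MP_aa40d3_nt.NP.OpB

/-! Nilpotent curvature: spreading out. -/

open Polynomial Matrix
open scoped Polynomial.Bivariate

namespace Pool.Agent.GR.NP

open Pool.Agent.GR.CV

variable {n r d : ℕ}

theorem ht_red {R R' : Type} [CommRing R] [CommRing R'] {S : CV.Sys R r} {q : R[X][Y]} {δ : R[X]} (h : Prep S d q δ)
    (hm : ∀ m : Ideal R, m.IsMaximal → (S.map (Ideal.Quotient.mk m)).Tri)
    [Algebra.FiniteType ℤ R'] (j : R →+* R') (m : Ideal R') [m.IsMaximal]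
    (hδ : δ.map ((Ideal.Quotient.mk m).comp j) ≠ 0) :
    HT ((δ * S.D).map ((Ideal.Quotient.mk m).comp j))
      ((pB S d q δ).map (Polynomial.map ((Ideal.Quotient.mk m).comp j))) := by
  let _ := Ideal.Quotient.field m
  obtain ⟨p, hp, hc⟩ := exists_char m
  have : Fact p.Prime := ⟨hp⟩
  have h1 := tri_map (hm _ (comap_max j m)) (Ideal.quotientMap_injective (I := m) (f := j))
  rw [Sys.map_map, Ideal.quotientMap_comp_mk] at h1
  have h2 := push_tri (h.map ((Ideal.Quotient.mk m).comp j)) hδ p h1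
  rw [← pB_map h.1] at h2
  rw [Polynomial.map_mul]
  exact h2

theorem pcn_of_max {R₀ : Type} [CommRing R₀] [Algebra.FiniteType ℤ R₀] (ι₀ : R₀ →+* ℂ)
    (hι₀ : Function.Injective ι₀) {t0 : Fin n → R₀} {A0 : Fin n → Matrix (Fin r) (Fin r) R₀}
    (hm : ∀ m : Ideal R₀, m.IsMaximal →
      HT (dl fun i => Ideal.Quotient.mk m (t0 i)) (pm (fun i => Ideal.Quotient.mk m (t0 i))
        fun i => (A0 i).map (Ideal.Quotient.mk m))) :
    PCN (fun i => ι₀ (t0 i)) fun i => (A0 i).map ι₀ := by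
  classical
  obtain ⟨T, hT⟩ := (Algebra.FiniteType.out : (⊤ : Subalgebra ℤ R₀).FG)
  refine ⟨T.image ι₀, 0, fun R _ ι hι hS t' A' ht' hA' p hp hnp k _ _ φ => ?_⟩
  have : Fact p.Prime := ⟨hp⟩
  have hmem : ∀ x, ι₀ x ∈ ι.range := by
    intro x
    have hx : x ∈ Algebra.adjoin ℤ (T : Set R₀) := hT ▸ Algebra.mem_top
    rw [Algebra.adjoin_int] at hx
    have hle : Subring.closure (T : Set R₀) ≤ ι.range.comap ι₀ := by
      rw [Subring.closure_le]
      intro s hs
      exact hS _ (Finset.mem_image_of_mem _ hs)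
    exact hle hx
  let e : R ≃+* ι.range := RingEquiv.ofBijective ι.rangeRestrict
    ⟨fun x y hxy => hι (congrArg Subtype.val hxy), ι.rangeRestrict_surjective⟩
  let j : R₀ →+* R := e.symm.toRingHom.comp (ι₀.codRestrict ι.range hmem)
  have hj : ∀ x, ι (j x) = ι₀ x := fun x =>
    congrArg Subtype.val (e.apply_symm_apply (ι₀.codRestrict ι.range hmem x))
  have hjt : ∀ i, j (t0 i) = t' i := fun i => hι (by rw [hj, ht'])
  have hjA : ∀ i a b, j (A0 i a b) = A' i a b := fun i a b => hι (by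
    have := congrFun (congrFun (hA' i) a) b
    simp only [Matrix.map_apply] at this
    rw [hj, this])
  let ψ := φ.comp j
  have et : (fun i => φ (t' i)) = fun i => ψ (t0 i) := funext fun i => by
    rw [← hjt]; rfl
  have eA : (fun i => (A' i).map φ) = fun i => (A0 i).map ψ := funext fun i => by
    ext a b
    rw [Matrix.map_apply, Matrix.map_apply, ← hjA]; rfl
  rw [et, eA]
  have := cart_intJacobson
  have hJ : IsJacobsonRing R₀ := isJacobsonRing_of_finiteType (A := ℤ)
  rw [NilB, ← dl_map, ← pm_map, ← iterB_map]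
  ext a b i
  rw [Matrix.map_apply, coeff_map, Matrix.zero_apply, coeff_zero, ← RingHom.mem_ker,
    ← hJ.out (RingHom.ker_isPrime ψ).isRadical]
  refine Ideal.mem_sInf.2 fun m hmm => ?_
  have := hmm.2
  have hpm : (p : R₀) ∈ m :=
    hmm.1 (by rw [RingHom.mem_ker, map_natCast, CharP.cast_eq_zero])
  have : CharP (R₀ ⧸ m) p := (CharP.charP_iff_prime_eq_zero hp).2 (by
    rw [← map_natCast (Ideal.Quotient.mk m)]
    exact Ideal.Quotient.eq_zero_iff_mem.2 hpm)
  have := Ideal.Quotient.isDomain m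
  have h1 := (hm m hmm.2).nilB p (dl_monic _).ne_zero
  rw [NilB, ← dl_map, ← pm_map, ← iterB_map] at h1
  have h2 := congrArg (fun q => coeff q i) (congrFun (congrFun h1 a) b)
  simp only [Matrix.map_apply, coeff_map, Matrix.zero_apply, coeff_zero] at h2
  exact Ideal.Quotient.eq_zero_iff_mem.1 h2

theorem pcn_curve {R : Type} [CommRing R] [Algebra.FiniteType ℤ R] (ι : R →+* ℂ)
    {S : CV.Sys R r} {q : R[X][Y]} {δ : R[X]} (h : Prep S d q δ) (hδ : δ.map ι ≠ 0)
    (hD : S.D.map ι ≠ 0) {t : Fin n → ℂ} {A : Fin n → Matrix (Fin (r * d)) (Fin (r * d)) ℂ}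
    {ρ : ℂ[X]} {G : PM (r * d)} (hρ : ρ ≠ 0) (hG : G.det ≠ 0)
    (hg : Gau (δ.map ι * (S.map ι).D) (pB (S.map ι) d (q.map (mapRingHom ι)) (δ.map ι)) (dl t)
      (pm t A) ρ G)
    (hm : ∀ m : Ideal R, m.IsMaximal → (S.map (Ideal.Quotient.mk m)).Tri) : PCN t A := by
  classical
  let F : Finset ℂ := Finset.univ.image t ∪
    (Finset.univ.image fun x : Fin n × Fin (r * d) × Fin (r * d) => A x.1 x.2.1 x.2.2) ∪
    (Finset.univ.biUnion fun x : Fin (r * d) × Fin (r * d) => need (G x.1 x.2)) ∪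
    ({δ.map ι, S.D.map ι, ρ, G.det} : Finset ℂ[X]).biUnion need
  obtain ⟨R', j, hft, hj, hF⟩ := exists_ring ι F
  have hN : ∀ f ∈ ({δ.map ι, S.D.map ι, ρ, G.det} : Finset ℂ[X]), ∀ c ∈ need f, c ∈ R' :=
    fun f hf c hc => hF c (Finset.mem_union_right _ (Finset.mem_biUnion.2 ⟨f, hf, hc⟩))
  let t' : Fin n → R' := fun i => ⟨t i, hF _ (Finset.mem_union_left _ (Finset.mem_union_left _
    (Finset.mem_union_left _ (Finset.mem_image_of_mem _ (Finset.mem_univ i)))))⟩
  let A' : Fin n → Matrix (Fin (r * d)) (Fin (r * d)) R' := fun i => Matrix.of fun a b =>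
    ⟨A i a b, hF _ (Finset.mem_union_left _ (Finset.mem_union_left _ (Finset.mem_union_right _
      (Finset.mem_image.2 ⟨(i, a, b), Finset.mem_univ _, rfl⟩))))⟩
  obtain ⟨ρ', hρ'⟩ := exists_lift (hN ρ (by simp))
  choose G₀ hG₀ using fun a b => exists_lift (R' := R') (f := G a b) fun c hc =>
    hF c (Finset.mem_union_left _ (Finset.mem_union_right _
      (Finset.mem_biUnion.2 ⟨(a, b), Finset.mem_univ _, hc⟩)))
  let G' : Matrix (Fin (r * d)) (Fin (r * d)) R'[X] := Matrix.of G₀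
  have eG : G'.map (Polynomial.map R'.subtype) = G := Matrix.ext fun a b => hG₀ a b
  have eGd : G'.det.map R'.subtype = G.det := by
    rw [← eG]
    exact RingHom.map_det (mapRingHom R'.subtype) G'
  have em : ∀ f : R[X], (f.map j).map R'.subtype = f.map ι := fun f => by
    rw [Polynomial.map_map, hj]
  have g' : Gau ((δ * S.D).map j) ((pB S d q δ).map (Polynomial.map j)) (dl t') (pm t' A') ρ' G' := by
    refine Gau.of_map R'.subtype_injective ?_
    have e1 : ((pB S d q δ).map (Polynomial.map j)).map (Polynomial.map R'.subtype) =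
        (pB S d q δ).map (Polynomial.map ι) := Matrix.ext fun a b => em _
    rw [em, e1, Polynomial.map_mul, pB_map h.1, dl_map, pm_map, hρ', eG]
    exact hg
  refine pcn_of_max (t0 := t') (A0 := A') R'.subtype R'.subtype_injective fun m hm' => ?_
  let φ := Ideal.Quotient.mk m
  let _ := Ideal.Quotient.field m
  obtain ⟨p, hp, hc⟩ := exists_char m
  have : Fact p.Prime := ⟨hp⟩
  have h1 := tri_map (hm _ (comap_max j m))
    (Ideal.quotientMap_injective (I := m) (f := j))
  rw [Sys.map_map, Ideal.quotientMap_comp_mk] at h1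
  have ne : ∀ f : R'[X], f.map R'.subtype ≠ 0 →
      f.map R'.subtype ∈ ({δ.map ι, S.D.map ι, ρ, G.det} : Finset ℂ[X]) → f.map φ ≠ 0 :=
    fun f h0 hf => map_ne_of_need h0 (hN _ hf) φ
  have hδ' : δ.map (φ.comp j) ≠ 0 := by
    rw [← Polynomial.map_map]
    exact ne _ (by rwa [em]) (by simp [em])
  have hD' : S.D.map (φ.comp j) ≠ 0 := by
    rw [← Polynomial.map_map]
    exact ne _ (by rwa [em]) (by simp [em])
  have h2 := push_tri (h.map (φ.comp j)) hδ' p h1
  have h3 := g'.map φ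
  have e2 : ((pB S d q δ).map (Polynomial.map j)).map (Polynomial.map φ) =
      (pB S d q δ).map (Polynomial.map (φ.comp j)) :=
    Matrix.ext fun a b => Polynomial.map_map _ _ _
  rw [Polynomial.map_map, e2, Polynomial.map_mul, pB_map h.1, dl_map, pm_map] at h3
  refine gau_ht hp.pos (CharP.cast_eq_zero _ p) h3 (mul_ne_zero hδ' hD')
    (ne _ (by rwa [hρ']) (by simp [hρ'])) ?_ h2
  have e3 : (G'.map (Polynomial.map φ)).det = G'.det.map φ :=
    (RingHom.map_det (mapRingHom φ) G').symm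
  rw [e3]
  exact ne _ (by rwa [eGd]) (by simp [eGd])

end Pool.Agent.GR.NP
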