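import Pool.Agent.Lib.MP_aa40d3_nt.MG.Stmt

/-! Definitions used in the statement: nilpotent curvature of a Fuchsian system. -/

open Polynomial Matrix

namespace Pool.Agent.GR

variable {R : Type} [CommRing R] {n r : ℕ}

/-- The matrices `B k` such that the `k`-th derivative of a solution `Y` is `Δ ^ (-k) (B k) Y`. -/
noncomputable def itN (t : Fin n → R) (A : Fin n → Matrix (Fin r) (Fin r) R) :
    ℕ → Matrix (Fin r) (Fin r) R[X]
  | 0 => 1
  | k + 1 => dl t • (itN t A k).map derivative - ((k : R[X]) * derivative (dl t)) • itN t A k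
      + itN t A k * pm t A

/-- In characteristic `p`: the `r`-th power of the `p`-curvature vanishes. -/
def NilCurv (p : ℕ) (t : Fin n → R) (A : Fin n → Matrix (Fin r) (Fin r) R) : Prop :=
  itN t A (p * r) = 0

end Pool.Agent.GR
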