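import Pool.Agent.Lib.MP_aa40d3_nt.MG.Core5
import Pool.Agent.Lib.MP_aa40d3_nt.NP.Core
import Pool.Agent.Lib.MP_aa40d3_nt.NP.Spr
import Pool.Agent.Lib.MP_aa40d3_nt.NP.StmtP

/-! Irreducible systems that are ramified at many generic points; nilpotent curvature. -/

open Polynomial Matrix Set Filter Topology
open scoped Matrix.Norms.Operator

namespace Pool.Agent.GR.NP

variable {n r : ℕ}

theorem itN_eq {R : Type} [CommRing R] (t : Fin n → R) (A : Fin n → Matrix (Fin r) (Fin r) R)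
    (k : ℕ) : itN t A k = iterB (dl t) (pm t A) k := by
  induction k with
  | zero => rfl
  | succ k ih => rw [itN, iterB, ih]

theorem pcn_of_nil {R₀ : Type} [CommRing R₀] [Algebra.FiniteType ℤ R₀] (ι₀ : R₀ →+* ℂ)
    (hι₀ : Function.Injective ι₀) {t0 : Fin n → R₀} {A0 : Fin n → Matrix (Fin r) (Fin r) R₀}
    {P₀ : ℕ} (hm : ∀ p : ℕ, p.Prime → P₀ < p → ∀ m : Ideal R₀, m.IsMaximal → (p : R₀) ∈ m →
      NilCurv p (fun i => Ideal.Quotient.mk m (t0 i)) fun i => (A0 i).map (Ideal.Quotient.mk m)) :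
    PCN (fun i => ι₀ (t0 i)) fun i => (A0 i).map ι₀ := by
  classical
  obtain ⟨T, hT⟩ := (Algebra.FiniteType.out : (⊤ : Subalgebra ℤ R₀).FG)
  refine ⟨T.image ι₀, P₀, fun R _ ι hι hS t' A' ht' hA' p hp hnp k _ _ φ => ?_⟩
  have : Fact p.Prime := ⟨hp⟩
  have hmem : ∀ x, ι₀ x ∈ ι.range := by
    intro x
    have hx : x ∈ Algebra.adjoin ℤ (T : Set R₀) := hT ▸ Algebra.mem_top
    rw [Algebra.adjoin_int] at hx
    have hle : Subring.closure (T : Set R₀) ≤ ι.range.comap ι₀ := by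
      rw [Subring.closure_le]
      intro s hs
      exact hS _ (Finset.mem_image_of_mem _ hs)
    exact hle hx
  let e : R ≃+* ι.range := RingEquiv.ofBijective ι.rangeRestrict
    ⟨fun x y hxy => hι (congrArg Subtype.val hxy), ι.rangeRestrict_surjective⟩
  let j : R₀ →+* R := e.symm.toRingHom.comp (ι₀.codRestrict ι.range hmem)
  have hj : ∀ x, ι (j x) = ι₀ x := fun x =>
    congrArg Subtype.val (e.apply_symm_apply (ι₀.codRestrict ι.range hmem x))
  have hjt : ∀ i, j (t0 i) = t' i := fun i => hι (by rw [hj, ht'])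
  have hjA : ∀ i a b, j (A0 i a b) = A' i a b := fun i a b => hι (by
    have := congrFun (congrFun (hA' i) a) b
    simp only [Matrix.map_apply] at this
    rw [hj, this])
  let ψ := φ.comp j
  have et : (fun i => φ (t' i)) = fun i => ψ (t0 i) := funext fun i => by
    rw [← hjt]; rfl
  have eA : (fun i => (A' i).map φ) = fun i => (A0 i).map ψ := funext fun i => by
    ext a b
    rw [Matrix.map_apply, Matrix.map_apply, ← hjA]; rfl
  rw [et, eA]
  have := cart_intJacobson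
  have hJ : IsJacobsonRing R₀ := isJacobsonRing_of_finiteType (A := ℤ)
  rw [NilB, ← dl_map, ← pm_map, ← iterB_map]
  ext a b i
  rw [Matrix.map_apply, coeff_map, Matrix.zero_apply, coeff_zero, ← RingHom.mem_ker,
    ← hJ.out (RingHom.ker_isPrime ψ).isRadical]
  refine Ideal.mem_sInf.2 fun m hmm => ?_
  have := hmm.2
  have hpm : (p : R₀) ∈ m :=
    hmm.1 (by rw [RingHom.mem_ker, map_natCast, CharP.cast_eq_zero])
  have h1 := hm p hp hnp m hmm.2 hpm
  rw [NilCurv, itN_eq, ← dl_map, ← pm_map, ← iterB_map] at h1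
  have h2 := congrArg (fun q => coeff q i) (congrFun (congrFun h1 a) b)
  simp only [Matrix.map_apply, coeff_map, Matrix.zero_apply, coeff_zero] at h2
  exact Ideal.Quotient.eq_zero_iff_mem.1 h2

theorem group_finiteQ (r : ℕ) [NeZero r] : ∃ k : ℕ, ∀ (n : ℕ) (Mov : Finset (Fin n))
    (g : Fin n → GLr r) (ρ : Fin n → ℝ), Function.Injective ρ →
    (∀ a, QU (g a).val) → IrrT g → LoopsQ Mov ρ g →
    (∀ Z : Subalgebra ℂ (Mt r),
      (∀ γ ∈ Subgroup.closure (Set.range g), ∀ x ∈ Z, γ.val * x * (γ⁻¹).val ∈ Z) →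
      (∃ x ∈ Z, ¬ Scl x) →
      ∃ M ⊆ Mov, k ≤ M.card ∧ ∀ a ∈ M, ∃ x ∈ Z, (g a).val * x ≠ x * (g a).val) →
    Finite (Subgroup.closure (Set.range g)) := by
  classical
  obtain ⟨k, hk⟩ := finite_absQ r
  refine ⟨k, fun n Mov g ρ hρ hfo hI ho hZ => ?_⟩
  obtain ⟨L0, h1, h2⟩ := exists_lowerL hρ Finset.univ fun _ _ _ _ => Finset.mem_univ _
  have h0 : L0.Nodup := h1.1.imp fun hab e => hab.ne (congrArg _ e)
  have hall : ∀ a, a ∈ L0 := fun a => List.mem_toFinset.1 (h2 ▸ Finset.mem_univ a)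
  set Γ := Subgroup.closure (Set.range g) with hΓ
  let g' : Fin n → Γ := fun a => ⟨g a, Subgroup.subset_closure ⟨a, rfl⟩⟩
  have hg : Subgroup.closure (Set.range g') = ⊤ := by
    apply Subgroup.map_injective Γ.subtype_injective
    rw [MonoidHom.map_closure, ← Set.range_comp, ← MonoidHom.range_eq_map, Subgroup.range_subtype]
    rfl
  have hl : ∀ x, IsLoop Mov L0 g' x → QU (incl Γ x) := fun x hx => by
    obtain ⟨l, R, h, k1, k2, k3⟩ := hx.map Γ.subtype
    obtain ⟨μ, a1, a2, rfl⟩ := k1.low h1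
    have k4 : QU ((l.map (mvTL μ ρ (Γ.subtype ∘ g'))).prod).val := ho μ a1 l (link_left a2) k2
    rwa [← k3] at k4
  exact hk n Mov L0 Γ g' (incl Γ) h0 hall hg (incl_inj Γ) (fun U hU => hI U fun a => hU (g' a))
    hfo hl fun Z h3 h4 => hZ Z (fun γ hγ => h3 ⟨γ, hγ⟩) h4

theorem irrT_of_irredQ [NeZero r] {t : Fin n → ℂ} {A : Fin n → Mat r} (hi : Irred t A)
    {g : Fin n → (Mat r)ˣ} (hζ : ∀ a, QU (g a).val) {U : Set ℂ} (hU : IsOpen U) {x₀ : ℂ} (hx₀ : x₀ ∈ U) {Y : ℂ → Mat r}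
    (hY0 : Y x₀ = 1) (hY : ∀ x ∈ U, (∀ i, x ≠ t i) ∧ (Y x).det ≠ 0 ∧
      HasDerivAt Y (sys t A x * Y x) x) (he : ExtProp t g U Y) : IrrT g := by
  intro V hV
  by_contra hcon
  rw [not_or] at hcon
  obtain ⟨Q, hQ1, hQ2⟩ := mono_proj V
  have hQ : Q * Q = Q := by
    refine Matrix.ext_iff_mulVec.2 fun v => ?_
    rw [← mulVec_mulVec, hQ2 _ (hQ1 v)]
  have hQ0 : Q ≠ 0 := fun h => hcon.1 ((Submodule.eq_bot_iff V).2 fun v hv => by
    rw [← hQ2 v hv, h, zero_mulVec])
  have hQo : Q ≠ 1 := fun h => hcon.2 (Submodule.eq_top_iff'.2 fun v => by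
    have := hQ1 v
    rwa [h, one_mulVec] at this)
  have hg : ∀ a, Q * (g a).val * Q = (g a).val * Q := fun a => by
    refine Matrix.ext_iff_mulVec.2 fun v => ?_
    rw [← mulVec_mulVec, ← mulVec_mulVec, ← mulVec_mulVec, hQ2 _ (hV a _ (hQ1 v))]
  obtain ⟨D, hD, hd⟩ : ∃ D : ℕ, 0 < D ∧ ∀ a, (Q * (g a).val * Q + (1 - Q)).det ^ D = 1 := by
    choose k hk0 hk using fun a => isOfFinOrder_iff_pow_eq_one.1 (qu_corner hQ (hg a) (hζ a)).det
    refine ⟨∏ i, k i, Finset.prod_pos fun i _ => hk0 i, fun i => ?_⟩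
    obtain ⟨c, hc⟩ := Finset.dvd_prod_of_mem k (Finset.mem_univ i)
    rw [hc, pow_mul, hk, one_pow]
  obtain ⟨m, q, hq⟩ := mono_unif (ι := Option (Fin r × Fin r)) (U := U) (dl t)
    (fun i x => match i with
      | none => monoD Q D (Y x)
      | some p => monoP Q D (Y x) p.1 p.2) (by
      intro i
      cases i with
      | none => exact he _ (mono_D_mem Q D) fun M a => mono_D_inv hQ (hg a) (hd a) M.val
      | some p =>
        refine he _ (mono_P_mem Q D p.1 p.2) fun M a => ?_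
        exact congrFun (congrFun (mono_P_inv hD hQ (hg a) (hd a) M.val) p.1) p.2)
  have hq0 : ∀ x ∈ U, (dl t).eval x ^ m * monoD Q D (Y x) = (q none).eval x := hq none
  have hq1 : ∀ a b, ∀ x ∈ U, (dl t).eval x ^ m * monoP Q D (Y x) a b = (q (some (a, b))).eval x :=
    fun a b => hq (some (a, b))
  have hst := mono_stable (t := t) (A := A) hU (Z := fun x => Y x * Q) (by
    intro x hx
    refine ⟨(hY x hx).1, fun a b => ?_⟩
    have h1 := hasDerivAt_mat.1 (hY x hx).2.2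
    have h2 : HasDerivAt (fun y => ∑ c, Y y a c * Q c b)
        (∑ c, (sys t A x * Y x) a c * Q c b) x :=
      HasDerivAt.fun_sum fun c _ => (h1 a c).mul_const _
    have e : ∑ c, sys t A x a c * (Y x * Q) c b = ∑ c, (sys t A x * Y x) a c * Q c b := by
      rw [← Matrix.mul_apply, ← Matrix.mul_apply, Matrix.mul_assoc]
    rw [e]
    exact h2)
  have hrow : ∀ a, (fun b => (if a = b then q none else 0) - q (some (a, b))) ∈
      monoW U fun x => Y x * Q := by
    intro a x hx b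
    have h1 := congrFun (congrFun (mono_PD hD hQ (Y x)) a) b
    rw [Matrix.mul_apply, Matrix.smul_apply, smul_eq_mul] at h1
    have h2 : ∑ c, ((if a = c then q none else 0) - q (some (a, c))).eval x * (Y x * Q) c b =
        (dl t).eval x ^ m * (monoD Q D (Y x) * (Y x * Q) a b -
          ∑ c, monoP Q D (Y x) a c * (Y x * Q) c b) := by
      simp only [eval_sub, sub_mul, Finset.sum_sub_distrib, mul_sub, Finset.mul_sum, ← mul_assoc,
        hq0 x hx, hq1 _ _ x hx]
      congr 1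
      rw [Finset.sum_eq_single a (fun c _ hc => by simp [hc.symm]) (by simp), if_pos rfl]
    show ∑ c, ((if a = c then q none else 0) - q (some (a, c))).eval x * (Y x * Q) c b = 0
    rw [h2, h1, sub_self, mul_zero]
  rcases hi _ hst with h | h
  · apply hQo
    ext a b
    have h1 := hrow a
    rw [h, Submodule.mem_bot] at h1
    have h2 := congrArg (eval x₀) (congrFun h1 b)
    have hδ := pow_ne_zero m (mono_dl_ne t (hY x₀ hx₀).1)
    have e1 : monoD Q D (Y x₀) = 1 := by simp [monoD, hY0]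
    have e2 : monoP Q D (Y x₀) = Q := by simp [monoP, hY0]
    have h3 := hq0 x₀ hx₀
    have h4 := hq1 a b x₀ hx₀
    rw [e1] at h3
    rw [e2] at h4
    apply mul_left_cancel₀ hδ
    rw [h4, Matrix.one_apply]
    by_cases hab : a = b
    · simp only [hab, if_true, eval_sub, Pi.zero_apply, eval_zero] at h2 ⊢
      rw [h3]
      exact (sub_eq_zero.1 h2).symm
    · simp only [hab, if_false, zero_sub, eval_neg, Pi.zero_apply, eval_zero, neg_eq_zero] at h2 ⊢
      rw [h2, mul_zero]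
  · choose c hc0 hc using fun a => h (Pi.single a 1)
    have hp : ∏ a, c a ≠ 0 := Finset.prod_ne_zero_iff.2 fun a _ => hc0 a
    have hinf : U.Infinite := infinite_of_mem_nhds x₀ (hU.mem_nhds hx₀)
    obtain ⟨x, hx, hxr⟩ := hinf.exists_notMem_finset (∏ a, c a).roots.toFinset
    rw [Multiset.mem_toFinset, mem_roots hp, IsRoot.def, eval_prod, Finset.prod_eq_zero_iff] at hxr
    push Not at hxr
    have hz : Y x * Q = 0 := by
      ext a b
      have h1 := hc a x hx b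
      rw [Finset.sum_eq_single a (fun d _ hd => by simp [hd]) (by simp)] at h1
      simp only [Pi.smul_apply, Pi.single_eq_same, smul_eq_mul, mul_one] at h1
      exact (mul_eq_zero.1 h1).resolve_left (hxr a (Finset.mem_univ a))
    apply hQ0
    have hu : IsUnit (Y x) := (Matrix.isUnit_iff_isUnit_det _).2 (hY x hx).2.1.isUnit
    exact hu.mul_right_eq_zero.1 hz

theorem core5N (r : ℕ) [NeZero r] : ∃ k : ℕ, ∀ (n : ℕ) (Mov : Finset (Fin n)) (t : Fin n → ℂ)
    (A : Fin n → Matrix (Fin r) (Fin r) ℂ), Gen Mov t → (Function.Injective fun i => (t i).re) →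
    Irred t A → ManyRam k Mov t A → PCN t A → AlgSol t A := by
  classical
  obtain ⟨k, hk⟩ := group_finiteQ r
  refine ⟨k, fun n Mov t A ht hre hpr hq hpc => ?_⟩
  obtain ⟨M, w, θ, hZ, hF, hG, hw, hA⟩ := exists_model4 ht (cycH_ne_zero_of_irred hpr) hpc
  obtain ⟨κ, H0, hκ, hH0, hc, hb⟩ := exists_core Mov t
  generalize hHe : (1 + κ) * H0 = H at hb
  have hH : 0 < H := hHe ▸ mul_pos (by linarith) hH0
  have hwt : (fun i => w (Sum.inl i)) = t := funext hw
  have hmon : mon2 M.toModel2 H (w, θ) = vt (TT t A) (pp t) H := by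
    simp only [mon2, hwt, hA]
  have hcham : w ∈ Cham M.m (fun i => (t i).re) H := by
    refine ⟨by rw [hwt]; exact hb, fun a b hab => ?_⟩
    rw [hw, hw]; exact hab
  have ho : LoopsQ Mov (fun i => (t i).re) (vt (TT t A) (pp t) H) := by
    intro μ hμ l hl hM
    have := path4 M hκ hH0 hHe.le hZ (by rw [hwt]; exact hc) μ hre
      (fun a b _ _ hab => by rw [hw, hw]; exact hab) hμ hl hM (Sl.refl Mov w) hcham hG hF
    rwa [hmon] at this
  have h1 : ∀ i, QU (vt (TT t A) (pp t) H i).val := fun i => by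
    have := arc4_single M hre i hcham hZ hG hF
    rwa [hmon] at this
  set U : Set ℂ := {x | ∀ i, x.im < (t i).im} with hU
  have hUo : IsOpen U := by
    rw [hU, ofPred_forall]
    exact isOpen_iInter_of_finite fun i => isOpen_lt Complex.continuous_im continuous_const
  have hUc : Convex ℝ U := by
    rw [hU, ofPred_forall]
    exact convex_iInter fun i => convex_halfSpace_im_lt _
  have hx₀ : cpt (-H, -H) ∈ U := fun i => by
    have := (hb i).2
    simp only [pp, cpt] at this ⊢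
    exact (abs_lt.1 this).1
  have hY : ∀ x ∈ U, (∀ i, x ≠ t i) ∧ (T t A (cpt (-H, -H)) x).det ≠ 0 ∧
      HasDerivAt (T t A (cpt (-H, -H))) (sys t A x * T t A (cpt (-H, -H)) x) x := by
    intro x hx
    refine ⟨fun i h => lt_irrefl _ (h ▸ hx i), ?_, hasDerivAt_T A fun i hi => ?_⟩
    · exact ((Matrix.isUnit_iff_isUnit_det _).1 (isUnit_Tr _)).ne_zero
    · exact lt_irrefl _ (hUc.segment_subset hx₀ hx hi i)
  have hext := extProp hre A hH.le hb
  have hi : IrrT (vt (TT t A) (pp t) H) :=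
    irrT_of_irredQ hpr h1 hUo hx₀ (T_self _ _ _) hY hext
  have hfin : Finite (Subgroup.closure (Set.range (vt (TT t A) (pp t) H))) := by
    refine hk n Mov _ _ hre h1 hi ho
      fun Z hZ ⟨z₀, hz₀, hns⟩ => ?_
    obtain ⟨W, hW, hWm⟩ := exists_subEnd hUo hY Z
    obtain ⟨Φ, hΦ, c, hc0, hΦc⟩ := fact_ontoQ h1 hx₀ (hY _ hx₀).1 (T_self _ _ _) hext
      (Z := Subalgebra.toSubmodule Z) hZ hz₀
    obtain ⟨M', h2, h3, h4⟩ := hq W hW ⟨Φ, (hWm Φ).2 hΦ, fun q hq' => hns
      ⟨c⁻¹ * q.eval (cpt (-H, -H)), by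
        rw [mul_smul, eq_inv_smul_iff₀ hc0, ← hΦc, hq']
        ext a b
        by_cases hab : a = b <;> simp [hab]⟩⟩
    refine ⟨M', h2, h3, fun i hi => ?_⟩
    obtain ⟨Ψ, hΨ, hne⟩ := h4 i hi
    by_contra hcon
    push Not at hcon
    refine hne (comm_exp hre A hb Ψ i fun y hy => ?_)
    obtain ⟨z, hz, e⟩ := (hWm Ψ).1 hΨ y hy
    exact ⟨z, hcon z hz, e⟩
  obtain ⟨ε, hε, hball⟩ := Metric.isOpen_iff.1 hUo _ hx₀
  refine ⟨cpt (-H, -H), ε, T t A (cpt (-H, -H)), hε, fun x hx => ?_, fun a b => ?_⟩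
  · obtain ⟨h1, h2, h3⟩ := hY x (hball hx)
    exact ⟨h1, h2, hasDerivAt_mat.1 h3⟩
  · obtain ⟨P, hP, h⟩ := alg_of_finite hfin hext a b
    exact ⟨P, hP, fun x hx => h x (hball hx)⟩

theorem final5N (r : ℕ) (hr : 1 ≤ r) : ∃ k : ℕ, ∀ (n : ℕ) (R : Type) [CommRing R]
    [Algebra.FiniteType ℤ R] (ι : R →+* ℂ), Function.Injective ι → ∀ (t : Fin n → R)
    (A : Fin n → Matrix (Fin r) (Fin r) R) (M : Finset (Fin n)) (P₀ : ℕ), Function.Injective t →
    (AlgebraicIndependent (IntermediateField.adjoin ℚ {x : ℂ | ∃ j, j ∉ M ∧ x = ι (t j)})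
      fun i : M => ι (t i)) →
    Irred (fun i => ι (t i)) (fun i => (A i).map ι) →
    ManyRam k M (fun i => ι (t i)) (fun i => (A i).map ι) →
    (∀ p : ℕ, p.Prime → P₀ < p → ∀ m : Ideal R, m.IsMaximal → (p : R) ∈ m →
      NilCurv p (fun i => Ideal.Quotient.mk m (t i)) fun i => (A i).map (Ideal.Quotient.mk m)) →
    ∀ φ : R →+* ℂ, AlgSol (fun i => φ (t i)) fun i => (A i).map φ := by
  classical
  have : NeZero r := ⟨by omega⟩
  obtain ⟨k, hk⟩ := core5N r
  refine ⟨k, fun n R _ _ ι hι t A M P₀ ht hind hpr hq hp φ => ?_⟩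
  have hinj : Function.Injective fun i => ι (t i) := hι.comp ht
  have hgen : Gen M fun i => ι (t i) :=
    ⟨(IntermediateField.adjoin ℚ {x : ℂ | ∃ j, j ∉ M ∧ x = ι (t j)}).toSubalgebra.toSubring,
      fun j hj => IntermediateField.subset_adjoin ℚ _ ⟨j, hj, rfl⟩, hind⟩
  obtain ⟨t', c, hc, htt, hgen', hre⟩ := exists_rotation3 hinj hgen
  have hpc := pcn_of_nil ι hι hp
  exact AlgSol.spec ι φ hι t A (AlgSol.aff hc htt (hk n M t' _ hgen' hre (hpr.aff hc htt)
    (hq.aff hc htt) (hpc.aff hc htt)))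

end Pool.Agent.GR.NP
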