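import Pool.Agent.Lib.MP_aa40d3_nt.NP.Defs
import Pool.Agent.Lib.MP_aa40d3_nt.CV.GauA
import Pool.Agent.Lib.MP_aa40d3_nt.CV.PushA
import Pool.Agent.Lib.MP_aa40d3_nt.CV.KatC

/-! Transport of triangular bases of algebraic functions: gauge and direct image. -/

open Polynomial Matrix
open scoped Polynomial.Bivariate

namespace Pool.Agent.GR.NP

open Pool.Agent.GR.CV

section gauge
variable {N n : ℕ} {D D' ρ : ℂ[X]} {B B' G : PM N}

theorem algMT_of_algSolT {t : Fin n → ℂ} {A : Fin n → Matrix (Fin N) (Fin N) ℂ}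
    (h : AlgSolT t A) : AlgMT (dl t) (pm t A) := by
  obtain ⟨x₀, ε, U, T, hε, h1, h2⟩ := h
  refine ⟨x₀, ε, U, T, hε, fun x hx => ?_, h2⟩
  obtain ⟨hne, hd, hT, hD⟩ := h1 x hx
  have h0 := mono_dl_ne t hne
  refine ⟨h0, hd, hT, fun a b => ?_⟩
  have e : (pm t A).map (eval x) = (dl t).eval x • ∑ i, (x - t i)⁻¹ • A i := by
    ext a b
    exact mono_pm t A hne a b
  rw [e, Matrix.smul_mul, smul_smul, inv_mul_cancel₀ h0, one_smul]
  exact hD a b

theorem gau_algMT (h : Gau D B D' B' ρ G) (hD : D ≠ 0) (hρ : ρ ≠ 0) (hG : G.det ≠ 0)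
    (hA : AlgMT D' B') : AlgMT D B := by
  obtain ⟨x₀, ε, V, T, hε, h1, h2⟩ := hA
  obtain ⟨x₁, η, hη, hsub, hne⟩ := exists_ball (mul_ne_zero (mul_ne_zero hD hρ) hG) x₀ hε
  have hne' : ∀ x ∈ Metric.ball x₁ η, D.eval x ≠ 0 ∧ ρ.eval x ≠ 0 ∧ G.det.eval x ≠ 0 := by
    intro x hx
    have := hne x hx
    simp only [eval_mul, ne_eq, mul_eq_zero, not_or] at this
    exact ⟨this.1.1, this.1.2, this.2⟩
  set U : ℂ → Matrix (Fin N) (Fin N) ℂ := fun x =>
    (ρ.eval x * (G.det.eval x)⁻¹) • (G.adjugate.map (eval x) * V x) with hU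
  have hrel : ∀ x ∈ Metric.ball x₁ η, G.map (eval x) * U x = ρ.eval x • V x := by
    intro x hx
    simp only [hU]
    rw [Matrix.mul_smul, ← Matrix.mul_assoc, gaua_adj, Matrix.smul_mul, Matrix.one_mul, smul_smul,
      mul_assoc, inv_mul_cancel₀ (hne' x hx).2.2, mul_one]
  refine ⟨x₁, η, U, T, hη, fun x hx => ?_, fun a b => ?_⟩
  · obtain ⟨hDx, hρx, hGx⟩ := hne' x hx
    obtain ⟨hD'x, hVx, hT, hV⟩ := h1 x (hsub hx)
    refine ⟨hDx, ?_, hT, ?_⟩
    · intro h0
      have e := congrArg Matrix.det (hrel x hx)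
      rw [det_mul, h0, mul_zero, det_smul] at e
      exact mul_ne_zero (pow_ne_zero _ hρx) hVx e.symm
    · obtain ⟨U', hU'⟩ : ∃ U' : Matrix (Fin N) (Fin N) ℂ,
          ∀ a b, HasDerivAt (fun z => U z a b) (U' a b) x :=
        ⟨_, gaua_smul ((ρ.hasDerivAt x).fun_mul ((G.det.hasDerivAt x).fun_inv hGx))
          (gaua_mul (gaua_poly G.adjugate x) hV)⟩
      have e1 : (G.map derivative).map (eval x) * U x + G.map (eval x) * U' =
          (derivative ρ).eval x • V x +
            ρ.eval x • ((D'.eval x)⁻¹ • (B'.map (eval x) * V x) + V x * T x) := by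
        ext a b
        refine (gaua_mul (gaua_poly G x) hU' a b).unique ?_
        refine (gaua_smul (ρ.hasDerivAt x) hV a b).congr_of_eventuallyEq ?_
        filter_upwards [Metric.isOpen_ball.mem_nhds hx] with z hz
        rw [hrel z hz]
      have e2 := congrArg (· * U x) (gaua_eval h x)
      simp only [Matrix.smul_mul, Matrix.add_mul, Matrix.sub_mul, Matrix.mul_assoc, hrel x hx,
        Matrix.mul_smul] at e2
      have e3 : G.map (eval x) * U' =
          G.map (eval x) * ((D.eval x)⁻¹ • (B.map (eval x) * U x) + U x * T x) := by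
        rw [Matrix.mul_add, Matrix.mul_smul, ← Matrix.mul_assoc _ (U x), hrel x hx, Matrix.smul_mul]
        ext a b
        have f1 := congrFun (congrFun e1 a) b
        have f2 := congrFun (congrFun e2 a) b
        simp only [Matrix.add_apply, Matrix.sub_apply, Matrix.smul_apply, smul_eq_mul] at f1 f2 ⊢
        field_simp at f1 f2 ⊢
        apply mul_left_cancel₀ hD'x
        linear_combination D.eval x * f1 - f2
      have hu : IsUnit (G.map (eval x)).det := by
        rw [gaua_det]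
        exact hGx.isUnit
      have e4 : U' = (D.eval x)⁻¹ • (B.map (eval x) * U x) + U x * T x := by
        have := congrArg ((G.map (eval x))⁻¹ * ·) e3
        simpa only [← Matrix.mul_assoc, nonsing_inv_mul _ hu, Matrix.one_mul] using this
      rw [← e4]
      exact hU'
  · have hV : ∀ a b, AlgF (Metric.ball x₁ η) fun x => V x a b := fun a b =>
      AlgF.mono (h2 a b) hsub
    have hG' : ∀ a b, AlgF (Metric.ball x₁ η) fun x => G.adjugate.map (eval x) a b := fun a b =>
      algF_poly _ (G.adjugate a b)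
    exact ((algF_poly _ ρ).mul (algF_inv hG fun x hx => (hne' x hx).2.2)).mul
      (AlgF.mat_mul hG' hV a b)

end gauge

section push
variable {r d N : ℕ} {S : CV.Sys ℂ r} {q : ℂ[X][Y]} {δ : ℂ[X]}

/-- Among the sets of columns with a minor that is not zero somewhere on `V` take one with the
least sum of indices; by Cramer's rule each column is a combination of chosen columns with smaller
or equal index. -/
theorem exists_echelon {V : Set ℂ} {W : ℂ → Matrix (Fin r) (Fin N) ℂ} {x₀ : ℂ} (h0 : x₀ ∈ V)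
    {σ₀ : Fin r → Fin N} (h1 : ((W x₀).submatrix id σ₀).det ≠ 0) :
    ∃ (σ : Fin r → Fin N) (x₁ : ℂ), Monotone σ ∧ x₁ ∈ V ∧ ((W x₁).submatrix id σ).det ≠ 0 ∧
      ∀ x ∈ V, ((W x).submatrix id σ).det ≠ 0 → ∃ c : Matrix (Fin r) (Fin N) ℂ,
        W x = (W x).submatrix id σ * c ∧ ∀ a j, j < σ a → c a j = 0 := by
  classical
  obtain ⟨σ, hσ, hm⟩ := Finset.exists_min_image
    (Finset.univ.filter fun σ : Fin r → Fin N => ∃ x ∈ V, ((W x).submatrix id σ).det ≠ 0)
    (fun σ => ∑ a, (σ a : ℕ)) ⟨σ₀, Finset.mem_filter.2 ⟨Finset.mem_univ _, x₀, h0, h1⟩⟩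
  obtain ⟨x₁, h2, h3⟩ := (Finset.mem_filter.1 hσ).2
  refine ⟨σ ∘ Tuple.sort σ, x₁, Tuple.monotone_sort σ, h2, fun h => h3 ?_,
    fun x hx h => ⟨_, katc_cramer (W x) h, fun a j hj => ?_⟩⟩
  · have h4 := det_permute' (Tuple.sort σ) ((W x₁).submatrix id σ)
    rw [submatrix_submatrix, Function.comp_id, h] at h4
    exact (mul_eq_zero.1 h4.symm).resolve_left (by simp)
  · refine mul_eq_zero_of_right _ (by_contra fun h4 => ?_)
    have h5 := hm _ (Finset.mem_filter.2 ⟨Finset.mem_univ _, x, hx, h4⟩)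
    rw [← Equiv.sum_comp (Tuple.sort σ)] at h5
    refine absurd h5 (not_le.2 (Finset.sum_lt_sum (fun b _ => ?_) ⟨a, Finset.mem_univ _, ?_⟩))
    · rw [Function.update_apply]
      split_ifs with hb
      · exact hb ▸ hj.le
      · exact le_rfl
    · rw [Function.update_self]
      exact hj

theorem push_algT (h : Prep S d q δ) (hd : d ≠ 0) (hA : AlgMT (δ * S.D) (pB S d q δ)) :
    S.AlgTri := by
  obtain ⟨x₀, ε, U, T, hε, hU, hQ⟩ := hA
  have hx₀ := hU x₀ (Metric.mem_ball_self hε)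
  obtain ⟨y₀, h0, h1⟩ := pusha_root h hd (left_ne_zero_of_mul (eval_mul.symm.trans_ne hx₀.1))
  obtain ⟨y, hy⟩ := exists_branch h0 h1
  have hZ : ∀ᶠ x in nhds x₀, ∀ a b, HasDerivAt (fun z => (Om r d (y z) * U z) a b)
      (((S.D.eval x)⁻¹ • (S.A.map (evalEval x (y x)) * (Om r d (y x) * U x)) +
        Om r d (y x) * U x * T x) a b) x := by
    filter_upwards [hy.eventually_nhds, Metric.ball_mem_nhds x₀ hε] with x hx hb a b
    have hdy := hx.self_of_nhds.1.hasDerivAt
    have h2 := pusha_eq h hx.self_of_nhds.2 (hU x hb).1 (h.deriv hdy (hx.mono fun _ t => t.2))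
    have h5 := congrArg (fun M => (M * U x + Om r d (y x) * U x * T x) a b) h2
    refine (pusha_mul (F' := _root_.deriv y x • Om' r d (y x)) (hasDerivAt_om hdy)
      (hU x hb).2.2.2 a b).congr_deriv ?_
    simpa only [Matrix.add_mul, Matrix.mul_add, Matrix.smul_mul, Matrix.mul_smul,
      Matrix.mul_assoc, add_assoc] using h5
  obtain ⟨η, hη, hb⟩ := Metric.eventually_nhds_iff_ball.1
    ((hy.and hZ).and (Metric.ball_mem_nhds x₀ hε))
  obtain ⟨σ₀, h2⟩ := exists_minor (katc_det (r := r) hd (y x₀) hx₀.2.1)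
  obtain ⟨σ, x₁, hσ, h3, h4, h5⟩ := exists_echelon (V := Metric.ball x₀ η)
    (W := fun x => Om r d (y x) * U x) (Metric.mem_ball_self hη) h2
  have hc : ContinuousAt (fun z => ((Om r d (y z) * U z).submatrix id σ).det) x₁ :=
    (continuous_id.matrix_det.continuousAt).comp (continuousAt_pi.2 fun a => continuousAt_pi.2
      fun b => ((hb x₁ h3).1.2 a (σ b)).continuousAt)
  obtain ⟨θ, hθ, hb'⟩ := Metric.eventually_nhds_iff_ball.1
    ((hc.eventually_ne h4).and (Metric.isOpen_ball.mem_nhds h3))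
  choose! c hc1 hc2 using h5
  refine ⟨x₁, θ, y, fun z => (Om r d (y z) * U z).submatrix id σ,
    fun z => (c z * T z).submatrix id σ, hθ, fun x hx => ?_, fun a b => ?_⟩
  · obtain ⟨k1, k2⟩ := hb' x hx
    obtain ⟨⟨k3, k4⟩, k5⟩ := hb x k2
    refine ⟨k3.1, k3.2, right_ne_zero_of_mul (eval_mul.symm.trans_ne (hU x k5).1), k1,
      fun a b hab => ?_, fun a b => (k4 a (σ b)).congr_deriv ?_⟩
    · change ∑ j, c x a j * T x j (σ b) = 0
      refine Finset.sum_eq_zero fun j _ => ?_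
      rcases lt_or_ge j (σ a) with k6 | k6
      · exact mul_eq_zero_of_left (hc2 x k2 k1 a j k6) _
      · exact mul_eq_zero_of_right _ ((hU x k5).2.2.1 j (σ b) ((hσ hab).trans k6))
    · rw [Matrix.add_apply, Matrix.add_apply, katc_col (hc1 x k2 k1)]
      rfl
  · have hya : AlgF (Metric.ball x₁ θ) y :=
      ⟨S.P, h.1.ne_zero, fun x hx => (hb x (hb' x hx).2).1.1.2⟩
    refine AlgF.mat_mul (V := Metric.ball x₁ θ) (fun a j => ?_)
      (fun a j => AlgF.mono (hQ a j) fun x hx => (hb x (hb' x hx).2).2) a (σ b)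
    by_cases e : a = co j
    · simp only [Om, Matrix.of_apply, if_pos e]
      exact hya.pow _
    · simp only [Om, Matrix.of_apply, if_neg e]
      exact algF_const _ _

end push

end Pool.Agent.GR.NP
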