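import Pool.Agent.Lib.MP_aa40d3_nt.NP.Defs
import Pool.Agent.Lib.MP_aa40d3_nt.CV.GauL
import Pool.Agent.Lib.MP_aa40d3_nt.GR.MatAn

/-! Formal solutions at a regular singular point converge. -/

open Polynomial Matrix Set

namespace Pool.Agent.GR.NP

variable {n N m : ℕ}

theorem cv1_rec {u : ℕ → ℝ} (hu : ∀ k, 0 ≤ u k) {b : ℝ} (hb : 0 ≤ b) (K : ℕ)
    (h : ∀ k, K ≤ k → u k ≤ b * ∑ l ∈ Finset.range k, u l) :
    ∃ c : ℝ, ∀ k, u k ≤ c * (b + 1) ^ k := by
  have hc : 0 ≤ ∑ l ∈ Finset.range K, u l := Finset.sum_nonneg fun l _ => hu l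
  refine ⟨∑ l ∈ Finset.range K, u l, fun k => ?_⟩
  induction k using Nat.strong_induction_on with
  | _ k ih =>
    rcases lt_or_ge k K with hk | hk
    · have h1 : u k ≤ ∑ l ∈ Finset.range K, u l :=
        Finset.single_le_sum (fun l _ => hu l) (Finset.mem_range.2 hk)
      exact h1.trans (le_mul_of_one_le_right hc (one_le_pow₀ (by linarith)))
    · have h1 : ∑ l ∈ Finset.range k, u l ≤
          ∑ l ∈ Finset.range k, (∑ l ∈ Finset.range K, u l) * (b + 1) ^ l :=
        Finset.sum_le_sum fun l hl => ih l (Finset.mem_range.1 hl)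
      rw [← Finset.mul_sum] at h1
      have h2 := geom_sum_mul_add b k
      have h3 := mul_le_mul_of_nonneg_left h1 hb
      have h4 := h k hk
      rw [← h2]
      nlinarith

theorem cv1_bd (p : ℂ[X]) : ∃ b : ℝ, 0 ≤ b ∧ ∀ l, ‖p.coeff l‖ ≤ b := by
  refine ⟨∑ l ∈ p.support, ‖p.coeff l‖, Finset.sum_nonneg fun _ _ => norm_nonneg _, fun l => ?_⟩
  by_cases hl : l ∈ p.support
  · exact Finset.single_le_sum (f := fun l => ‖p.coeff l‖) (fun _ _ => norm_nonneg _) hl
  · rw [notMem_support_iff.1 hl, norm_zero]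
    exact Finset.sum_nonneg fun _ _ => norm_nonneg _

theorem cv1_coeff (f : PowerSeries ℂ) (k : ℕ) :
    PowerSeries.coeff k (PowerSeries.X * PowerSeries.derivative ℂ f) =
      k * PowerSeries.coeff k f := by
  cases k with
  | zero => simp
  | succ k =>
    rw [PowerSeries.coeff_succ_X_mul, PowerSeries.coeff_derivative]
    push_cast
    ring

theorem cv1_cps (p : ℂ[X]) (k : ℕ) : PowerSeries.coeff k (cps p) = p.coeff k :=
  Polynomial.coeff_coe p k

theorem cv1_cpsX : cps (X : ℂ[X]) = PowerSeries.X := Polynomial.coe_X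

theorem cv1_cpsC (c : ℂ) : cps (C c) = PowerSeries.C c := Polynomial.coe_C c

theorem cv1_eq {a : ℂ[X]} {M : CV.PM N} {w : Fin N → PowerSeries ℂ}
    (h : ((cps (a * X) : PowerSeries ℂ) • fun i => PowerSeries.derivative ℂ (w i)) +
      w ᵥ* M.map cps = 0) (i : Fin N) :
    cps a * (PowerSeries.X * PowerSeries.derivative ℂ (w i)) + ∑ j, cps (M j i) * w j = 0 := by
  have h1 := congrFun h i
  simp only [Pi.add_apply, Pi.smul_apply, smul_eq_mul, Pi.zero_apply, vecMul, dotProduct,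
    map_apply, map_mul, cv1_cpsX] at h1
  rw [← h1, mul_assoc]
  congr 1
  exact Finset.sum_congr rfl fun j _ => mul_comm _ _

theorem cv1_mul (p : ℂ[X]) (f : PowerSeries ℂ) (k : ℕ) :
    PowerSeries.coeff k (cps p * f) =
      ∑ l ∈ Finset.range (k + 1), PowerSeries.coeff l f * p.coeff (k - l) := by
  rw [mul_comm, PowerSeries.coeff_mul,
    Finset.Nat.sum_antidiagonal_eq_sum_range_succ
      (fun x y => PowerSeries.coeff x f * PowerSeries.coeff y (cps p))]
  simp only [cv1_cps]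

/-- Compare coefficients: `(k a (0) + M (0)) w k` is a combination of the preceding
`max (deg a) (deg M)` coefficients with factors `O (k)`; for large `k` the matrix
`a (0) + M (0) / k` has a bounded inverse. -/
theorem conv_core {a : ℂ[X]} (ha : a.eval 0 ≠ 0) {M : CV.PM N} {w : Fin N → PowerSeries ℂ}
    (h : ((cps (a * X) : PowerSeries ℂ) • fun i => PowerSeries.derivative ℂ (w i)) +
      w ᵥ* M.map cps = 0) :
    ∃ c ρ : ℝ, 0 < ρ ∧ ∀ i k, ‖PowerSeries.coeff k (w i)‖ ≤ c * ρ ^ k := by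
  obtain ⟨b, hb0, hb1, hb2⟩ : ∃ b : ℝ, 0 ≤ b ∧ (∀ l, ‖a.coeff l‖ ≤ b) ∧
      ∀ j i l, ‖(M j i).coeff l‖ ≤ b := by
    obtain ⟨b, h0, h1⟩ := cv1_bd a
    choose e e0 e1 using fun q : Fin N × Fin N => cv1_bd (M q.1 q.2)
    have h2 : 0 ≤ ∑ q, e q := Finset.sum_nonneg fun q _ => e0 q
    refine ⟨b + ∑ q, e q, by linarith, fun l => by linarith [h1 l], fun j i l => ?_⟩
    have h3 : e (j, i) ≤ ∑ q, e q := Finset.single_le_sum (fun q _ => e0 q) (Finset.mem_univ _)
    linarith [e1 (j, i) l]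
  have ha0 : 0 < ‖a.coeff 0‖ := by
    rw [coeff_zero_eq_eval_zero]
    exact norm_pos_iff.2 ha
  obtain ⟨u, hu⟩ : ∃ u : ℕ → ℝ, ∀ k, u k = ∑ i, ‖PowerSeries.coeff k (w i)‖ := ⟨_, fun _ => rfl⟩
  have hu0 : ∀ k, 0 ≤ u k := fun k => by
    rw [hu]
    exact Finset.sum_nonneg fun _ _ => norm_nonneg _
  have key : ∀ (k : ℕ) (i : Fin N), ‖a.coeff 0‖ * k * ‖PowerSeries.coeff k (w i)‖ ≤
      k * b * ∑ l ∈ Finset.range k, ‖PowerSeries.coeff l (w i)‖ +
        b * ∑ l ∈ Finset.range (k + 1), u l := by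
    intro k i
    have h1 := congrArg (PowerSeries.coeff k) (cv1_eq h i)
    rw [map_add, map_sum, map_zero, cv1_mul, Finset.sum_range_succ, Nat.sub_self] at h1
    simp only [cv1_coeff, cv1_mul] at h1
    have h2 : (k : ℂ) * PowerSeries.coeff k (w i) * a.coeff 0 =
        -(∑ l ∈ Finset.range k, (l : ℂ) * PowerSeries.coeff l (w i) * a.coeff (k - l)) -
          ∑ j, ∑ l ∈ Finset.range (k + 1), PowerSeries.coeff l (w j) * (M j i).coeff (k - l) := by
      linear_combination h1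
    have h3 : ‖∑ l ∈ Finset.range k, (l : ℂ) * PowerSeries.coeff l (w i) * a.coeff (k - l)‖ ≤
        k * b * ∑ l ∈ Finset.range k, ‖PowerSeries.coeff l (w i)‖ := by
      rw [Finset.mul_sum]
      refine norm_sum_le_of_le _ fun l hl => ?_
      have h4 : (l : ℝ) ≤ k := by exact_mod_cast (Finset.mem_range.1 hl).le
      rw [norm_mul, norm_mul, Complex.norm_natCast, mul_right_comm]
      have := hb1 (k - l)
      gcongr
    have h4 : ‖∑ j, ∑ l ∈ Finset.range (k + 1),
        PowerSeries.coeff l (w j) * (M j i).coeff (k - l)‖ ≤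
          b * ∑ l ∈ Finset.range (k + 1), u l := by
      rw [Finset.sum_comm, Finset.mul_sum]
      refine norm_sum_le_of_le _ fun l _ => ?_
      rw [hu, Finset.mul_sum]
      refine norm_sum_le_of_le _ fun j _ => ?_
      rw [norm_mul, mul_comm]
      have := hb2 j i (k - l)
      gcongr
    have h5 := congrArg norm h2
    rw [norm_mul, norm_mul, Complex.norm_natCast] at h5
    have h6 := norm_sub_le
      (-(∑ l ∈ Finset.range k, (l : ℂ) * PowerSeries.coeff l (w i) * a.coeff (k - l)))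
      (∑ j, ∑ l ∈ Finset.range (k + 1), PowerSeries.coeff l (w j) * (M j i).coeff (k - l))
    rw [norm_neg, ← h5] at h6
    linarith
  obtain ⟨K, hK⟩ := exists_nat_ge (2 * (N * b) / ‖a.coeff 0‖)
  rw [div_le_iff₀ ha0] at hK
  obtain ⟨c, hc⟩ := cv1_rec hu0 (b := 2 * (b + N * b) / ‖a.coeff 0‖) (by positivity) (K + 1)
    fun k hk => by
      have h1 := Finset.sum_le_sum fun i (_ : i ∈ Finset.univ) => key k i
      rw [← Finset.mul_sum, ← hu, Finset.sum_add_distrib, ← Finset.mul_sum, Finset.sum_comm,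
        Finset.sum_const, Finset.card_univ, Fintype.card_fin, nsmul_eq_mul,
        Finset.sum_range_succ] at h1
      simp only [← hu] at h1
      have h2 : (K : ℝ) + 1 ≤ k := by exact_mod_cast hk
      have h3 : (0 : ℝ) ≤ K := Nat.cast_nonneg K
      have h4 : 0 ≤ ∑ l ∈ Finset.range k, u l := Finset.sum_nonneg fun l _ => hu0 l
      generalize ∑ l ∈ Finset.range k, u l = S at h1 h4
      have h5 := hu0 k
      have h6 : 0 ≤ (N : ℝ) * b := by positivity
      have h7 : 2 * (N * b) * u k ≤ k * ‖a.coeff 0‖ * u k :=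
        mul_le_mul_of_nonneg_right
          (hK.trans (mul_le_mul_of_nonneg_right (by linarith) ha0.le)) h5
      have h8 : 1 * ((N : ℝ) * b * S) ≤ k * (N * b * S) := by
        gcongr
        linarith
      rw [div_mul_eq_mul_div, le_div_iff₀ ha0]
      refine le_of_mul_le_mul_left (a := (k : ℝ)) ?_ (by linarith)
      nlinarith
  refine ⟨c, _, by positivity, fun i k => le_trans ?_ (hc k)⟩
  rw [hu]
  exact Finset.single_le_sum (f := fun i => ‖PowerSeries.coeff k (w i)‖)
    (fun _ _ => norm_nonneg _) (Finset.mem_univ i)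

/-- The series `f` has the sum `v` at `s`. -/
def cv1_R (f : PowerSeries ℂ) (s v : ℂ) : Prop :=
  HasSum (fun k => PowerSeries.coeff k f * s ^ k) v

theorem cv1_add {f g : PowerSeries ℂ} {s v v' : ℂ} (h : cv1_R f s v) (h' : cv1_R g s v') :
    cv1_R (f + g) s (v + v') := by
  unfold cv1_R
  simp only [map_add, add_mul]
  exact h.add h'

theorem cv1_zero (s : ℂ) : cv1_R 0 s 0 := by
  unfold cv1_R
  simp only [map_zero, zero_mul]
  exact hasSum_zero

theorem cv1_sum {ι : Type} (t : Finset ι) {f : ι → PowerSeries ℂ} {s : ℂ} {v : ι → ℂ}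
    (h : ∀ j, cv1_R (f j) s (v j)) : cv1_R (∑ j ∈ t, f j) s (∑ j ∈ t, v j) := by
  classical
  induction t using Finset.induction_on with
  | empty => simpa using cv1_zero s
  | insert x t hx ih =>
    rw [Finset.sum_insert hx, Finset.sum_insert hx]
    exact cv1_add (h x) ih

theorem cv1_C {f : PowerSeries ℂ} {s v : ℂ} (c : ℂ) (h : cv1_R f s v) :
    cv1_R (PowerSeries.C c * f) s (c * v) := by
  unfold cv1_R
  simp only [PowerSeries.coeff_C_mul, mul_assoc]
  exact HasSum.mul_left c h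

theorem cv1_X {f : PowerSeries ℂ} {s v : ℂ} (h : cv1_R f s v) :
    cv1_R (PowerSeries.X * f) s (s * v) := by
  unfold cv1_R
  rw [← hasSum_nat_add_iff' 1]
  simp only [PowerSeries.coeff_succ_X_mul, Finset.range_one, Finset.sum_singleton,
    PowerSeries.coeff_zero_X_mul, zero_mul, sub_zero, pow_succ', mul_left_comm _ s]
  exact HasSum.mul_left s h

theorem cv1_poly {f : PowerSeries ℂ} {s v : ℂ} (p : ℂ[X]) (h : cv1_R f s v) :
    cv1_R (cps p * f) s (p.eval s * v) := by
  induction p using Polynomial.induction_on with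
  | C c =>
    rw [cv1_cpsC, eval_C]
    exact cv1_C c h
  | add p q hp hq =>
    rw [map_add, eval_add, add_mul, add_mul]
    exact cv1_add hp hq
  | monomial k c ih =>
    rw [pow_succ, ← mul_assoc, map_mul, eval_mul, eval_X, cv1_cpsX, mul_comm _ PowerSeries.X,
      mul_comm _ s, mul_assoc, mul_assoc]
    exact cv1_X ih

theorem cv1_an {f : PowerSeries ℂ} {c ρ ε : ℝ} (hρ : 0 < ρ) (hε : ρ * ε ≤ 1 / 2)
    (h : ∀ k, ‖PowerSeries.coeff k f‖ ≤ c * ρ ^ k) :
    ∃ F : ℂ → ℂ, AnalyticOnNhd ℂ F (Metric.ball 0 ε) ∧ ∀ s ∈ Metric.ball (0 : ℂ) ε,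
      cv1_R f s (F s) ∧ cv1_R (PowerSeries.X * PowerSeries.derivative ℂ f) s (s * deriv F s) := by
  have hc : 0 ≤ c := by simpa using (norm_nonneg _).trans (h 0)
  have hu : Summable fun k : ℕ => c * (1 / 2 : ℝ) ^ k := summable_geometric_two.mul_left c
  have hle : ∀ (k : ℕ) (z : ℂ), z ∈ Metric.ball (0 : ℂ) ε →
      ‖PowerSeries.coeff k f * z ^ k‖ ≤ c * (1 / 2 : ℝ) ^ k := fun k z hz => by
    have h1 : ‖z‖ ≤ ε := (mem_ball_zero_iff.1 hz).le
    have h2 : ρ * ‖z‖ ≤ 1 / 2 := le_trans (by gcongr) hε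
    calc ‖PowerSeries.coeff k f * z ^ k‖ ≤ c * ρ ^ k * ‖z‖ ^ k := by
          rw [norm_mul, norm_pow]
          have := h k
          gcongr
      _ = c * (ρ * ‖z‖) ^ k := by rw [mul_pow, mul_assoc]
      _ ≤ _ := by gcongr
  have hd : ∀ k : ℕ, DifferentiableOn ℂ (fun z : ℂ => PowerSeries.coeff k f * z ^ k)
      (Metric.ball 0 ε) := fun k => by fun_prop
  refine ⟨fun z => ∑' k, PowerSeries.coeff k f * z ^ k,
    (Complex.differentiableOn_tsum_of_summable_norm hu hd Metric.isOpen_ball hle).analyticOnNhd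
      Metric.isOpen_ball, fun s hs => ⟨(Summable.of_norm_bounded hu fun k => hle k s hs).hasSum, ?_⟩⟩
  have h1 := (Complex.hasSum_deriv_of_summable_norm hu hd Metric.isOpen_ball hle hs).mul_left s
  unfold cv1_R
  have e : ∀ k : ℕ, PowerSeries.coeff k (PowerSeries.X * PowerSeries.derivative ℂ f) * s ^ k =
      s * deriv (fun z : ℂ => PowerSeries.coeff k f * z ^ k) s := fun k => by
    rw [cv1_coeff, ((hasDerivAt_pow k s).const_mul _).deriv]
    cases k with
    | zero => simp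
    | succ k =>
      rw [Nat.add_sub_cancel]
      ring
  simp only [e]
  exact h1

theorem cv1_uq {F : Fin N → ℂ → ℂ} {A : Fin N → Fin N → ℂ → ℂ} {s : ℂ}
    (hF : ∀ i, AnalyticAt ℂ (F i) s) (hA : ∀ j i, AnalyticAt ℂ (A j i) s)
    (h : ∀ i, ∀ᶠ z in nhds s, deriv (F i) z = ∑ j, F j z * A j i z) (h0 : ∀ i, F i s = 0)
    (i : Fin N) : ∀ᶠ z in nhds s, F i z = 0 := by
  have key : ∀ k : ℕ, ∀ i, (k : ℕ∞) ≤ analyticOrderAt (F i) s := by
    intro k
    induction k with
    | zero => exact fun i => by simp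
    | succ k ih =>
      intro i
      choose g hg hg' using fun j => (natCast_le_analyticOrderAt (hF j)).1 (ih j)
      have h1 : (k : ℕ∞) ≤ analyticOrderAt (deriv (F i)) s := by
        refine (natCast_le_analyticOrderAt (hF i).deriv).2 ⟨fun z => ∑ j, g j z * A j i z,
          Finset.analyticAt_fun_sum _ fun j _ => (hg j).mul (hA j i), ?_⟩
        filter_upwards [h i, Filter.eventually_all.2 hg'] with z h2 h3
        rw [h2, smul_eq_mul, Finset.mul_sum]
        exact Finset.sum_congr rfl fun j _ => by rw [h3 j, smul_eq_mul, mul_assoc]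
      have h2 := (hF i).analyticOrderAt_deriv_add_one
      simp only [h0 i, sub_zero] at h2
      rw [Nat.cast_add_one]
      exact le_of_le_of_eq (add_le_add_left h1 1) h2
  exact analyticOrderAt_eq_top.1 (ENat.eq_top_iff_forall_ge.2 fun k => key k i)

theorem cv1_inj {f : PowerSeries ℂ} (h : ∀ᶠ s in nhds (0 : ℂ), cv1_R f s 0) : f = 0 := by
  have h1 : HasFPowerSeriesAt (0 : ℂ → ℂ)
      (FormalMultilinearSeries.ofScalars ℂ fun k => PowerSeries.coeff k f) 0 := by
    rw [hasFPowerSeriesAt_iff]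
    filter_upwards [h] with s hs
    simpa [cv1_R, mul_comm] using hs
  ext k
  have h2 := congrArg (fun p => p.coeff k) h1.eq_zero
  simp only [FormalMultilinearSeries.coeff_ofScalars] at h2
  exact h2

/-- The sum of the series on a disc: a holomorphic solution, linear in `w`; if it vanishes at one
point `s ≠ 0` it vanishes nearby (uniqueness for the linear system), hence everywhere. -/
theorem conv_sum {a : ℂ[X]} (ha : a.eval 0 ≠ 0) {M : CV.PM N} {w : Fin m → Fin N → PowerSeries ℂ}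
    (hw : LinearIndependent ℂ w)
    (h : ∀ j, ((cps (a * X) : PowerSeries ℂ) • fun i => PowerSeries.derivative ℂ (w j i)) +
      w j ᵥ* M.map cps = 0) :
    ∃ (ε : ℝ) (f : Fin m → ℂ → Fin N → ℂ), 0 < ε ∧ ∀ s ∈ Metric.ball (0 : ℂ) ε \ {0},
      a.eval s ≠ 0 ∧ (LinearIndependent ℂ fun j => f j s) ∧ ∀ j i, HasDerivAt (fun z => f j z i)
        (-((a.eval s * s)⁻¹ * (f j s ᵥ* M.map (eval s)) i)) s := by
  choose c ρ hρ hc using fun j => conv_core ha (h j)
  obtain ⟨δ, hδ, hδa⟩ : ∃ δ > 0, ∀ s ∈ Metric.ball (0 : ℂ) δ, a.eval s ≠ 0 :=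
    Metric.eventually_nhds_iff_ball.1 (a.continuous.continuousAt.eventually_ne ha)
  have hS : 0 ≤ ∑ j, ρ j := Finset.sum_nonneg fun j _ => (hρ j).le
  obtain ⟨ε, hε, hε1, hε2⟩ : ∃ ε : ℝ, 0 < ε ∧ ε ≤ δ ∧ ∀ j, ρ j * ε ≤ 1 / 2 := by
    refine ⟨min δ (1 / 2 / (∑ j, ρ j + 1)), by positivity, min_le_left _ _, fun j => ?_⟩
    have h1 : ρ j ≤ ∑ j, ρ j := Finset.single_le_sum (fun j _ => (hρ j).le) (Finset.mem_univ j)
    have h2 := min_le_right δ (1 / 2 / (∑ j, ρ j + 1))
    rw [le_div_iff₀ (by positivity)] at h2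
    have h3 : 0 ≤ min δ (1 / 2 / (∑ j, ρ j + 1)) := by positivity
    nlinarith
  choose F hF hR using fun j i => cv1_an (hρ j) (hε2 j) (hc j i)
  have hane : ∀ s ∈ Metric.ball (0 : ℂ) ε, a.eval s ≠ 0 := fun s hs =>
    hδa s (Metric.ball_subset_ball hε1 hs)
  have hD : ∀ s ∈ Metric.ball (0 : ℂ) ε \ {0}, ∀ j i, deriv (F j i) s =
      ∑ l, F j l s * -((a.eval s * s)⁻¹ * (M l i).eval s) := fun s hs j i => by
    have h1 := cv1_add (cv1_poly a (hR j i s hs.1).2)
      (cv1_sum Finset.univ fun l => cv1_poly (M l i) (hR j l s hs.1).1)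
    rw [cv1_eq (h j) i] at h1
    have h2 := HasSum.unique h1 (cv1_zero s)
    have h3 : a.eval s * s ≠ 0 := mul_ne_zero (hane s hs.1) hs.2
    apply mul_left_cancel₀ h3
    rw [mul_assoc, eq_neg_of_add_eq_zero_left h2, Finset.mul_sum, ← Finset.sum_neg_distrib]
    refine Finset.sum_congr rfl fun l _ => ?_
    rw [mul_left_comm, mul_neg, mul_inv_cancel_left₀ h3]
    ring
  refine ⟨ε, fun j s i => F j i s, hε, fun s hs => ⟨hane s hs.1, ?_, fun j i => ?_⟩⟩
  · rw [Fintype.linearIndependent_iff] at hw ⊢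
    intro g hg
    refine hw g (funext fun i => ?_)
    have hG : ∀ i, AnalyticOnNhd ℂ (fun z => ∑ j, g j * F j i z) (Metric.ball 0 ε) :=
      fun i z hz => Finset.analyticAt_fun_sum _ fun j _ => analyticAt_const.mul (hF j i z hz)
    have hp : ∀ p : ℂ[X], AnalyticAt ℂ (fun z => p.eval z) s := fun p =>
      p.differentiable.analyticAt s
    have h1 := cv1_uq (F := fun i z => ∑ j, g j * F j i z)
      (A := fun l i z => -((a.eval z * z)⁻¹ * (M l i).eval z)) (s := s) (fun i => hG i s hs.1)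
      (fun l i => ((((hp a).mul analyticAt_id).inv
        (mul_ne_zero (hane s hs.1) hs.2)).mul (hp _)).neg)
      (fun i => by
        filter_upwards [(Metric.isOpen_ball.sdiff isClosed_singleton).mem_nhds hs] with z hz
        rw [(HasDerivAt.fun_sum fun j _ =>
          (hF j i z hz.1).differentiableAt.hasDerivAt.const_mul (g j)).deriv]
        simp only [hD z hz, Finset.mul_sum, Finset.sum_mul, mul_assoc]
        exact Finset.sum_comm)
      (fun i => by simpa using congrFun hg i) i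
    have h2 := (hG i).eqOn_zero_of_preconnected_of_eventuallyEq_zero
      (convex_ball _ _).isPreconnected hs.1 h1
    rw [Finset.sum_apply]
    refine cv1_inj ?_
    filter_upwards [Metric.ball_mem_nhds (0 : ℂ) hε] with z hz
    have h3 := cv1_sum Finset.univ fun j => cv1_C (g j) (hR j i z hz).1
    have h4 : ∑ j, g j * F j i z = 0 := h2 hz
    rw [h4] at h3
    simpa only [Pi.smul_apply, PowerSeries.smul_eq_C_mul] using h3
  · have h1 := (hF j i s hs.1).differentiableAt.hasDerivAt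
    rw [hD s hs] at h1
    refine h1.congr_deriv ?_
    simp only [vecMul, dotProduct, map_apply, Finset.mul_sum, ← Finset.sum_neg_distrib]
    exact Finset.sum_congr rfl fun l _ => by ring

theorem cv2_cps (p : ℂ[X]) : HahnSeries.ofPowerSeries ℤ ℂ (cps p) = CV.ev CV.sL p :=
  RingHom.congr_fun (f := (HahnSeries.ofPowerSeries ℤ ℂ).comp cps) (Polynomial.ringHom_ext
    (fun c => by simp [cps, CV.ev_apply, CV.alg_eq, HahnSeries.C_apply])
    (by simp [cps, CV.ev_apply, CV.sL])) p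

theorem cv2_der (w : PowerSeries ℂ) : HahnSeries.ofPowerSeries ℤ ℂ (PowerSeries.derivative ℂ w) =
    CV.dL (HahnSeries.ofPowerSeries ℤ ℂ w) := by
  ext k
  rw [CV.dL_coeff]
  rcases lt_trichotomy k (-1) with h | rfl | h
  · rw [CV.ov_series _ k (by omega), CV.ov_series _ _ (by omega), mul_zero]
  · rw [CV.ov_series _ _ (by omega)]
    simp
  · obtain ⟨j, rfl⟩ := Int.eq_ofNat_of_zero_le (show 0 ≤ k by omega)
    rw [← Nat.cast_succ, HahnSeries.ofPowerSeries_apply_coeff, HahnSeries.ofPowerSeries_apply_coeff,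
      PowerSeries.coeff_derivative, mul_comm, Int.cast_natCast]

/-- The same for Laurent series. -/
theorem cv2_sum {a : ℂ[X]} (ha : a.eval 0 ≠ 0) {M : CV.PM N} {u : Fin m → Fin N → CV.LL}
    (hu : LinearIndependent ℂ u) (h : ∀ j i, CV.ev CV.sL a * (CV.sL * CV.dL (u j i)) +
      ∑ b, u j b * CV.ev CV.sL (M b i) = 0) :
    ∃ (ε : ℝ) (f : Fin m → ℂ → Fin N → ℂ), 0 < ε ∧ ∀ s ∈ Metric.ball (0 : ℂ) ε \ {0},
      a.eval s ≠ 0 ∧ (LinearIndependent ℂ fun j => f j s) ∧ ∀ j i, HasDerivAt (fun z => f j z i)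
        (-((a.eval s * s)⁻¹ * ∑ b, f j s b * (M b i).eval s)) s := by
  obtain ⟨k, hk⟩ := CV.exists_ov_fin fun p : Fin m × Fin N => u p.1 p.2
  let w : Fin m → Fin N → PowerSeries ℂ := fun j i => .mk fun p => (u j i).coeff (p - k)
  have hw : ∀ j i, HahnSeries.ofPowerSeries ℤ ℂ (w j i) = CV.sL ^ (k : ℤ) * u j i := fun j i => by
    ext p
    rw [CV.coeff_zpow_mul, PowerSeries.coeff_coe]
    split_ifs with hp
    · exact (hk (j, i) _ (by omega)).symm
    · rw [PowerSeries.coeff_mk, Int.natAbs_of_nonneg (not_lt.1 hp)]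
  obtain ⟨ε, g, hε, hg⟩ := conv_sum ha (M := M - Matrix.diagonal fun _ => k * a) (w := w)
    (Fintype.linearIndependent_iff.2 fun c hc => Fintype.linearIndependent_iff.1 hu c (by
      ext i p
      simp only [Finset.sum_apply, Pi.smul_apply, HahnSeries.coeff_sum, HahnSeries.coeff_smul,
        Pi.zero_apply, HahnSeries.coeff_zero]
      rcases lt_or_ge p (-k) with hp | hp
      · exact Finset.sum_eq_zero fun j _ => by rw [hk (j, i) p hp, smul_zero]
      · have h1 := congrArg (PowerSeries.coeff (p + k).toNat) (congrFun hc i)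
        simpa [w, Int.toNat_of_nonneg (show 0 ≤ p + k by omega)] using h1))
    fun j => funext fun i => HahnSeries.ofPowerSeries_injective (Γ := ℤ) (by
      have h1 := congrArg (CV.sL ^ (k : ℤ) * ·) (h j i)
      simp only [mul_add, Finset.mul_sum, mul_zero, ← mul_assoc] at h1
      simp only [Pi.add_apply, Pi.smul_apply, smul_eq_mul, vecMul, dotProduct, map_add, map_mul,
        map_sum, Matrix.map_apply, cv2_cps, cv2_der, hw, CV.dL_mul, Matrix.sub_apply, map_sub,
        diagonal_apply, mul_sub, Finset.sum_sub_distrib, apply_ite (CV.ev CV.sL), map_zero,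
        mul_ite, mul_zero, Finset.sum_ite_eq', Finset.mem_univ, if_true, Pi.zero_apply, map_natCast]
      have h2 := CV.sdL_zpow k
      rw [show CV.ev CV.sL X = CV.sL from aeval_X _]
      push_cast at h2
      linear_combination h1 + CV.ev CV.sL a * u j i * h2)
  refine ⟨ε, fun j s => s ^ (-k : ℤ) • g j s, hε, fun s hs => ?_⟩
  obtain ⟨h1, h2, h3⟩ := hg s hs
  have h0 : s ≠ 0 := hs.2
  refine ⟨h1, h2.units_smul fun _ => Units.mk0 _ (zpow_ne_zero _ h0), fun j i => ?_⟩
  refine ((hasDerivAt_zpow (-k) s (.inl h0)).mul (h3 j i)).congr_deriv ?_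
  simp only [Pi.smul_apply, smul_eq_mul, vecMul, dotProduct, Matrix.map_apply, Matrix.sub_apply,
    eval_sub, diagonal_apply, apply_ite (eval s), eval_zero, mul_sub, Finset.sum_sub_distrib,
    mul_ite, mul_zero, Finset.sum_ite_eq', Finset.mem_univ, if_true, eval_mul, eval_natCast,
    mul_assoc, ← Finset.mul_sum, zpow_sub_one₀ h0]
  push_cast
  field_simp
  ring

theorem cv2_pm {F : Type} [CommRing F] (e : ℂ[X] →+* F) (t : Fin n → ℂ)
    (A : Fin n → Matrix (Fin N) (Fin N) ℂ) (a b : Fin N) :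
    e (pm t A a b) = ∑ i, (∏ j ∈ Finset.univ.erase i, (e X - e (C (t j)))) * e (C (A i a b)) := by
  simp [pm, Matrix.sum_apply, map_prod]

theorem cv2_inv {c : Fin n → ℂ} (h : ∏ j, c j ≠ 0) (i : Fin n) :
    (∏ j, c j)⁻¹ * ∏ j ∈ Finset.univ.erase i, c j = (c i)⁻¹ := by
  rw [← Finset.mul_prod_erase _ _ (Finset.mem_univ i)] at h ⊢
  rw [mul_inv, mul_assoc, inv_mul_cancel₀ (right_ne_zero_of_mul h), mul_one]

/-- Write `u j = s ^ (-k) w j` with power series `w j`; `dl t (t i + s) = a (s) s`; the `w j` solve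
the system with `M = pm t A (t i + s) - k a`. -/
theorem FS.asp {t : Fin n → ℂ} (ht : Function.Injective t) {A : Fin n → Matrix (Fin N) (Fin N) ℂ}
    {i : Fin n} (h : FS m (dl t) (pm t A) (CV.xt (t i) 1)) : ASp m t A i := by
  obtain ⟨u, hu, h⟩ := h
  let τ : ℂ[X] →+* ℂ[X] := compRingHom (X + C (t i))
  have e1 : τ (∏ j ∈ Finset.univ.erase i, (X - C (t j))) * X = τ (dl t) := by
    rw [dl, ← Finset.prod_erase_mul _ _ (Finset.mem_univ i), map_mul]
    simp [τ]
  have e2 : ∀ p, CV.ev CV.sL (τ p) = CV.ev (CV.xt (t i) 1) p := fun p => by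
    simp [τ, CV.ev_apply, aeval_comp, CV.xt, add_comm]
  have e3 : ∀ p z, (τ p).eval (z - t i) = p.eval z := fun p z => by simp [τ, eval_comp]
  have e4 : CV.dL (CV.xt (t i) 1) = 1 := by
    rw [CV.xt, CV.dL_add, CV.dL_alg, pow_one, CV.dL_sL, zero_add]
  obtain ⟨ε, f, hε, hf⟩ := cv2_sum (a := τ (∏ j ∈ Finset.univ.erase i, (X - C (t j))))
    (M := (pm t A).map τ) (by
      rw [← sub_self (t i), e3, eval_prod, sub_self, Finset.prod_ne_zero_iff]
      exact fun j hj => by
        simpa [sub_eq_zero] using (ht.ne (Finset.ne_of_mem_erase hj)).symm) hu fun j b => by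
      have h1 := congrFun (h j) b
      rw [e4, one_smul, ← e2, ← e1, map_mul, show CV.ev CV.sL X = CV.sL from aeval_X _] at h1
      simpa only [Pi.add_apply, Pi.smul_apply, smul_eq_mul, mul_assoc, vecMul, dotProduct,
        Matrix.map_apply, e2, Pi.zero_apply] using h1
  refine ⟨ε, hε, fun j z => f j (z - t i), fun z hz => ?_⟩
  have h0 : z - t i ≠ 0 := sub_ne_zero.2 hz.2
  obtain ⟨h1, h2, h3⟩ := hf (z - t i) ⟨mem_ball_zero_iff.2 (mem_ball_iff_norm.1 hz.1), h0⟩
  refine ⟨h2, fun j b => ((h3 j b).comp_sub_const z (t i)).congr_deriv ?_⟩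
  have e5 := congrArg (eval (z - t i)) e1
  rw [eval_mul, eval_X, e3 (dl t), dl, eval_prod] at e5
  simp only [eval_sub, eval_X, eval_C] at e5
  have h4 := e5 ▸ mul_ne_zero h1 h0
  rw [e5, Finset.mul_sum]
  refine congrArg Neg.neg (Finset.sum_congr rfl fun c _ => ?_)
  rw [Matrix.map_apply, e3, mul_left_comm]
  refine congrArg _ ((congrArg _ (cv2_pm (evalRingHom z) t A c b)).trans ?_)
  simp only [coe_evalRingHom, eval_X, eval_C, Finset.mul_sum, ← mul_assoc, cv2_inv h4,
    Matrix.smul_apply, smul_eq_mul, Matrix.sum_apply]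

/-- With `x = 1 / s`: `s ^ n dl t (1 / s) = a (s) = ∏ (1 - t i s)`,
`s ^ n pm t A (1 / s) = s M (s)`, and the equation is `a s u' - u M = 0`. -/
theorem FS.asi {t : Fin n → ℂ} {A : Fin n → Matrix (Fin N) (Fin N) ℂ}
    (h : FS m (dl t) (pm t A) CV.sL⁻¹) : ASi m t A := by
  obtain ⟨u, hu, h⟩ := h
  have hs := CV.sL_ne
  have e0 : ∀ p : ℂ, CV.ev CV.sL (1 - C p * X) =
      CV.sL * (CV.ev CV.sL⁻¹ X - CV.ev CV.sL⁻¹ (C p)) := fun p => by
    simp only [CV.ev_apply, map_sub, map_one, map_mul, aeval_X, aeval_C]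
    field_simp
  obtain ⟨ε, f, hε, hf⟩ := cv2_sum (a := ∏ j, (1 - C (t j) * X))
    (M := .of fun a b => -∑ i, (∏ j ∈ Finset.univ.erase i, (1 - C (t j) * X)) * C (A i a b))
    (by simp [eval_prod]) hu fun j b => by
      have h1 := congrFun (h j) b
      have h2 := CV.sdL_inv
      have e1 : CV.ev CV.sL (∏ j, (1 - C (t j) * X)) =
          (∏ _j : Fin n, CV.sL) * CV.ev CV.sL⁻¹ (dl t) := by
        simp only [dl, map_prod, e0, Finset.prod_mul_distrib, map_sub (CV.ev CV.sL⁻¹)]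
      have e2 : ∀ a, CV.sL * CV.ev CV.sL
          (∑ i, (∏ j ∈ Finset.univ.erase i, (1 - C (t j) * X)) * C (A i a b)) =
          (∏ _j : Fin n, CV.sL) * CV.ev CV.sL⁻¹ (pm t A a b) := fun a => by
        rw [cv2_pm, map_sum, Finset.mul_sum, Finset.mul_sum]
        refine Finset.sum_congr rfl fun i _ => ?_
        rw [← Finset.mul_prod_erase _ _ (Finset.mem_univ i), map_mul, map_prod]
        simp only [e0, Finset.prod_mul_distrib, mul_assoc]
        simp only [CV.ev_apply, aeval_C]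
      have e3 : CV.sL * ∑ a, u j a * CV.ev CV.sL
          (-∑ i, (∏ j ∈ Finset.univ.erase i, (1 - C (t j) * X)) * C (A i a b)) +
          (∏ _j : Fin n, CV.sL) * ∑ a, u j a * CV.ev CV.sL⁻¹ (pm t A a b) = 0 := by
        rw [Finset.mul_sum, Finset.mul_sum, ← Finset.sum_add_distrib]
        refine Finset.sum_eq_zero fun a _ => ?_
        rw [map_neg]
        linear_combination -u j a * e2 a
      refine mul_left_cancel₀ hs ?_
      simp only [Pi.add_apply, Pi.smul_apply, smul_eq_mul, vecMul, dotProduct, Matrix.map_apply,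
        Pi.zero_apply] at h1
      simp only [of_apply, e1]
      generalize ∑ a, u j a * CV.ev CV.sL⁻¹ (pm t A a b) = y at h1 e3
      linear_combination e3 + (∏ _j : Fin n, CV.sL) * (CV.sL ^ 2 * h1 - CV.sL * y * h2 +
        y * mul_inv_cancel₀ hs)
  refine ⟨ε⁻¹, fun j z => f j z⁻¹, fun z hz => ?_⟩
  have h0 : z ≠ 0 := norm_pos_iff.1 ((inv_pos.2 hε).trans hz)
  obtain ⟨h1, h2, h3⟩ := hf z⁻¹ ⟨mem_ball_zero_iff.2
    ((norm_inv z).trans_lt (inv_lt_of_inv_lt₀ hε hz)), inv_ne_zero h0⟩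
  refine ⟨h2, fun j b => ((h3 j b).comp z (hasDerivAt_inv h0)).congr_deriv ?_⟩
  simp only [eval_prod, eval_sub, eval_one, eval_mul, eval_C, eval_X, of_apply, eval_neg,
    eval_finsetSum] at h1 ⊢
  rw [neg_mul_neg, Finset.mul_sum, Finset.sum_mul, ← neg_eq_iff_eq_neg, ← Finset.sum_neg_distrib]
  refine Finset.sum_congr rfl fun c _ => ?_
  simp only [Matrix.sum_apply, mul_neg, neg_mul, neg_neg, Finset.mul_sum, Finset.sum_mul,
    Matrix.smul_apply, smul_eq_mul]
  refine Finset.sum_congr rfl fun i _ => ?_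
  have h4 : (z - t i)⁻¹ = (1 - t i * z⁻¹)⁻¹ * z⁻¹ := by
    rw [← mul_inv, sub_mul, one_mul, inv_mul_cancel_right₀ h0]
  rw [h4, ← cv2_inv h1 i, mul_inv, inv_inv]
  field_simp

end Pool.Agent.GR.NP
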