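import Pool.Agent.Lib.MP_aa40d3_nt.NP.Defs
import Pool.Agent.Lib.MP_aa40d3_nt.CV.GauL

/-! Formal solutions of the dual system from frames. -/

open Polynomial Matrix
open scoped Polynomial.Bivariate

namespace Pool.Agent.GR.NP

open Pool.Agent.GR.CV

variable {N r m : ℕ} {D : ℂ[X]} {B : PM N} {x : CV.LL} {U Cm : LM N} {t : ℂ}

theorem fs_id {K : Type} [Field K] {d s ξ : K} {U U₁ V₁ b E : Matrix (Fin N) (Fin N) K}
    (hu : IsUnit U.det) (h1 : V₁ * U + U⁻¹ * U₁ = 0)
    (h2 : d • (s • U₁ + U * E) = (s * ξ) • (b * U)) :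
    s • (d • V₁ + ξ • (U⁻¹ * b)) = d • (E * U⁻¹) := by
  refine ((isUnit_iff_isUnit_det U).2 hu).mul_right_cancel ?_
  have h3 := congrArg (U⁻¹ * ·) h2
  simp only [Matrix.mul_smul, Matrix.mul_add, nonsing_inv_mul_cancel_left _ _ hu] at h3
  simp only [Matrix.smul_mul, Matrix.add_mul, Matrix.mul_assoc, nonsing_inv_mul _ hu,
    Matrix.mul_one]
  linear_combination (norm := module) (s * d) • h1 - h3

theorem fs_inv (h : MSol D B x U Cm) :
    sL • (ev x D • U⁻¹.map dL + dL x • (U⁻¹ * B.map (ev x))) = ev x D • (Cm * U⁻¹) := by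
  have hu : IsUnit U.det := h.1.isUnit
  have h1 : U⁻¹.map dL * U + U⁻¹ * U.map dL = 0 := by
    rw [← map_dL_mul, nonsing_inv_mul _ hu]
    refine Matrix.ext fun a b => ?_
    rw [Matrix.map_apply, Matrix.one_apply]
    split_ifs
    · exact dL_one
    · exact dL_zero
  exact fs_id hu h1 h.2

theorem fs_row (h : MSol D B x U Cm) {i : Fin N} (hi : ∀ j, Cm i j = 0) :
    (ev x D • fun a => dL (U⁻¹ i a)) + dL x • (U⁻¹ i ᵥ* B.map (ev x)) = 0 := by
  funext a
  have h1 := congrFun (congrFun (fs_inv h) i) a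
  have h2 : (Cm * U⁻¹) i a = 0 := by simp [Matrix.mul_apply, hi]
  change sL * _ = ev x D * (Cm * U⁻¹) i a at h1
  rw [h2, mul_zero] at h1
  exact (mul_eq_zero.1 h1).resolve_left sL_ne

theorem fs_emb {J : Finset (Fin N)} (hJ : J.card ≤ r) :
    ∃ e : Fin (N - r) → Fin N, Function.Injective e ∧ ∀ j, e j ∉ J := by
  have h1 : N - r ≤ Jᶜ.card := by
    rw [Finset.card_compl, Fintype.card_fin]
    omega
  exact ⟨fun j => Jᶜ.orderEmbOfFin rfl (Fin.castLE h1 j), fun a b h => Fin.castLE_injective h1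
    ((Jᶜ.orderEmbOfFin rfl).injective h), fun j => Finset.mem_compl.1 (Finset.orderEmbOfFin_mem _ _ _)⟩

theorem fs_li {u : Fin m → Fin N → CV.LL} {e : Fin m → Fin N} {c : Fin m → CV.LL} (hc : ∀ j, c j ≠ 0)
    (h : ∀ i j, (u i ᵥ* U) (e j) = if i = j then c j else 0) : LinearIndependent ℂ u := by
  rw [Fintype.linearIndependent_iff]
  intro g hg j
  have h0 : ∑ i, algebraMap ℂ CV.LL (g i) • u i = 0 := by
    rw [← hg]
    refine Finset.sum_congr rfl fun i _ => funext fun a => HahnSeries.ext (funext fun k => ?_)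
    rw [Pi.smul_apply, smul_eq_mul, coeff_alg_mul]
    rfl
  have h1 := congrArg (fun l => (l ᵥ* U) (e j)) h0
  simp only [sum_vecMul, smul_vecMul, zero_vecMul, Finset.sum_apply, Pi.smul_apply, h, smul_eq_mul,
    mul_ite, mul_zero, Finset.sum_ite_eq', Finset.mem_univ, if_true, Pi.zero_apply] at h1
  exact (map_eq_zero _).1 ((mul_eq_zero.1 h1).resolve_right (hc j))

theorem fs_mul (hU : U.det ≠ 0) (i j : Fin N) : (U⁻¹ i ᵥ* U) j = if i = j then 1 else 0 := by
  rw [← Matrix.one_apply, ← nonsing_inv_mul U hU.isUnit]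
  rfl

theorem fs_of_msol (h : MSol D B x U Cm) {J : Finset (Fin N)} (hJ : J.card ≤ r)
    (h0 : ∀ i, i ∉ J → ∀ j, Cm i j = 0) : FS (N - r) D B x := by
  obtain ⟨e, he, hn⟩ := fs_emb hJ
  exact ⟨fun j => U⁻¹ (e j), fs_li (U := U) (e := e) (c := fun _ => 1) (fun _ => one_ne_zero)
    fun i j => by simp only [fs_mul h.1, he.eq_iff], fun j => fs_row h (h0 _ (hn j))⟩

theorem fs_of_zero (h : MSol D B x U 0) (r : ℕ) : FS (N - r) D B x :=
  fs_of_msol h (J := ∅) (Nat.zero_le _) fun _ _ _ => rfl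

theorem fs_of_tp (h : TP r D B t U) : FS (N - r) D B (xt t 1) := by
  obtain ⟨Cm, J, h1, -, h2, h3⟩ := h
  exact fs_of_msol h3 h1 h2

/-- The even part of a series, in the variable `s ^ 2`. -/
theorem exists_ps {f : CV.LL} (h : sg f = f) : ∃ g, ps g = f := by
  obtain ⟨n, hn⟩ := exists_ov f
  refine ⟨HahnSeries.ofSuppBddBelow (fun k => f.coeff (2 * k)) ⟨-n, fun k hk => ?_⟩, ?_⟩
  · by_contra h1
    exact hk (hn _ (by omega))
  · ext k
    rcases Int.even_or_odd' k with ⟨a, rfl | rfl⟩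
    · rw [ps_coeff_even]
      rfl
    · rw [ps_coeff_odd _ ⟨a, rfl⟩]
      by_contra h1
      exact sg_ne ⟨a, rfl⟩ (Ne.symm h1) h

theorem fs_of_tb (h : TB r D B t U) : FS (N - r) D B (xt t 1) := by
  have : CharZero CV.LL := charZero_of_injective_algebraMap (algebraMap ℂ CV.LL).injective
  obtain ⟨h1, π, J, hJ, hπ, hf⟩ := h
  obtain ⟨e, he, hn⟩ := fs_emb hJ
  have hinv : ∀ j, π (π j) = j := fun j => by
    by_contra h2
    exact h1.1 (det_zero_of_column_eq h2 fun i => by rw [← hπ, ← hπ, sg_sg])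
  have h3 : ∀ i j, ((fun a => sg (U⁻¹ i a)) ᵥ* U) j = if i = π j then 1 else 0 := fun i j => by
    have h4 := congrArg sgH (fs_mul h1.1 i (π j))
    rw [apply_ite sgH, map_one, map_zero] at h4
    rw [← h4]
    simp only [vecMul, dotProduct, map_sum, map_mul, sgH_apply, hπ, hinv]
  choose u hu using fun (j : Fin (N - r)) (a : Fin N) =>
    exists_ps (f := U⁻¹ (e j) a + sg (U⁻¹ (e j) a)) (by rw [sg_add, sg_sg, add_comm])
  refine ⟨u, ?_, fun j => funext fun a => ?_⟩
  · have h5 : LinearIndependent ℂ fun j a => ps (u j a) := by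
      refine fs_li (U := U) (e := e) (c := fun j => if π (e j) = e j then 2 else 1)
        (fun j => by split_ifs <;> norm_num) fun i j => ?_
      have h6 : (fun a => ps (u i a)) = U⁻¹ (e i) + fun a => sg (U⁻¹ (e i) a) := funext (hu i)
      rw [h6, add_vecMul, Pi.add_apply, fs_mul h1.1, h3]
      rcases hf _ (hn j) with h7 | h7
      · simp only [h7, he.eq_iff, if_true]
        split_ifs <;> norm_num
      · have h8 : e i ≠ π (e j) := fun h9 => hn i (h9 ▸ h7)
        have h9 : π (e j) ≠ e j := fun h9 => hn j (h9 ▸ h7)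
        simp only [he.eq_iff, if_neg h8, if_neg h9, add_zero]
    rw [Fintype.linearIndependent_iff] at h5 ⊢
    refine fun g hg => h5 g (funext fun a => HahnSeries.ext (funext fun k => ?_))
    have h6 := fun k => congrArg (fun l : Fin N → CV.LL => (l a).coeff k) hg
    simp only [Finset.sum_apply, Pi.smul_apply, HahnSeries.coeff_sum, HahnSeries.coeff_smul,
      Pi.zero_apply, HahnSeries.coeff_zero] at h6 ⊢
    rcases Int.even_or_odd' k with ⟨b, rfl | rfl⟩
    · simpa only [ps_coeff_even] using h6 b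
    · simp [ps_coeff_odd _ (⟨b, rfl⟩ : Odd (2 * b + 1))]
  · have h5 := congrArg (sL * ·) (congrFun (fs_row h1 (i := e j) fun _ => rfl) a)
    simp only [Pi.add_apply, Pi.smul_apply, smul_eq_mul, Pi.zero_apply, mul_zero, vecMul,
      dotProduct, Matrix.map_apply] at h5 ⊢
    rw [mul_add, mul_left_comm, ← mul_assoc sL] at h5
    have h6 := congrArg sgH h5
    simp only [map_add, map_mul _ (ev _ _), map_mul _ (sL * dL (xt t 2)), map_sum,
      map_mul _ (U⁻¹ _ _), map_zero, sgH_apply, sg_ev, sg_sdL, sg_xt] at h6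
    refine mul_left_cancel₀ sL_ne (ps.injective (mul_left_cancel₀ (two_ne_zero' CV.LL) ?_))
    have h7 := sdL_ps (u j a)
    have h8 := sdL_ps (xt t 1)
    rw [hu, dL_add] at h7
    rw [ps_xt] at h8
    rw [mul_add, mul_left_comm, ← mul_assoc sL, mul_zero, map_zero, mul_zero, map_add, map_mul ps,
      map_mul ps (sL * _), map_sum]
    simp only [map_mul ps (u _ _), ps_ev, ps_xt, hu, add_mul, Finset.sum_add_distrib]
    linear_combination h5 + h6 - ev (xt t 2) D * h7 - (∑ i, U⁻¹ (e j) i * ev (xt t 2) (B i a) +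
      ∑ i, sg (U⁻¹ (e j) i) * ev (xt t 2) (B i a)) * h8

end Pool.Agent.GR.NP
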