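import Pool.Agent.Lib.MP_aa40d3_nt.NP.Defs
import Pool.Agent.Lib.MP_aa40d3_nt.CV.KatD

/-! The theorem of Katz: triangular reductions force regular singular points. -/

open Polynomial Matrix
open scoped Polynomial.Bivariate

namespace Pool.Agent.GR.NP

open Pool.Agent.GR.CV

variable {N : ℕ}

section field
variable {k : Type} [Field k] {D : k[X]} {t : k} {a : ℕ} {B Φ T : Matrix (Fin N) (Fin N) k[X]}
  {c : k[X]}

theorem katn_th (h : c • (D • Φ.map derivative - B * Φ) = Φ * T) (l : Fin N → k[X]) (j : Fin N) :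
    c * (CV.th D B l ᵥ* Φ) j = c * (D * derivative ((l ᵥ* Φ) j)) - ((l ᵥ* Φ) ᵥ* T) j := by
  have e : D * derivative ((l ᵥ* Φ) j) =
      (CV.th D B l ᵥ* Φ) j + (l ᵥ* (D • Φ.map derivative - B * Φ)) j := by
    rw [CV.th, add_vecMul, vecMul_vecMul, vecMul_sub]
    simp only [vecMul, dotProduct, Pi.add_apply, Pi.sub_apply, Pi.smul_apply, Matrix.smul_apply,
      map_apply, smul_eq_mul, derivative_sum, derivative_mul, Finset.mul_sum,
      ← Finset.sum_add_distrib, ← Finset.sum_sub_distrib]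
    exact Finset.sum_congr rfl fun b _ => by ring
  rw [vecMul_vecMul, ← h, vecMul_smul, e, Pi.smul_apply, smul_eq_mul]
  ring

theorem katn_step (hc : c ≠ 0) (hT : Up T) (h : c • (D • Φ.map derivative - B * Φ) = Φ * T)
    {l : Fin N → k[X]} {j : Fin N} (hl : ∀ i, i < j → (l ᵥ* Φ) i = 0) :
    (CV.th D B l ᵥ* Φ) j = D * derivative ((l ᵥ* Φ) j) := by
  refine mul_left_cancel₀ hc ?_
  rw [katn_th h, sub_eq_self]
  change ∑ i, (l ᵥ* Φ) i * T i j = 0
  refine Finset.sum_eq_zero fun i _ => ?_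
  rcases lt_or_ge i j with h1 | h1
  · exact mul_eq_zero_of_left (hl i h1) _
  · exact mul_eq_zero_of_right _ (hT i j h1)

theorem katn_comp (D v₀ β : k[X]) (B : Matrix (Fin N) (Fin N) k[X]) (w : Fin N → k[X])
    (e : ℕ → k[X]) (n : ℕ) (he : e (n + 1) = 0) :
    ∑ i ∈ Finset.range (n + 1 + 1), (v₀ * (D * derivative (e i)) - β * e i +
      v₀ * (if i = 0 then 0 else e (i - 1))) • (CV.th D B)^[i] w =
    v₀ • CV.th D B (∑ i ∈ Finset.range (n + 1), e i • (CV.th D B)^[i] w) -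
      β • ∑ i ∈ Finset.range (n + 1), e i • (CV.th D B)^[i] w := by
  have h1 : CV.th D B (∑ i ∈ Finset.range (n + 1), e i • (CV.th D B)^[i] w) =
      ∑ i ∈ Finset.range (n + 1), (e i • CV.th D B ((CV.th D B)^[i] w) +
        (D * derivative (e i)) • (CV.th D B)^[i] w) := by
    funext b
    simp only [CV.th, sum_vecMul, smul_vecMul, Pi.add_apply, Pi.smul_apply, Finset.sum_apply,
      smul_eq_mul, derivative_sum, derivative_mul, Finset.mul_sum, ← Finset.sum_add_distrib]
    exact Finset.sum_congr rfl fun i _ => by ring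
  simp only [add_smul, Finset.sum_add_distrib]
  rw [Finset.sum_range_succ _ (n + 1), Finset.sum_range_succ' _ (n + 1), he, h1,
    Finset.smul_sum, Finset.smul_sum, ← Finset.sum_sub_distrib]
  simp only [derivative_zero, mul_zero, sub_zero, zero_smul, add_zero, if_true, Nat.succ_ne_zero,
    if_false, Nat.add_sub_cancel, Function.iterate_succ_apply', ← Finset.sum_add_distrib]
  refine Finset.sum_congr rfl fun i _ => ?_
  module

theorem katn_op (hD : (X - C t) ^ (a + 1) ∣ D) (hc : c ≠ 0) (hT : Up T)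
    (h : c • (D • Φ.map derivative - B * Φ) = Φ * T) (w : Fin N → k[X]) (n : ℕ) (hn : n ≤ N) :
    ∃ e : ℕ → k[X], (e n).eval t ≠ 0 ∧ (∀ i, n < i → e i = 0) ∧
      (∀ i, (X - C t) ^ (a * (n - i)) ∣ e i) ∧ ∀ j : Fin N, (j : ℕ) < n →
        ((∑ i ∈ Finset.range (n + 1), e i • (CV.th D B)^[i] w) ᵥ* Φ) j = 0 := by
  induction n with
  | zero =>
    exact ⟨fun i => if i = 0 then 1 else 0, by simp, fun i hi => if_neg hi.ne', by simp,
      fun j hj => absurd hj (Nat.not_lt_zero _)⟩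
  | succ n ih =>
    obtain ⟨e, h1, h2, h3, h4⟩ := ih (by omega)
    obtain ⟨v₀, β, g1, g2, g3⟩ := kat_log hD
      (((∑ i ∈ Finset.range (n + 1), e i • (CV.th D B)^[i] w) ᵥ* Φ) ⟨n, hn⟩)
    refine ⟨fun i => v₀ * (D * derivative (e i)) - β * e i +
      v₀ * (if i = 0 then 0 else e (i - 1)), ?_, fun i hi => ?_, fun i => ?_, fun j hj => ?_⟩
    · simp [h2 (n + 1) n.lt_succ_self, g1, h1]
    · have hi0 : i ≠ 0 := by omega
      simp [h2 i (by omega), hi0, h2 (i - 1) (by omega)]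
    · by_cases hi : n < i
      · rw [Nat.sub_eq_zero_of_le hi]
        simp
      have e1 : a * (n + 1 - i) = a * (n - i) + a := by
        rw [show n + 1 - i = n - i + 1 by omega, mul_add, mul_one]
      refine dvd_add (dvd_sub ?_ ?_) (Dvd.dvd.mul_left ?_ _)
      · rw [e1]
        exact (kat_dvd hD (h3 i)).mul_left _
      · rw [e1, pow_add, mul_comm]
        exact mul_dvd_mul g2 (h3 i)
      · split_ifs with h0
        · exact dvd_zero _
        · rw [show n + 1 - i = n - (i - 1) by omega]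
          exact h3 _
    · rw [katn_comp D v₀ β B w e n (h2 _ n.lt_succ_self), sub_vecMul, smul_vecMul, smul_vecMul,
        Pi.sub_apply, Pi.smul_apply, Pi.smul_apply, smul_eq_mul, smul_eq_mul,
        katn_step hc hT h fun i hi => h4 i (by have : (i : ℕ) < j := hi; omega)]
      by_cases hjn : (j : ℕ) < n
      · rw [h4 j hjn]
        simp
      · obtain rfl : j = ⟨n, hn⟩ := Fin.ext (by simp only; omega)
        rw [g3, sub_self]

theorem katn_div (hD : (X - C t) ^ (a + 1) ∣ D) (hF : HT D B) (w : Fin N → k[X]) {μ : ℕ}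
    (hμ : (X - C t) ^ μ ∣ (itM D B w).det) (i : Fin N) :
    (X - C t) ^ (μ + a * (N - i)) ∣ ((CV.th D B)^[N] w ᵥ* (itM D B w).adjugate) i := by
  obtain ⟨Φ, T, c, hΦ, hc, hT, h⟩ := hF
  obtain ⟨e, h1, -, h3, h4⟩ := katn_op hD hc hT h w N le_rfl
  have hz : ∑ m ∈ Finset.range (N + 1), e m • (CV.th D B)^[m] w = 0 :=
    eq_zero_of_vecMul_eq_zero hΦ (funext fun j => h4 j j.2)
  have h5 : ∑ m ∈ Finset.range N, e m • (CV.th D B)^[m] w = (fun m : Fin N => e m) ᵥ* itM D B w := by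
    rw [Finset.sum_range, vecMul_eq_sum]
    rfl
  rw [Finset.sum_range_succ, h5] at hz
  have h6 := congrFun (congrArg (· ᵥ* (itM D B w).adjugate) hz) i
  simp only [add_vecMul, vecMul_vecMul, mul_adjugate, vecMul_smul, vecMul_one, smul_vecMul,
    zero_vecMul, Pi.add_apply, Pi.smul_apply, smul_eq_mul, Pi.zero_apply] at h6
  refine (prime_X_sub_C t).pow_dvd_of_dvd_mul_left _ (fun h => h1 (dvd_iff_isRoot.mp h)) ?_
  rw [eq_neg_of_add_eq_zero_right h6, dvd_neg, pow_add]
  exact mul_dvd_mul hμ (h3 i)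

end field

theorem Up.smul {R : Type*} [CommRing R] {T : Matrix (Fin N) (Fin N) R} (h : Up T) (c : R) :
    Up (c • T) := fun a b hab => by rw [Matrix.smul_apply, h a b hab, smul_zero]

theorem HT.smul {R : Type} [CommRing R] {D : R[X]} {B : Matrix (Fin N) (Fin N) R[X]} (h : HT D B)
    (e : R[X]) : HT (e * D) (e • B) := by
  obtain ⟨Φ, T, c, hΦ, hc, hT, h⟩ := h
  refine ⟨Φ, e • T, c, hΦ, hc, hT.smul e, ?_⟩
  rw [Matrix.mul_smul, ← h, mul_smul, Matrix.smul_mul, ← smul_sub, smul_comm]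

theorem katzN {R : Type} [CommRing R] [Algebra.FiniteType ℤ R] (ι : R →+* ℂ) {D δ : R[X]}
    {B : Matrix (Fin N) (Fin N) R[X]} (hδ : δ.map ι ≠ 0) (hD : D.map ι ≠ 0)
    (hF : ∀ (R' : Type) [CommRing R'] [Algebra.FiniteType ℤ R'] (j : R →+* R') (m : Ideal R')
      [m.IsMaximal], δ.map ((Ideal.Quotient.mk m).comp j) ≠ 0 →
        HT (D.map ((Ideal.Quotient.mk m).comp j))
          (B.map (Polynomial.map ((Ideal.Quotient.mk m).comp j)))) (t : ℂ) :
    ∃ U Cm : LM N, (∀ i j, Ov 0 (Cm i j)) ∧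
      MSol (D.map ι) (B.map (Polynomial.map ι)) (xt t 1) U Cm := by
  classical
  have hD1 := mul_ne_zero (X_sub_C_ne_zero t) hD
  obtain ⟨w, hw⟩ := exists_itM hD1 ((X - C t : ℂ[X]) • B.map (Polynomial.map ι))
  obtain ⟨D₀, e1, h1⟩ := exists_eq_pow_rootMultiplicity_mul_and_not_dvd _ hD t
  obtain ⟨h₀, e2, h2⟩ := exists_eq_pow_rootMultiplicity_mul_and_not_dvd _ hw t
  rw [dvd_iff_isRoot] at h1 h2
  generalize rootMultiplicity t (D.map ι) = a at e1
  generalize rootMultiplicity t _ = μ at e2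
  have e3 : (X - C t) * D.map ι = (X - C t) ^ (a + 1) * D₀ := by rw [e1, pow_succ', mul_assoc]
  obtain ⟨R', j, hft, hj, hR⟩ := exists_ring ι
    (insert t (need (δ.map ι) ∪ Finset.univ.biUnion fun a => need (w a)))
  let t' : R' := ⟨t, hR _ (Finset.mem_insert_self _ _)⟩
  choose w' hw' using fun a => exists_lift (R' := R') (f := w a) fun c hc =>
    hR c (Finset.mem_insert_of_mem (Finset.mem_union_right _
      (Finset.mem_biUnion.2 ⟨a, Finset.mem_univ _, hc⟩)))
  let D' := (X - C t') * D.map j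
  let B' := (X - C t' : R'[X]) • B.map (Polynomial.map j)
  have eX : ∀ {K : Type} [CommRing K] (ψ : R' →+* K) (k : ℕ),
      ((X - C t') ^ k).map ψ = (X - C (ψ t')) ^ k := fun ψ k => by simp
  have eD : ∀ {K : Type} [CommRing K] (ψ : R' →+* K),
      D'.map ψ = (X - C (ψ t')) * D.map (ψ.comp j) := fun ψ => by
    simp [D', Polynomial.map_map]
  have eB : ∀ {K : Type} [CommRing K] (ψ : R' →+* K), B'.map (Polynomial.map ψ) =
      (X - C (ψ t') : K[X]) • B.map (Polynomial.map (ψ.comp j)) := fun ψ => by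
    ext1 a b
    simp [B', Polynomial.map_map]
  have hmo : ∀ k : ℕ, ((X - C t') ^ k).Monic := fun k => (monic_X_sub_C t').pow k
  have d1 : (X - C t') ^ (a + 1) ∣ D' := by
    rw [← map_dvd_map _ R'.subtype_injective (hmo _), eX, eD, hj]
    exact ⟨D₀, e3⟩
  have d2 : (X - C t') ^ μ ∣ (itM D' B' w').det := by
    rw [← map_dvd_map _ R'.subtype_injective (hmo _), eX, itM_det_map, eD, eB, hj, funext hw']
    exact ⟨h₀, e2⟩
  have d3 : ∀ i : Fin N, (X - C t') ^ (μ + a * (N - i)) ∣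
      ((CV.th D' B')^[N] w' ᵥ* (itM D' B' w').adjugate) i := fun i => dvd_of_max (hmo _) fun m hm => by
    let _ := Ideal.Quotient.field m
    have h3 : δ.map ((Ideal.Quotient.mk m).comp j) ≠ 0 := by
      rw [← Polynomial.map_map]
      refine map_ne_of_need ?_ (fun c hc => hR c ?_) _
      · rwa [Polynomial.map_map, hj]
      · rw [Polynomial.map_map, hj] at hc
        exact Finset.mem_insert_of_mem (Finset.mem_union_left _ hc)
    have h4 := Polynomial.map_dvd (Ideal.Quotient.mk m) d1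
    have h5 := Polynomial.map_dvd (Ideal.Quotient.mk m) d2
    rw [eX] at h4 h5 ⊢
    rw [itM_det_map] at h5
    rw [itM_adj_map]
    refine katn_div h4 ?_ _ h5 i
    rw [eD, eB]
    exact (hF R' j m h3).smul _
  obtain ⟨U, Cm, h3, h4⟩ := kat_frame e3 h1 e2 h2 fun i => by
    have h5 := Polynomial.map_dvd R'.subtype (d3 i)
    rwa [eX, itM_adj_map, eD, eB, hj, funext hw'] at h5
  exact ⟨U, Cm, h3, h4.of_smul (ev_xt_ne le_rfl (X_sub_C_ne_zero t))⟩

end Pool.Agent.GR.NP
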