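import Pool.Agent.Lib.MP_aa40d3_nt.NP.Push
import Pool.Agent.Lib.MP_aa40d3_nt.GE.TB

/-! Change of the coordinate: triangular bases modulo maximal ideals. -/

set_option linter.unusedSectionVars false

open Polynomial Matrix
open scoped Polynomial.Bivariate IntermediateField

namespace Pool.Agent.GR.NP

open Pool.Agent.GR.CV Pool.Agent.GR.GE

section
variable {R k F : Type} [CommRing R] [Field k] [Field F] {r : ℕ}

theorem tri_mk {S : CV.Sys k r} {Φ T : Matrix (Fin r) (Fin r) k[X][Y]} {q : k[X][Y]} {c e : k[X]}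
    (hc : c ≠ 0) (he : e ≠ 0) (h1 : S.P ∣ q * Φ.det - C c) (hT : Up T)
    (h2 : ∀ a b, S.P ∣ C e * S.nab (fun i => Φ i b) a - (Φ * T) a b) : S.Tri := by
  refine ⟨Φ, (C c : k[X][Y]) • T, C e * q, e * c, mul_ne_zero he hc, ?_,
    fun a b hab => by rw [Matrix.smul_apply, hT a b hab, smul_zero], fun a b => ?_⟩
  · rw [C_mul, mul_assoc, ← mul_sub]
    exact h1.mul_left _
  · rw [Matrix.mul_smul, Matrix.smul_apply, smul_eq_mul, mul_comm e, C_mul, mul_assoc, ← mul_sub]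
    exact (h2 a b).mul_left _

theorem tri_den {B : Type} [CommRing B] {g : k[X][Y] →+* B}
    (hg3 : ∀ b : B, ∃ c : k[X], c ≠ 0 ∧ ∃ a, g (C c) * b = g a) {τ : Matrix (Fin r) (Fin r) B}
    (hτ : Up τ) : ∃ (e : k[X]) (T : Matrix (Fin r) (Fin r) k[X][Y]), e ≠ 0 ∧ Up T ∧
      T.map g = g (C e) • τ := by
  obtain ⟨_, ⟨e, he, rfl⟩, h1⟩ := tn_den g ((nonZeroDivisors k[X]).map (C : k[X] →+* k[X][Y]))
    (fun z : Fin r × Fin r => τ z.1 z.2) fun z => by
      obtain ⟨c, hc, a, h⟩ := hg3 (τ z.1 z.2)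
      exact ⟨C c, ⟨c, mem_nonZeroDivisors_of_ne_zero hc, rfl⟩, a, h⟩
  choose T hT using h1
  refine ⟨e, Matrix.of fun a b => if b ≤ a then 0 else T (a, b), nonZeroDivisors.ne_zero he,
    fun a b hab => if_pos hab, Matrix.ext fun a b => ?_⟩
  rw [Matrix.map_apply, Matrix.of_apply, Matrix.smul_apply, smul_eq_mul]
  split_ifs with hab
  · rw [hτ a b hab, mul_zero, map_zero]
  · exact (hT (a, b)).symm

theorem tn_stepT (S S' : CV.Sys R r) {φ : R →+* k} (hφ : Function.Surjective φ) {p : ℕ} (hp : 0 < p)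
    (hp0 : (p : k) = 0) (a b : R[X][Y] →+* F) (hab : ∀ c, a (C (C c)) = b (C (C c)))
    (E : Derivation ℤ F F) (hb0 : ∀ c, E (b (C (C c))) = 0) (hE : E (b (C X)) = 1)
    (hP : a S.P = 0) (hP' : S'.P.Monic) (hb : ∀ q, b q = 0 ↔ S'.P ∣ q)
    (hm : ∀ m ∈ GE.mon R, b m ≠ 0)
    (hd : ∀ h ∈ [a (C X), a Y, E (a (C X)), (a (C S.D * derivative S.P))⁻¹],
      ∃ m ∈ GE.mon R, ∃ q, b m * h = b q) (hD : a (C S.D * derivative S.P) ≠ 0)
    {H U : R[X][Y]} {N : ℕ} (hU : (U * H).coeff N = 1) (hH : H.eval₂ (a.comp C) (b (C X)) = 0)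
    (hA : ∀ i j, a (C S.D) * b (S'.A i j) = b (C S'.D) * E (a (C X)) * a (S.A i j))
    (hF : (S.map φ).Tri) : (S'.map φ).Tri := by
  classical
  let μ : R[X][Y] →+* k[X][Y] := mapRingHom (mapRingHom φ)
  obtain ⟨B, _, g, hg1, hg2, hg3⟩ := tm_fibre (hP'.map (mapRingHom φ))
  obtain ⟨T, hT, hψ⟩ := tl_frac b (GE.mon R) hm
  have hmu : ∀ m ∈ GE.mon R, IsUnit (g (μ m)) := by
    rintro _ ⟨c, hc, rfl⟩
    have e : μ (C c) = C (c.map φ) := Polynomial.map_C _
    rw [e]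
    exact hg2 _ (hc.map φ).ne_zero
  obtain ⟨ψ, hψ⟩ := hψ B (g.comp μ) (fun q hq => (hg1 _).2 (Polynomial.map_dvd _ ((hb q).1 hq))) hmu
  have mb : ∀ q, b q ∈ T := fun q => (hT _).2 ⟨1, one_mem _, q, by rw [map_one, one_mul]⟩
  have ma : ∀ q, a q ∈ T := tn_mem a T (fun c => hab c ▸ mb _) ((hT _).2 (hd _ (by simp)))
    ((hT _).2 (hd _ (by simp)))
  have me : E (a (C X)) ∈ T := (hT _).2 (hd _ (by simp))
  have mu : (a (C S.D * derivative S.P))⁻¹ ∈ T := (hT _).2 (hd _ (by simp))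
  let a' := a.codRestrict T ma
  let b' := b.codRestrict T mb
  have hb' : ∀ q, ψ (b' q) = g (μ q) := fun q => hψ _ q rfl
  let _ : Algebra k B := ((g.comp C).comp C).toAlgebra
  have hk : ∀ c : k, algebraMap k B c = g (C (C c)) := fun _ => rfl
  have hc : ∀ c, ψ (a' (C (C c))) = algebraMap k B (φ c) := fun c => by
    rw [hψ (a' (C (C c))) (C (C c)) (hab c), hk]
    simp [μ]
  have ha' : ∀ q, ψ (a' q) = aevalAeval (ψ (a' (C X))) (ψ (a' Y)) (μ q) := by
    intro q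
    have e : ψ.comp a' = (aevalAeval (ψ (a' (C X))) (ψ (a' Y))).toRingHom.comp μ := by
      ext
      · simp [μ, hc]
      · simp [μ]
      · simp [μ]
    exact RingHom.congr_fun e q
  have hP0 : ∀ q, (S.map φ).P ∣ q → aevalAeval (ψ (a' (C X))) (ψ (a' Y)) q = 0 := by
    rintro _ ⟨q, rfl⟩
    have e : a' S.P = 0 := Subtype.ext hP
    rw [map_mul, show (S.map φ).P = μ S.P from rfl, ← ha', e, map_zero, zero_mul]
  obtain ⟨Φ₀, T₀, q₀, c₀, hc₀, hq₀, hT₀, hΦ₀⟩ := hF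
  choose Φ hΦ using fun i j => Polynomial.map_surjective (mapRingHom φ)
    (Polynomial.map_surjective φ hφ) (Φ₀ i j)
  obtain ⟨_, ⟨c, hcm, rfl⟩, h1⟩ := tn_den b (GE.mon R) (fun z : Fin r × Fin r => a (Φ z.1 z.2))
    fun z => (hT _).1 (ma _)
  choose Ψ hΨ using h1
  let Φ' : Matrix (Fin r) (Fin r) R[X][Y] := Matrix.of fun i j => C c ^ (p - 1) * Ψ (i, j)
  have h2 : ∀ i j, b (Φ' i j) = b (C c) ^ p * a (Φ i j) := fun i j => by
    rw [show Φ' i j = C c ^ (p - 1) * Ψ (i, j) from rfl, map_mul, ← hΨ, map_pow, ← mul_assoc, ← pow_succ, Nat.sub_add_cancel hp]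
  have hf : ∀ d : k[X], aeval (g (C X)) d = g (C d) := fun d => by
    have e : (aeval (g (C X)) : k[X] →ₐ[k] B).toRingHom = g.comp C := by
      ext
      · simp [hk]
      · simp
    exact RingHom.congr_fun e d
  have h3 : aevalAeval (ψ (a' (C X))) (g (C X)) (μ H) = 0 := by
    have e : (aevalAeval (ψ (a' (C X))) (g (C X))).toRingHom.comp μ =
        ψ.comp (eval₂RingHom (a'.comp C) (b' (C X))) := by
      ext
      · simp [μ, hc]
      · simp [μ]
      · simp [μ, hb']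
    have e' : eval₂ (a'.comp C) (b' (C X)) H = 0 :=
      Subtype.ext ((hom_eval₂ H _ T.subtype _).trans hH)
    refine (RingHom.congr_fun e H).trans ?_
    rw [RingHom.comp_apply, coe_eval₂RingHom, e', map_zero]
  have h4 : (μ U * μ H).coeff N = 1 := by
    rw [← map_mul, coe_mapRingHom, coeff_map, hU, map_one]
  have h5 := tm_unit (fun d hd => hf d ▸ hg2 d hd) h4 h3 hc₀
  have h6 := hP0 _ hq₀
  rw [map_sub, map_mul, aevalAeval_C, sub_eq_zero] at h6
  have h7 : IsUnit (aevalAeval (ψ (a' (C X))) (ψ (a' Y)) Φ₀.det) :=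
    isUnit_of_mul_isUnit_right (h6 ▸ h5)
  have h8 : g.mapMatrix (Φ'.map μ) = g (μ (C c)) ^ p •
      (aevalAeval (ψ (a' (C X))) (ψ (a' Y))).toRingHom.mapMatrix Φ₀ := by
    ext i j
    have e : b' (Φ' i j) = b' (C c) ^ p * a' (Φ i j) := Subtype.ext (h2 i j)
    have e' := congrArg ψ e
    rw [map_mul, map_pow, hb', hb', ha'] at e'
    refine e'.trans ?_
    rw [show μ (Φ i j) = Φ₀ i j from hΦ i j]
    rfl
  have h9 : IsUnit (g (Φ'.map μ).det) := by
    rw [RingHom.map_det, h8, det_smul, ← RingHom.map_det]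
    exact (((hmu _ ⟨c, hcm, rfl⟩).pow p).pow _).mul h7
  obtain ⟨v, hv⟩ := h9.exists_left_inv
  obtain ⟨d, hd0, q, hq⟩ := hg3 v
  obtain ⟨w, hw⟩ := h5.exists_left_inv
  let ε : k[X][Y] →+* B := (aevalAeval (ψ (a' (C X))) (ψ (a' Y))).toRingHom
  obtain ⟨e₁, T₁, he₁, hT₁, h10⟩ := tri_den hg3
    (τ := (ψ ⟨_, mu⟩ * ψ (b' (derivative S'.P * C S'.D)) * ψ ⟨_, me⟩ * w) • T₀.map ε)
    fun i j hij => by rw [Matrix.smul_apply, Matrix.map_apply, hT₀ i j hij, map_zero, smul_zero]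
  refine tri_mk (Φ := Φ'.map μ) (q := q) hd0 he₁
    ((hg1 _).1 (by rw [map_sub, map_mul, ← hq, mul_assoc, hv, mul_one, sub_self])) hT₁ fun i j => ?_
  have e := tn_id S S' a b E (fun c => hab c ▸ hb0 c) hb0 hE hP ((hb _).2 dvd_rfl) hA
    (u := fun i => Φ i j) (u' := fun i => Φ' i j) (fun i => h2 i j) i
  have e1 : a' (C S.D * derivative S.P) * b' (S'.nab (fun i => Φ' i j) i) =
      b' (derivative S'.P * C S'.D) * (p * (a' (C S.D * derivative S.P * Φ i j) *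
        b' (C c ^ (p - 1) * C (derivative c))) + b' (C c ^ p) * ⟨_, me⟩ *
          a' (S.nab (fun i => Φ i j) i)) := Subtype.ext e
  have e2 : (⟨_, mu⟩ : T) * a' (C S.D * derivative S.P) = 1 := Subtype.ext (inv_mul_cancel₀ hD)
  have e3 : ψ (a' (S.nab (fun i => Φ i j) i)) = w * (ε.mapMatrix Φ₀ * T₀.map ε) i j := by
    have e4 := hP0 _ (hΦ₀ i j)
    have e8 : (S.map φ).nab (fun i => Φ₀ i j) i = μ (S.nab (fun i => Φ i j) i) := by
      simp only [← hΦ]
      exact nab_map S φ (fun i => Φ i j) i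
    rw [map_sub, map_mul, aevalAeval_C, sub_eq_zero, e8, ← ha'] at e4
    rw [RingHom.mapMatrix_apply, ← Matrix.map_mul, Matrix.map_apply, ← one_mul (ψ _), ← hw,
      mul_assoc, e4]
    rfl
  have e5 : ψ p = 0 := by rw [map_natCast, ← map_natCast (algebraMap k B), hp0, map_zero]
  have e6 := congrArg ψ e1
  rw [map_mul ψ, map_mul ψ, map_add ψ, map_mul ψ (p : T), map_mul ψ _ (a' _), map_mul ψ (b' _), e3,
    e5, zero_mul, zero_add, hb', hb' (C c ^ p), map_pow μ, map_pow g] at e6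
  have e7 := congrArg ψ e2
  rw [map_mul ψ, map_one] at e7
  refine (hg1 _).1 ?_
  have e9 : g ((Φ'.map μ * T₁) i j) = (g.mapMatrix (Φ'.map μ) * T₁.map g) i j := by
    rw [RingHom.mapMatrix_apply, ← Matrix.map_mul, Matrix.map_apply]
  rw [show (S'.map φ).nab (fun i => Φ'.map μ i j) i = μ (S'.nab (fun i => Φ' i j) i) from
    nab_map S' φ (fun i => Φ' i j) i, map_sub, map_mul, e9, h8, h10]
  simp only [Matrix.smul_mul, Matrix.mul_smul, Matrix.smul_apply, smul_eq_mul]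
  linear_combination g (C e₁) * ψ ⟨_, mu⟩ * e6 - g (C e₁) * g (μ (S'.nab (fun i => Φ' i j) i)) * e7

end

variable {F : Type} [Field F] [Algebra ℂ F] [IsFF F] {r : ℕ}

theorem transportT {R : Type} [CommRing R] [Algebra.FiniteType ℤ R] (ι : R →+* ℂ) (S : CV.Sys R r)
    {S' : CV.Sys ℂ r} {x y f w : F} {E : Derivation ℤ F F} (hP : S.P.Monic)
    (h : Chg (S.map ι) S' x y f w E)
    (hF : ∀ m : Ideal R, m.IsMaximal → (S.map (Ideal.Quotient.mk m)).Tri) :
    ∃ (R' : Type) (_ : CommRing R') (_ : Algebra.FiniteType ℤ R') (ι' : R' →+* ℂ) (S₀ : CV.Sys R' r),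
      S₀.P.Monic ∧ S₀.map ι' = S' ∧
        ∀ m : Ideal R', m.IsMaximal → (S₀.map (Ideal.Quotient.mk m)).Tri := by
  classical
  obtain ⟨G, hG, hG0⟩ := h.m.alg f
  obtain ⟨H, U, N, hH, hU⟩ := tl_rel h.m.tr hG hG0
  let v : Fin 4 → F :=
    ![x, y, E x, (aevalAeval x y (C (S.map ι).D * derivative (S.map ι).P))⁻¹]
  choose c a hc hca using fun i => h.m'.den (v i)
  obtain ⟨R', j, hft, hj, hs⟩ := tb_ring ι ({H, U, S'.P, C S'.D} ∪ Finset.univ.image a ∪
    Finset.univ.image (fun i => C (c i)) ∪ Finset.univ.image fun z : Fin r × Fin r => S'.A z.1 z.2)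
  have hinj : Function.Injective (mapRingHom R'.subtype) :=
    Polynomial.map_injective _ R'.subtype_injective
  let μ : R'[X][Y] →+* ℂ[X][Y] := mapRingHom (mapRingHom R'.subtype)
  have hμ : ∀ q, μ q = q.map (mapRingHom R'.subtype) := fun _ => rfl
  have hC : ∀ d : ℂ[X], (∃ q : R'[X][Y], q.map (mapRingHom R'.subtype) = C d) →
      ∃ q : R'[X], q.map R'.subtype = d := by
    rintro d ⟨q, hq⟩
    exact ⟨q.coeff 0, by rw [← coe_mapRingHom, ← coeff_map, hq, coeff_C_zero]⟩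
  obtain ⟨H₀, hH₀⟩ := hs H (by simp)
  obtain ⟨U₀, hU₀⟩ := hs U (by simp)
  obtain ⟨P₀, hP₀⟩ := hs S'.P (by simp)
  obtain ⟨D₀, hD₀⟩ := hC _ (hs (C S'.D) (by simp))
  choose a₀ ha₀ using fun i => hs (a i) (by simp)
  choose c₀ hc₀ using fun i => hC _ (hs (C (c i)) (by simp))
  choose A₀ hA₀ using fun i k => hs (S'.A i k)
    (Finset.mem_union_right _ (Finset.mem_image.2 ⟨(i, k), Finset.mem_univ _, rfl⟩))
  let S₀ : CV.Sys R' r := ⟨P₀, D₀, Matrix.of A₀⟩
  have hm : P₀.Monic := monic_of_injective hinj (hP₀ ▸ h.m'.monic)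
  have hS : S₀.map R'.subtype = S' := by
    have e : (Matrix.of A₀).map (Polynomial.map (mapRingHom R'.subtype)) = S'.A :=
      Matrix.ext fun i k => hA₀ i k
    simp only [S₀, Sys.map, hP₀, hD₀, e]
  refine ⟨R', inferInstance, hft, R'.subtype, S₀, hm, hS, fun m hmax => ?_⟩
  let _ := Ideal.Quotient.field m
  obtain ⟨p, hp, hch⟩ := exists_char m
  have h1 := tri_map (hF _ (comap_max j m)) (Ideal.quotientMap_injective (I := m) (f := j))
  rw [Sys.map_map, Ideal.quotientMap_comp_mk, ← Sys.map_map] at h1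
  have hS1 : (S.map j).map R'.subtype = S.map ι := by rw [Sys.map_map, hj]
  let α : R'[X][Y] →+* F := (aevalAeval x y).toRingHom.comp μ
  let β : R'[X][Y] →+* F := (aevalAeval f w).toRingHom.comp μ
  have hα : ∀ q, α q = aevalAeval x y (q.map (mapRingHom R'.subtype)) := fun _ => rfl
  have hβ : ∀ q, β q = aevalAeval f w (q.map (mapRingHom R'.subtype)) := fun _ => rfl
  have hβC : ∀ q, β (C q) = aeval f (q.map R'.subtype) := fun q => by
    rw [hβ, map_C, aevalAeval_C, coe_mapRingHom]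
  have hαC : ∀ q, α (C q) = aeval x (q.map R'.subtype) := fun q => by
    rw [hα, map_C, aevalAeval_C, coe_mapRingHom]
  have ex : α (C X) = x := by rw [hαC, map_X, aeval_X]
  have ey : α Y = y := by rw [hα, map_X, aevalAeval_Y]
  have ef : β (C X) = f := by rw [hβC, map_X, aeval_X]
  have eP : (S.map j).P.map (mapRingHom R'.subtype) = (S.map ι).P := congrArg Sys.P hS1
  have eD : (S.map j).D.map R'.subtype = (S.map ι).D := congrArg Sys.D hS1
  have eu : α (C (S.map j).D * derivative (S.map j).P) =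
      aevalAeval x y (C (S.map ι).D * derivative (S.map ι).P) := by
    rw [hα, Polynomial.map_mul, map_C, ← derivative_map, eP, coe_mapRingHom, eD]
  have hv : ∀ i, ∃ m ∈ GE.mon R', ∃ q, β m * v i = β q := fun i =>
    ⟨C (c₀ i), ⟨_, monic_of_injective R'.subtype_injective (hc₀ i ▸ hc i), rfl⟩, a₀ i, by
      rw [hβC, hc₀, hβ, ha₀, hca]⟩
  refine tn_stepT (S.map j) S₀ Ideal.Quotient.mk_surjective hp.pos (CharP.cast_eq_zero _ p) α β
    (fun d => by rw [hαC, hβC, map_C, aeval_C, aeval_C])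
    E (fun d => by rw [hβC, map_C, aeval_C, h.ext]) (by rw [ef, h.one])
    (by rw [hα, eP, h.m.root]) hm (fun q => ?_) ?_ ?_ ?_ (H := H₀) (U := U₀) (N := N) ?_ ?_ ?_ h1
  · rw [hβ, ← map_dvd_map _ hinj hm, hP₀]
    refine ⟨h.m'.dvd, ?_⟩
    rintro ⟨q, hq⟩
    rw [hq, map_mul, h.m'.root, zero_mul]
  · rintro _ ⟨d, hd, rfl⟩ e
    exact h.m'.tr ⟨_, (hd.map R'.subtype).ne_zero, hβC d ▸ e⟩
  · rw [ex, ey, eu]
    simp only [List.mem_cons, List.not_mem_nil, or_false, forall_eq_or_imp, forall_eq]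
    exact ⟨hv 0, hv 1, hv 2, hv 3⟩
  · rw [eu, map_mul, aevalAeval_C]
    exact mul_ne_zero (fun e => h.m.tr ⟨_, h.D, e⟩) h.m.sep
  · apply hinj
    rw [← coeff_map, Polynomial.map_mul, hU₀, hH₀, hU, map_one]
  · have e : eval₂RingHom (α.comp C) (β (C X)) = (aevalAeval x f).toRingHom.comp μ := by
      ext d
      · simp [hαC, μ]
      · simp [ex, μ]
      · simp [ef, μ]
    refine (RingHom.congr_fun e H₀).trans ?_
    rw [RingHom.comp_apply, hμ, hH₀]
    exact hH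
  · intro i k
    have e := congrFun (congrFun h.eq i) k
    have eA : ((S.map j).A i k).map (mapRingHom R'.subtype) = (S.map ι).A i k :=
      congrFun (congrFun (congrArg Sys.A hS1) i) k
    rw [hαC, hβC, ex, hα, hβ, eD, eA]
    exact hD₀.symm ▸ (hA₀ i k).symm ▸ e

end Pool.Agent.GR.NP
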