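import Pool.Agent.Lib.MP_aa40d3_nt.NP.Lu
import Pool.Agent.Lib.MP_aa40d3_nt.SP.Main

/-! The functions that detect a triangular basis of algebraic functions. -/

open Polynomial Matrix Filter Topology
open scoped Polynomial.Bivariate Matrix.Norms.Operator

namespace Pool.Agent.GR.NP

open Pool.Agent.GR.CV Pool.Agent.GR.SP

variable {r : ℕ}

section univ
variable {A A' : Type} [CommRing A] [CommRing A']

/-- The first `k` rows of `M`, then the rows of the identity. -/
def tR (k : Fin r) (M : Matrix (Fin r) (Fin r) A) : Matrix (Fin r) (Fin r) A :=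
  Matrix.of fun a b => if a < k then M a b else (1 : Matrix (Fin r) (Fin r) A) a b

/-- Minors of the first columns. -/
def uF (i : Option (Fin r) × Fin r) (M : Matrix (Fin r) (Fin r) A) : A :=
  i.1.elim (tR i.2 M).det fun a => (M * (tR i.2 M).adjugate) a i.2

theorem tR_map (f : A →+* A') (k : Fin r) (M : Matrix (Fin r) (Fin r) A) :
    f.mapMatrix (tR k M) = tR k (f.mapMatrix M) := by
  ext a b
  simp only [tR, RingHom.mapMatrix_apply, Matrix.map_apply, Matrix.of_apply, Matrix.one_apply,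
    apply_ite f, map_one, map_zero]

theorem uF_map (f : A →+* A') (i : Option (Fin r) × Fin r) (M : Matrix (Fin r) (Fin r) A) :
    f (uF i M) = uF i (f.mapMatrix M) := by
  obtain ⟨_ | a, k⟩ := i
  · simp only [uF, Option.elim, ← tR_map, RingHom.map_det]
  · simp only [uF, Option.elim, ← tR_map, ← RingHom.map_adjugate, ← map_mul]
    rfl

end univ

theorem uF_mul (i : Option (Fin r) × Fin r) (M : Mat r) {h : Mat r} (hh : Up (h - 1)) :
    uF i (M * h) = uF i M := by
  obtain ⟨_ | a, k⟩ := i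
  · exact topR_det k M hh
  · exact topR_adj k a M hh

/-- Algebraic functions on a set form a ring. -/
def algS (V : Set ℂ) : Subring (ℂ → ℂ) where
  carrier := {f | AlgF V f}
  mul_mem' := AlgF.mul
  one_mem' := algF_const V 1
  add_mem' := AlgF.add
  zero_mem' := algF_const V 0
  neg_mem' h := ((algF_const V (-1)).mul h).congr fun _ _ => (neg_one_mul _).symm

theorem algF_uF {V : Set ℂ} {M : ℂ → Mat r} (h : ∀ a b, AlgF V fun x => M x a b)
    (i : Option (Fin r) × Fin r) : AlgF V fun x => uF i (M x) :=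
  (uF i (Matrix.of fun a b => (⟨_, h a b⟩ : algS V))).2.congr fun x _ =>
    (uF_map ((Pi.evalRingHom (fun _ : ℂ => ℂ) x).comp (algS V).subtype) i
      (Matrix.of fun a b => (⟨_, h a b⟩ : algS V))).symm

section tay
variable {R : Type} [CommRing R] {y : ℂ → ℂ} {Z : ℂ → Mat r} {x : ℂ}

theorem tay_uF [Algebra ℚ R] (S : CV.Sys R r) (ψ : R →+* ℂ)
    (h : ∀ᶠ z in 𝓝 x, SP.Near (S.map ψ) y Z z) (h1 : Z x = 1) (L c : Mat r)
    (i : Option (Fin r) × Fin r) : AlgG (fun z => uF i (L * Z z * c)) x ↔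
      IsAlgebraic ℂ[X] (uF i (L.map PowerSeries.C * (Matrix.of fun a b =>
        PowerSeries.map (SP.ev2 ψ x (y x)) (ff S a b)) * c.map PowerSeries.C)) := by
  have h3 := h.self_of_nhds.2.2.1
  set Δ := (ee (S.map ψ)).evalEval x (y x) ^ 2 with hΔ
  have hΔ0 : Δ ≠ 0 := pow_ne_zero _ h3
  have hc : ContinuousAt (fun s : ℂ => x + Δ * s) 0 := by fun_prop
  have hc' : Tendsto (fun s : ℂ => x + Δ * s) (𝓝 0) (𝓝 x) := by simpa using hc.tendsto
  let H : Fin r → Fin r → ℕ → ℂ → ℂ := fun a b k s => Δ ^ k * GG (S.map ψ) y Z k (x + Δ * s) a b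
  have hH : ∀ a b k, ∀ᶠ s in 𝓝 (0 : ℂ), HasDerivAt (H a b k) (H a b (k + 1) s) s := by
    intro a b k
    filter_upwards [hc'.eventually h.eventually_nhds] with s hs
    have h1 : HasDerivAt (fun s : ℂ => x + Δ * s) Δ s := by
      simpa using ((hasDerivAt_id s).const_mul Δ).const_add x
    refine (((near_GG hs k a b).comp s h1).const_mul (Δ ^ k)).congr_deriv ?_
    simp only [H]
    ring
  have h0 : ∀ a b s, H a b 0 s = Z (x + Δ * s) a b := by
    intro a b s
    simp [H, GG, NN]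
  have hA : ∀ a b, AnalyticAt ℂ (H a b 0) 0 := fun a b =>
    Complex.analyticAt_iff_eventually_differentiableAt.2
      ((hH a b 0).mono fun s hs => hs.differentiableAt)
  have ht : ∀ a b, tay (H a b 0) = PowerSeries.map (SP.ev2 ψ x (y x)) (ff S a b) := by
    intro a b
    ext k
    rw [tay, PowerSeries.coeff_mk, (iter_chain (hH a b) k).self_of_nhds, PowerSeries.coeff_map, ff,
      PowerSeries.coeff_mk, map_rat_smul, ev2_apply]
    simp only [H, GG, mul_zero, add_zero, h1, Matrix.mul_one, NN_map, Matrix.smul_apply,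
      Matrix.map_apply, smul_eq_mul]
    rw [hΔ, ← pow_mul, ← mul_assoc, ← mul_pow, mul_inv_cancel₀ h3, one_pow, one_mul, Rat.smul_def,
      div_eq_inv_mul]
    simp
  let M : Matrix (Fin r) (Fin r) An := L.map (algebraMap ℂ An) *
    (Matrix.of fun a b => (⟨_, hA a b⟩ : An)) * c.map (algebraMap ℂ An)
  have e1 : (uF i M).1 = fun s => uF i (L * Z (x + Δ * s) * c) := funext fun s => by
    refine (uF_map ((Pi.evalRingHom (fun _ : ℂ => ℂ) s).comp An.val.toRingHom) i M).trans ?_
    rw [map_mul, map_mul]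
    congr 3
    exact Matrix.ext fun a b => h0 a b s
  have e2 : tay (uF i M).1 = uF i (L.map PowerSeries.C * (Matrix.of fun a b =>
      PowerSeries.map (SP.ev2 ψ x (y x)) (ff S a b)) * c.map PowerSeries.C) := by
    refine (uF_map tayH.toRingHom i M).trans ?_
    rw [map_mul, map_mul]
    exact congrArg _ (congrArg₂ _ (congrArg₂ _ (Matrix.ext fun a b => tay_const _)
      (Matrix.ext fun a b => ht a b)) (Matrix.ext fun a b => tay_const _))
  rw [← e2, ← algG_iff (uF i M).2, e1]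
  refine ⟨fun h2 => AlgG.aff (f := fun z => uF i (L * Z z * c)) hΔ0 (by rwa [mul_zero, add_zero]),
    fun h2 => ?_⟩
  have h4 := AlgG.aff (f := fun s => uF i (L * Z (x + Δ * s) * c)) (a := -(Δ⁻¹ * x)) (w := x)
    (inv_ne_zero hΔ0) (by rw [neg_add_cancel]; exact h2)
  have h5 : ∀ s, x + Δ * (-(Δ⁻¹ * x) + Δ⁻¹ * s) = s := fun s => by field_simp; ring
  simpa only [h5] using h4

end tay

theorem up_mul {P T : Mat r} (hT : Up T) (hP : P.BlockTriangular id) : Up (T * P) := by
  intro a b hab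
  rw [Matrix.mul_apply]
  refine Finset.sum_eq_zero fun c _ => ?_
  by_cases hc : b < c
  · rw [hP hc, mul_zero]
  · rw [hT a c ((not_lt.1 hc).trans hab), zero_mul]

/-- The normalised fundamental matrix differs from the triangular basis by a unipotent matrix. -/
theorem uni_of_tri {B E Z T : ℂ → Mat r} {x₀ : ℂ} (hY0 : E x₀ = 1)
    (h : ∀ᶠ x in 𝓝 x₀, HasDerivAt E (B x * E x) x ∧ (Z x).det ≠ 0 ∧ Up (T x) ∧
      HasDerivAt Z (B x * Z x + Z x * T x) x) :
    ∀ᶠ x in 𝓝 x₀, ∃ u : Mat r, Up (u - 1) ∧ E x * Z x₀ = Z x * u := by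
  obtain ⟨ε, hε, hb⟩ := Metric.eventually_nhds_iff_ball.1 h
  obtain ⟨W, hW⟩ : ∃ W : ℂ → Mat r, W = fun x => (Z x)⁻¹ * (E x * Z x₀) := ⟨_, rfl⟩
  have h1 : ∀ x ∈ Metric.ball x₀ ε, E x * Z x₀ = Z x * W x := fun x hx => by
    rw [hW, mul_nonsing_inv_cancel_left _ _ (hb x hx).2.1.isUnit]
  have h2 : ∀ x ∈ Metric.ball x₀ ε, HasDerivAt W (-(T x * W x)) x := fun x hx => by
    obtain ⟨k1, k2, -, k3⟩ := hb x hx
    have hu := (isUnit_iff_isUnit_det _).2 k2.isUnit
    have k4 : DifferentiableAt ℂ W x := by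
      simp only [hW, nonsing_inv_eq_ringInverse]
      exact (k3.differentiableAt.inverse hu).mul (k1.differentiableAt.mul_const _)
    have k5 := (k1.mul_const (Z x₀)).unique ((k3.mul k4.hasDerivAt).congr_of_eventuallyEq (by
      filter_upwards [Metric.isOpen_ball.mem_nhds hx] with z hz using h1 z hz))
    refine k4.hasDerivAt.congr_deriv (hu.mul_left_cancel ?_)
    rw [Matrix.mul_assoc, h1 x hx, Matrix.add_mul, Matrix.mul_assoc, Matrix.mul_assoc, add_assoc,
      left_eq_add] at k5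
    rw [Matrix.mul_neg]
    exact eq_neg_of_add_eq_zero_right k5
  have h3 : W x₀ = 1 := by
    rw [hW]
    beta_reduce
    rw [hY0, Matrix.one_mul, nonsing_inv_mul _ (hb x₀ (Metric.mem_ball_self hε)).2.1.isUnit]
  have h4 : ∀ a j, j ≤ a → ∀ x ∈ Metric.ball x₀ ε, W x a j = (1 : Mat r) a j := by
    intro a
    induction a using WellFoundedGT.induction with
    | ind a ih =>
      intro j hj x hx
      have h5 : ∀ z ∈ Metric.ball x₀ ε, HasDerivAt (fun t => W t a j) 0 z := fun z hz => by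
        refine (hasDerivAt_mat.1 (h2 z hz) a j).congr_deriv ?_
        rw [Matrix.neg_apply, Matrix.mul_apply, neg_eq_zero]
        refine Finset.sum_eq_zero fun b _ => ?_
        rcases le_or_gt b a with h6 | h6
        · rw [(hb z hz).2.2.1 a b h6, zero_mul]
        · rw [ih b h6 j (hj.trans h6.le) z hz, Matrix.one_apply_ne (hj.trans_lt h6).ne', mul_zero]
      rw [← h3]
      exact Metric.isOpen_ball.is_const_of_deriv_eq_zero (convex_ball x₀ ε).isPreconnected
        (fun z hz => (h5 z hz).differentiableAt.differentiableWithinAt)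
        (fun z hz => (h5 z hz).deriv) hx (Metric.mem_ball_self hε)
  filter_upwards [Metric.ball_mem_nhds x₀ hε] with x hx
  exact ⟨W x, fun a j hj => sub_eq_zero.2 (h4 a j hj x hx), h1 x hx⟩

theorem tri_of_flag [NeZero r] {B : ℂ → Mat r} {U : Set ℂ} (hU : IsOpen U)
    {x₀ : ℂ} (hx₀ : x₀ ∈ U) {E : ℂ → Mat r} (hY0 : E x₀ = 1)
    (hY : ∀ x ∈ U, (E x).det ≠ 0 ∧ HasDerivAt E (B x * E x) x)
    (c : (Mat r)ˣ) (h1 : ∀ k, CV.AlgF U fun x => (topR k ((c⁻¹).val * E x * c.val)).det)
    (h2 : ∀ a k, CV.AlgF U fun x =>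
      ((c⁻¹).val * E x * c.val * (topR k ((c⁻¹).val * E x * c.val)).adjugate) a k) :
    ∃ (ε : ℝ) (Z T : ℂ → Mat r), 0 < ε ∧ (∀ x ∈ Metric.ball x₀ ε, x ∈ U ∧ (Z x).det ≠ 0 ∧
      Up (T x) ∧ ∀ a b, HasDerivAt (fun z => Z z a b) ((B x * Z x + Z x * T x) a b) x) ∧
      ∀ a b, CV.AlgF (Metric.ball x₀ ε) fun x => Z x a b := by
  obtain ⟨Z, hZ⟩ : ∃ Z : ℂ → Mat r, Z = fun x => (c⁻¹).val * E x * c.val := ⟨_, rfl⟩
  have hZ' : ∀ x, (c⁻¹).val * E x * c.val = Z x := fun x => by rw [hZ]
  simp only [hZ'] at h1 h2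
  have dZ : ∀ x ∈ U, DifferentiableAt ℂ Z x := fun x hx => by
    rw [hZ]
    exact ((hY x hx).2.differentiableAt.const_mul _).mul_const _
  have dd : ∀ k, ∀ x ∈ U, DifferentiableAt ℂ (fun x => (topR k (Z x)).det) x := fun k x hx =>
    (PF.differentiable (PF.det (lu2_pf k)) (Z x)).comp x (dZ x hx)
  have hev : ∀ᶠ x in 𝓝 x₀, x ∈ U ∧ ∀ k, (topR k (Z x)).det ≠ 0 := by
    refine (hU.eventually_mem hx₀).and (eventually_all.2 fun k => ?_)
    refine (dd k x₀ hx₀).continuousAt.eventually_ne ?_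
    rw [← hZ', hY0, Matrix.mul_one, Units.inv_mul, lu2_one, Matrix.det_one]
    exact one_ne_zero
  obtain ⟨ε, hε, hb⟩ := Metric.eventually_nhds_iff_ball.1 hev
  have du : ∀ x ∈ Metric.ball x₀ ε, DifferentiableAt ℂ (fun x => luU (Z x)) x := fun x hx =>
    differentiableAt_mat.2 fun a k => ((dd k x (hb x hx).1).inv ((hb x hx).2 k)).mul
      ((PF.differentiable (PF.adjugate (lu2_pf k) a k) (Z x)).comp x (dZ x (hb x hx).1))
  refine ⟨ε, fun x => E x * c.val * luU (Z x),
    fun x => (luU (Z x))⁻¹ * deriv (fun x => luU (Z x)) x, hε, fun x hx => ?_, fun a k => ?_⟩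
  · obtain ⟨y2, y3⟩ := hY x (hb x hx).1
    have hu := luU_up (hb x hx).2
    have hd : IsUnit (luU (Z x)).det := by
      rw [lu2_det hu]
      exact isUnit_one
    refine ⟨(hb x hx).1, ?_, ?_, ?_⟩
    · rw [Matrix.det_mul, Matrix.det_mul]
      exact mul_ne_zero (mul_ne_zero y2 (Matrix.isUnits_det_units c).ne_zero) hd.ne_zero
    · let _ := Matrix.invertibleOfIsUnitDet _ hd
      refine lu2_strict (Matrix.blockTriangular_inv_of_blockTriangular (lu2_tri hu))
        fun a b hab => ?_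
      refine (hasDerivAt_mat.1 (du x hx).hasDerivAt a b).unique ?_
      refine (hasDerivAt_const x ((1 : Mat r) a b)).congr_of_eventuallyEq ?_
      filter_upwards [Metric.isOpen_ball.mem_nhds hx] with y hy
      exact lu2_ent (luU_up (hb y hy).2) hab
    · refine hasDerivAt_mat.1 ?_
      refine ((y3.mul_const c.val).mul (du x hx).hasDerivAt).congr_deriv ?_
      rw [Matrix.mul_assoc _ (luU (Z x)), Matrix.mul_nonsing_inv_cancel_left _ _ hd]
      simp only [Matrix.mul_assoc]
      rfl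
  · have e : ∀ x, (E x * c.val * luU (Z x)) a k =
        ∑ b, c.val a b * ((topR k (Z x)).det⁻¹ * (Z x * (topR k (Z x)).adjugate) b k) := fun x => by
      have e1 : E x * c.val * luU (Z x) = c.val * (Z x * luU (Z x)) := by
        rw [← Matrix.mul_assoc c.val, ← hZ' x]
        simp only [Matrix.mul_assoc, Units.mul_inv_cancel_left]
      rw [e1, Matrix.mul_apply]
      refine Finset.sum_congr rfl fun b _ => congrArg _ ?_
      simp only [Matrix.mul_apply, luU, Matrix.of_apply, Finset.mul_sum, mul_left_comm]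
    have hs : Metric.ball x₀ ε ⊆ U := fun x hx => (hb x hx).1
    exact (CV.AlgF.sum fun b _ => (CV.algF_const _ (c.val a b)).mul
      ((NP.algF_inv ((h1 k).mono hs) fun x hx => (hb x hx).2 k).mul ((h2 b k).mono hs))).congr
      fun x _ => e x

end Pool.Agent.GR.NP
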