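import Pool.Agent.Lib.MP_aa40d3_nt.NP.SpA
import Pool.Agent.Lib.MP_aa40d3_nt.NP.SpB

/-! Triangular bases of algebraic functions pass to specialisations. -/

open Polynomial Matrix Filter Topology
open scoped Polynomial.Bivariate Matrix.Norms.Operator

namespace Pool.Agent.GR.NP

open Pool.Agent.GR.CV Pool.Agent.GR.SP

variable {r : ℕ}

theorem exists_branch2 {P : ℂ[X][Y]} {x₀ y₀ : ℂ} (h : P.evalEval x₀ y₀ = 0)
    (h' : (derivative P).evalEval x₀ y₀ ≠ 0) : ∃ y : ℂ → ℂ, y x₀ = y₀ ∧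
      ∀ᶠ x in 𝓝 x₀, DifferentiableAt ℂ y x ∧ P.evalEval x (y x) = 0 := by
  set f : ℂ × ℂ → ℂ := fun z => P.evalEval z.1 z.2
  have cdf : ContDiffAt ℂ 1 f (x₀, y₀) := (algb_contDiff P).contDiffAt
  have h3 := ((cdf.differentiableAt one_ne_zero).hasFDerivAt.comp y₀
    (hasFDerivAt_prodMk_right x₀ y₀)).unique (algb_hasDerivAt P x₀ y₀).hasFDerivAt
  have if₂ : (fderiv ℂ f (x₀, y₀) ∘L .inr ℂ ℂ ℂ).IsInvertible := by
    rw [h3]
    refine ⟨ContinuousLinearEquiv.unitsEquivAut ℂ (Units.mk0 _ h'), ?_⟩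
    ext
    simp
  refine ⟨cdf.implicitFunction one_ne_zero if₂, cdf.implicitFunction_apply_self _ _, ?_⟩
  filter_upwards [cdf.eventually_apply_implicitFunction one_ne_zero if₂,
    (cdf.contDiffAt_implicitFunction one_ne_zero if₂).eventually (by simp)] with x hx1 hx2
  exact ⟨hx2.differentiableAt one_ne_zero, hx1.trans h⟩

theorem exists_gen {R : Type} [CommRing R] [Algebra.FiniteType ℤ R] (ι : R →+* ℂ) {U : Set ℂ}
    (hU : ¬ U.Countable) : ∃ x ∈ U, ∀ f : R[X], f.eval₂ ι x = 0 → f.map ι = 0 := by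
  obtain ⟨n, φ, hφ⟩ := Algebra.FiniteType.iff_quotient_mvPolynomial''.1 ‹_›
  have h1 : Countable (MvPolynomial (Fin n) ℤ) := Cardinal.mk_le_aleph0_iff.1
    (MvPolynomial.cardinalMk_le_max.trans
      (sup_le (sup_le Cardinal.mk_le_aleph0 Cardinal.mk_le_aleph0) le_rfl))
  have h2 : Countable R := hφ.countable
  have h3 : Countable R[X] := Cardinal.mk_le_aleph0_iff.1
    (Polynomial.cardinalMk_le_max.trans (max_le Cardinal.mk_le_aleph0 le_rfl))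
  by_contra h
  refine hU ((Set.countable_iUnion fun f : R[X] =>
    (f.map ι).roots.toFinset.countable_toSet).mono fun x hx => by_contra fun h4 => h ⟨x, hx, ?_⟩)
  refine fun f hf => by_contra fun h5 => h4 (Set.mem_iUnion.2 ⟨f, ?_⟩)
  rwa [Finset.mem_coe, Multiset.mem_toFinset, mem_roots h5, IsRoot.def, eval_map]

theorem ee_D {S : CV.Sys ℂ r} {x y : ℂ} (h : (ee S).evalEval x y ≠ 0) :
    S.D.eval x ≠ 0 ∧ (derivative S.P).evalEval x y ≠ 0 := by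
  rwa [ee, evalEval_mul, evalEval_C, mul_ne_zero_iff] at h

theorem hol_near {S : CV.Sys ℂ r} {y : ℂ → ℂ} {x : ℂ} (h : ∀ᶠ z in 𝓝 x, DifferentiableAt ℂ y z ∧
    S.P.evalEval z (y z) = 0 ∧ (ee S).evalEval z (y z) ≠ 0) :
    ∃ E : ℂ → Mat r, E x = 1 ∧ ∀ᶠ z in 𝓝 x, SP.Near S y E z ∧
      HasDerivAt E (((S.D.eval z)⁻¹ • S.A.map (evalEval z (y z))) * E z) z := by
  obtain ⟨E, h0, hE⟩ := exists_holM (c := x)
    (B := fun z => (S.D.eval z)⁻¹ • S.A.map (evalEval z (y z))) (h.mono fun z hz a b =>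
      (S.D.differentiableAt.fun_inv (ee_D hz.2.2).1).fun_mul
        (hasDerivAt_evalEval hz.1.hasDerivAt (S.A a b)).differentiableAt)
  refine ⟨E, h0, ?_⟩
  filter_upwards [h, hE] with z hz hz'
  exact ⟨⟨hz.1, hz.2.1, hz.2.2, fun a b => by rw [← Matrix.smul_mul]; exact hz' a b⟩,
    hasDerivAt_mat.2 hz'⟩

theorem spec_core [NeZero r] {Γ : Type} [CommRing Γ] [Algebra ℚ Γ] (ι χ : Γ →+* ℂ)
    (hi : Function.Injective ι) (hV : ∀ x, x ∈ ι.range ∨ x⁻¹ ∈ ι.range) (S : CV.Sys Γ r)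
    (hP : S.P.Monic) (t : Γ) {y : ℂ → ℂ} {Z T : ℂ → Mat r} {U : Set ℂ} (hU : U ∈ 𝓝 (ι t))
    (hZ : ∀ x ∈ U, (DifferentiableAt ℂ y x ∧ (S.map ι).P.evalEval x (y x) = 0 ∧
      (ee (S.map ι)).evalEval x (y x) ≠ 0) ∧ (Z x).det ≠ 0 ∧ Up (T x) ∧
      HasDerivAt Z ((((S.map ι).D.eval x)⁻¹ • (S.map ι).A.map (evalEval x (y x))) * Z x +
        Z x * T x) x) (hQ : ∀ a b, AlgF U fun x => Z x a b)
    (hw : ∀ᶠ x in 𝓝 (χ t), ∀ v, (S.map χ).P.evalEval x v = 0 → (ee (S.map χ)).evalEval x v ≠ 0) :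
    (S.map χ).AlgTri := by
  let V : ValuationSubring ℂ := ⟨ι.range, hV⟩
  let e : Γ ≃+* V := RingEquiv.ofBijective ι.rangeRestrict
    ⟨fun a b h => hi (congrArg Subtype.val h), ι.rangeRestrict_surjective⟩
  have h0 := hZ _ (mem_of_mem_nhds hU)
  obtain ⟨k₀, b, k1, hb, hb0, k2⟩ := iwasawa V h0.2.1
  obtain ⟨k, hk⟩ := (isUnit_iff_isUnit_det (e.symm.toRingHom.mapMatrix k₀)).2
    (by rw [← RingHom.map_det]; exact k1.map _)
  have k3 : k.val.map ι = Z (ι t) * b := by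
    rw [← k2, hk]
    exact Matrix.ext fun a c => congrArg Subtype.val (e.apply_symm_apply (k₀ a c))
  obtain ⟨y₀, hy⟩ : y (ι t) ∈ ι.range :=
    V.toLocalSubring.mem_of_isMax_of_isIntegral V.isMax_toLocalSubring
      ⟨(S.P.map (evalRingHom t)).map e.toRingHom, (hP.map _).map _, by
        rw [eval₂_map, eval₂_map, ← h0.1.2.1, ← eval₂_evalRingHom, CV.Sys.map, eval₂_map]
        congr 1
        exact RingHom.ext fun p => (eval₂_at_apply ι t).symm.trans (eval_map ι _).symm⟩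
  have hev : ∀ φ : Γ →+* ℂ, SP.ev2 φ (φ t) (φ y₀) = φ.comp (evalEvalRingHom t y₀) := fun φ =>
    RingHom.ext fun p => map_mapRingHom_evalEval φ p t y₀
  let F : Option (Fin r) × Fin r → PowerSeries Γ := fun i => uF i ((k⁻¹).val.map PowerSeries.C *
    (Matrix.of fun a c => PowerSeries.map (evalEvalRingHom t y₀) (ff S a c)) *
      k.val.map PowerSeries.C)
  have hF : ∀ (φ : Γ →+* ℂ) i z, PowerSeries.map (eval₂RingHom φ z) (PowerSeries.map C (F i)) =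
      uF i (((k⁻¹).val.map φ).map PowerSeries.C * (Matrix.of fun a c =>
        PowerSeries.map (SP.ev2 φ (φ t) (φ y₀)) (ff S a c)) * (k.val.map φ).map PowerSeries.C) := by
    intro φ i z
    have h1 : (eval₂RingHom φ z).comp C = φ := RingHom.ext fun a => eval₂_C φ z
    rw [← RingHom.comp_apply, ← PowerSeries.map_comp, h1, uF_map, map_mul, map_mul, hev,
      PowerSeries.map_comp]
    exact congrArg _ (congrArg₂ _ (congrArg₂ _ (Matrix.ext fun a c => PowerSeries.map_C _ _) rfl)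
      (Matrix.ext fun a c => PowerSeries.map_C _ _))
  obtain ⟨E, hE0, hE⟩ := hol_near (mem_of_superset hU fun x hx => (hZ x hx).1)
  have hu := uni_of_tri hE0 ((hE.and hU).mono fun x hx => ⟨hx.1.2, (hZ x hx.2).2⟩)
  have hv : (S.map χ).P.evalEval (χ t) (χ y₀) = 0 := by
    refine (map_mapRingHom_evalEval χ S.P t y₀).trans ?_
    rw [hi ((map_mapRingHom_evalEval ι S.P t y₀).symm.trans ((hy ▸ h0.1.2.1).trans
      (map_zero ι).symm)), map_zero]
  obtain ⟨u, hu0, hu1⟩ := exists_branch2 hv (ee_D (hw.self_of_nhds _ hv)).2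
  obtain ⟨W, hW0, hW⟩ := hol_near (S := S.map χ) (y := u)
    ((hu1.and hw).mono fun x hx => ⟨hx.1.1, hx.1.2, hx.2 _ hx.1.2⟩)
  have hG : ∀ i, AlgG (fun z => uF i ((k⁻¹).val.map χ * W z * k.val.map χ)) (χ t) := by
    intro i
    rw [tay_uF S χ (hW.mono fun x hx => hx.1) hW0, hu0, ← hF χ i 0]
    refine spec_det ι χ hi _ not_countable_complex (fun z _ => ?_) 0
    rw [hF, hy, ← tay_uF S ι (hE.mono fun x hx => hx.1) hE0]
    obtain ⟨Q, q1, q2⟩ := algF_uF (AlgF.mat_mul (AlgF.mat_mul (U := fun _ => (k⁻¹).val.map ι)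
      (fun a c => algF_const U _) hQ) (W := fun _ => b) fun a c => algF_const U _) i
    refine ⟨Q, q1, ?_⟩
    filter_upwards [hu, hU] with x ⟨g, g1, g2⟩ hx
    have hbu := hb0.isUnit
    let _ := Matrix.invertibleOfIsUnitDet _ hbu
    have g3 : Up (b⁻¹ * g * b - 1) := by
      have g4 := up_mul (lu2_strict (Matrix.blockTriangular_inv_of_blockTriangular hb) g1) hb
      rwa [Matrix.mul_sub, Matrix.sub_mul, Matrix.mul_one, nonsing_inv_mul _ hbu] at g4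
    have g5 : (k⁻¹).val.map ι * E x * k.val.map ι =
        (k⁻¹).val.map ι * Z x * b * (b⁻¹ * g * b) := by
      rw [k3, Matrix.mul_assoc, ← Matrix.mul_assoc (E x), g2]
      simp only [Matrix.mul_assoc, mul_nonsing_inv_cancel_left _ _ hbu]
    rw [g5, uF_mul i _ g3]
    exact q2 x hx
  obtain ⟨c, c1, c2⟩ : ∃ c : (Mat r)ˣ, (k⁻¹).val.map χ = (c⁻¹).val ∧ k.val.map χ = c.val :=
    ⟨Units.map χ.mapMatrix.toMonoidHom k, rfl, rfl⟩
  rw [c1, c2] at hG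
  choose Q hQ0 hQ1 using hG
  have hcont : ContinuousAt (fun z => (W z).det) (χ t) :=
    (continuous_id.matrix_det.continuousAt).comp hW.self_of_nhds.2.continuousAt
  obtain ⟨θ, hθ, hb⟩ := Metric.eventually_nhds_iff_ball.1 ((hW.and (eventually_all.2 hQ1)).and
    (hcont.eventually_ne (y := 0) (by rw [hW0, det_one]; exact one_ne_zero)))
  obtain ⟨ε, Z', T', hε, z1, z2⟩ := tri_of_flag Metric.isOpen_ball (Metric.mem_ball_self hθ) hW0
    (fun x hx => ⟨(hb x hx).2, (hb x hx).1.1.2⟩) c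
    (fun j => ⟨Q (none, j), hQ0 _, fun x hx => (hb x hx).1.2 (none, j)⟩)
    fun a j => ⟨Q (some a, j), hQ0 _, fun x hx => (hb x hx).1.2 (some a, j)⟩
  refine ⟨χ t, ε, u, Z', T', hε, fun x hx => ?_, z2⟩
  obtain ⟨w1, w2, w3, w4⟩ := z1 x hx
  obtain ⟨n1, n2, n3, -⟩ := (hb x w1).1.1.1
  exact ⟨n1, n2, (ee_D n3).1, w2, w3, fun a c => by rw [← Matrix.smul_mul]; exact w4 a c⟩

theorem alg_specT [NeZero r] {R : Type} [CommRing R] [Algebra.FiniteType ℤ R] (ι ψ : R →+* ℂ)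
    (hk : RingHom.ker ι ≤ RingHom.ker ψ) (S : CV.Sys R r) (hP : S.P.Monic)
    (hI : Irreducible (S.map ι).P) (hA : (S.map ι).AlgTri) (hI' : Irreducible (S.map ψ).P)
    (hD' : (S.map ψ).D ≠ 0) : (S.map ψ).AlgTri := by
  obtain ⟨x₀, ε, y, Z, T, hε, hZ, hQ⟩ := hA
  obtain ⟨-, q, c, hc, hq⟩ := bez_der (P := (S.map ι).P) (hP.map _) hI
  obtain ⟨x₁, η, hη, hsub, hne⟩ := exists_ball hc x₀ hε
  obtain ⟨-, q', c', hc', hq'⟩ := bez_der (P := (S.map ψ).P) (hP.map _) hI'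
  obtain ⟨w, δ, hδ, -, hw⟩ := exists_ball (mul_ne_zero hc' hD') 0 one_pos
  simp only [eval_mul, mul_ne_zero_iff] at hw
  obtain ⟨x, hx, hg⟩ := exists_gen ι (spec_uncountable x₁ hη)
  obtain ⟨Γ, g1, g2, g3⟩ := chev (specR (eval₂RingHom ι x) (eval₂RingHom ψ w)) (by
    rintro z ⟨N, f, hN, h1, h2⟩ hz
    rw [hz, mul_zero] at h1
    have h3 : f.map ψ = 0 := Polynomial.ext fun n => (coeff_map ψ n).trans
      (hk ((coeff_map ι n).symm.trans (congrArg (fun p => coeff p n) (hg f h1.symm))))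
    rw [coe_eval₂RingHom, ← eval_map, h3, eval_zero] at h2
    exact (mul_eq_zero.1 h2).resolve_left (Int.cast_ne_zero.2 hN))
  let j : R →+* Γ :=
    (ι.prod ψ).codRestrict Γ fun a => g1 ⟨1, C a, one_ne_zero, by simp, by simp⟩
  let ι' : Γ →+* ℂ := (RingHom.fst ℂ ℂ).comp Γ.val.toRingHom
  let ψ' : Γ →+* ℂ := (RingHom.snd ℂ ℂ).comp Γ.val.toRingHom
  have e1 : (S.map j).map ι' = S.map ι := Sys.map_map S j ι'
  have e2 : (S.map j).map ψ' = S.map ψ := Sys.map_map S j ψ'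
  rw [← e2]
  refine spec_core ι' ψ' ((injective_iff_map_eq_zero _).2 fun z hz =>
      Subtype.ext (Prod.ext hz (g2 z.1 z.2 hz)))
    (fun z => (g3 z).imp (fun ⟨a, a1, a2⟩ => ⟨⟨a, a1⟩, a2⟩) fun ⟨a, a1, a2⟩ => ⟨⟨a, a1⟩, a2⟩)
    (S.map j) (hP.map _) ⟨(x, w), g1 ⟨1, X, one_ne_zero, by simp, by simp⟩⟩ (y := y) (Z := Z)
    (T := T) (Metric.isOpen_ball.mem_nhds hx) (fun z hz => ?_)
    (fun a b => AlgF.mono (hQ a b) hsub) ?_
  · obtain ⟨h1, h2, h3, h4, h5, h6⟩ := hZ z (hsub hz)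
    rw [e1, Matrix.smul_mul]
    exact ⟨⟨h1, h2, ee_ne hq h2 (hne z hz) h3⟩, h4, h5, hasDerivAt_mat.2 h6⟩
  · rw [e2]
    filter_upwards [Metric.ball_mem_nhds w hδ] with z hz v hv
    exact ee_ne hq' hv (hw z hz).1 (hw z hz).2

end Pool.Agent.GR.NP
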