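import Pool.Agent.Lib.MP_aa40d3_nt.NP.Final
import Pool.Agent.Lib.MP_aa40d3_nt.NP.SpC

/-! Nilpotent systems on the generic curve and their specialisations. -/

open Polynomial
open scoped Polynomial.Bivariate IntermediateField

namespace Pool.Agent.GR.NP

open Pool.Agent.GR.CV Pool.Agent.GR.GE
open Pool.Agent.Lib.MP_a01f70_lc.QQ (Place)

theorem final10N (r : ℕ) (hr : 1 ≤ r) : ∃ g₀ : ℕ, ∀ (R : Type) [CommRing R] [Algebra.FiniteType ℤ R]
    (ι ψ : R →+* ℂ) (S : CV.Sys R r) (F : Type) [Field F] [Algebra ℂ F] (x y z : F)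
    (Sg : Finset (Place ℂ F)), RingHom.ker ι ≤ RingHom.ker ψ → S.P.Monic →
    Irreducible (S.map ι).P → Irreducible (S.map ψ).P → (S.map ψ).D ≠ 0 →
    Transcendental ℂ x → ℂ⟮x, y⟯ = ⊤ → aevalAeval x y (S.map ι).P = 0 → g₀ ≤ genus F →
    r + 2 ≤ Module.finrank ℂ⟮z⟯ F →
    Moduli Sg (min (3 * genus F - 3) (2 * genus F + 2 * Module.finrank ℂ⟮z⟯ F - 5) + Sg.card) →
    (∀ p ∉ Sg, ∀ φ, At φ p → (S.map ι).Loc (φ x) (φ y)) →
    (∀ m : Ideal R, m.IsMaximal → (S.map (Ideal.Quotient.mk m)).Tri) → (S.map ψ).AlgTri := by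
  obtain ⟨g, hg⟩ := final9N r hr
  have : NeZero r := ⟨by omega⟩
  refine ⟨g, fun R _ _ ι ψ S F _ _ x y z Sg hk hP hI hI' hD h1 h2 h3 h4 h5 h6 h7 h8 =>
    alg_specT ι ψ hk S hP hI (hg R ι S F x y z Sg hP hI (fun h => hD ?_) h1 h2 h3 h4 h5 h6 h7 h8)
      hI' hD⟩
  refine Polynomial.ext fun k => ?_
  have h9 : (S.D.map ι).coeff k = 0 := congrArg (fun p => coeff p k) h
  rw [coeff_map] at h9
  exact (coeff_map ψ k).trans (hk h9)

end Pool.Agent.GR.NP
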