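import Pool.Agent.Lib.MP_aa40d3_nt.NP.AbsQ
import Pool.Agent.Lib.MP_aa40d3_nt.GD.Ind

/-! Few sheets. -/

open Matrix

namespace Pool.Agent.GR.NP

open GC

variable {G : Type} [Group G] {d m m' : ℕ} {σ : G →* Mt m}

theorem VU.of_finite [Finite G] : VU σ := by
  refine ⟨⊥, 1, inferInstance, fun l h1 h2 => ?_⟩
  obtain ⟨x, rfl⟩ := List.length_eq_one_iff.1 h2
  rw [Subgroup.mem_bot.1 (h1 x List.mem_cons_self)]
  simp

theorem lin_prod {τ : G →* Mt m'} {L : Mt m →ₗ[ℂ] Mt m'} (h : ∀ x, τ x = L (σ x)) (l : List G)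
    (y : G) : L (σ y * (l.map fun x => σ x - 1).prod) = τ y * (l.map fun x => τ x - 1).prod := by
  induction l generalizing y with
  | nil => simp [h]
  | cons x l ih =>
    rw [List.map_cons, List.map_cons, List.prod_cons, List.prod_cons, ← mul_assoc, ← mul_assoc,
      mul_sub, mul_sub, mul_one, mul_one, sub_mul, sub_mul, map_sub, ← map_mul, ← map_mul, ih, ih]

theorem QU.of_lin {τ : G →* Mt m'} {L : Mt m →ₗ[ℂ] Mt m'} (h : ∀ x, τ x = L (σ x)) {x : G}
    (hx : QU (σ x)) : QU (τ x) := by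
  obtain ⟨E, hE, j, hj⟩ := hx
  have h1 := lin_prod h (List.replicate j (x ^ E)) 1
  simp only [List.map_replicate, List.prod_replicate, map_one, one_mul, map_pow, hj,
    map_zero] at h1
  exact ⟨E, hE, j, h1.symm⟩

/-- `x ↦ Q * x * P`. -/
def sandL (Q : Matrix (Fin m') (Fin m) ℂ) (P : Matrix (Fin m) (Fin m') ℂ) : Mt m →ₗ[ℂ] Mt m' where
  toFun x := Q * x * P
  map_add' x y := by rw [Matrix.mul_add, Matrix.add_mul]
  map_smul' c x := by rw [Matrix.mul_smul, Matrix.smul_mul, RingHom.id_apply]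

theorem compressQ (b : BR σ d) {S : Finset (Fin d)} {E : Mt m} (hE : E * E = E) (he : ∀ i, E * b.e i = b.e i * E)
    (hσ : ∀ x y, E * σ x * E * σ y * E = E * σ (x * y) * E) (hs : b.bs.Sup ⊤ S)
    (h0 : ∀ i ∈ S, E * b.e i ≠ 0) :
    ∃ (N : Subgroup G) (_ : N.Normal) (σ' : G ⧸ N →* Mt E.rank) (b' : BR σ' d)
      (P : Matrix (Fin m) (Fin E.rank) ℂ) (Q : Matrix (Fin E.rank) (Fin m) ℂ),
      P * Q = E ∧ (∀ x : G, σ' (x : G ⧸ N) = Q * σ x * P) ∧ (∀ x : G, b'.π (x : G ⧸ N) = b.π x) ∧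
      (∀ (x : G) i, x ∈ b.K i → (x : G ⧸ N) ∈ b'.K i) ∧ ∀ i, b.e i = 0 → b'.e i = 0 := by
  obtain ⟨P, Q, hQP, hPQ⟩ := idem_fac hE
  generalize E.rank = m' at P Q hQP hPQ ⊢
  have EP : E * P = P := by rw [← hPQ, Matrix.mul_assoc, hQP, Matrix.mul_one]
  have QE : Q * E = Q := by rw [← hPQ, ← Matrix.mul_assoc, hQP, Matrix.one_mul]
  have mid : ∀ x y : Mt m, Q * x * P * (Q * y * P) = Q * (x * E * y) * P := fun x y => by
    simp only [← hPQ, Matrix.mul_assoc]
  have sand : ∀ x : Mt m, Q * (E * x * E) * P = Q * x * P := fun x => by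
    rw [Matrix.mul_assoc, Matrix.mul_assoc, EP, Matrix.mul_assoc, ← Matrix.mul_assoc Q E, QE,
      Matrix.mul_assoc]
  have key : ∀ x y : Mt m, E * y = y * E → Q * x * P * (Q * y * P) = Q * (x * y) * P := by
    intro x y h
    rw [mid, Matrix.mul_assoc x, h]
    simp only [Matrix.mul_assoc, EP]
  have key' : ∀ x y : Mt m, E * x = x * E → Q * x * P * (Q * y * P) = Q * (x * y) * P := by
    intro x y h
    rw [mid, ← h]
    simp only [← Matrix.mul_assoc, QE]
  have back : ∀ x : Mt m, P * (Q * x * P) * Q = E * x * E := fun x => by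
    simp only [← hPQ, Matrix.mul_assoc]
  let τ : G →* Mt m' :=
    { toFun := fun y => Q * σ y * P
      map_one' := by rw [map_one, Matrix.mul_one, hQP]
      map_mul' := fun x y => by
        rw [mid, ← sand (σ (x * y)), ← hσ, ← sand (σ x * E * σ y)]
        simp only [Matrix.mul_assoc] }
  have hN : ∀ x, x ∈ τ.ker ↔ E * σ x * E = E := fun x => by
    rw [MonoidHom.mem_ker]
    change Q * σ x * P = 1 ↔ _
    constructor
    · intro h
      rw [← back, h, Matrix.mul_one, hPQ]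
    · intro h
      rw [← sand, h, QE, hQP]
  have hπ : τ.ker ≤ b.π.ker := fun x hx => by
    rw [MonoidHom.mem_ker]
    refine Equiv.ext fun i => ?_
    by_cases hi : i ∈ S
    · by_contra hne
      apply h0 i hi
      have h1 : E * b.e i = E * b.e (b.π x i) := by
        calc E * b.e i = E * σ x * E * b.e i := by rw [(hN x).1 hx]
          _ = E * (σ x * b.e i) * E := by simp only [Matrix.mul_assoc, he]
          _ = b.e (b.π x i) * (E * σ x * E) := by
            rw [b.act, ← Matrix.mul_assoc, he]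
            simp only [Matrix.mul_assoc]
          _ = E * b.e (b.π x i) := by rw [(hN x).1 hx, he]
      rw [← b.idem i, ← Matrix.mul_assoc, h1, Matrix.mul_assoc, b.orth (b.π x i) i hne, Matrix.mul_zero]
    · exact (hs x trivial i hi).1
  let σ' : G ⧸ τ.ker →* Mt m' := QuotientGroup.lift τ.ker τ fun _ hx => hx
  let b' : BR σ' d :=
    { e := fun i => Q * b.e i * P
      π := QuotientGroup.lift τ.ker b.π hπ
      orth := fun i j h => by rw [key _ _ (he j), b.orth i j h, Matrix.mul_zero, Matrix.zero_mul]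
      sum := by rw [← Matrix.sum_mul, ← Matrix.mul_sum, b.sum, Matrix.mul_one, hQP]
      act := fun x i => by
        obtain ⟨x, rfl⟩ := QuotientGroup.mk_surjective x
        change Q * σ x * P * (Q * b.e i * P) = Q * b.e (b.π x i) * P * (Q * σ x * P)
        rw [key _ _ (he i), key' _ _ (he _), b.act]
      inj := fun x y h => by
        obtain ⟨x, rfl⟩ := QuotientGroup.mk_surjective x
        obtain ⟨y, rfl⟩ := QuotientGroup.mk_surjective y
        have h' : τ x = τ y := h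
        rw [QuotientGroup.eq, MonoidHom.mem_ker, map_mul, ← h', ← map_mul, inv_mul_cancel,
          map_one] }
  refine ⟨τ.ker, inferInstance, σ', b', P, Q, hPQ, fun _ => rfl, fun _ => rfl,
    fun x i hx => ⟨hx.1, ?_⟩, fun i hi => ?_⟩
  · change Q * σ x * P * (Q * b.e i * P) = Q * b.e i * P
    rw [key _ _ (he i), hx.2]
  · change Q * b.e i * P = 0
    rw [hi, Matrix.mul_zero, Matrix.zero_mul]

theorem finite_smallQ (r : ℕ) (hr : 1 ≤ r) : ∃ k : ℕ, ∀ (d m : ℕ) (G : Type) [Group G]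
    (σ : G →* Mt m) (b : BR σ d) (S : Finset (Fin d)) (l : List G), m ≠ 0 → m ≤ (r + 2) * r →
    S.card = r + 2 → gen l = ⊤ → (∀ x ∈ l, b.bs.Ok r x) → b.bs.Sup ⊤ S → b.bs.Trans ⊤ S →
    (∀ j, j ∉ S → b.e j = 0) → (∀ i ∈ S, b.Irr1 ⊤ i) → QuL σ l → k ≤ b.bs.cnt l → Finite G := by
  obtain ⟨k, hk⟩ := finite_listQ ((r + 2) * r)
  refine ⟨k, fun d m G _ σ b S l hm hD hS hg hok hs ht he hi hf hc => ?_⟩
  have : NeZero m := ⟨hm⟩
  have hcn := BS.conn hg hok ht
  by_cases h : ∃ x, b.π x = 1 ∧ (∃ c ∈ S, x ∈ b.K c) ∧ x ≠ 1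
  · have hI : IrrR σ := b.irr he hcn hi fun i h1 v h2 h3 => b.fixed hs hcn hi h h1 h2 h3
    refine hk m hm hD G l σ _ hg b.inj hI hf hc fun Z h1 ⟨z, hz, h2⟩ y hy hP => ?_
    by_contra h3
    push Not at h3
    rcases hok y hy with ⟨i, j, h4⟩ | h4
    · exact h2 (schur hI fun x => b.nc hg hr hok hS.ge he hs hcn h1 h4 h3 x z hz)
    · exact of_decide_eq_true hP h4.1
  · push Not at h
    exact BS.fin_triv hg hr hok hS.ge hs hcn h

/-- The claim for matrices of size `m`. -/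
def SmallQ (r k m : ℕ) : Prop :=
  ∀ (d : ℕ) (G : Type) [Group G] (σ : G →* Mt m) (b : BR σ d) (S : Finset (Fin d)) (l : List G),
    m ≠ 0 → S.card = r + 2 → gen l = ⊤ → (∀ x ∈ l, b.bs.Ok r x) → b.bs.Sup ⊤ S → b.bs.Trans ⊤ S →
    (∀ j, j ∉ S → b.e j = 0) → QuL σ l → k ≤ b.bs.cnt l → VU σ

theorem ind_quotQ {r k d m : ℕ} {G : Type} [Group G] {σ : G →* Mt m} (b : BR σ d)
    {S : Finset (Fin d)} {l : List G} (hS : S.card = r + 2) (hg : gen l = ⊤)
    (hok : ∀ x ∈ l, b.bs.Ok r x) (hs : b.bs.Sup ⊤ S) (ht : b.bs.Trans ⊤ S)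
    (he : ∀ j, j ∉ S → b.e j = 0) (hf : QuL σ l) (hc : k ≤ b.bs.cnt l) {E : Mt m} (hE : E * E = E)
    (hEe : ∀ i, E * b.e i = b.e i * E) (hσ : ∀ x y, E * σ x * E * σ y * E = E * σ (x * y) * E)
    (h0 : ∀ i ∈ S, E * b.e i ≠ 0) (hm : E.rank ≠ 0) (ih : SmallQ r k E.rank) :
    ∃ (N : Subgroup G) (j : ℕ), N.FiniteIndex ∧ ∀ L : List G, (∀ x ∈ L, x ∈ N) → L.length = j →
      E * (L.map fun x => σ x - 1).prod * E = 0 := by
  obtain ⟨N, hN, σ', b', P, Q, k0, k1, k2, k3, k4⟩ := compressQ b hE hEe hσ hs h0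
  have hL : ∀ x, σ'.comp (QuotientGroup.mk' N) x = sandL Q P (σ x) := k1
  have hπ : ∀ x : G, b'.bs.π (QuotientGroup.mk' N x) = b.bs.π x := k2
  have hK : ∀ (x : G) i, x ∈ b.bs.K i → QuotientGroup.mk' N x ∈ b'.bs.K i := k3
  have : VU σ' := by
    refine ih d _ σ' b' S (l.map (QuotientGroup.mk' N)) hm hS ?_ (fun y hy => ?_)
      (fun y _ j hj => ?_) (fun u hu v hv => ?_) (fun j hj => k4 j (he j hj)) 
      (hf.map _ fun x => QU.of_lin hL) ?_
    · rw [eq_top_iff, ← MonoidHom.range_eq_top.2 (QuotientGroup.mk'_surjective N),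
        MonoidHom.range_eq_map, ← hg, Subgroup.map_le_iff_le_comap, gen_le]
      exact fun x hx => mem_gen (List.mem_map_of_mem hx)
    · obtain ⟨x, hx, rfl⟩ := List.mem_map.1 hy
      rcases hok x hx with ⟨u, v, e1, e2, e3, e4⟩ | ⟨e1, T, e2, e3⟩
      · exact Or.inl ⟨u, v, e1, (hπ x).trans e2, by rw [← map_mul, e3, map_one],
          fun w a1 a2 => hK x w (e4 w a1 a2)⟩
      · exact Or.inr ⟨(hπ x).trans e1, T, e2, fun w a1 => hK x w (e3 w a1)⟩
    · obtain ⟨x, rfl⟩ := QuotientGroup.mk'_surjective N y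
      exact hK x j (hs x (Subgroup.mem_top x) j hj)
    · obtain ⟨x, -, e⟩ := ht u hu v hv
      exact ⟨QuotientGroup.mk' N x, Subgroup.mem_top _, by rw [hπ]; exact e⟩
    · rw [BS.cnt, List.countP_map]
      exact hc.trans (List.countP_congr fun x _ => by simp only [Function.comp, hπ]).le
  obtain ⟨H, j, h1, h2⟩ := this
  refine ⟨H.comap (QuotientGroup.mk' N), j, ⟨?_⟩, fun L k5 k6 => ?_⟩
  · rw [H.index_comap_of_surjective (QuotientGroup.mk'_surjective N)]
    exact h1.index_ne_zero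
  · have h3 := h2 (L.map (QuotientGroup.mk' N)) (fun x hx => by
      obtain ⟨y, hy, rfl⟩ := List.mem_map.1 hx
      exact k5 y hy) (by rw [List.length_map, k6])
    have h4 := lin_prod hL L 1
    rw [map_one, map_one, one_mul, one_mul] at h4
    rw [List.map_map, mul_one] at h3
    have h5 : Q * (L.map fun x => σ x - 1).prod * P = 0 := h4.trans h3
    rw [← k0, ← Matrix.mul_assoc, Matrix.mul_assoc P, Matrix.mul_assoc P, h5, Matrix.mul_zero,
      Matrix.zero_mul]

theorem vu_small (r : ℕ) (hr : 1 ≤ r) : ∃ k : ℕ, ∀ m ≤ (r + 2) * r, SmallQ r k m := by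
  classical
  obtain ⟨k₁, h₁⟩ := finite_smallQ r hr
  refine ⟨k₁, fun m => ?_⟩
  induction m using Nat.strong_induction_on with
  | _ m ih =>
  intro hD d G _ σ b S l hm hS hg hok hs ht he hF hc
  by_cases hI : ∀ i ∈ S, b.Irr1 ⊤ i
  · have := h₁ d m G σ b S l hm hD hS hg hok hs ht he hI hF hc
    exact VU.of_finite
  push Not at hI
  obtain ⟨i, hi, hI⟩ := hI
  obtain ⟨Q, q1, q2, q3, q4, q5⟩ := b.exists_proj ht hi hI
  have hne : ∀ E : Mt m, E * b.e i ≠ 0 → E.rank ≠ 0 := fun E h2 h3 => by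
    rw [Matrix.rank, Submodule.finrank_eq_zero, LinearMap.range_eq_bot, ← toLin'_apply',
      LinearEquiv.map_eq_zero_iff] at h3
    exact h2 (by rw [h3, zero_mul])
  have p1 : (1 - Q) * (1 - Q) = 1 - Q := by
    rw [mul_sub, sub_mul, sub_mul, q1, mul_one, mul_one, one_mul, sub_self, sub_zero]
  have p2 : ∀ x, (1 - Q) * σ x * Q = 0 := fun x => by
    rw [sub_mul, sub_mul, one_mul, q3, sub_self]
  have p4 : (1 - Q) * Q = 0 := by rw [sub_mul, q1, one_mul, sub_self]
  have m1 : ∀ x y, Q * σ x * Q * σ y * Q = Q * σ (x * y) * Q := fun x y => by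
    rw [mul_assoc (Q * σ x), mul_assoc (Q * σ x), q3, map_mul]
    simp only [mul_assoc]
  have m2 : ∀ x y, (1 - Q) * σ x * (1 - Q) * σ y * (1 - Q) = (1 - Q) * σ (x * y) * (1 - Q) :=
    fun x y => by rw [mul_sub ((1 - Q) * σ x), p2, mul_one, sub_zero, map_mul, ← mul_assoc]
  have hr1 := hne Q (q4 i hi)
  have hr2 := hne _ (q5 i hi)
  have hrk := rank_idem q1
  obtain ⟨N₁, j₁, n1, n2⟩ := ind_quotQ b hS hg hok hs ht he hF hc q1 q2 m1 q4 hr1
    (ih _ (by omega) (by omega))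
  obtain ⟨N₂, j₂, n3, n4⟩ := ind_quotQ b hS hg hok hs ht he hF hc p1
    (fun j => by rw [sub_mul, mul_sub, one_mul, mul_one, q2]) m2 q5 hr2 (ih _ (by omega) (by omega))
  have inv : ∀ L : List G, (1 - Q) * (L.map fun x => σ x - 1).prod * Q = 0 := fun L => by
    induction L with
    | nil => simpa using p4
    | cons x L ih =>
      have h1 : (L.map fun x => σ x - 1).prod * Q = Q * ((L.map fun x => σ x - 1).prod * Q) := by
        rw [mul_assoc, sub_mul, one_mul, sub_eq_zero] at ih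
        exact ih
      rw [List.map_cons, List.prod_cons, mul_assoc, mul_assoc, h1, ← mul_assoc, ← mul_assoc,
        mul_sub (1 - Q), sub_mul, p2, mul_one, p4, sub_zero, zero_mul]
  refine ⟨N₁ ⊓ N₂, j₁ + j₂, inferInstance, fun L k1 k2 => ?_⟩
  have a1 := n2 (L.take j₁) (fun x hx => (k1 x (List.mem_of_mem_take hx)).1)
    (by rw [List.length_take]; omega)
  have a2 := n4 (L.drop j₁) (fun x hx => (k1 x (List.mem_of_mem_drop hx)).2)
    (by rw [List.length_drop]; omega)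
  have a3 := inv (L.take j₁)
  have a4 := inv (L.drop j₁)
  rw [← L.take_append_drop j₁, List.map_append, List.prod_append, mul_one]
  generalize ((L.take j₁).map fun x => σ x - 1).prod = U at a1 a3
  generalize ((L.drop j₁).map fun x => σ x - 1).prod = V at a2 a4
  calc U * V = (Q * U * Q + (1 - Q) * U * Q) * V +
        U * ((1 - Q) * V * (1 - Q) + (1 - Q) * V * Q) := by noncomm_ring
    _ = 0 := by rw [a1, a2, a3, a4, add_zero, zero_mul, mul_zero, add_zero]

end Pool.Agent.GR.NP
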