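import Pool.Agent.Lib.MP_aa40d3_nt.NP.HurQ
import Pool.Agent.Lib.MP_aa40d3_nt.GC.Abs

/-! The group theorem for irreducible representations with quasi-unipotent loops. -/

open Matrix

namespace Pool.Agent.GR.NP

open GC

theorem aq1_tw {r : ℕ} {a z : Mt r} {d : ℂ} (ha : IsNilpotent (a - 1)) (h : a * z = d • (z * a))
    (hz : z ≠ 0) : d = 1 := by
  by_contra hd
  obtain ⟨k, hk⟩ := ha
  have h1 : ∀ j : ℕ, (a - 1) ^ j * z = z * (d • a - 1) ^ j := fun j =>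
    (SemiconjBy.pow_right (a := z) (x := d • a - 1) (y := a - 1) (by
      rw [SemiconjBy, sub_mul, mul_sub, h, mul_smul_comm, one_mul, mul_one]) j).symm
  have h2 : IsUnit (d • a - 1) := by
    rw [show d • a - 1 = (d - 1) • (1 : Mt r) + d • (a - 1) by module]
    exact IsNilpotent.isUnit_add_left_of_commute (IsNilpotent.smul ⟨k, hk⟩ d)
      (IsUnit.smul (Units.mk0 _ (sub_ne_zero.2 hd)) isUnit_one)
      ((Commute.one_right _).smul_right _)
  exact hz ((h2.pow k).mul_left_eq_zero.1 (by rw [← h1, hk, zero_mul]))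

theorem aq1_pow {r : ℕ} {a z : Mt r} {d : ℂ} (h : a * z = d • (z * a)) (j : ℕ) :
    a ^ j * z = d ^ j • (z * a ^ j) := by
  induction j with
  | zero => simp
  | succ j ih => rw [pow_succ, mul_assoc, h, mul_smul_comm, ← mul_assoc, ih, smul_mul_assoc,
      smul_smul, mul_assoc, pow_succ']

/-- Conjugation by `σ γ ^ E` minus the identity is nilpotent on matrices, so the same holds for
`u ^ E` (`Blk.Lf.pow`, `b.inj`); hence all quotients of eigenvalues of `u ^ E` are one, and the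
determinant is one. -/
theorem QU.lift {r s : ℕ} {G : Type} [Group G] {σ : G →* Mt r} {A : Subalgebra ℂ (Mt r)}
    {b : Blk A s} {γ : G} {u : GLr s} (h : b.Lf σ γ u) (hq : QU (σ γ)) : QU u.val := by
  obtain ⟨E, hE, hn⟩ := hq
  refine qu_iff.2 fun μ hμ => ?_
  obtain ⟨v, -, h2, h3⟩ := exists_eig u.val
  have h4 : ∀ i, v i ^ E = μ ^ E := fun i => by
    obtain ⟨h0, z, hz, h5⟩ := adS_ratio (Units.coeHom (Mt s)) u hμ (h3 i)
    have h6 : σ γ * b.φ z * σ γ⁻¹ = (μ / v i) • b.φ z := by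
      rw [← h.2, ← map_smul, ← h5]
      rfl
    have h7 : σ γ * b.φ z = (μ / v i) • (b.φ z * σ γ) := by
      rw [← smul_mul_assoc, ← h6, mul_assoc, rep_inv_mul, mul_one]
    have h8 := aq1_tw hn (aq1_pow h7 E) fun e => hz (b.inj (e.trans (map_zero _).symm))
    rw [div_pow, div_eq_one_iff_eq (pow_ne_zero E h0)] at h8
    exact h8.symm
  refine isOfFinOrder_iff_pow_eq_one.2 ⟨E * s, Nat.mul_pos hE b.pos, ?_⟩
  have h5 : (∏ i, v i) ^ E = 1 := by rw [← h2, h.1, one_pow]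
  rwa [← Finset.prod_pow, Finset.prod_congr rfl fun i _ => h4 i, Finset.prod_const,
    Finset.card_univ, Fintype.card_fin, ← pow_mul] at h5

theorem aq1_res {r : ℕ} {U : Submodule ℂ (Fin r → ℂ)} {f : Module.End ℂ U} {g : Mt r}
    (h : ∀ v : U, (f v).val = g *ᵥ v.val) (k : ℕ) (v : U) : ((f ^ k) v).val = (g ^ k) *ᵥ v.val := by
  induction k with
  | zero => simp
  | succ k ih => rw [pow_succ', pow_succ', Module.End.mul_apply, h, ih, mulVec_mulVec]

theorem aq1_det {V : Type} [AddCommGroup V] [Module ℂ V] [FiniteDimensional ℂ V]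
    {f : Module.End ℂ V} {E k : ℕ} (hE : 0 < E) (h : (f ^ E - 1) ^ k = 0) :
    IsOfFinOrder (LinearMap.det f) := by
  rw [← LinearMap.det_toMatrix (Module.finBasis ℂ V)]
  refine QU.det ⟨E, hE, k, ?_⟩
  have h2 := congrArg (LinearMap.toMatrixAlgEquiv (Module.finBasis ℂ V)) h
  rwa [map_pow, map_sub, map_pow, map_one, map_zero] at h2

/-- As `exists_detchar`; the restriction of a nilpotent map is nilpotent, and the determinant of a
unipotent map is one. -/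
theorem exists_detcharQ {r : ℕ} {G : Type} [Group G] (σ : G →* Mt r) {e : Mt r} (he : e ≠ 0) :
    ∃ (δ : stabR σ e →* ℂˣ) (m : ℕ), 0 < m ∧
      (∀ (γ : stabR σ e) (c : ℂˣ), σ γ * e = (c : ℂ) • e → δ γ = c ^ m) ∧
      ∀ γ : stabR σ e, QU (σ γ) → IsOfFinOrder (δ γ) := by
  have hU : ∀ γ : stabR σ e, ∀ v ∈ LinearMap.range (toLin' e),
      toLin' (σ γ) v ∈ LinearMap.range (toLin' e) := by
    rintro γ _ ⟨w, rfl⟩
    refine ⟨σ γ *ᵥ w, ?_⟩
    rw [toLin'_apply, toLin'_apply, toLin'_apply, mulVec_mulVec, mulVec_mulVec, mem_stabR.1 γ.2]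
  let ρ : stabR σ e →* Module.End ℂ (LinearMap.range (toLin' e)) :=
    { toFun := fun γ => (toLin' (σ γ)).restrict (hU γ)
      map_one' := by
        ext v i
        simp
      map_mul' := fun x y => by
        ext v i
        simp }
  refine ⟨(LinearMap.det.comp ρ).toHomUnits, Module.finrank ℂ (LinearMap.range (toLin' e)), ?_,
    fun γ c h => Units.ext ?_, fun γ ⟨E, hE, k, hk⟩ => Units.isOfFinOrder_val.1 ?_⟩
  · rw [Nat.pos_iff_ne_zero, Ne, Submodule.finrank_eq_zero, LinearMap.range_eq_bot,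
      LinearEquiv.map_eq_zero_iff]
    exact he
  · have h1 : ρ γ = (c : ℂ) • LinearMap.id := by
      refine LinearMap.ext ?_
      rintro ⟨_, w, rfl⟩
      refine Subtype.ext ?_
      change σ γ *ᵥ e *ᵥ w = (c : ℂ) • e *ᵥ w
      rw [mulVec_mulVec, h, smul_mulVec]
    rw [MonoidHom.coe_toHomUnits, MonoidHom.comp_apply, h1, LinearMap.det_smul, LinearMap.det_id,
      mul_one, Units.val_pow_eq_pow_val]
  · have h1 : (ρ γ ^ E - 1) ^ k = 0 := LinearMap.ext fun v => Subtype.ext (by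
      rw [aq1_res (g := σ γ ^ E - 1) (fun w => by
        rw [LinearMap.sub_apply, Submodule.coe_sub, aq1_res (g := σ γ) (fun _ => rfl), sub_mulVec,
          one_mulVec, Module.End.one_apply]), hk, zero_mulVec]
      rfl)
    exact aq1_det hE h1

theorem arith_absQ {s : ℕ} [NeZero s] {G : Type} [Group G] [Group.FG G] {σ : G →* Mt s}
    (hi : Function.Injective σ) (hd : ∀ x, (σ x).det = 1) (hS : SimpR σ) {l : ℕ} (hl : l.Prime)
    (hsl : s * s + 1 < l) (L : Set G) (hL : ∀ x ∈ L, QU (σ x))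
    (h : ∀ (τ : ℂ →+* ℂ) (b : ℕ), b = 1 ∨ b = l →
      (∀ x ∈ L, τ (σ x ^ b).trace = (σ x ^ l).trace) →
      ∃ N : Subgroup G, N.Normal ∧ (∃ x ∈ N, ¬ Scl (σ x)) ∧ ∃ a : ℕ, 0 < a ∧
        ∀ x ∈ N, τ (σ x ^ (a * b)).trace = (σ x ^ (a * l)).trace) : Finite G := by
  classical
  have hex : ∃ N : ℕ, 0 < N ∧ ∀ x ∈ L, ∀ μ ∈ spectrum ℂ (σ x), μ ^ N = 1 := by
    obtain ⟨E, hE, h1⟩ := exists_expo σ
    exact ⟨E, hE, fun x hx μ hμ => h1 x μ hμ (qu_iff.1 (hL x hx) μ hμ)⟩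
  obtain ⟨hN0, hN1⟩ := Nat.find_spec hex
  have hmin := fun m => Nat.find_min hex (m := m)
  generalize Nat.find hex = N₀ at hN0 hN1 hmin
  by_cases hdv : l ∣ N₀
  swap
  · obtain ⟨τ, hτ1, hτ2⟩ := exists_tau hN0 ((Nat.Prime.coprime_iff_not_dvd hl).2 hdv)
    obtain ⟨N, hN, hs, a, ha, h1⟩ := h τ 1 (Or.inl rfl) fun x hx =>
      abs_trace _ τ fun μ hμ => by rw [pow_one, hτ1 μ (hN1 x hx μ hμ)]
    refine caseU hi hd hS τ hτ2 ha hl.two_le N hs fun x hx => ?_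
    have h2 := h1 x hx
    rwa [mul_one] at h2
  obtain ⟨M, rfl⟩ := hdv
  have : Fact l.Prime := ⟨hl⟩
  have hM : 0 < M := Nat.pos_of_mul_pos_left hN0
  have h1 := hmin M (lt_mul_left hM hl.one_lt)
  push Not at h1
  obtain ⟨c, hc, μ, hμ, hμM⟩ := h1 hM
  have hν : ∃ ν ∈ spectrum ℂ (σ c), (μ / ν) ^ M ≠ 1 := by
    by_contra hcon
    push Not at hcon
    obtain ⟨v, -, h2, h3⟩ := exists_eig (σ c)
    have h4 : ∀ i, v i ^ M = μ ^ M := fun i => by
      have h5 := hcon _ (h3 i)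
      rw [div_pow, div_eq_one_iff_eq (pow_ne_zero M (adS_ratio σ c hμ (h3 i)).1)] at h5
      exact h5.symm
    have h5 : (μ ^ M) ^ s = 1 := by
      have h6 : (∏ i, v i) ^ M = 1 := by rw [← h2, hd, one_pow]
      rw [← Finset.prod_pow, Finset.prod_congr rfl fun i _ => h4 i, Finset.prod_const,
        Finset.card_univ, Fintype.card_fin] at h6
      exact h6
    have h6 : (μ ^ M) ^ l = 1 := by rw [← pow_mul, mul_comm, hN1 c hc μ hμ]
    have hs0 : 0 < s := Nat.pos_of_ne_zero (NeZero.ne s)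
    have hs1 : s < l := by nlinarith
    have h7 : Nat.Coprime l s :=
      (Nat.Prime.coprime_iff_not_dvd hl).2 fun h8 => absurd (Nat.le_of_dvd hs0 h8) (not_le.2 hs1)
    exact hμM (orderOf_eq_one_iff.1 (Nat.eq_one_of_dvd_coprimes h7
      (orderOf_dvd_of_pow_eq_one h6) (orderOf_dvd_of_pow_eq_one h5)))
  obtain ⟨ν, hν, hδM⟩ := hν
  have hδ := (adS_ratio σ c hμ hν).2
  have hδN : (μ / ν) ^ (l * M) = 1 := by rw [div_pow, hN1 c hc μ hμ, hN1 c hc ν hν, div_one]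
  generalize μ / ν = δ at hδM hδ hδN
  have hδ0 : δ ≠ 0 := by
    rintro rfl
    rw [zero_pow hN0.ne'] at hδN
    exact zero_ne_one hδN
  have hord : orderOf (δ ^ M) = l := orderOf_eq_prime (by rw [← pow_mul, mul_comm, hδN]) hδM
  by_contra hG
  have h2 := adS_card σ c (((Finset.range l).filter fun j => ¬ l ∣ 1 + j * M).image
    fun j => δ ^ (1 + j * M)) fun z hz => by
      obtain ⟨j, hj, rfl⟩ := Finset.mem_image.1 hz
      have hco : Nat.Coprime (1 + j * M) (l * M) :=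
        Nat.Coprime.mul_right ((Nat.Prime.coprime_iff_not_dvd hl).2 (Finset.mem_filter.1 hj).2).symm
          (by simp)
      obtain ⟨τ, hτ1, -⟩ := exists_tau hN0 hco
      obtain ⟨N, hN, hs, a, ha, h3⟩ := h τ l (Or.inr rfl) fun x hx =>
        abs_trace _ τ fun w hw => by
          have h4 := hN1 x hx w hw
          rw [map_pow, hτ1 w h4, ← pow_mul, show (1 + j * M) * l = l + l * M * j by ring, pow_add,
            pow_mul w (l * M), h4, one_pow, mul_one]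
      rw [← hτ1 δ hδN]
      exact caseR hi hd hS τ (Nat.mul_pos ha hl.pos) N hs h3 hG c hδ
  rw [Finset.card_image_of_injOn] at h2
  · have h3 := abs_card (M := M) hl
    omega
  · intro i hi' j hj' hij
    have h3 : δ * (δ ^ M) ^ i = δ * (δ ^ M) ^ j := by
      rw [← pow_mul, ← pow_mul, ← pow_succ', ← pow_succ', mul_comm M, mul_comm M, add_comm _ 1,
        add_comm _ 1]
      exact hij
    refine pow_injOn_Iio_orderOf ?_ ?_ (mul_left_cancel₀ hδ0 h3)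
    · rw [hord]
      exact Finset.mem_range.1 (Finset.mem_filter.1 hi').1
    · rw [hord]
      exact Finset.mem_range.1 (Finset.mem_filter.1 hj').1

theorem caseAQ (r : ℕ) [NeZero r] : ∃ k : ℕ, ∀ (n : ℕ) (Mov : Finset (Fin n)) (L0 : List (Fin n))
    (G : Type) [Group G] (g : Fin n → G) (σ : G →* Mt r), L0.Nodup → (∀ a, a ∈ L0) →
    Subgroup.closure (Set.range g) = ⊤ → Function.Injective σ → IrrR σ →
    (∀ x, IsOfFinOrder (σ x).det) → (∀ x, IsLoop Mov L0 g x → QU (σ x)) →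
    (∀ Z : Subalgebra ℂ (Mt r), InvR σ Z → (∃ x ∈ Z, ¬ Scl x) →
      ∃ M ⊆ Mov, k ≤ M.card ∧ ∀ a ∈ M, ∃ x ∈ Z, σ (g a) * x ≠ x * σ (g a)) →
    ∀ (H : Subgroup G) (B : Subalgebra ℂ (Mt r)), H.Normal → H.FiniteIndex → InvR σ B → CommA B →
    (∀ γ ∈ H, σ γ ∈ B) → Finite G := by
  classical
  refine ⟨Kf ((r * r * (r * r) * 2) ^ (r * r).factorial + 1)
    ((r * r * (r * r) * 2) ^ (r * r).factorial + 1),
    fun n Mov L0 G _ g σ h0 hall hg hi hI hd hl hZ H B hHn hHf hB hc hHB => ?_⟩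
  have : Group.FG G := ⟨⟨Finset.univ.image g, by
    rw [Finset.coe_image, Finset.coe_univ, Set.image_univ, hg]⟩⟩
  obtain ⟨d, s, b, hb⟩ := exists_blocks hI B hB
  have hs : ∀ i, s i = 1 := fun i => (b i).eq_one fun y z => hc _ ((b i).mem y) _ ((b i).mem z)
  by_cases hfin : ∀ γ ∈ H, ∀ i, ∃ c : ℂ, IsOfFinOrder c ∧ σ γ * (b i).φ 1 = c • (b i).φ 1
  · exact tor_finite hi H _ (fun i => (b i).ne_zero) hb hfin
  exfalso
  push Not at hfin
  obtain ⟨h₀, hh₀, i, hni⟩ := hfin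
  obtain ⟨c₀, hc₀⟩ := (b i).scalar (hs i) (hHB _ hh₀)
  have hsc : ∀ γ ∈ H, ∃ c : ℂ, σ γ * (b i).φ 1 = c • (b i).φ 1 := fun γ hγ =>
    (b i).scalar (hs i) (hHB _ hγ)
  have he0 := (b i).ne_zero
  have he1 := (b i).idem
  have heo := (b i).orth hB
  have heB := (b i).mem 1
  have hn0 := fun h => hni c₀ h hc₀
  generalize (b i).φ 1 = e at hc₀ hsc he0 he1 heo heB
  have hc0 := (tor_eig he0 hc₀).1
  obtain ⟨v, hv⟩ := exists_addchar (z := Units.mk0 c₀ hc0) fun h => hn0 (Units.isOfFinOrder_val.2 h)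
  obtain ⟨δ, m, hm, hδ, hδq⟩ := exists_detcharQ σ he0
  obtain ⟨hfi, hidx⟩ := orth_index he0 he1 heo
  have hHG : ∀ γ ∈ H, γ ∈ stabR σ e := fun γ hγ => hc _ (hHB γ hγ) _ heB
  obtain ⟨hpow, φ, hφ, hφe⟩ := RepC.ind_pow (stabR σ e) hidx (repC_add (v.comp δ))
  obtain ⟨ψ, hψ⟩ : ∃ ψ : G → ℂ, ∀ x (h : x ∈ stabR σ e), ψ x = (v (δ ⟨x, h⟩)).toAdd :=
    ⟨fun x => if h : x ∈ stabR σ e then (v (δ ⟨x, h⟩)).toAdd else 0, fun x h => dif_pos h⟩
  have hψm : ∀ x ∈ stabR σ e, ∀ y ∈ stabR σ e, ψ (x * y) = ψ x + ψ y := fun x hx y hy => by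
    rw [hψ x hx, hψ y hy, hψ _ (mul_mem hx hy), ← toAdd_mul, ← map_mul, ← map_mul]
    rfl
  have hψc : ∀ x ∈ H, ∀ c : ℂˣ, σ x * e = (c : ℂ) • e → ψ x = m * (v c).toAdd :=
    fun x hx c h => by
      rw [hψ x (hHG x hx), hδ ⟨x, hHG x hx⟩ c h, map_pow, toAdd_pow, nsmul_eq_mul]
  have hCn := caseaC_normal H hHn ψ
  set C := caseaC H hHn ψ with hC
  let Z : Subalgebra ℂ (Mt r) := B ⊓ Subalgebra.centralizer ℂ (σ '' (C : Set G))
  have hZm : ∀ x, x ∈ Z ↔ x ∈ B ∧ ∀ γ ∈ C, σ γ * x = x * σ γ := fun x => by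
    simp only [Z, Algebra.mem_inf, Subalgebra.mem_centralizer_iff, Set.forall_mem_image,
      SetLike.mem_coe]
  have hZi : InvR σ Z := fun γ x hx => by
    obtain ⟨k1, k2⟩ := (hZm x).1 hx
    refine (hZm _).2 ⟨hB γ x k1, fun c hcC => ?_⟩
    have k3 := k2 _ (hCn.conj_mem' c hcC γ)
    calc σ c * (σ γ * x * σ γ⁻¹) = σ γ * (σ (γ⁻¹ * c * γ) * x) * σ γ⁻¹ := by
          rw [← Matrix.mul_assoc, ← Matrix.mul_assoc, ← Matrix.mul_assoc, ← map_mul, ← map_mul]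
          congr 3
          group
      _ = σ γ * x * σ γ⁻¹ * σ c := by
          rw [k3, Matrix.mul_assoc, Matrix.mul_assoc, Matrix.mul_assoc, Matrix.mul_assoc, ← map_mul,
            ← map_mul]
          congr 3
          group
  have hZn : ∃ x ∈ Z, ¬ Scl x := by
    obtain ⟨z, k1, k2, k3⟩ := orbit_sum (σ := σ) C heo he1 fun γ _ h => h
    have hSB : ∀ f ∈ {x : Mt r | ∃ γ ∈ C, x = σ γ * e * σ γ⁻¹}, f ∈ B := by
      rintro _ ⟨γ, -, rfl⟩
      exact hB γ e heB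
    refine ⟨z, (hZm z).2 ⟨(Submodule.span_le (p := Subalgebra.toSubmodule B)).2 hSB k1, k2⟩, ?_⟩
    rintro ⟨a, rfl⟩
    have ha : a = 1 := by
      rw [Matrix.mul_smul, Matrix.mul_one] at k3
      exact smul_left_injective ℂ he0 (k3.trans (one_smul ℂ e).symm)
    rw [ha, one_smul] at k1
    obtain ⟨w, -, w2, w3⟩ := exists_eig (σ h₀)
    have key : ∀ j, ∃ u : ℂˣ, (u : ℂ) = w j ∧ (v u).toAdd = (v (Units.mk0 c₀ hc0)).toAdd := by
      intro j
      obtain ⟨_, ⟨γ, hγ, rfl⟩, k4⟩ :=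
        tor_spec k1 (fun f hf => hc _ (hHB _ hh₀) _ (hSB f hf)) (w3 j)
      have k5 := hHn.conj_mem' h₀ hh₀ γ
      obtain ⟨c, k6⟩ := hsc _ k5
      have k7 : c = w j := k4 c (by
        rw [← Matrix.smul_mul, ← Matrix.mul_smul, ← k6, ← Matrix.mul_assoc, ← Matrix.mul_assoc,
          ← Matrix.mul_assoc, ← map_mul, ← map_mul]
        congr 3
        group)
      refine ⟨Units.mk0 c (tor_eig he0 k6).1, k7, ?_⟩
      have k8 := hγ 1 h₀ hh₀
      rw [inv_one, one_mul, mul_one, one_mul, mul_one, hψc _ k5 (Units.mk0 c (tor_eig he0 k6).1) k6,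
        hψc _ hh₀ (Units.mk0 c₀ hc0) hc₀] at k8
      exact mul_left_cancel₀ (Nat.cast_ne_zero.2 hm.ne') k8
    choose u u1 u2 using key
    have k4 : IsOfFinOrder (∏ j, u j) := by
      refine Units.isOfFinOrder_val.1 ?_
      rw [Units.coe_prod, Finset.prod_congr rfl fun j _ => u1 j, ← w2]
      exact hd h₀
    have k5 := casea_tors (v.isOfFinOrder k4)
    rw [map_prod, toAdd_prod, Finset.sum_congr rfl fun j _ => u2 j, Finset.sum_const,
      Finset.card_univ, Fintype.card_fin, nsmul_eq_mul] at k5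
    exact hv (toAdd_eq_zero.1 ((mul_eq_zero.1 k5).resolve_left (Nat.cast_ne_zero.2 (NeZero.ne r))))
  obtain ⟨M, hM1, hM2, hM3⟩ := hZ Z hZi hZn
  obtain ⟨N, hN, ⟨x, hx, y, hy, hne⟩, hN0⟩ := escape (Mov := M) h0 hall hg
    (fun x => ∃ y ∈ Z, σ x * y ≠ y * σ x) (by
      rintro γ x ⟨y, hy, hne⟩
      refine ⟨_, hZi γ y hy, fun h => hne ?_⟩
      have k1 := congrArg (fun w => σ γ⁻¹ * w * σ γ) h
      simp only [map_mul, Matrix.mul_assoc, rep_inv_mul, Matrix.mul_one] at k1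
      simpa only [← Matrix.mul_assoc, rep_inv_mul, Matrix.one_mul] using k1) hM3 hM2 hφ
    (fun x hx => by
      rw [hφe x ⟨_, hpow x⟩ rfl]
      refine casea_tors (v.isOfFinOrder (hδq _ ?_))
      rw [Subgroup.coe_mk, map_pow]
      exact (hl x (hx.mono hM1)).pow _)
  refine hne (((hZm y).1 hy).2 x fun d h hh => ?_)
  have k1 := hHn.conj_mem' h hh d
  have k2 := hN.conj_mem' x hx d
  have k3 : (d⁻¹ * x * d)⁻¹ * (d⁻¹ * h * d) * (d⁻¹ * x * d) * (d⁻¹ * h * d)⁻¹ ∈ H :=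
    mul_mem (hHn.conj_mem' _ k1 _) (inv_mem k1)
  have k4 : (d⁻¹ * x * d)⁻¹ * (d⁻¹ * h * d) * (d⁻¹ * x * d) * (d⁻¹ * h * d)⁻¹ ∈ N := by
    rw [mul_assoc, mul_assoc, ← mul_assoc (d⁻¹ * h * d)]
    exact mul_mem (inv_mem k2) (hN.conj_mem _ k2 _)
  have k5 : d⁻¹ * (x⁻¹ * h * x) * d = (d⁻¹ * x * d)⁻¹ * (d⁻¹ * h * d) * (d⁻¹ * x * d) *
      (d⁻¹ * h * d)⁻¹ * (d⁻¹ * h * d) := by group
  rw [k5, hψm _ (hHG _ k3) _ (hHG _ k1), add_eq_right]
  generalize (d⁻¹ * x * d)⁻¹ * (d⁻¹ * h * d) * (d⁻¹ * x * d) * (d⁻¹ * h * d)⁻¹ = κ at k3 k4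
  have k6 := hN0 κ k4
  rw [hφe κ (⟨κ, hHG κ k3⟩ ^ (r * r).factorial) rfl, map_pow, toAdd_pow, nsmul_eq_mul] at k6
  rw [hψ κ (hHG κ k3)]
  exact (mul_eq_zero.1 k6).resolve_left (Nat.cast_ne_zero.2 (Nat.factorial_ne_zero _))

theorem caseBQ (r : ℕ) : ∃ k : ℕ, ∀ (n : ℕ) (Mov : Finset (Fin n)) (L0 : List (Fin n)) (G : Type)
    [Group G] (g : Fin n → G) (σ : G →* Mt r), L0.Nodup → (∀ a, a ∈ L0) →
    Subgroup.closure (Set.range g) = ⊤ → (∀ x, IsLoop Mov L0 g x → QU (σ x)) →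
    ∀ (A : Subalgebra ℂ (Mt r)) (s : ℕ) (b : Blk A s), 2 ≤ s → InvR σ A →
    (∀ A' ≤ A, InvR σ A' → CommA A' ∨ A' = A) →
    (∀ A', InvR σ A' → CommA A' → ∀ x ∈ A, ∀ y ∈ A', x * y = y * x) → k ≤ Mov.card →
    (∀ a ∈ Mov, ∃ x ∈ A, σ (g a) * x ≠ x * σ (g a)) →
    ∃ H : Subgroup G, H.FiniteIndex ∧ ∀ γ ∈ H, ∀ y, σ γ * b.φ y = b.φ y * σ γ := by
  obtain ⟨l, hl1, hl⟩ := Nat.exists_infinite_primes (r * r + 2)
  refine ⟨Kf ((r * r * (r * r) * ((r * r) ^ (r * l) + (r * r) ^ (r * l))) ^ (r * r).factorial + 1)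
    ((r * r * (r * r) * ((r * r) ^ (r * l) + (r * r) ^ (r * l))) ^ (r * r).factorial + 1), ?_⟩
  intro n Mov L0 G _ g σ h0 hall hg hfin A s b hs hA hm hcc hk hP
  have : Group.FG G := Group.fg_iff.2 ⟨Set.range g, hg, Set.finite_range g⟩
  obtain ⟨Γ, hΓ, hΓ1, hΓ2⟩ := b.exists_group hA
  have : NeZero s := ⟨by omega⟩
  have hsl : s * s + 1 < l := by
    have := Nat.mul_le_mul b.le b.le
    omega
  have : Finite Γ := by
    refine arith_absQ (incl_inj Γ) (fun x => (hΓ1 x.1 x.2).choose_spec.1) (b.simp hA hm hcc hΓ2) hl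
      hsl {x | ∃ (u : Γ) (c : G), IsLoop Mov L0 g c ∧ b.Lf σ (c ^ (r * r).factorial) u.val ∧
        x = u ^ s} ?_ ?_
    · rintro _ ⟨u, c, hc, hu, rfl⟩
      rw [map_pow, incl_apply]
      exact (QU.lift hu (by rw [map_pow]; exact (hfin c hc).pow _)).pow _
    · intro τ c hc hL
      have hcl : c ≤ l := by
        rcases hc with rfl | rfl
        exacts [hl.one_lt.le, le_rfl]
      obtain ⟨he, φ, hφ, hφ'⟩ := blk_repC b hA τ hcl
      obtain ⟨N, hN, hNP, hN0⟩ := escape h0 hall hg (fun x => ∃ y ∈ A, σ x * y ≠ y * σ x)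
        (caseb_conj hA) hP hk hφ fun x hx => by
          obtain ⟨u, hu, hxu⟩ := hΓ2 _ (he x)
          have h1 := hL _ ⟨⟨u, hu⟩, x, hx, hxu, rfl⟩
          rw [map_pow, incl_apply, ← pow_mul, ← pow_mul] at h1
          rw [hφ' x u hxu, h1, sub_self]
      refine ⟨casebN σ b Γ N, ⟨?_⟩, ?_, (r * r).factorial * s,
        Nat.mul_pos (Nat.factorial_pos _) b.pos, ?_⟩
      · rintro u ⟨γ, hγ, hu⟩ v
        obtain ⟨δ, hv⟩ := hΓ1 v.1 v.2
        exact ⟨δ * γ * δ⁻¹, hN.conj_mem γ hγ δ, (hv.mul hu).mul hv.inv⟩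
      · obtain ⟨γ, hγ, hγ1, y, hy⟩ := b.moves hs hA hm N hNP
        obtain ⟨u, hu, hγu⟩ := hΓ2 γ hγ1
        exact ⟨⟨u, hu⟩, ⟨γ, hγ, hγu⟩, fun h => hy (hγu.scl_iff.1 h y)⟩
      · rintro u ⟨γ, hγ, hu⟩
        have h1 := hφ' γ _ (hu.pow _)
        rw [hN0 γ hγ, Units.val_pow_eq_pow_val, ← pow_mul, ← pow_mul, ← mul_assoc,
          ← mul_assoc] at h1
        exact sub_eq_zero.1 h1.symm
  exact b.comm_of_finite hA hΓ2

theorem finite_absQ (r : ℕ) [NeZero r] : ∃ k : ℕ, ∀ (n : ℕ) (Mov : Finset (Fin n))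
    (L0 : List (Fin n)) (G : Type) [Group G] (g : Fin n → G) (σ : G →* Mt r), L0.Nodup →
    (∀ a, a ∈ L0) → Subgroup.closure (Set.range g) = ⊤ → Function.Injective σ → IrrR σ →
    (∀ a, QU (σ (g a))) → (∀ x, IsLoop Mov L0 g x → QU (σ x)) →
    (∀ Z : Subalgebra ℂ (Mt r), InvR σ Z → (∃ x ∈ Z, ¬ Scl x) →
      ∃ M ⊆ Mov, k ≤ M.card ∧ ∀ a ∈ M, ∃ x ∈ Z, σ (g a) * x ≠ x * σ (g a)) → Finite G := by
  classical
  obtain ⟨k₁, hA⟩ := caseAQ r
  obtain ⟨k₂, hB⟩ := caseBQ r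
  refine ⟨max k₁ k₂, fun n Mov L0 G _ g σ h0 hall hg hi hI hfo hl hZ => ?_⟩
  have hd : ∀ x, IsOfFinOrder (σ x).det := fun x => by
    have hx : x ∈ Subgroup.closure (Set.range g) := hg ▸ Subgroup.mem_top x
    induction hx using Subgroup.closure_induction with
    | mem y hy =>
      obtain ⟨a, rfl⟩ := hy
      exact (hfo a).det
    | one => rw [map_one, det_one]; exact IsOfFinOrder.one
    | mul y z _ _ hy hz => rw [map_mul, det_mul]; exact hy.mul hz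
    | inv y _ hy =>
      obtain ⟨m, hm, e⟩ := isOfFinOrder_iff_pow_eq_one.1 hy
      refine isOfFinOrder_iff_pow_eq_one.2 ⟨m, hm, ?_⟩
      have h3 := congrArg (fun w => w.det ^ m) (rep_mul_inv σ y)
      simpa only [det_mul, mul_pow, e, one_mul, det_one, one_pow] using h3
  obtain ⟨H, hH1, hH2, hH3⟩ := exists_coreR σ
  obtain ⟨B, hBm⟩ := spR_alg σ H
  have hBi : InvR σ B := fun γ x hx => (hBm _).2 (spR_inv H γ ((hBm x).1 hx))
  by_cases hc : CommA B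
  · refine hA n Mov L0 G g σ h0 hall hg hi hI hd hl (fun Z h3 h4 => ?_) H B hH1
      hH2 hBi hc fun γ hγ => (hBm _).2 (Submodule.subset_span ⟨γ, hγ, rfl⟩)
    obtain ⟨M, k1, k2, k3⟩ := hZ Z h3 h4
    exact ⟨M, k1, (le_max_left _ _).trans k2, k3⟩
  · exfalso
    obtain ⟨A, a1, a2, a3, a4⟩ := exists_minA B hBi hc
    obtain ⟨s, hs, ⟨b⟩⟩ := exists_big_block hI a2 a3
    obtain ⟨M, k1, k2, k3⟩ := hZ A a2 (by
      by_contra h3
      push Not at h3
      refine a3 fun x hx y _ => ?_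
      obtain ⟨c, rfl⟩ := h3 x hx
      rw [Matrix.smul_mul, Matrix.mul_smul, Matrix.one_mul, Matrix.mul_one])
    obtain ⟨H', k4, k5⟩ := hB n M L0 G g σ h0 hall hg (fun x hx => hl x (hx.mono k1)) A s b
      hs a2 a4 (fun A' k6 k7 x hx y hy => by
        obtain ⟨H'', k8, k9⟩ := comm_index hI k6 k7
        exact spR_comm (fun γ hγ => k9 γ hγ y hy) (hH3 H'' k8 ((hBm x).1 (a1 hx))))
      ((le_max_right _ _).trans k2) k3
    have h3 := b.eq_one fun y z =>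
      spR_comm (fun γ hγ => k5 γ hγ z) (hH3 H' k4 ((hBm _).1 (a1 (b.mem y))))
    omega

theorem finite_listQ (D : ℕ) : ∃ k : ℕ, ∀ m, m ≠ 0 → m ≤ D → ∀ (G : Type) [Group G] (l : List G)
    (σ : G →* Mt m) (P : G → Bool), gen l = ⊤ → Function.Injective σ → IrrR σ → QuL σ l →
    k ≤ l.countP P → (∀ Z : Subalgebra ℂ (Mt m), InvR σ Z → (∃ x ∈ Z, ¬ Scl x) →
      ∀ y ∈ l, P y → ∃ x ∈ Z, σ y * x ≠ x * σ y) → Finite G := by
  classical
  choose f hf using fun m => finite_absQ (m + 1)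
  refine ⟨(Finset.range D).sup f, fun m hm hD G _ l σ P hg hi hI hfin hk hZ => ?_⟩
  obtain ⟨m, rfl⟩ := Nat.exists_eq_succ_of_ne_zero hm
  have hl : (List.finRange l.length).map l.get = l := List.map_get_finRange l
  refine hf m l.length Finset.univ (List.finRange _) G l.get σ (List.nodup_finRange _)
    List.mem_finRange ?_ hi hI (fun a => hfin.mem (List.get_mem l a))
    (loop_of_quL (List.nodup_finRange _) (hl.symm ▸ hfin)) fun Z h1 h2 =>
      ⟨Finset.univ.filter fun a => P (l.get a), Finset.subset_univ _, ?_, fun a ha =>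
        hZ Z h1 h2 _ (List.get_mem l a) (Finset.mem_filter.1 ha).2⟩
  · rw [← hg, gen]
    congr 1
    ext x
    exact List.mem_iff_get.symm
  · refine (Finset.le_sup (f := f) (Finset.mem_range.2 hD)).trans (hk.trans ?_)
    conv_lhs => rw [← hl, List.countP_map, List.countP_eq_length_filter,
      ← List.toFinset_card_of_nodup ((List.nodup_finRange _).filter _)]
    refine Finset.card_le_card fun a ha => ?_
    simpa using ha

end Pool.Agent.GR.NP
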