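import Pool.Agent.Lib.MP_aa40d3_nt.NP.LoopA
import Pool.Agent.Lib.MP_aa40d3_nt.GR2.Loop2

/-! The neck loop is quasi-unipotent. -/

open Polynomial Matrix Set Filter Topology Asymptotics
open scoped Matrix.Norms.Operator Polynomial.Bivariate

namespace Pool.Agent.GR.NP

variable {n r : ℕ} [NeZero r]

/-- The error term over any ring of coefficients. -/
noncomputable def lb1E {S : Type} [CommRing S] (H : S[X]) (Nn : Fin r → S[X])
    (B : Matrix (Fin r) (Fin r) S) (g : Matrix (Fin r) (Fin r) S[X]) : Matrix (Fin r) (Fin r) S[X] :=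
  H • (g.map th + g * B.map C) - cmp H Nn * g

omit [NeZero r] in
theorem lb1E_map {S S' : Type} [CommRing S] [CommRing S'] (φ : S →+* S') (H : S[X])
    (Nn : Fin r → S[X]) (B : Matrix (Fin r) (Fin r) S) (g : Matrix (Fin r) (Fin r) S[X]) :
    (lb1E H Nn B g).map (Polynomial.map φ) =
      lb1E (H.map φ) (fun k => (Nn k).map φ) (B.map φ) (g.map (Polynomial.map φ)) := by
  have hc := loopb_cmp_map (mapRingHom φ) H Nn
  simp only [coe_mapRingHom] at hc
  rw [lb1E, lb1E, ← hc]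
  ext1 a b
  simp [th, Matrix.mul_apply, Polynomial.map_sum, Polynomial.map_mul, Polynomial.map_sub,
    Polynomial.map_add]

omit [NeZero r] in
theorem lb1E_ev (H : ℂ[X]) (Nn : Fin r → ℂ[X]) (B : Mat r) (g : Matrix (Fin r) (Fin r) ℂ[X])
    (y : ℂ) : (lb1E H Nn B g).map (eval y) =
      H.eval y • (y • (g.map derivative).map (eval y) + g.map (eval y) * B) -
        (cmp H Nn).map (eval y) * g.map (eval y) := by
  ext1 a b
  simp [lb1E, th, Matrix.mul_apply, eval_finsetSum]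

/-- As `side_asy`; the values of `g` tend to those of `g (s = 0)`, whose determinant `u y ^ j` does
not vanish on the side. -/
theorem side_asyB {H : PR[X]} {Nn : Fin r → PR[X]} {v j0 K E : ℕ} {c : ℂ} (hc : c ≠ 0)
    (hH : C (PowerSeries.X ^ (v + 1)) ∣
      H.map ser - C (PowerSeries.X ^ v * PowerSeries.C c) * X ^ j0)
    {B : Matrix (Fin r) (Fin r) ℂ[X]} {g : Matrix (Fin r) (Fin r) ℂ[X][Y]}
    (hg : GauN (H.map ser) (fun k => (Nn k).map ser) E (v + K) B g)
    {ya yb : ℂ} (h0 : ∀ s, lin ya yb s ≠ 0) :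
    ∃ b : ℂ → CI (Mat r),
      (fun z => b z - coef ![0] ![(B.map (eval z) : Mat r)] ya yb) =O[𝓝[≠] 0]
        (fun z : ℂ => z ^ K) ∧
      ∀ᶠ z in 𝓝[≠] (0 : ℂ), SideOK (H.map (evz z)) (fun k => (Nn k).map (evz z))
        (g.map (Polynomial.map (evalRingHom z))) ya yb (b z) := by
  obtain ⟨⟨u, j, hu, hdet0⟩, -, hE⟩ := hg
  have hseg : ∀ i : Fin 1, (![0] : Fin 1 → ℂ) i ∉ segment ℝ ya yb := by
    intro i hi
    obtain ⟨a, b, ha, hb, hab, he⟩ := hi
    refine h0 ⟨b, hb, by linarith⟩ ?_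
    have ha' : (a : ℂ) = 1 - b := by
      have h1 : a = 1 - b := by linarith
      rw [h1]; push_cast; ring
    have he' : (a : ℂ) * ya + b * yb = 0 := by
      have : (![0] : Fin 1 → ℂ) i = 0 := by fin_cases i; rfl
      rw [this] at he
      simpa using he
    show ya + ((b : ℝ) : ℂ) * (yb - ya) = 0
    rw [ha'] at he'
    linear_combination he'
  have hcoef : ∀ (B : Mat r) (s : unitInterval),
      coef ![0] ![B] ya yb s = ((yb - ya) / lin ya yb s) • B := by
    intro B s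
    rw [coef_apply _ hseg]
    simp [sys, smul_smul, div_eq_mul_inv]
  have hlin : Continuous fun s => lin ya yb s := (lin ya yb).continuous
  have r1 : ser.comp prP = cps := RingHom.ext ser_prP
  have r2 : ∀ z, (evz z).comp prP = evalRingHom z := fun z => RingHom.ext (evz_prP z)
  set g0 := g.map (Polynomial.map (evalRingHom 0)) with hg0
  let gP : Matrix (Fin r) (Fin r) PR[X] := g.map (Polynomial.map prP)
  have r3 : ∀ {S : Type} [CommRing S] (φ : PR →+* S),
      gP.map (Polynomial.map φ) = g.map (Polynomial.map (φ.comp prP)) := fun φ =>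
    Matrix.ext fun a b => Polynomial.map_map _ _ _
  have r4 : ∀ {S : Type} [CommRing S] (φ : PR →+* S),
      (B.map prP).map φ = B.map (φ.comp prP) := fun φ => rfl
  let U0 : CI (Mat r) := ⟨fun s => (c * lin ya yb s ^ j0) • g0.map (eval (lin ya yb s)),
    (by fun_prop : Continuous fun s => c * lin ya yb s ^ j0).smul
      (continuous_matrix fun a b => (g0 a b).continuous.comp hlin)⟩
  obtain ⟨U', hU'⟩ : IsUnit U0 := by
    refine (ContinuousMap.isUnit_iff_forall_isUnit U0).2 fun s => ?_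
    change IsUnit ((c * lin ya yb s ^ j0) • g0.map (eval (lin ya yb s)) : Mat r)
    have h1 : (g0.map (eval (lin ya yb s))).det = g0.det.eval (lin ya yb s) :=
      ((evalRingHom (lin ya yb s)).map_det g0).symm
    rw [Matrix.isUnit_iff_isUnit_det, det_smul, h1, hdet0, isUnit_iff_ne_zero, eval_mul, eval_C,
      eval_pow, eval_X]
    exact mul_ne_zero (pow_ne_zero _ (mul_ne_zero hc (pow_ne_zero _ (h0 s))))
      (mul_ne_zero hu (pow_ne_zero _ (h0 s)))
  have h01 : U0 * (U'⁻¹).val = 1 := hU' ▸ U'.mul_inv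
  have h10 : (U'⁻¹).val * U0 = 1 := hU' ▸ U'.inv_mul
  let P0 : Matrix (Fin r) (Fin r) PR[X] :=
    Matrix.of fun a b => C (prP (X ^ v * C c)) * X ^ j0 * (g0 a b).map (prP.comp C)
  have hP0 : ∀ a b, C (PowerSeries.X ^ (v + 1)) ∣ ((H • gP - P0) a b).map ser := by
    intro a b
    have h1 : C (PowerSeries.X : PowerSeries ℂ) ∣
        (gP a b).map ser - ((g0 a b).map (prP.comp C)).map ser := by
      refine loopb_dvd_of_red ?_
      ext k
      simp [red, gP, hg0, ser_prP, coeff_zero_eq_eval_zero]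
    have e : ((H • gP - P0) a b).map ser =
        (H.map ser - C (PowerSeries.X ^ v * PowerSeries.C c) * X ^ j0) * (gP a b).map ser +
        C (PowerSeries.X ^ v) * ((gP a b).map ser - ((g0 a b).map (prP.comp C)).map ser) *
          (C (PowerSeries.C c) * X ^ j0) := by
      simp only [P0, Matrix.sub_apply, Matrix.smul_apply, smul_eq_mul, of_apply,
        Polynomial.map_sub, Polynomial.map_mul, Polynomial.map_pow, map_X, map_C, ser_prP,
        Polynomial.coe_mul, Polynomial.coe_pow, Polynomial.coe_X, Polynomial.coe_C, C_mul]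
      ring
    rw [e]
    refine dvd_add (hH.mul_right _) (Dvd.dvd.mul_right ?_ _)
    rw [pow_succ, C_mul]
    exact mul_dvd_mul_left _ h1
  let U : ℂ → CI (Mat r) := fun z => (z ^ v)⁻¹ • loopbM (H • gP) ya yb z
  have hz0 : ∀ᶠ z in 𝓝[≠] (0 : ℂ), z ≠ 0 := self_mem_nhdsWithin
  have hdiv : ∀ {f : ℂ → CI (Mat r)} {k : ℕ}, f =O[𝓝[≠] 0] (fun z : ℂ => z ^ (v + k)) →
      (fun z => (z ^ v)⁻¹ • f z) =O[𝓝[≠] 0] fun z : ℂ => z ^ k := by
    intro f k hf
    have h1 := (isBigO_refl (fun z : ℂ => (z ^ v)⁻¹) (𝓝[≠] 0)).smul hf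
    refine h1.congr' (Eventually.of_forall fun z => rfl) ?_
    filter_upwards [hz0] with z hz
    show (z ^ v)⁻¹ • z ^ (v + k) = z ^ k
    rw [smul_eq_mul, pow_add, inv_mul_cancel_left₀ (pow_ne_zero _ hz)]
  have hU : Tendsto U (𝓝[≠] 0) (𝓝 U0) := by
    have h1 := hdiv (loopbM_isBigO hP0 ya yb)
    have h2 : Tendsto (fun z : ℂ => z ^ 1) (𝓝[≠] 0) (𝓝 0) := by
      simp only [pow_one]
      exact (tendsto_id (x := 𝓝 (0 : ℂ))).mono_left nhdsWithin_le_nhds
    have h3 := h1.trans_tendsto h2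
    refine tendsto_sub_nhds_zero_iff.1 (h3.congr' ?_)
    filter_upwards [hz0] with z hz
    refine ContinuousMap.ext fun s => ?_
    show (z ^ v)⁻¹ • (((H • gP - P0).map (Polynomial.map (evz z))).map (eval (lin ya yb s))) =
      (z ^ v)⁻¹ • (((H • gP).map (Polynomial.map (evz z))).map (eval (lin ya yb s))) -
        (c * lin ya yb s ^ j0) • g0.map (eval (lin ya yb s))
    ext a b
    have hzv : z ^ v ≠ 0 := pow_ne_zero _ hz
    have h4 : ((g0 a b).map (prP.comp C)).map (evz z) = g0 a b := by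
      ext k
      simp [evz_prP]
    simp only [P0, Matrix.sub_apply, Matrix.smul_apply, smul_eq_mul, of_apply, map_apply,
      Polynomial.map_sub, Polynomial.map_mul, Polynomial.map_pow, map_X, map_C, evz_prP,
      eval_sub, eval_mul, eval_pow, eval_X, eval_C, h4]
    field_simp
  let W : ℂ → CI (Mat r) := fun z =>
    coef ![0] ![(1 : Mat r)] ya yb * ((z ^ v)⁻¹ • loopbM (lb1E H Nn (B.map prP) gP) ya yb z)
  have hW : W =O[𝓝[≠] 0] fun z : ℂ => z ^ K := by
    have h1 : ∀ a b, C (PowerSeries.X ^ (v + K)) ∣ (lb1E H Nn (B.map prP) gP a b).map ser := by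
      intro a b
      have h2 := congrFun (congrFun (lb1E_map ser H Nn (B.map prP) gP) a) b
      rw [r3, r4, r1, Matrix.map_apply] at h2
      rw [h2]
      exact hE a b
    exact (hdiv (loopbM_isBigO h1 ya yb)).const_mul_left _
  obtain ⟨b, hb1, hb2⟩ := loopb_abs h01 h10 hU hW 0
  refine ⟨fun z => coef ![0] ![(B.map (eval z) : Mat r)] ya yb + b z, by simpa using hb1, ?_⟩
  filter_upwards [hz0, hb2] with z hz hu s
  obtain ⟨I, hmul, hbs⟩ := hu s
  have hzv : z ^ v ≠ 0 := pow_ne_zero _ hz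
  rw [ContinuousMap.add_apply, hcoef, hbs, ContinuousMap.zero_apply, zero_sub, ← sub_eq_add_neg]
  set y := lin ya yb s with hy
  set h := (H.map (evz z)).eval y with hh
  set G : Mat r := (g.map (Polynomial.map (evalRingHom z))).map (eval y) with hG
  have hUs : U z s = ((z ^ v)⁻¹ * h) • G := by
    show (z ^ v)⁻¹ • (((H • gP).map (Polynomial.map (evz z))).map (eval y)) = _
    rw [hG, ← r2, ← r3]
    ext a b
    simp [hh, mul_assoc]
  rw [hUs] at hmul
  have hdet : ((z ^ v)⁻¹ * h) ^ r * G.det ≠ 0 := by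
    have h1 := congrArg Matrix.det hmul
    rw [det_mul, det_smul, det_one, Fintype.card_fin] at h1
    exact left_ne_zero_of_mul_eq_one h1
  have hh0 : h ≠ 0 := by
    intro e
    apply hdet
    rw [e, mul_zero, zero_pow (NeZero.ne r), zero_mul]
  refine ⟨hh0, right_ne_zero_of_mul hdet, ?_⟩
  have hWs : W z s = ((yb - ya) / y) • ((z ^ v)⁻¹ •
      ((lb1E H Nn (B.map prP) gP).map (Polynomial.map (evz z))).map (eval y)) := by
    show coef ![0] ![(1 : Mat r)] ya yb s * ((z ^ v)⁻¹ •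
      ((lb1E H Nn (B.map prP) gP).map (Polynomial.map (evz z))).map (eval y)) = _
    rw [hcoef, Matrix.smul_mul, Matrix.one_mul]
  have hGi : h • (G * I) = (z ^ v) • (1 : Mat r) := by
    rw [← hmul, Matrix.smul_mul, smul_smul, mul_inv_cancel_left₀ hzv]
  rw [hWs, lb1E_map, r3, r4, r2, lb1E_ev, ← hh, ← hG, coe_evalRingHom]
  set G' : Mat r := ((g.map (Polynomial.map (evalRingHom z))).map derivative).map (eval y)
  set Cm : Mat r := (cmp (H.map (evz z)) fun k => (Nn k).map (evz z)).map (eval y)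
  set E : Mat r := h • (y • G' + G * B.map (eval z)) - Cm * G with hEdef
  have hy0 : y ≠ 0 := h0 s
  have e1 : h • (G * (I * (((yb - ya) / y) • ((z ^ v)⁻¹ • E)))) = ((yb - ya) / y) • E := by
    rw [← Matrix.mul_assoc, ← Matrix.smul_mul, hGi, Matrix.smul_mul, Matrix.one_mul, smul_comm,
      smul_smul (z ^ v), mul_inv_cancel₀ hzv, one_smul]
  rw [Matrix.mul_sub, smul_add, smul_sub, e1, hEdef, Matrix.mul_smul]
  have e2 : (yb - ya) = (yb - ya) / y * y := by field_simp
  set q := (yb - ya) / y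
  rw [e2]
  module

omit [NeZero r] in
theorem lb2_isBigO {φ : Mat r → ℂ} (hφ : Differentiable ℂ φ) {l : Filter ℂ}
    {b0 b1 b2 b3 c0 c1 c2 c3 : ℂ → CI (Mat r)} {d0 d1 d2 d3 : CI (Mat r)} {u : ℂ → ℂ}
    (hu : Tendsto u l (𝓝 0)) (h0 : (fun z => b0 z - c0 z) =O[l] u)
    (h1 : (fun z => b1 z - c1 z) =O[l] u) (h2 : (fun z => b2 z - c2 z) =O[l] u)
    (h3 : (fun z => b3 z - c3 z) =O[l] u) (k0 : Tendsto c0 l (𝓝 d0)) (k1 : Tendsto c1 l (𝓝 d1))
    (k2 : Tendsto c2 l (𝓝 d2)) (k3 : Tendsto c3 l (𝓝 d3)) :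
    (fun z => φ (Tr (b3 z) * Tr (b2 z) * Tr (b1 z) * Tr (b0 z)) -
      φ (Tr (c3 z) * Tr (c2 z) * Tr (c1 z) * Tr (c0 z))) =O[l] u := by
  have hT := differentiable_Tr (𝔸 := Mat r)
  have hd : Differentiable ℂ fun q : (CI (Mat r) × CI (Mat r)) × (CI (Mat r) × CI (Mat r)) =>
      φ (Tr q.2.2 * Tr q.2.1 * Tr q.1.2 * Tr q.1.1) :=
    hφ.comp ((((hT.comp differentiable_snd.snd).mul (hT.comp differentiable_snd.fst)).mul
      (hT.comp differentiable_fst.snd)).mul (hT.comp differentiable_fst.fst))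
  have hO : (fun z => (((b0 z, b1 z), (b2 z, b3 z)) - ((c0 z, c1 z), (c2 z, c3 z)) :
      (CI (Mat r) × CI (Mat r)) × (CI (Mat r) × CI (Mat r)))) =O[l] u :=
    (h0.prod_left h1).prod_left (h2.prod_left h3)
  have hc := (k0.prodMk_nhds k1).prodMk_nhds (k2.prodMk_nhds k3)
  have hb := (hO.trans_tendsto hu).add hc
  simp only [sub_add_cancel, zero_add] at hb
  exact (isBigO_sub_of_diff hd hb hc).trans hO

omit [NeZero r] in
theorem lb2_conj {W L P : Mat r} (hW : W.det ≠ 0) (h : W * L = P * W) (m : ℕ) :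
    (L ^ m).trace = (P ^ m).trace := by
  have hu : IsUnit W.det := isUnit_iff_ne_zero.2 hW
  have h1 : W * L ^ m = P ^ m * W := (SemiconjBy.pow_right h m).eq
  rw [← nonsing_inv_mul_cancel_left W (L ^ m) hu, h1, trace_mul_comm,
    mul_nonsing_inv_cancel_right _ _ hu]

omit [NeZero r] in
theorem lb2_diff (m : ℕ) : Differentiable ℂ fun x : Mat r => (x ^ m).trace :=
  (LinearMap.toContinuousLinearMap (Matrix.traceLinearMap (Fin r) ℂ ℂ)).differentiable.comp
    (differentiable_id.pow m)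

omit [NeZero r] in
theorem lb2_lim (B : Matrix (Fin r) (Fin r) ℂ[X]) (ya yb : ℂ) :
    Tendsto (fun z => coef ![0] ![(B.map (eval z) : Mat r)] ya yb) (𝓝[≠] 0)
      (𝓝 (coef ![0] ![(B.map (eval 0) : Mat r)] ya yb)) := by
  have h1 : Continuous fun z : ℂ => (B.map (eval z) : Mat r) :=
    continuous_matrix fun a b => (B a b).continuous
  have h2 : Continuous fun z => coef ![0] ![(B.map (eval z) : Mat r)] ya yb := by
    have e : ∀ M : Mat r, coef ![0] ![M] ya yb =
        coef ![0] ![(1 : Mat r)] ya yb * ContinuousMap.const _ M := fun M =>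
      ContinuousMap.ext fun s => by
        change _ = coef ![0] ![(1 : Mat r)] ya yb s * M
        simp [coef]
    simp only [e (B.map _)]
    exact continuous_const.mul ((ContinuousMap.continuous_const' (X := unitInterval)).comp h1)
  exact (h2.tendsto 0).mono_left nhdsWithin_le_nhds

/-- As `loop_asy`: the loop is conjugate to the product `P z` of four transports (`side_gauge`,
`loop2_conj`), `trace (P z ^ (E k)) - trace (exp (2 π i B z) ^ (E k)) = O (z ^ K)` by
`isBigO_sub_of_diff` and `sqLoop_euler`; `trace_exp_asy`, `trace_exp_int`, `flat_zero` with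
`loop_diff`, and `unip_of_trace` for the `E`-th power. -/
theorem loop_QU (τ : Fin n → PR) (G : PR) (Q : Fin n → Matrix (Fin r) (Fin r) PR) (ϱ : ℕ)
    (hnf : NFD (sc (PowerSeries.X ^ ϱ) ((HF τ G Q).map ser))
      fun k => sc (PowerSeries.X ^ ϱ) ((NF τ G Q k).map ser))
    (haw : ∀ᶠ z in 𝓝[≠] (0 : ℂ), evz z G ≠ 0 ∧
      ∀ i (y : ℂ), 1 ≤ ‖y‖ → ‖y‖ ≤ 2 → evz z (τ i) ≠ z ^ ϱ * y) :
    ∀ᶠ z in 𝓝[≠] (0 : ℂ), QU (sqLoop (fun i => evz z (τ i))
      (fun i => ((evz z G)⁻¹ • (Q i).map (evz z) : Mat r)) 0 (z ^ ϱ)) := by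
  obtain ⟨v, j0, E, c, hc, hE, hH, hK⟩ := hnf
  have e1 : ∀ P : PR[X], (sc (prP (X ^ ϱ)) P).map ser = sc (PowerSeries.X ^ ϱ) (P.map ser) :=
    fun P => by rw [sc_map, ser_prP, Polynomial.coe_pow, Polynomial.coe_X]
  have e2 : ∀ (z : ℂ) (P : PR[X]), (sc (prP (X ^ ϱ)) P).map (evz z) = sc (z ^ ϱ) (P.map (evz z)) :=
    fun z P => by rw [sc_map, evz_prP, eval_pow, eval_X]
  have main : ∀ k : ℕ, ∀ᶠ z in 𝓝[≠] (0 : ℂ), (sqLoop (fun i => evz z (τ i))
      (fun i => ((evz z G)⁻¹ • (Q i).map (evz z) : Mat r)) 0 (z ^ ϱ) ^ (E * k)).trace - r = 0 := by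
    intro k
    refine flat_zero ?_ fun K => IsBigO.trans ?_
      ((isLittleO_pow_pow (𝕜 := ℂ) K.lt_succ_self).isBigO.mono nhdsWithin_le_nhds)
    · filter_upwards [loop_diff τ G Q ϱ haw] with z hz
      exact ((lb2_diff (E * k) _).comp z hz).sub_const _
    obtain ⟨B, g, hg, htr⟩ := hK (K + 1)
    have key : ∀ ya yb : ℂ, LoopSd ya yb → ∃ b : ℂ → CI (Mat r),
        (fun z => b z - coef ![0] ![(B.map (eval z) : Mat r)] ya yb) =O[𝓝[≠] 0]
          (fun z : ℂ => z ^ (K + 1)) ∧ ∀ᶠ z in 𝓝[≠] (0 : ℂ),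
        gaugeW (fun i => evz z (τ i)) (evz z G) (fun i => (Q i).map (evz z)) (z ^ ϱ)
            (g.map (Polynomial.map (evalRingHom z))) yb *
          T (fun i => evz z (τ i)) (fun i => ((evz z G)⁻¹ • (Q i).map (evz z) : Mat r))
            (z ^ ϱ * ya) (z ^ ϱ * yb) =
          Tr (b z) * gaugeW (fun i => evz z (τ i)) (evz z G) (fun i => (Q i).map (evz z)) (z ^ ϱ)
            (g.map (Polynomial.map (evalRingHom z))) ya ∧
        (gaugeW (fun i => evz z (τ i)) (evz z G) (fun i => (Q i).map (evz z)) (z ^ ϱ)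
            (g.map (Polynomial.map (evalRingHom z))) ya).det ≠ 0 := fun ya yb h => by
      obtain ⟨b, hb1, hb2⟩ := side_asyB (H := sc (prP (X ^ ϱ)) (HF τ G Q))
        (Nn := fun k => sc (prP (X ^ ϱ)) (NF τ G Q k)) (v := v) (j0 := j0) (K := K + 1) (E := E)
        (B := B) (g := g) hc (by rw [e1]; exact hH) (by simp only [e1]; exact hg) h.ne
      refine ⟨b, hb1, ?_⟩
      filter_upwards [hb2, haw, self_mem_nhdsWithin] with z h1 h2 h3
      simp only [e2, HF_map, NF_map] at h1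
      exact side_gauge h2.1 _ (pow_ne_zero ϱ h3) (fun i => h.not_mem (h2.2 i)) h.ne h1
    obtain ⟨s0, s1, s2, s3⟩ := loop_sides
    obtain ⟨b0, p0, q0⟩ := key _ _ s0
    obtain ⟨b1, p1, q1⟩ := key _ _ s1
    obtain ⟨b2, p2, q2⟩ := key _ _ s2
    obtain ⟨b3, p3, q3⟩ := key _ _ s3
    have hu : Tendsto (fun z : ℂ => z ^ (K + 1)) (𝓝[≠] 0) (𝓝 0) :=
      ((continuous_pow (K + 1)).tendsto' 0 0 (zero_pow K.succ_ne_zero)).mono_left
        nhdsWithin_le_nhds
    have a1 := lb2_isBigO (lb2_diff (E * k)) hu p0 p1 p2 p3 (lb2_lim B _ _) (lb2_lim B _ _)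
      (lb2_lim B _ _) (lb2_lim B _ _)
    have a2 := (trace_exp_asy htr ((E * k : ℕ) * (2 * Real.pi * Complex.I))).mono
      (nhdsWithin_le_nhds (s := {0}ᶜ))
    rw [trace_exp_int hg.2.1 k] at a2
    refine (a1.add a2).congr' ?_ EventuallyEq.rfl
    filter_upwards [q0, q1, q2, q3] with z q0 q1 q2 q3
    have h1 := loop_sq ![0] ![(B.map (eval z) : Mat r)] 1
    rw [sqLoop_euler _ _ one_ne_zero] at h1
    simp only [one_mul, T] at h1
    rw [loop_sq, lb2_conj q0.2 (loop2_conj q0.1 q1.1 q2.1 q3.1), ← h1,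
      mul_smul ((E * k : ℕ) : ℂ), Nat.cast_smul_eq_nsmul, Matrix.exp_nsmul]
    exact sub_add_sub_cancel _ _ _
  filter_upwards [(eventually_all_finset (Finset.range (r + 1))).2 fun k _ => main k] with z hz
  refine ⟨E, hE, unip_of_trace fun k hk => ?_⟩
  rw [← pow_mul]
  exact sub_eq_zero.1 (hz k (Finset.mem_range.2 (Nat.lt_succ_of_le hk)))

end Pool.Agent.GR.NP
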