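import Pool.Agent.Lib.MP_aa40d3_nt.NP.Arith
import Pool.Agent.Lib.MP_aa40d3_nt.MR.ArcF3

/-! The formal arc. -/

open Polynomial Matrix Set

namespace Pool.Agent.GR.NP

variable {n r : ℕ}

theorem arc_formal4 [NeZero r] {Mov : Finset (Fin n)} (M : Model4 n r Mov) (I : Finset (Fin n))
    (a : ℂ) {w : Fin n ⊕ Fin M.m → ℂ}
    (hI : ∀ i ∈ I, i ∈ Mov ∨ w (Sum.inl i) = a) (hZ : ∀ z ∈ M.Z, ev1 w z = 0) {e : ℕ}
    (he : 2 * (r * r * (n + 1)) + 4 ≤ e) {ϑ : PowerSeries ℂ}
    (hF : ev2 (fun s => (wpol I a w e s : PowerSeries ℂ)) ϑ M.F3 = 0)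
    (hG : ev1 (fun s => (wpol I a w e s : PowerSeries ℂ)) M.G ≠ 0) :
    ∃ ϱ : ℕ, 0 < ϱ ∧ ϱ < e ∧
      NFD (sc (PowerSeries.X ^ ϱ)
          (HF (fun i => (wpol I a w e (Sum.inl i) : PowerSeries ℂ) - PowerSeries.C a)
            (ev1 (fun s => (wpol I a w e s : PowerSeries ℂ)) M.G)
            fun i => (M.Q i).map (ev2 (fun s => (wpol I a w e s : PowerSeries ℂ)) ϑ)))
        (fun k => sc (PowerSeries.X ^ ϱ)
          (NF (fun i => (wpol I a w e (Sum.inl i) : PowerSeries ℂ) - PowerSeries.C a)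
            (ev1 (fun s => (wpol I a w e s : PowerSeries ℂ)) M.G)
            (fun i => (M.Q i).map (ev2 (fun s => (wpol I a w e s : PowerSeries ℂ)) ϑ)) k)) := by
  classical
  set W : Fin n ⊕ Fin M.m → PowerSeries ℂ := fun s => (wpol I a w e s : PowerSeries ℂ) with hW
  -- the derivative does not vanish
  have hinj : Function.Injective (algebraMap (PowerSeries ℂ) (FF ℂ)) :=
    IsFractionRing.injective _ _
  have hZW : ∀ z ∈ M.Z, ev1 W z = 0 := by
    have h1 : W = arcf_W I a w e := funext fun s => by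
      have := arcf_map (RingHom.id ℂ) I a w e s
      rw [PowerSeries.map_id] at this
      exact this.symm
    rw [h1]
    refine M.on_sl (arcf3_sl hI e) fun z hz => ?_
    rw [← map_ev1, hZ z hz, map_zero]
  have hsep : ev2 W ϑ (derivative M.F3) ≠ 0 := by
    intro h0
    refine M.sep3 (FF ℂ) (fun s => algebraMap _ (FF ℂ) (W s)) (algebraMap _ (FF ℂ) ϑ)
      (fun z hz => ?_) ?_ ?_ ?_
    · rw [← map_ev1, hZW z hz, map_zero]
    · rw [← map_ev2, hF, map_zero]
    · rw [← map_ev1]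
      exact fun h => hG (hinj (h.trans (map_zero _).symm))
    · rw [← map_ev2, h0, map_zero]
  -- first ring of definition
  let S0 : Finset ℂ := insert a (Finset.univ.image w)
  have lift : ∀ R : Subring ℂ, (S0 : Set ℂ) ⊆ R → ∃ (a' : R) (w' : Fin n ⊕ Fin M.m → R),
      (a' : ℂ) = a ∧ (∀ s, (w' s : ℂ) = w s) ∧
        ∀ s, PowerSeries.map R.subtype (arcf_W I a' w' e s) = W s := by
    intro R hR
    have h1 : a ∈ R := hR (by simp [S0])
    have h2 : ∀ s, w s ∈ R := fun s => hR (by simp [S0])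
    exact ⟨⟨a, h1⟩, fun s => ⟨w s, h2 s⟩, rfl, fun _ => rfl, fun s => arcf_map _ I _ _ e s⟩
  obtain ⟨a0, w0, -, -, hW0⟩ := lift (Subring.closure (S0 : Set ℂ)) Subring.subset_closure
  obtain ⟨S, hS⟩ := eisenstein (Subring.closure (S0 : Set ℂ)) (M.F3.map (ev1 W)) (θ := ϑ)
    (fun j i => by
      rw [coeff_map]
      have : ev1 W (M.F3.coeff j) = PowerSeries.map (Subring.closure (S0 : Set ℂ)).subtype
          (ev1 (arcf_W I a0 w0 e) (M.F3.coeff j)) := by
        rw [map_ev1]
        simp only [hW0]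
      rw [this, PowerSeries.coeff_map]
      exact Subtype.property _)
    (by rw [← ev2_eq_eval]; exact hF)
    (by rw [derivative_map, ← ev2_eq_eval]; exact hsep)
  let R : Subring ℂ := Subring.closure ((S0 ∪ S : Finset ℂ) : Set ℂ)
  have : Algebra.FiniteType ℤ R := finiteType_closure _
  have hS0 : (S0 : Set ℂ) ⊆ R := fun x hx => Subring.subset_closure (by
    rw [Finset.coe_union]
    exact Or.inl hx)
  have hϑ : ∀ i, PowerSeries.coeff i ϑ ∈ R := fun i => by
    refine Subring.closure_le.2 ?_ (hS i)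
    rintro x (hx | hx)
    · exact Subring.closure_le.2 hS0 hx
    · exact Subring.subset_closure (by
        rw [Finset.coe_union]
        exact Or.inr hx)
  obtain ⟨a', w', ha', hw', hW'⟩ := lift R hS0
  let ϑ' : PowerSeries R := PowerSeries.mk fun i => ⟨_, hϑ i⟩
  have hϑ' : PowerSeries.map R.subtype ϑ' = ϑ := by
    ext i
    simp [ϑ']
  have hι : Function.Injective R.subtype := Subtype.coe_injective
  set W' := arcf_W I a' w' e with hWd
  have e1 : ∀ q, PowerSeries.map R.subtype (ev1 W' q) = ev1 W q := fun q => by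
    rw [map_ev1]
    simp only [hW']
  have e2 : ∀ q, PowerSeries.map R.subtype (ev2 W' ϑ' q) = ev2 W ϑ q := fun q => by
    rw [map_ev2, hϑ']
    simp only [hW']
  have hF' : ev2 W' ϑ' M.F3 = 0 := arcf_inj hι (by rw [e2, hF, map_zero])
  have hG' : ev1 W' M.G ≠ 0 := fun h => hG (by rw [← e1, h, map_zero])
  have hZ' : ∀ z ∈ M.Z, ev1 W' z = 0 := fun z hz => arcf_inj hι (by rw [e1, hZW z hz, map_zero])
  have hWi : ∀ i, W' (Sum.inl i) =
      tauF e I (fun j => w' (Sum.inl j) - a') i + PowerSeries.C a' := fun _ => rfl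
  clear_value W' ϑ'
  have ho : OrcN (tauF e I fun j => w' (Sum.inl j) - a') (ev1 W' M.G)
      fun i => (M.Q i).map (ev2 W' ϑ') := by
    refine ⟨M.P0, fun p hp hp0 κ _ _ φ hφ => ?_⟩
    have hinj' : Function.Injective (algebraMap (PowerSeries κ) (FF κ)) :=
      IsFractionRing.injective _ _
    have f1 : ev2 (fun s => toF φ (W' s)) (toF φ ϑ') M.F3 = 0 := by
      rw [← map_ev2, hF', map_zero]
    have f0 : ∀ z ∈ M.Z, ev1 (fun s => toF φ (W' s)) z = 0 := fun z hz => by
      rw [← map_ev1, hZ' z hz, map_zero]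
    have f2 : ev1 (fun s => toF φ (W' s)) M.G ≠ 0 := by
      rw [← map_ev1]
      exact fun h => hφ (hinj' (h.trans (map_zero _).symm))
    have f3 : CharP (FF κ) p := charP_of_injective_ringHom
      (f := (algebraMap (PowerSeries κ) (FF κ)).comp PowerSeries.C)
      (hinj'.comp PowerSeries.C_injective) p
    have f4 : (fun i => (toF φ (ev1 W' M.G))⁻¹ • ((M.Q i).map (ev2 W' ϑ')).map (toF φ)) =
        fun i => (ev1 (fun s => toF φ (W' s)) M.G)⁻¹ •
          (M.Q i).map (ev2 (fun s => toF φ (W' s)) (toF φ ϑ')) := by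
      funext i
      rw [map_ev1]
      congr 1
      ext b c
      simp only [Matrix.map_apply]
      rw [map_ev2]
    have f5 : ∀ i, toF φ (W' (Sum.inl i)) =
        1 * toF φ (tauF e I (fun j => w' (Sum.inl j) - a') i) + toF φ (PowerSeries.C a') :=
      fun i => by
        rw [one_mul, ← map_add, hWi]
    rw [f4]
    have f6 := M.nil4 (FF κ) (fun s => toF φ (W' s)) (toF φ ϑ') f0 f1 f2 p hp hp0 f3
    have f7 := M.cyc4 (FF κ) (fun s => toF φ (W' s)) (toF φ ϑ') f0 f1 f2
    exact ⟨cycH_shift (t := fun i => toF φ (W' (Sum.inl i)))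
        (fun i => by rw [f5 i, one_mul]) f7,
      nilB_aff (t := fun i => toF φ (W' (Sum.inl i))) one_ne_zero f5 f6⟩
  obtain ⟨ϱ, h1, h2, h4⟩ := arithN R.subtype hι he hG' ho
  refine ⟨ϱ, h1, h2, ?_⟩
  have g1 : (fun i => PowerSeries.map R.subtype (tauF e I (fun j => w' (Sum.inl j) - a') i)) =
      fun i => W (Sum.inl i) - PowerSeries.C a := by
    funext i
    rw [← hW', ← ha', hWi, map_add, PowerSeries.map_C, eq_sub_iff_add_eq]
    rfl
  have g2 : (fun i => ((M.Q i).map (ev2 W' ϑ')).map (PowerSeries.map R.subtype)) =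
      fun i => (M.Q i).map (ev2 W ϑ) := by
    funext i
    refine Matrix.ext fun b c => ?_
    simp only [Matrix.map_apply]
    exact e2 _
  simp only [mps, coe_mapRingHom] at h4
  simp only [HF_map, NF_map] at h4
  rw [g1, g2, e1] at h4
  exact h4

end Pool.Agent.GR.NP
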