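import Pool.Agent.Lib.MP_aa40d3_nt.NP.Int

/-! The traces of the normal form are constant. -/

open Polynomial Matrix

namespace Pool.Agent.GR.NP

variable {r : ℕ} {κ : Type} [Field κ]

theorem cn1_red {f : (PowerSeries κ)[X]} : C (PowerSeries.X ^ 1) ∣ f ↔ red f = 0 := by
  rw [pow_one, C_dvd_iff_dvd_coeff, Polynomial.ext_iff]
  refine forall_congr' fun i => ?_
  rw [PowerSeries.X_dvd_iff, red, coe_mapRingHom, coeff_map, coeff_zero]

theorem cn1_sum {K ι : Type} [Field K] {v : AbsoluteValue K ℝ} (hv : IsNonarchimedean v)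
    {c : ℝ} (hc : 0 ≤ c) (f : ι → K) (s : Finset ι) (h : ∀ i, v (f i) ≤ c) :
    v (∑ i ∈ s, f i) ≤ c := by
  classical
  induction s using Finset.induction_on with
  | empty => rwa [Finset.sum_empty, map_zero]
  | insert a s ha ih =>
    rw [Finset.sum_insert ha]
    exact (hv _ _).trans (max_le (h a) ih)

theorem cn1_vm {K : Type} [Field K] {v : AbsoluteValue K ℝ} (hv : IsNonarchimedean v)
    {α β : ℝ} (hα : 0 ≤ α) (hβ : 0 ≤ β) {l : Fin r → K} {M : Matrix (Fin r) (Fin r) K}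
    (hl : ∀ a, v (l a) ≤ α) (hM : ∀ a b, v (M a b) ≤ β) (b : Fin r) :
    v ((l ᵥ* M) b) ≤ α * β :=
  cn1_sum hv (mul_nonneg hα hβ) (fun a => l a * M a b) Finset.univ fun a => by
    rw [map_mul]
    exact mul_le_mul (hl a) (hM a b) (v.nonneg _) hα

/-- Rows with small entries. -/
def cn1_I {K : Type} [Field K] {v : AbsoluteValue K ℝ} (hv : IsNonarchimedean v) (r : ℕ) {ε : ℝ}
    (hε : 0 ≤ ε) : AddSubgroup (Fin r → K) where
  carrier := {l | ∀ a, v (l a) ≤ ε}
  add_mem' hl hm a := (hv _ _).trans (max_le (hl a) (hm a))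
  zero_mem' a := by rwa [Pi.zero_apply, map_zero]
  neg_mem' hl a := by
    rw [Pi.neg_apply, AbsoluteValue.map_neg]
    exact hl a

/-- The operator `φ` acts on the image of `T` as the matrix `Y`, modulo `I`. -/
def cn1_Rel {A V : Type} [CommRing A] [AddCommGroup V] (I : AddSubgroup V)
    (T : (Fin r → A) →+ V) (φ : AddMonoid.End V) (Y : Matrix (Fin r) (Fin r) A) : Prop :=
  (∀ l ∈ I, φ l ∈ I) ∧ ∀ w, φ (T w) - T (w ᵥ* Y) ∈ I

theorem cn1_sub {A V : Type} [CommRing A] [AddCommGroup V] {I : AddSubgroup V}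
    {T : (Fin r → A) →+ V} {φ ψ : AddMonoid.End V} {Y Z : Matrix (Fin r) (Fin r) A}
    (h : cn1_Rel I T φ Y) (h' : cn1_Rel I T ψ Z) : cn1_Rel I T (φ - ψ) (Y - Z) := by
  refine ⟨fun l hl => sub_mem (h.1 l hl) (h'.1 l hl), fun w => ?_⟩
  have e : (φ - ψ) (T w) - T (w ᵥ* (Y - Z)) =
      (φ (T w) - T (w ᵥ* Y)) - (ψ (T w) - T (w ᵥ* Z)) := by
    rw [vecMul_sub, map_sub]
    change φ (T w) - ψ (T w) - _ = _
    abel
  rw [e]
  exact sub_mem (h.2 w) (h'.2 w)

theorem cn1_pow {A V : Type} [CommRing A] [AddCommGroup V] {I : AddSubgroup V}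
    {T : (Fin r → A) →+ V} {φ : AddMonoid.End V} {Y : Matrix (Fin r) (Fin r) A}
    (h : cn1_Rel I T φ Y) (m : ℕ) : cn1_Rel I T (φ ^ m) (Y ^ m) := by
  induction m with
  | zero =>
    refine ⟨fun l hl => hl, fun w => ?_⟩
    rw [pow_zero, pow_zero, vecMul_one]
    exact (sub_self (T w)).symm ▸ zero_mem I
  | succ m ih =>
    rw [pow_succ' φ, pow_succ Y]
    refine ⟨fun l hl => h.1 _ (ih.1 l hl), fun w => ?_⟩
    have e : (φ * φ ^ m) (T w) - T (w ᵥ* (Y ^ m * Y)) =
        φ ((φ ^ m) (T w) - T (w ᵥ* Y ^ m)) + (φ (T (w ᵥ* Y ^ m)) - T ((w ᵥ* Y ^ m) ᵥ* Y)) := by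
      rw [vecMul_vecMul, map_sub]
      change φ ((φ ^ m) (T w)) - _ = _
      abel
    rw [e]
    exact add_mem (h.1 _ (ih.2 w)) (h.2 _)

theorem cn1_leib {K : Type} [Field K] {d : K →+ K} (hd : ∀ a b, d (a * b) = a * d b + b * d a)
    (ξ : K) (l : Fin r → K) (G : Matrix (Fin r) (Fin r) K) :
    (fun a => ξ * d ((l ᵥ* G) a)) =
      (fun a => ξ * d (l a)) ᵥ* G + l ᵥ* G.map fun f => ξ * d f := by
  funext a
  simp only [vecMul, dotProduct, map_sum, hd, Pi.add_apply, Matrix.map_apply, Finset.mul_sum,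
    ← Finset.sum_add_distrib]
  exact Finset.sum_congr rfl fun i _ => by ring

/-- Work in the field of fractions with the absolute value `v` of `exists_gauss`; `H` and `det g`
have absolute value one. Let `E` be the operator of `euler_nil`; it preserves the bounds
`v (l a) ≤ 2⁻¹ ^ j` (the entries of `H⁻¹ • cmp H Nn` are integral). The hypothesis gives
`E l ᵥ* g ≡ θ (l ᵥ* g) + (l ᵥ* g) ᵥ* B`, so for `l = w ᵥ* g⁻¹` with `w` constant in `x`:
`(E ^ m) l ≡ w ᵥ* B ^ m ᵥ* g⁻¹` modulo `X ^ K`. -/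
theorem const_core (p : ℕ) [Fact p.Prime] [CharP κ p] {H : (PowerSeries κ)[X]}
    {Nn : Fin r → (PowerSeries κ)[X]} (hH : red H ≠ 0) (hs : ScN p H Nn)
    {B : Matrix (Fin r) (Fin r) (PowerSeries κ)} {g : Matrix (Fin r) (Fin r) (PowerSeries κ)[X]}
    (hg : (g.map red).det ≠ 0) {K : ℕ} (hE : ∀ a b, C (PowerSeries.X ^ K) ∣ nfB H Nn B g a b)
    (a b : Fin r) : PowerSeries.X ^ K ∣ ((B ^ p - B) ^ r) a b := by
  let L := FractionRing (PowerSeries κ)[X]
  let ι : (PowerSeries κ)[X] →+* L := algebraMap _ L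
  have : CharP (PowerSeries κ) p :=
    charP_of_injective_ringHom (PowerSeries.C_injective (R := κ)) p
  obtain ⟨d, hd⟩ := exists_der (R := PowerSeries κ) (K := L)
  obtain ⟨v, hv, h1, h2⟩ := exists_gauss κ L
  have hθ := gauss_der hd hv h1 h2
  have hH0 : H ≠ 0 := fun h => hH (by rw [h, map_zero])
  have hnil := euler_nil hd p hH0 hs
  have le1 : ∀ f, v (ι f) ≤ 1 := fun f => by simpa using (h1 f 0).1 (by simp)
  have eq1 : ∀ f, red f ≠ 0 → v (ι f) = 1 := fun f hf => by
    obtain ⟨j, hj⟩ := h2 f fun h => hf (by rw [h, map_zero])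
    rcases j with _ | j
    · simpa using hj
    · refine absurd (cn1_red.1 ((h1 f 1).2 (hj.le.trans ?_))) hf
      exact pow_le_pow_of_le_one (by norm_num) (by norm_num) (by omega)
  have ne0 : ∀ f, red f ≠ 0 → ι f ≠ 0 := fun f hf h => by
    have := eq1 f hf
    rw [h, map_zero] at this
    exact zero_ne_one this
  have hdet : red g.det ≠ 0 := by rwa [RingHom.map_det]
  let G : Matrix (Fin r) (Fin r) L := g.map ι
  let G' : Matrix (Fin r) (Fin r) L := (ι g.det)⁻¹ • g.adjugate.map ι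
  have hGG : G * G' = 1 := by
    rw [Matrix.mul_smul, ← Matrix.map_mul, mul_adjugate, Matrix.map_smul' _ _ _ (map_mul ι),
      Matrix.map_one _ (map_zero ι) (map_one ι), smul_smul, inv_mul_cancel₀ (ne0 _ hdet), one_smul]
  have hG'G : G' * G = 1 := mul_eq_one_comm.1 hGG
  have small : ∀ {f : (PowerSeries κ)[X]} {Y : Matrix (Fin r) (Fin r) (PowerSeries κ)[X]} {β : ℝ},
      red f ≠ 0 → (∀ a b, v (ι (Y a b)) ≤ β) → ∀ a b, v (((ι f)⁻¹ • Y.map ι) a b) ≤ β := by
    intro f Y β hf hY a b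
    rw [Matrix.smul_apply, smul_eq_mul, map_mul, map_inv₀, eq1 f hf, inv_one, one_mul]
    exact hY a b
  have hG' : ∀ a b, v (G' a b) ≤ 1 := small hdet fun _ _ => le1 _
  have hε : (0 : ℝ) ≤ (1 / 2) ^ K := by positivity
  let ρ : PowerSeries κ →+* L := ι.comp C
  let T : (Fin r → PowerSeries κ) →+ (Fin r → L) := AddMonoidHom.mk' (fun w => (ρ ∘ w) ᵥ* G')
    fun w w' => by
      rw [← add_vecMul]
      exact congrArg (· ᵥ* G') (funext fun i => map_add ρ _ _)
  have hT : ∀ w, T w ᵥ* G = ρ ∘ w := fun w => by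
    change ((ρ ∘ w) ᵥ* G') ᵥ* G = _
    rw [vecMul_vecMul, hG'G, vecMul_one]
  have hT1 : ∀ w i, v (T w i) ≤ 1 := fun w i =>
    (cn1_vm hv zero_le_one zero_le_one (l := ρ ∘ w) (fun _ => le1 _) hG' i).trans_eq (mul_one 1)
  have hM : ((ι H)⁻¹ • (cmp H Nn).map ι) * G = G.map (fun f => ι X * d f) + G * B.map ρ -
      (ι H)⁻¹ • (nfB H Nn B g).map ι := by
    have e1 : G.map (fun f => ι X * d f) = (g.map th).map ι := by
      ext i j
      change ι X * d (ι (g i j)) = ι (X * derivative (g i j))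
      rw [map_mul, hd.ext]
    have e2 : B.map ρ = (B.map C).map ι := rfl
    rw [e1, e2, nfB, Matrix.map_sub _ (map_sub ι), Matrix.map_smul' _ _ _ (map_mul ι),
      Matrix.map_add _ (map_add ι), Matrix.map_mul, Matrix.map_mul, smul_sub, smul_smul,
      inv_mul_cancel₀ (ne0 _ hH), one_smul, Matrix.smul_mul, sub_sub_cancel]
  have hR : cn1_Rel (cn1_I hv r hε) T (rowOp (ι X) d ((ι H)⁻¹ • (cmp H Nn).map ι)) B := by
    refine ⟨fun l hl i => ?_, fun w => ?_⟩
    · refine (hv _ _).trans (max_le ((hθ _).trans (hl i)) ?_)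
      exact (cn1_vm hv hε zero_le_one hl (small hH fun _ _ => le1 _) i).trans_eq (mul_one _)
    · have e0 : (fun a => ι X * d ((T w ᵥ* G) a)) = 0 := by
        rw [hT]
        funext i
        change ι X * d (ι (C (w i))) = 0
        rw [hd.ext, derivative_C, map_zero, mul_zero]
      have e1 := (cn1_leib hd.mul (ι X) (T w) G).symm.trans e0
      have e2 : ρ ∘ (w ᵥ* B) = (ρ ∘ w) ᵥ* B.map ρ := funext fun i => RingHom.map_vecMul ρ B w i
      have e3 : (rowOp (ι X) d ((ι H)⁻¹ • (cmp H Nn).map ι) (T w) - T (w ᵥ* B)) ᵥ* G =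
          -(T w ᵥ* ((ι H)⁻¹ • (nfB H Nn B g).map ι)) := by
        rw [sub_vecMul, hT, rowOp_apply, add_vecMul, vecMul_vecMul, hM, vecMul_sub, vecMul_add,
          ← vecMul_vecMul, hT, e2, ← add_sub_assoc, ← add_assoc, e1]
        abel
      have e4 : ∀ l : Fin r → L, l = (l ᵥ* G) ᵥ* G' := fun l => by
        rw [vecMul_vecMul, hGG, vecMul_one]
      rw [e4 (_ - _), e3, neg_vecMul]
      refine neg_mem fun i => ?_
      have h3 := cn1_vm hv zero_le_one hε (hT1 w) (small hH fun a b => (h1 _ K).1 (hE a b))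
      exact (cn1_vm hv (mul_nonneg zero_le_one hε) zero_le_one h3 hG' i).trans_eq
        ((mul_one _).trans (one_mul _))
  have h4 := (cn1_pow (cn1_sub (cn1_pow hR p) hR) r).2 (Pi.single a 1)
  rw [hnil, single_one_vecMul] at h4
  have h5 : T (((B ^ p - B) ^ r).row a) ∈ cn1_I hv r hε := by
    have := neg_mem h4
    rwa [neg_sub, show (0 : AddMonoid.End (Fin r → L)) _ = 0 from rfl, sub_zero] at this
  have h6 := cn1_vm hv hε zero_le_one h5 (M := G) (fun _ _ => le1 _) b
  rw [hT, mul_one] at h6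
  have h7 := C_dvd_iff_dvd_coeff _ _ |>.1 ((h1 (C (((B ^ p - B) ^ r) a b)) K).2 h6) 0
  rwa [coeff_C_zero] at h7

theorem cn2_charpoly {A : Type} [CommRing A] [IsDomain A] (p : ℕ) [Fact p.Prime] [CharP A p]
    [Nonempty (Fin r)] (Y : Matrix (Fin r) (Fin r) A) :
    (Y ^ p).charpoly = Y.charpoly.map (frobenius A p) := by
  refine expand_injective (Fact.out : p.Prime).pos ?_
  rw [← map_expand, map_frobenius_expand]
  unfold charpoly
  rw [AlgHom.map_det, ← coe_detMonoidHom,
    ← (detMonoidHom : Matrix (Fin r) (Fin r) A[X] →* A[X]).map_pow]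
  apply congr_arg det
  refine matPolyEquiv.injective ?_
  rw [map_pow, matPolyEquiv_charmatrix, sub_pow_char_of_commute, ← C_pow]
  · exact (id (matPolyEquiv_eq_X_pow_sub_C p Y) :)
  · exact (C Y).commute_X

/-- In an algebraic closure of the field of fractions the trace of `Y ^ m` is the sum of the `m`-th
powers of the eigenvalues. -/
theorem trace_frob {A : Type} [CommRing A] [IsDomain A] (p : ℕ) [Fact p.Prime] [CharP A p]
    (Y : Matrix (Fin r) (Fin r) A) : (Y ^ p).trace = Y.trace ^ p := by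
  cases isEmpty_or_nonempty (Fin r)
  · simp [Matrix.trace, (Fact.out : p.Prime).ne_zero]
  rw [Matrix.trace_eq_neg_charpoly_coeff, Matrix.trace_eq_neg_charpoly_coeff, cn2_charpoly,
    coeff_map, ← map_neg, frobenius_def]

/-- An eigenvalue `μ` of `Y` has `μ ^ r = π ^ r ζ` with `ζ` an eigenvalue of an integral matrix, so
`μ / π` is integral, and so is `trace Y / π`. -/
theorem trace_dvd {A : Type} [CommRing A] [IsDomain A] [IsIntegrallyClosed A] {π : A}
    {Y : Matrix (Fin r) (Fin r) A} (h : ∀ a b, π ^ r ∣ (Y ^ r) a b) : π ∣ Y.trace := by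
  rcases Nat.eq_zero_or_pos r with rfl | hr
  · simp [Matrix.trace]
  choose Z hZ using h
  rcases eq_or_ne π 0 with rfl | hπ
  · have : IsNilpotent Y := ⟨r, Matrix.ext fun a b => by
      rw [hZ, zero_pow hr.ne', zero_mul, Matrix.zero_apply]⟩
    rw [(Matrix.isNilpotent_trace_of_isNilpotent this).eq_zero]
  let K := FractionRing A
  let L := AlgebraicClosure K
  have hi : Function.Injective (algebraMap A L) := by
    rw [IsScalarTower.algebraMap_eq A K L]
    exact (algebraMap K L).injective.comp (IsFractionRing.injective A K)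
  have hp : algebraMap A L π ≠ 0 := (map_ne_zero_iff _ hi).2 hπ
  have hK : algebraMap A K π ≠ 0 := (map_ne_zero_iff _ (IsFractionRing.injective A K)).2 hπ
  set W : Matrix (Fin r) (Fin r) L := (algebraMap A L π)⁻¹ • Y.map (algebraMap A L) with hW
  have h1 : W ^ r = (Matrix.of Z).map (algebraMap A L) := by
    rw [hW, _root_.smul_pow, ← RingHom.mapMatrix_apply, ← map_pow]
    ext a b
    change _ * algebraMap A L ((Y ^ r) a b) = algebraMap A L (Z a b)
    rw [hZ, map_mul, map_pow]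
    rw [← mul_assoc, ← mul_pow, inv_mul_cancel₀ hp, one_pow, one_mul]
  have h2 : IsIntegral A W.trace := by
    rw [Matrix.trace_eq_sum_roots_charpoly]
    refine IsIntegral.multiset_sum fun μ hμ => IsIntegral.of_pow hr ?_
    have h3 := spectrum.pow_mem_pow W r
      (Matrix.mem_spectrum_iff_isRoot_charpoly.2 (isRoot_of_mem_roots hμ))
    rw [h1, Matrix.mem_spectrum_iff_isRoot_charpoly, Matrix.charpoly_map] at h3
    exact ⟨_, (Matrix.of Z).charpoly_monic, by rwa [IsRoot.def, eval_map] at h3⟩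
  have h3 : W.trace = algebraMap K L (algebraMap A K Y.trace / algebraMap A K π) := by
    rw [hW, Matrix.trace_smul, ← AddMonoidHom.map_trace (algebraMap A L) Y, map_div₀,
      ← IsScalarTower.algebraMap_apply, ← IsScalarTower.algebraMap_apply, smul_eq_mul,
      div_eq_inv_mul]
  rw [h3, isIntegral_algebraMap_iff (algebraMap K L).injective] at h2
  obtain ⟨y, hy⟩ := IsIntegrallyClosed.isIntegral_iff.1 h2
  refine ⟨y, IsFractionRing.injective A K ?_⟩
  rw [map_mul, hy, mul_div_cancel₀ _ hK]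

/-- `B ^ (k p) - B ^ k = (B ^ p - B) q (B)`, so `f = trace (B ^ k)` has `X ^ K ∣ f ^ p - f`
(`trace_dvd`, `trace_frob`). With `f = f 0 + h`: `X ^ K ∣ h (h ^ (p - 1) - 1)` and the second factor
is a unit. -/
theorem trace_const (p : ℕ) [Fact p.Prime] [CharP κ p]
    {B : Matrix (Fin r) (Fin r) (PowerSeries κ)} {K : ℕ}
    (h : ∀ a b, PowerSeries.X ^ (K * r) ∣ ((B ^ p - B) ^ r) a b) (k i : ℕ) (h0 : 0 < i)
    (hi : i < K) : PowerSeries.coeff i (B ^ k).trace = 0 := by
  have hp : p ≠ 0 := (Fact.out : p.Prime).ne_zero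
  have hp1 : p - 1 ≠ 0 := by have := (Fact.out : p.Prime).two_le; omega
  have : CharP (PowerSeries κ) p :=
    charP_of_injective_algebraMap (algebraMap κ (PowerSeries κ)).injective p
  obtain ⟨s, hs⟩ := sub_dvd_pow_sub_pow ((X : (PowerSeries κ)[X]) ^ p) X k
  have h1 : ((B ^ k) ^ p - B ^ k) ^ r = (B ^ p - B) ^ r * aeval B (s ^ r) := by
    have := congrArg (fun q => aeval B (q ^ r)) hs
    simp only [mul_pow, map_mul, map_pow, map_sub, aeval_X] at this
    rw [← pow_mul, mul_comm k, pow_mul, this, map_pow]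
  have h2 : PowerSeries.X ^ K ∣ ((B ^ k) ^ p - B ^ k).trace := trace_dvd fun a b => by
    rw [h1, Matrix.mul_apply, ← pow_mul]
    exact Finset.dvd_sum fun c _ => (h a c).mul_right _
  rw [Matrix.trace_sub, trace_frob] at h2
  set f := (B ^ k).trace
  set c := PowerSeries.constantCoeff f with hc
  have h3 : c ^ p - c = 0 := by
    have := PowerSeries.X_dvd_iff.1 ((dvd_pow_self _ (by omega)).trans h2)
    rwa [map_sub, map_pow] at this
  have h4 : f ^ p - f = (f - PowerSeries.C c) * ((f - PowerSeries.C c) ^ (p - 1) - 1) := by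
    rw [mul_sub, mul_one, mul_pow_sub_one hp, sub_pow_char, ← map_pow, sub_eq_zero.1 h3]
    ring
  have h5 : IsUnit ((f - PowerSeries.C c) ^ (p - 1) - 1) := by
    rw [PowerSeries.isUnit_iff_constantCoeff]
    simp [hc, hp1]
  rw [h4, h5.dvd_mul_right, PowerSeries.X_pow_dvd_iff] at h2
  have h6 := h2 i hi
  rwa [map_sub, PowerSeries.coeff_C, if_neg h0.ne', sub_zero] at h6

/-- `const_core` with `g = 1`, `B = cmK ν`, `K = 1`; then apply to an eigenvector. -/
theorem root_frob (p : ℕ) [Fact p.Prime] [CharP κ p] {H : (PowerSeries κ)[X]}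
    {Nn : Fin r → (PowerSeries κ)[X]} (hs : ScN p H Nn) {c : κ} (hc : c ≠ 0) {j0 : ℕ}
    {ν : Fin r → κ} (hH : red H = C c * X ^ j0) (hN : ∀ k, red (Nn k) = C (c * ν k) * X ^ j0)
    {b : κ} (hb : (b • (1 : Matrix (Fin r) (Fin r) κ) - cmK ν).det = 0) : b ^ p = b := by
  have h0 : red H ≠ 0 := by
    rw [hH]
    exact mul_ne_zero (C_ne_zero.2 hc) (pow_ne_zero _ X_ne_zero)
  have hC : ∀ x : κ, red (C (PowerSeries.C x)) = C x := fun x => by simp [red]
  have h1 := const_core p h0 hs (B := (cmK ν).map PowerSeries.C) (g := 1) (K := 1)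
    (by rw [Matrix.map_one _ (map_zero _) (map_one _), det_one]; exact one_ne_zero)
    fun i j => cn1_red.2 (by
      have e : (1 : Matrix (Fin r) (Fin r) (PowerSeries κ)[X]).map th = 0 := by
        ext1 i j
        by_cases h : i = j <;> simp [h, th]
      rw [nfB, e, zero_add, Matrix.one_mul, Matrix.mul_one, Matrix.sub_apply, Matrix.smul_apply,
        smul_eq_mul, map_sub, map_mul, Matrix.map_apply, Matrix.map_apply, hC, cmK, cmp,
        Matrix.of_apply, Matrix.of_apply]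
      split_ifs
      · rw [map_neg, map_neg, hH, hN, map_mul]
        ring
      · rw [map_one, mul_one, sub_self]
      · rw [map_zero, map_zero, mul_zero, sub_self])
  have h2 : (cmK ν ^ p - cmK ν) ^ r = 0 := by
    have e : (PowerSeries.constantCoeff (R := κ)).mapMatrix ((cmK ν).map PowerSeries.C) = cmK ν := by
      ext i j
      simp
    rw [← e, ← map_pow, ← map_sub, ← map_pow]
    ext i j
    have := h1 i j
    rw [pow_one, PowerSeries.X_dvd_iff] at this
    exact this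
  obtain ⟨w, hw, h3⟩ := Matrix.exists_mulVec_eq_zero_iff.2 hb
  rw [sub_mulVec, smul_mulVec, one_mulVec, sub_eq_zero] at h3
  have key : ∀ (Y : Matrix (Fin r) (Fin r) κ) (y : κ), Y *ᵥ w = y • w → ∀ m : ℕ,
      (Y ^ m) *ᵥ w = y ^ m • w := fun Y y h m => by
    induction m with
    | zero => rw [pow_zero, pow_zero, one_mulVec, one_smul]
    | succ m ih => rw [pow_succ, ← mulVec_mulVec, h, mulVec_smul, ih, smul_smul, ← pow_succ']
  have h4 := key (cmK ν ^ p - cmK ν) (b ^ p - b)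
    (by rw [sub_mulVec, key _ b h3.symm, ← h3, sub_smul]) r
  rw [h2, zero_mulVec] at h4
  exact sub_eq_zero.1 (eq_zero_of_pow_eq_zero ((smul_eq_zero.1 h4.symm).resolve_right hw))

end Pool.Agent.GR.NP
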