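import Pool.Agent.Lib.MP_aa40d3_nt.NP.Defs

/-! The normal form on an annulus. -/

open Polynomial Matrix
open scoped Polynomial.Bivariate

namespace Pool.Agent.GR.NP

variable {r : ℕ}

/-- Polynomials that give the projectors on the generalised eigenspaces. -/
theorem nf1_proj (C0 : Mt r) : ∃ (S : Finset ℂ) (e : ℂ → ℂ[X]),
    (∀ μ, μ ∈ S ↔ μ ∈ spectrum ℂ C0) ∧ ∑ μ ∈ S, aeval C0 (e μ) = 1 ∧
      (∀ μ ∈ S, ∀ ν ∈ S, μ ≠ ν → aeval C0 (e μ) * aeval C0 (e ν) = 0) ∧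
      ∀ μ ∈ S, ∀ ν ∈ S, (e ν).eval μ = if ν = μ then 1 else 0 := by
  classical
  have hm := C0.charpoly_monic
  have hS : ∀ μ, μ ∈ C0.charpoly.roots.toFinset ↔ μ ∈ spectrum ℂ C0 := fun μ => by
    rw [Multiset.mem_toFinset, mem_roots hm.ne_zero, Matrix.mem_spectrum_iff_isRoot_charpoly]
  have h0 := Matrix.aeval_self_charpoly C0
  have hm1 : ∀ μ ∈ C0.charpoly.roots.toFinset, rootMultiplicity μ C0.charpoly ≠ 0 := fun μ h =>
    ((rootMultiplicity_pos hm.ne_zero).2 ((mem_roots hm.ne_zero).1 (Multiset.mem_toFinset.1 h))).ne'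
  have h1 := (IsAlgClosed.splits C0.charpoly).eq_prod_roots_of_monic hm
  rw [prod_multiset_root_eq_finset_root] at h1
  rw [h1] at h0
  clear h1
  generalize C0.charpoly.roots.toFinset = S at hS h0 hm1
  generalize hf : (fun a => (X - C a) ^ rootMultiplicity a C0.charpoly) = f at h0
  rcases S.eq_empty_or_nonempty with rfl | hne
  · rw [Finset.prod_empty, map_one] at h0
    exact ⟨∅, 0, hS, h0.symm, by simp, by simp⟩
  obtain ⟨a, ha⟩ := (exists_sum_eq_one_iff_pairwise_coprime (s := f) hne).2 fun i j hij => by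
    subst hf
    exact (isCoprime_X_sub_C_of_isUnit_sub
      (sub_ne_zero_of_ne (Subtype.val_injective.ne hij)).isUnit).pow
  have h2 : ∀ μ ∈ S, ∀ ν ∈ S, ν ≠ μ → f μ ∣ a ν * ∏ j ∈ S \ {ν}, f j := fun μ hμ ν hν h =>
    (Finset.dvd_prod_of_mem f (by simp [hμ, h.symm])).mul_left _
  have h3 : ∀ μ ∈ S, ∀ ν ∈ S, ν ≠ μ → (a ν * ∏ j ∈ S \ {ν}, f j).eval μ = 0 := fun μ hμ ν hν h => by
    obtain ⟨w, hw⟩ := h2 μ hμ ν hν h
    rw [hw, ← hf]
    simp [hm1 μ hμ]
  refine ⟨S, fun ν => a ν * ∏ j ∈ S \ {ν}, f j, hS, by rw [← map_sum, ha, map_one],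
    fun μ hμ ν hν h => ?_, fun μ hμ ν hν => ?_⟩
  · obtain ⟨w, hw⟩ := h2 μ hμ ν hν h.symm
    beta_reduce
    rw [← map_mul, hw, show a μ * (∏ j ∈ S \ {μ}, f j) * (f μ * w) =
      ((∏ j ∈ S \ {μ}, f j) * f μ) * (a μ * w) by ring,
      ← Finset.prod_eq_prod_sdiff_singleton_mul hμ, map_mul, h0, zero_mul]
  · split_ifs with h
    · have h4 := congrArg (eval μ) ha
      subst h
      rwa [eval_finsetSum, Finset.sum_eq_single ν (fun μ hμ h => h3 ν hν μ hμ h)
        (fun h => (h hν).elim), eval_one] at h4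
    · exact h3 μ hμ ν hν h

theorem nf1_spec {A : Mt r} {p : ℂ[X]} {x : ℂ} (h : x ∈ spectrum ℂ (aeval A p)) :
    ∃ μ ∈ spectrum ℂ A, p.eval μ = x := by
  rcases subsingleton_or_nontrivial (Mt r) with h0 | h0
  · exact (spectrum.mem_iff.1 h (isUnit_of_subsingleton _)).elim
  · rwa [spectrum.map_polynomial_aeval_of_nonempty A p
      (spectrum.nonempty_of_isAlgClosed_of_finiteDimensional ℂ A)] at h

/-- Removing the resonances. Take the projectors `P μ` on the generalised eigenspaces of `C0`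
(polynomials in `C0`), `g = ∑ X ^ (n μ) P μ` with `n μ = ⌊μ⌋ + M ≥ 0`, `B = C0 - ∑ n μ P μ`.
The eigenvalues of `B` are the `fract μ - M`. -/
theorem exists_shear (C0 : Mt r) (hq : ∀ μ ∈ spectrum ℂ C0, ∃ q : ℚ, μ = q) :
    ∃ (g : Matrix (Fin r) (Fin r) ℂ[X]) (B : Mt r) (u : ℂ) (j E : ℕ), u ≠ 0 ∧ 0 < E ∧
      g.det = C u * X ^ j ∧ g.map th + g * B.map C = C0.map C * g ∧
      (∀ μ ∈ spectrum ℂ B, ∃ z : ℤ, (E : ℂ) * μ = z) ∧
      ∀ μ ∈ spectrum ℂ B, ∀ ν ∈ spectrum ℂ B, ∀ z : ℤ, μ - ν = z → z = 0 := by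
  classical
  obtain ⟨S, e, hS, h1, h2, h3⟩ := nf1_proj C0
  choose! q hq using fun μ (h : μ ∈ S) => hq μ ((hS μ).1 h)
  obtain ⟨M, hM⟩ : ∃ M : ℕ, ∀ μ ∈ S, 0 ≤ ⌊q μ⌋ + M := ⟨∑ μ ∈ S, ⌊q μ⌋.natAbs, fun μ h => by
    have := Finset.single_le_sum (f := fun μ => ⌊q μ⌋.natAbs) (fun _ _ => Nat.zero_le _) h
    omega⟩
  obtain ⟨k, hk⟩ : ∃ k : ℂ → ℕ, ∀ μ ∈ S, (k μ : ℤ) = ⌊q μ⌋ + M :=
    ⟨fun μ => (⌊q μ⌋ + M).toNat, fun μ h => Int.toNat_of_nonneg (hM μ h)⟩
  obtain ⟨P, hP⟩ : ∃ P : ℂ → Matrix (Fin r) (Fin r) ℂ[X], ∀ μ, P μ = (aeval C0 (e μ)).map C :=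
    ⟨_, fun _ => rfl⟩
  have hP' : ∀ μ, P μ = (C : ℂ →+* ℂ[X]).mapMatrix (aeval C0 (e μ)) := hP
  have h4 : ∑ μ ∈ S, P μ = 1 := by simp only [hP', ← map_sum, h1, map_one]
  have h5 : ∀ μ ∈ S, ∀ ν ∈ S, μ ≠ ν → P μ * P ν = 0 := fun μ hμ ν hν h => by
    rw [hP', hP', ← map_mul, h2 μ hμ ν hν h, map_zero]
  have h6 : ∀ a b : ℂ → ℂ[X], (∑ μ ∈ S, a μ • P μ) * ∑ μ ∈ S, b μ • P μ =
      ∑ μ ∈ S, (a μ * b μ) • P μ := fun a b => by
    rw [Finset.sum_mul_sum]
    refine Finset.sum_congr rfl fun μ hμ => ?_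
    have h7 : P μ * P μ = P μ := by
      conv_rhs => rw [← mul_one (P μ), ← h4, Finset.mul_sum,
        Finset.sum_eq_single μ (fun ν hν h => h5 μ hμ ν hν h.symm) fun h => (h hμ).elim]
    rw [Finset.sum_eq_single μ (fun ν hν h => by
      rw [smul_mul_smul_comm, h5 μ hμ ν hν h.symm, smul_zero]) fun h => (h hμ).elim,
      smul_mul_smul_comm, h7]
  have hB : ∀ x ∈ spectrum ℂ (aeval C0 (X - ∑ μ ∈ S, C (k μ : ℂ) * e μ)),
      ∃ μ ∈ S, x = ((Int.fract (q μ) - M : ℚ) : ℂ) := fun x hx => by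
    obtain ⟨μ, hμ, rfl⟩ := nf1_spec hx
    rw [← hS] at hμ
    refine ⟨μ, hμ, ?_⟩
    have h8 : ((k μ : ℤ) : ℂ) = ((⌊q μ⌋ + M : ℤ) : ℂ) := congrArg _ (hk μ hμ)
    rw [eval_sub, eval_X, eval_finsetSum, Finset.sum_eq_single μ (fun ν hν h => by
      rw [eval_mul, h3 μ hμ ν hν, if_neg h, mul_zero]) fun h => (h hμ).elim, eval_mul,
      h3 μ hμ μ hμ, if_pos rfl, eval_C, Int.fract]
    push_cast at h8 ⊢
    linear_combination hq μ hμ - h8
  have h9 : (∑ μ ∈ S, (X : ℂ[X]) ^ k μ • P μ).det ∣ X ^ ((∑ μ ∈ S, k μ) * r) := by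
    refine ⟨(∑ μ ∈ S, (X : ℂ[X]) ^ (∑ ν ∈ S, k ν - k μ) • P μ).det, ?_⟩
    rw [← det_mul, h6, Finset.sum_congr (g := fun μ => (X : ℂ[X]) ^ (∑ ν ∈ S, k ν) • P μ) rfl
      fun μ hμ => by
      rw [← pow_add, Nat.add_sub_cancel' (Finset.single_le_sum (fun _ _ => Nat.zero_le _) hμ)],
      ← Finset.smul_sum, h4, det_smul, det_one, mul_one, Fintype.card_fin, pow_mul]
  obtain ⟨j, -, hj⟩ := (dvd_prime_pow prime_X _).1 h9
  obtain ⟨u, hu⟩ := hj.symm
  obtain ⟨c, hc, hcu⟩ := Polynomial.isUnit_iff.1 u.isUnit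
  refine ⟨∑ μ ∈ S, (X : ℂ[X]) ^ k μ • P μ, aeval C0 (X - ∑ μ ∈ S, C (k μ : ℂ) * e μ), c, j,
    ∏ μ ∈ S, (q μ).den, hc.ne_zero, Finset.prod_pos fun μ _ => (q μ).den_pos,
    by rw [← hu, hcu, mul_comm], ?_, fun x hx => ?_, fun x hx y hy z hz => ?_⟩
  · have h10 : (aeval C0 (X - ∑ μ ∈ S, C (k μ : ℂ) * e μ)).map C =
        C0.map C - ∑ μ ∈ S, C (k μ : ℂ) • P μ := by
      change (C : ℂ →+* ℂ[X]).mapMatrix _ = _
      rw [map_sub, map_sub, aeval_X, map_sum, map_sum]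
      refine congrArg₂ _ rfl (Finset.sum_congr rfl fun μ _ => ?_)
      rw [← smul_eq_C_mul, map_smul, hP]
      ext a b : 1
      simp
    have h11 : (∑ μ ∈ S, (X : ℂ[X]) ^ k μ • P μ).map th =
        ∑ μ ∈ S, ((X : ℂ[X]) ^ k μ * C (k μ : ℂ)) • P μ := by
      ext a b : 1
      simp only [Matrix.map_apply, Matrix.sum_apply, Matrix.smul_apply, smul_eq_mul, th, hP,
        derivative_sum, Finset.mul_sum]
      refine Finset.sum_congr rfl fun μ _ => ?_
      rw [derivative_mul, derivative_C, mul_zero, add_zero, derivative_X_pow]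
      cases k μ with
      | zero => simp
      | succ n =>
        rw [Nat.add_sub_cancel]
        ring
    have h12 : ∀ μ, P μ * C0.map C = C0.map C * P μ := fun μ => by
      rw [hP, ← Matrix.map_mul, ← Matrix.map_mul]
      have h7 := congrArg (aeval C0) (mul_comm (e μ) X)
      rw [map_mul, map_mul, aeval_X] at h7
      rw [h7]
    rw [h10, h11, mul_sub, h6, add_sub_cancel, Finset.sum_mul, Finset.mul_sum]
    exact Finset.sum_congr rfl fun μ _ => by rw [smul_mul_assoc, mul_smul_comm, h12]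
  · obtain ⟨μ, hμ, rfl⟩ := hB x hx
    obtain ⟨w, hw⟩ := Finset.dvd_prod_of_mem (fun μ => (q μ).den) hμ
    refine ⟨w * (q μ).num - (∏ μ ∈ S, (q μ).den : ℕ) * (⌊q μ⌋ + M), ?_⟩
    have h13 : (((q μ).den : ℚ) * q μ : ℚ) = (q μ).num := Rat.den_mul_eq_num _
    have h14 := congrArg (Rat.cast : ℚ → ℂ) h13
    rw [hw, Int.fract]
    push_cast at h14 ⊢
    linear_combination (w : ℂ) * h14
  · obtain ⟨μ, hμ, rfl⟩ := hB x hx
    obtain ⟨ν, hν, rfl⟩ := hB y hy
    have h15 : Int.fract (q μ) - M - (Int.fract (q ν) - M) = (z : ℚ) := by exact_mod_cast hz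
    have h16 : (z : ℚ) < 1 := by
      linarith [Int.fract_lt_one (q μ), Int.fract_nonneg (q ν)]
    have h17 : (-1 : ℚ) < z := by
      linarith [Int.fract_lt_one (q ν), Int.fract_nonneg (q μ)]
    have h18 : z < 1 := by exact_mod_cast h16
    have h19 : -1 < z := by exact_mod_cast h17
    omega

/-- The equation of Sylvester: if `z • Y + Y * B = B * Y` then `f (B) * Y = Y * f (B + z)`; take the
characteristic polynomial of `B`. An injective endomorphism is onto. -/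
theorem sylvester {B : Mt r} (h : ∀ μ ∈ spectrum ℂ B, ∀ ν ∈ spectrum ℂ B, ∀ z : ℤ, μ - ν = z → z = 0)
    {z : ℤ} (hz : z ≠ 0) (W : Mt r) : ∃ U : Mt r, (z : ℂ) • U + U * B - B * U = W := by
  let L : Mt r →ₗ[ℂ] Mt r :=
    (z : ℂ) • LinearMap.id + LinearMap.mulRight ℂ B - LinearMap.mulLeft ℂ B
  refine LinearMap.injective_iff_surjective.1 ((injective_iff_map_eq_zero L).2 fun U hU => ?_) W
  have h1 : B * U = U * aeval B (X + C (z : ℂ)) := by
    change (z : ℂ) • U + U * B - B * U = 0 at hU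
    rw [map_add, aeval_X, aeval_C, mul_add, Algebra.algebraMap_eq_smul_one, mul_smul_comm, mul_one,
      add_comm, sub_eq_zero.1 hU]
  have h2 : ∀ f : ℂ[X], aeval B f * U = U * aeval B (f.comp (X + C (z : ℂ))) := fun f => by
    refine Polynomial.induction_on f (fun a => ?_) (fun p q hp hq => ?_) fun n a ih => ?_
    · rw [C_comp, aeval_C, Algebra.commutes]
    · rw [add_comp, map_add, map_add, add_mul, mul_add, hp, hq]
    · rw [pow_succ, ← mul_assoc, mul_comp, X_comp, map_mul, map_mul (aeval B) _ (X + _), aeval_X,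
        mul_assoc, h1, ← mul_assoc, ih, mul_assoc]
  have h3 : IsUnit (aeval B (B.charpoly.comp (X + C (z : ℂ)))) := by
    by_contra h4
    obtain ⟨ν, hν, h5⟩ := nf1_spec ((spectrum.zero_mem_iff ℂ).2 h4)
    rw [eval_comp, eval_add, eval_X, eval_C] at h5
    exact hz (h _ (Matrix.mem_spectrum_iff_isRoot_charpoly.2 h5) ν hν z (add_sub_cancel_left _ _))
  have h6 := h2 B.charpoly
  rw [Matrix.aeval_self_charpoly, zero_mul] at h6
  exact h3.mul_left_eq_zero.1 h6.symm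

section nf2

variable {R : Type} [CommRing R]

theorem nf2_th_add (g g' : Matrix (Fin r) (Fin r) R[X]) :
    (g + g').map th = g.map th + g'.map th := by
  refine Matrix.ext fun a b => ?_
  simp [th, mul_add]

theorem nf2_th_smul (p : R[X]) (g : Matrix (Fin r) (Fin r) R[X]) :
    (p • g).map th = th p • g + p • g.map th := by
  refine Matrix.ext fun a b => ?_
  simp only [Matrix.map_apply, Matrix.smul_apply, Matrix.add_apply, smul_eq_mul, th, derivative_mul]
  ring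

theorem nf2_th_mul (g g' : Matrix (Fin r) (Fin r) R[X]) :
    (g * g').map th = g.map th * g' + g * g'.map th := by
  refine Matrix.ext fun a b => ?_
  simp only [Matrix.map_apply, Matrix.mul_apply, Matrix.add_apply, th, derivative_sum,
    derivative_mul, Finset.mul_sum, ← Finset.sum_add_distrib]
  exact Finset.sum_congr rfl fun i _ => by ring

theorem nf2_th_pow (a : ℕ) : th (X ^ a : R[X]) = (a : R[X]) * X ^ a := by
  cases a with
  | zero => simp [th]
  | succ a =>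
    rw [th, derivative_X_pow_succ, map_add, map_natCast, map_one]
    push_cast
    ring

theorem nf2_th_C (t : R) : th (C t) = 0 := by simp [th]

theorem nf2_th_cst (U : Matrix (Fin r) (Fin r) R) : (U.map (C : R →+* R[X])).map th = 0 := by
  refine Matrix.ext fun a b => ?_
  exact nf2_th_C _

theorem nf2_th_map {S : Type} [CommRing S] (φ : R →+* S) (g : Matrix (Fin r) (Fin r) R[X]) :
    (mapRingHom φ).mapMatrix (g.map th) = ((mapRingHom φ).mapMatrix g).map th := by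
  refine Matrix.ext fun a b => ?_
  simp [th, derivative_map]

theorem nf2_step (H : R[X]) (Cm B g G B1 : Matrix (Fin r) (Fin r) R[X]) (a : ℕ) (t : R) :
    H • (((X ^ a : R[X]) • g + (C t : R[X]) • G).map th + ((X ^ a : R[X]) • g + (C t : R[X]) • G) *
      (B - (a : R[X]) • 1 + (C t : R[X]) • B1)) - Cm * ((X ^ a : R[X]) • g + (C t : R[X]) • G) =
    (X ^ a : R[X]) • (H • (g.map th + g * B) - Cm * g) + (C t : R[X]) • (H • (G.map th +
      G * (B - (a : R[X]) • 1) + (X ^ a : R[X]) • (g * B1) + (C t : R[X]) • (G * B1)) - Cm * G) := by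
  simp only [nf2_th_add, nf2_th_smul, nf2_th_pow, nf2_th_C, Matrix.add_mul, Matrix.mul_add,
    Matrix.mul_sub, Matrix.smul_mul, Matrix.mul_smul, Matrix.mul_one]
  module

theorem nf2_smul {S : Type} [CommRing S] (φ : R →+* S) (p : R) (g : Matrix (Fin r) (Fin r) R) :
    φ.mapMatrix (p • g) = φ p • φ.mapMatrix g := by
  ext a b
  simp

end nf2

theorem nf2_solve {B : Mt r}
    (h : ∀ μ ∈ spectrum ℂ B, ∀ ν ∈ spectrum ℂ B, ∀ z : ℤ, μ - ν = z → z = 0) (N : ℕ)
    (V : Matrix (Fin r) (Fin r) ℂ[X]) : ∃ (Z : Matrix (Fin r) (Fin r) ℂ[X]) (B1 : Mt r),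
      Z.map th + Z * (B.map C - (N : ℂ[X]) • 1) - B.map C * Z + (X ^ N : ℂ[X]) • B1.map C = V := by
  let P : Matrix (Fin r) (Fin r) ℂ[X] → Prop := fun V => ∃ (Z : Matrix (Fin r) (Fin r) ℂ[X])
    (B1 : Mt r), Z.map th + Z * (B.map C - (N : ℂ[X]) • 1) - B.map C * Z +
      (X ^ N : ℂ[X]) • B1.map C = V
  have h1 : ∀ V V', P V → P V' → P (V + V') := by
    rintro _ _ ⟨Z, B1, rfl⟩ ⟨Z', B1', rfl⟩
    refine ⟨Z + Z', B1 + B1', ?_⟩
    rw [nf2_th_add, Matrix.map_add _ (map_add C), Matrix.add_mul, Matrix.mul_add, smul_add]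
    abel
  have h2 : ∀ (k : ℕ) (W : Mt r), P ((X ^ k : ℂ[X]) • W.map C) := fun k W => by
    by_cases e : k = N
    · exact ⟨0, W, by simp [e, th]⟩
    obtain ⟨U, rfl⟩ := sylvester h (z := (k : ℤ) - N) (by omega) W
    refine ⟨(X ^ k : ℂ[X]) • U.map C, 0, ?_⟩
    have h3 : (((((k : ℤ) - N : ℤ) : ℂ)) • U + U * B - B * U).map C =
        ((k : ℂ[X]) - N) • U.map C + U.map C * B.map C - B.map C * U.map C := by
      have := nf2_smul (C : ℂ →+* ℂ[X]) (((k : ℤ) - N : ℤ) : ℂ) U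
      rw [← RingHom.mapMatrix_apply, map_sub, map_add, map_mul, map_mul, this]
      simp
    rw [h3]
    simp only [nf2_th_smul, nf2_th_pow, nf2_th_cst, Matrix.mul_sub, Matrix.smul_mul,
      Matrix.mul_smul, Matrix.mul_one, Matrix.map_zero _ (map_zero C)]
    module
  have h0 : P 0 := by simpa using h2 0 0
  rw [Matrix.matrix_eq_sum_single V]
  refine Finset.sum_induction _ P h1 h0 fun a _ => Finset.sum_induction _ P h1 h0 fun b _ => ?_
  induction V a b using Polynomial.induction_on' with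
  | add p q hp hq => rw [Matrix.single_add]; exact h1 _ _ hp hq
  | monomial k c =>
    have := h2 k (Matrix.single a b c)
    rwa [Matrix.map_single, Matrix.smul_single, smul_eq_mul, mul_comm, C_mul_X_pow_eq_monomial]
      at this

/-- Induction on `K`, with the invariant `g (s = 0) = X ^ M • g0`, `B (0) = B0 - M`. If the error is
`s ^ K (W (x) + O (s))`, replace `g` by `X ^ a • g + s ^ K • g0 * Z`, `B` by `B - a + s ^ K • B'`,
where `a ≥ j0 + j`: the coefficient of `s ^ K` vanishes iff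
`θ Z + Z (B0 - M - a) - B0 Z + X ^ (M + a) B' = -(c u)⁻¹ X ^ (a - j0 - j) adj (g0) W`; solve this
coefficientwise in `x`: `sylvester` in degrees `≠ M + a`, `B'` in degree `M + a`. -/
theorem exists_nfB {H : (PowerSeries ℂ)[X]} {Nn : Fin r → (PowerSeries ℂ)[X]} {c : ℂ} (hc : c ≠ 0)
    {j0 : ℕ} {ν : Fin r → ℂ} (hH : red H = C c * X ^ j0)
    (hN : ∀ k, red (Nn k) = C (c * ν k) * X ^ j0)
    (hq : ∀ μ ∈ spectrum ℂ (cmK ν), ∃ q : ℚ, μ = q) :
    ∃ E : ℕ, 0 < E ∧ ∀ K : ℕ, ∃ B g, GauN H Nn E K B g := by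
  obtain ⟨g0, B0, u, j, E, hu, hE, h1, h2, h3, h4⟩ := exists_shear (cmK ν) hq
  let L : ℂ[X][Y] →+* (PowerSeries ℂ)[X] := mapRingHom cps
  let e0 : ℂ[X][Y] →+* ℂ[X] := mapRingHom (evalRingHom 0)
  let i : ℂ[X] →+* ℂ[X][Y] := mapRingHom C
  let l : ℂ[X] →+* (PowerSeries ℂ)[X] := C.comp cps
  have a0 : ∀ p : ℂ[X], PowerSeries.constantCoeff (cps p) = eval 0 p := fun p => by
    rw [← coeff_zero_eq_eval_zero]
    exact constantCoeff_coe p
  have a1 : ∀ g : Matrix (Fin r) (Fin r) ℂ[X][Y],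
      red.mapMatrix (L.mapMatrix g) = e0.mapMatrix g := fun g => by
    ext a b k
    simp [L, e0, red, a0]
  have a2 : ∀ g : Matrix (Fin r) (Fin r) ℂ[X], e0.mapMatrix (i.mapMatrix g) = g := fun g => by
    ext a b k
    simp [i, e0]
  have a3 : ∀ B : Matrix (Fin r) (Fin r) ℂ[X],
      red.mapMatrix (l.mapMatrix B) = ((evalRingHom 0).mapMatrix B).map C := fun B => by
    refine Matrix.ext fun a b => ?_
    simp [l, red, a0]
  have a4 : red.mapMatrix (cmp H Nn) = (C c * X ^ j0 : ℂ[X]) • (cmK ν).map C := by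
    refine Matrix.ext fun a b => ?_
    simp only [RingHom.mapMatrix_apply, Matrix.map_apply, cmp, cmK, Matrix.of_apply,
      Matrix.smul_apply, smul_eq_mul]
    split_ifs
    · rw [map_neg, hN, map_neg, map_mul]
      ring
    · rw [hH, map_one, mul_one]
    · simp
  have a5 : ∀ W : Matrix (Fin r) (Fin r) (PowerSeries ℂ)[X], red.mapMatrix W = 0 →
      ∃ W', W = (C PowerSeries.X : (PowerSeries ℂ)[X]) • W' := fun W hW => by
    choose W' hW' using fun a b => (C_dvd_iff_dvd_coeff PowerSeries.X (W a b)).2 fun k =>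
      PowerSeries.X_dvd_iff.2 (by
        simpa [red] using congrArg (coeff · k) (congrFun (congrFun hW a) b))
    exact ⟨Matrix.of W', Matrix.ext hW'⟩
  have a6 : ∀ g : Matrix (Fin r) (Fin r) (PowerSeries ℂ)[X],
      red.mapMatrix (g.map th) = (red.mapMatrix g).map th := nf2_th_map _
  have key : ∀ K : ℕ, ∃ (M : ℕ) (B : Matrix (Fin r) (Fin r) ℂ[X])
      (g : Matrix (Fin r) (Fin r) ℂ[X][Y]) (W : Matrix (Fin r) (Fin r) (PowerSeries ℂ)[X]),
      e0.mapMatrix g = (X ^ M : ℂ[X]) • g0 ∧ (evalRingHom 0).mapMatrix B = B0 - (M : ℂ) • 1 ∧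
      H • ((L.mapMatrix g).map th + L.mapMatrix g * l.mapMatrix B) - cmp H Nn * L.mapMatrix g =
        (C (PowerSeries.X ^ (K + 1)) : (PowerSeries ℂ)[X]) • W := fun K => by
    induction K with
    | zero =>
      have b1 : (evalRingHom 0).mapMatrix (B0.map C) = B0 := by
        ext a b
        simp
      obtain ⟨W, hW⟩ := a5 (H • ((L.mapMatrix (i.mapMatrix g0)).map th + L.mapMatrix
        (i.mapMatrix g0) * l.mapMatrix (B0.map C)) - cmp H Nn * L.mapMatrix (i.mapMatrix g0)) (by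
          rw [map_sub, nf2_smul, map_add, map_mul, map_mul, a6, a1, a2, a3, a4, b1, hH, h2,
            Matrix.smul_mul, sub_self])
      exact ⟨0, B0.map C, i.mapMatrix g0, W, by rw [a2, pow_zero, one_smul], by simp [b1],
        by rw [hW, zero_add, pow_one]⟩
    | succ K ih =>
      obtain ⟨M, B, g, W, b1, b2, b3⟩ := ih
      obtain ⟨Z, B1, b4⟩ := nf2_solve h4 (M + (j0 + j))
        ((C (-(c * u)⁻¹) : ℂ[X]) • (g0.adjugate * red.mapMatrix W))
      have b5 : (evalRingHom 0).mapMatrix (B1.map C) = B1 := by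
        ext a b
        simp
      have b6 : ((B0 - (M : ℂ) • 1).map C : Matrix (Fin r) (Fin r) ℂ[X]) =
          B0.map C - (M : ℂ[X]) • 1 := by
        rw [← RingHom.mapMatrix_apply, map_sub, nf2_smul, map_one, map_natCast]
        rfl
      obtain ⟨W', hW'⟩ := a5 ((X ^ (j0 + j) : (PowerSeries ℂ)[X]) • W + (H •
        ((L.mapMatrix (i.mapMatrix (g0 * Z))).map th + L.mapMatrix (i.mapMatrix (g0 * Z)) *
          (l.mapMatrix B - ((j0 + j : ℕ) : (PowerSeries ℂ)[X]) • 1) +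
          (X ^ (j0 + j) : (PowerSeries ℂ)[X]) • (L.mapMatrix g * l.mapMatrix (B1.map C)) +
          (C (PowerSeries.X ^ (K + 1)) : (PowerSeries ℂ)[X]) •
            (L.mapMatrix (i.mapMatrix (g0 * Z)) * l.mapMatrix (B1.map C))) -
          cmp H Nn * L.mapMatrix (i.mapMatrix (g0 * Z)))) (by
        have c1 : red (X : (PowerSeries ℂ)[X]) = X := map_X _
        have c2 : red (C (PowerSeries.X ^ (K + 1)) : (PowerSeries ℂ)[X]) = 0 := by simp [red]
        have c3 := congrArg (g0 * ·) b4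
        have c4 := congrArg (· * Z) h2
        have c5 : (C c * C (-(c * u)⁻¹) * C u : ℂ[X]) = -1 := by
          rw [← map_mul, ← map_mul, show c * -(c * u)⁻¹ * u = -1 by field_simp, map_neg, map_one]
        simp only [Matrix.mul_smul g0 (C _), ← Matrix.mul_assoc, mul_adjugate, h1] at c3
        simp only [map_add red.mapMatrix, map_sub red.mapMatrix, map_mul red.mapMatrix, nf2_smul,
          map_one, a6, a1, a2, a3, a4, b1, b2, b5, b6, hH, c2, map_pow red X, c1, map_natCast,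
          nf2_th_mul]
        simp only [Matrix.add_mul, Matrix.mul_add, Matrix.mul_sub, Matrix.smul_mul,
          Matrix.mul_smul, Matrix.mul_one, Matrix.one_mul, Matrix.mul_assoc, Nat.cast_add] at c3 c4 ⊢
        linear_combination (norm := module) (C c * X ^ j0 : ℂ[X]) • c3 +
          (C c * X ^ j0 : ℂ[X]) • c4 + (X ^ (j0 + j) : ℂ[X]) • c5 • red.mapMatrix W)
      refine ⟨M + (j0 + j), B - ((j0 + j : ℕ) : ℂ[X]) • 1 + (X ^ (K + 1) : ℂ[X]) • B1.map C,
        (X ^ (j0 + j) : ℂ[X][Y]) • g + (C (X ^ (K + 1)) : ℂ[X][Y]) • i.mapMatrix (g0 * Z), W',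
        ?_, ?_, ?_⟩
      · rw [map_add, nf2_smul, nf2_smul, b1, show e0 (C (X ^ (K + 1))) = 0 by simp [e0],
          show e0 (X ^ (j0 + j)) = X ^ (j0 + j) by simp [e0], zero_smul, add_zero, smul_smul,
          ← pow_add, add_comm]
      · rw [map_add, map_sub, nf2_smul, nf2_smul, b2, map_one, map_natCast,
          show evalRingHom (0 : ℂ) (X ^ (K + 1)) = 0 by simp, Nat.cast_add M]
        module
      · have c1 : cps (X ^ (K + 1) : ℂ[X]) = PowerSeries.X ^ (K + 1) := by simp [cps]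
        rw [map_add L.mapMatrix, map_add l.mapMatrix, map_sub l.mapMatrix, nf2_smul, nf2_smul,
          nf2_smul, nf2_smul, map_one, map_natCast,
          show L (X ^ (j0 + j)) = X ^ (j0 + j) by simp [L],
          show L (C (X ^ (K + 1))) = C (PowerSeries.X ^ (K + 1)) by rw [← c1]; exact map_C _,
          show l (X ^ (K + 1)) = C (PowerSeries.X ^ (K + 1)) from congrArg C c1, nf2_step, b3,
          smul_comm, ← smul_add, hW', smul_smul, ← map_mul, ← pow_succ]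
  refine ⟨E, hE, fun K => ?_⟩
  obtain ⟨M, B, g, W, b1, b2, b3⟩ := key K
  refine ⟨B, g, ⟨u, M * r + j, hu, ?_⟩, fun μ hμ => ?_, fun a b => ?_⟩
  · refine (congrArg det b1).trans ?_
    rw [det_smul, h1, Fintype.card_fin]
    ring
  · replace hμ : μ ∈ spectrum ℂ (B0 - (M : ℂ) • 1) := b2 ▸ hμ
    rw [← Algebra.algebraMap_eq_smul_one, sub_eq_neg_add, ← spectrum.add_mem_iff] at hμ
    obtain ⟨z, hz⟩ := h3 _ hμ
    exact ⟨z - E * M, by push_cast; linear_combination hz⟩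
  · refine (_root_.map_dvd C (pow_dvd_pow _ K.le_succ)).trans ⟨W a b, ?_⟩
    exact congrFun (congrFun b3 a) b

end Pool.Agent.GR.NP
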