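import Pool.Agent.Lib.MP_aa40d3_nt.NP.Rad
import Pool.Agent.Lib.MP_aa40d3_nt.NP.Nf
import Pool.Agent.Lib.MP_aa40d3_nt.NP.Const
import Pool.Agent.Lib.MP_aa40d3_nt.GR2.Arith2

/-! The arithmetic step. -/

open Polynomial Matrix
open scoped Polynomial.Bivariate

namespace Pool.Agent.GR.NP

variable {n r : ℕ}

/-- The scalar equation is nilpotent at the points of large characteristic of an open set. -/
def OrcS {R : Type} [CommRing R] (H : (PowerSeries R)[X]) (Nn : Fin r → (PowerSeries R)[X]) :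
    Prop :=
  ∃ (x : R) (P0 : ℕ), x ≠ 0 ∧ ∀ p : ℕ, p.Prime → P0 < p → ∀ (κ : Type) [Field κ] [CharP κ p]
    (φ : R →+* κ), φ x ≠ 0 → ScN p (mps φ H) fun k => mps φ (Nn k)

theorem ar1_det {R S : Type} [CommRing R] [CommRing S] (f : R →+* S) (b : R) (a : Fin r → R) :
    f (b • (1 : Matrix (Fin r) (Fin r) R) - cmK a).det =
      (f b • (1 : Matrix (Fin r) (Fin r) S) - cmK fun k => f (a k)).det := by
  rw [RingHom.map_det]
  congr 1
  refine Matrix.ext fun i j => ?_
  simp only [RingHom.mapMatrix_apply, Matrix.map_apply, Matrix.sub_apply, Matrix.smul_apply,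
    Matrix.one_apply, cmK, Matrix.of_apply, smul_eq_mul, map_sub, map_mul]
  split_ifs <;> simp

/-- Enlarge the ring (`exists_enlarge`) by `μ`, `(ι c0)⁻¹` and `(ι x)⁻¹`; the determinant of
`μ - cmK (ν / c0)` vanishes in the larger ring; `root_frob`, `rat_of_frob`. -/
theorem rat_exp {R : Type} [CommRing R] [Algebra.FiniteType ℤ R] (ι : R →+* ℂ)
    (hι : Function.Injective ι) {H : (PowerSeries R)[X]} {Nn : Fin r → (PowerSeries R)[X]}
    (ho : OrcS H Nn) {c0 : R} (hc : c0 ≠ 0) {j0 : ℕ} {ν : Fin r → R} (hH : red H = C c0 * X ^ j0)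
    (hN : ∀ k, red (Nn k) = C (ν k) * X ^ j0) :
    ∀ μ ∈ spectrum ℂ (cmK fun k => ι (ν k) / ι c0), ∃ q : ℚ, μ = q := by
  classical
  intro μ hμ
  obtain ⟨x, P0, hx, ho⟩ := ho
  obtain ⟨R', j, hft, hj, hS⟩ := exists_enlarge ι {μ, (ι c0)⁻¹, (ι x)⁻¹}
  have hc' : ι c0 ≠ 0 := fun h => hc (hι (h.trans (map_zero ι).symm))
  have hx' : ι x ≠ 0 := fun h => hx (hι (h.trans (map_zero ι).symm))
  let m : R' := ⟨μ, hS _ (by simp)⟩
  let ci : R' := ⟨(ι c0)⁻¹, hS _ (by simp)⟩
  let xi : R' := ⟨(ι x)⁻¹, hS _ (by simp)⟩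
  have hci : j c0 * ci = 1 := Subtype.ext (by simp [ci, hj, hc'])
  have hxi : j x * xi = 1 := Subtype.ext (by simp [xi, hj, hx'])
  have hdet : (m • (1 : Matrix (Fin r) (Fin r) R') - cmK fun k => j (ν k) * ci).det = 0 := by
    apply R'.subtype_injective
    rw [ar1_det, map_zero]
    rw [spectrum.mem_iff, Matrix.isUnit_iff_isUnit_det, isUnit_iff_ne_zero, not_not,
      Algebra.algebraMap_eq_smul_one] at hμ
    simpa [m, ci, hj, div_eq_mul_inv] using hμ
  obtain ⟨a, d, hd, e⟩ := rat_of_frob m ⟨P0, fun p hp hlt κ _ _ φ => by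
    have : Fact p.Prime := ⟨hp⟩
    have h1 : φ (j c0) * φ ci = 1 := by rw [← map_mul, hci, map_one]
    have h2 : φ (j x) * φ xi = 1 := by rw [← map_mul, hxi, map_one]
    refine root_frob p (ho p hp hlt κ (φ.comp j) (left_ne_zero_of_mul_eq_one h2))
      (left_ne_zero_of_mul_eq_one h1) (j0 := j0) (ν := fun k => φ (j (ν k) * ci)) ?_
      (fun k => ?_) ?_
    · rw [arith_red_mps, hH]
      simp
    · rw [arith_red_mps, hN, map_mul φ, mul_left_comm, h1, mul_one]
      simp
    · rw [← ar1_det, hdet, map_zero]⟩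
  refine ⟨a / d, ?_⟩
  have e' : (d : ℂ) * μ = a := by simpa [m] using congrArg Subtype.val e
  have hd' : (d : ℂ) ≠ 0 := Int.cast_ne_zero.2 hd
  push_cast
  rw [← e', mul_div_cancel_left₀ _ hd']

theorem ar1_nfB {R S : Type} [CommRing R] [CommRing S] (ψ : R →+* S) (H : (PowerSeries R)[X])
    (Nn : Fin r → (PowerSeries R)[X]) (B : Matrix (Fin r) (Fin r) (PowerSeries R))
    (g : Matrix (Fin r) (Fin r) (PowerSeries R)[X]) (a b : Fin r) :
    mps ψ (nfB H Nn B g a b) = nfB (mps ψ H) (fun k => mps ψ (Nn k))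
      (B.map (PowerSeries.map ψ)) (g.map (mps ψ)) a b := by
  have h1 : ∀ y : (PowerSeries R)[X], mps ψ (th y) = th (mps ψ y) := fun y => by
    simp [th, mps, derivative_map]
  have h2 : ∀ c : PowerSeries R, mps ψ (C c) = C (PowerSeries.map ψ c) := fun c => by simp [mps]
  have h3 : ∀ i l, mps ψ (cmp H Nn i l) = cmp (mps ψ H) (fun k => mps ψ (Nn k)) i l :=
    fun i l => by
      simp only [cmp, Matrix.of_apply]
      split_ifs <;> simp
  simp only [nfB, Matrix.sub_apply, Matrix.smul_apply, Matrix.add_apply, Matrix.map_apply,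
    Matrix.mul_apply, smul_eq_mul, map_sub, map_mul, map_add, map_sum, h1, h2, h3]

theorem ar1_dvd {R : Type} [CommRing R] {K : ℕ} {P : (PowerSeries R)[X]} :
    C (PowerSeries.X ^ K) ∣ P ↔ ∀ i m, m < K → PowerSeries.coeff m (P.coeff i) = 0 := by
  simp only [C_dvd_iff_dvd_coeff, PowerSeries.X_pow_dvd_iff]

theorem ar1_coeff {R S : Type} [CommRing R] [CommRing S] (ψ : R →+* S) (P : (PowerSeries R)[X])
    (i m : ℕ) : PowerSeries.coeff m ((mps ψ P).coeff i) = ψ (PowerSeries.coeff m (P.coeff i)) := by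
  simp [mps]

theorem ar1_cps {R S : Type} [CommRing R] [CommRing S] (ψ : R →+* S) (P : R[X]) :
    PowerSeries.map ψ (cps P) = cps (P.map ψ) := by
  ext m
  simp [cps]

theorem ar1_cps2 {R S : Type} [CommRing R] [CommRing S] (ψ : R →+* S) (P : R[X][Y]) :
    mps ψ (P.map cps) = (P.map (mapRingHom ψ)).map cps := by
  refine Polynomial.ext fun i => ?_
  simp only [mps, coe_mapRingHom, coeff_map, ar1_cps]

theorem ar1_red {R : Type} [CommRing R] (P : R[X][Y]) :
    red (P.map cps) = P.map (evalRingHom 0) := by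
  refine Polynomial.ext fun i => ?_
  simp [red, cps, coeff_zero_eq_eval_zero]

theorem ar1_ev {R S : Type} [CommRing R] [CommRing S] (ψ : R →+* S)
    (g : Matrix (Fin r) (Fin r) R[X][Y]) :
    (g.map (Polynomial.map (evalRingHom 0))).det.map ψ =
      ((g.map (Polynomial.map (mapRingHom ψ))).map (Polynomial.map (evalRingHom 0))).det := by
  rw [← coe_mapRingHom ψ, RingHom.map_det]
  congr 1
  refine Matrix.ext fun a b => Polynomial.ext fun i => ?_
  simp [← coeff_zero_eq_eval_zero]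

theorem ar1_tr {R S : Type} [CommRing R] [CommRing S] (f : R →+* S)
    (B : Matrix (Fin r) (Fin r) R) (k : ℕ) : ((B.map f) ^ k).trace = f (B ^ k).trace := by
  rw [← RingHom.mapMatrix_apply, ← map_pow, RingHom.mapMatrix_apply, AddMonoidHom.map_trace]

theorem ar1_lift {R' : Subring ℂ} {P : ℂ[X]} (h : ∀ c ∈ P.coeffs, c ∈ R') :
    ∃ Q : R'[X], Q.map R'.subtype = P := by
  rw [← mem_lifts, lifts_iff_coeffs_subset_range]
  exact fun c hc => ⟨⟨c, h c hc⟩, rfl⟩

/-- Enlarge the ring by the coefficients of `g` and `B`; the congruence descends along the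
inclusion. If the coefficient were not zero, `spread` gives a point at which it does not vanish,
nor do `x`, a coefficient of `red H` and the coefficient `u` of the determinant; `const_core`,
`trace_const`. -/
theorem nf_const {R : Type} [CommRing R] [Algebra.FiniteType ℤ R] (ι : R →+* ℂ)
    (hι : Function.Injective ι) {H : (PowerSeries R)[X]} {Nn : Fin r → (PowerSeries R)[X]}
    (ho : OrcS H Nn) (hH : red H ≠ 0) {E K : ℕ} {B : Matrix (Fin r) (Fin r) ℂ[X]}
    {g : Matrix (Fin r) (Fin r) ℂ[X][Y]}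
    (hg : GauN (mps ι H) (fun k => mps ι (Nn k)) E (K * r) B g) (k i : ℕ) (h0 : 0 < i)
    (hi : i < K) : (B ^ k).trace.coeff i = 0 := by
  classical
  obtain ⟨x, P0, hx, ho⟩ := ho
  obtain ⟨⟨u, j0, hu, hdet⟩, -, hE⟩ := hg
  obtain ⟨R', j, hft, hj, hS⟩ := exists_enlarge ι (Finset.univ.biUnion
    fun ab : Fin r × Fin r => (B ab.1 ab.2).coeffs ∪ (g ab.1 ab.2).coeffs.biUnion coeffs)
  have hB : ∀ a b, ∃ Q : R'[X], Q.map R'.subtype = B a b := fun a b =>
    ar1_lift fun c hc => hS c (Finset.mem_biUnion.2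
      ⟨(a, b), Finset.mem_univ _, Finset.mem_union_left _ hc⟩)
  have hg : ∀ a b, ∃ Q : R'[X][Y], Q.map (mapRingHom R'.subtype) = g a b := fun a b => by
    rw [← mem_lifts, lifts_iff_coeffs_subset_range]
    exact fun P hP => ar1_lift fun c hc => hS c (Finset.mem_biUnion.2
      ⟨(a, b), Finset.mem_univ _, Finset.mem_union_right _ (Finset.mem_biUnion.2 ⟨P, hP, hc⟩)⟩)
  choose B0 hB0 using hB
  choose g0 hg0 using hg
  let B' : Matrix (Fin r) (Fin r) R'[X] := Matrix.of B0
  let g' : Matrix (Fin r) (Fin r) R'[X][Y] := Matrix.of g0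
  have eB : B = B'.map (mapRingHom R'.subtype) := Matrix.ext fun a b => (hB0 a b).symm
  have eg : g = g'.map (Polynomial.map (mapRingHom R'.subtype)) :=
    Matrix.ext fun a b => (hg0 a b).symm
  have ej : R'.subtype.comp j = ι := RingHom.ext hj
  have hjinj : Function.Injective j := fun a b e => hι (by rw [← hj, ← hj, e])
  have key : ∀ {S : Type} [CommRing S] (ψ : R' →+* S) (a b : Fin r),
      mps ψ (nfB (mps j H) (fun k => mps j (Nn k)) (B'.map cps) (g'.map (Polynomial.map cps)) a b) =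
        nfB (mps (ψ.comp j) H) (fun k => mps (ψ.comp j) (Nn k))
          ((B'.map (mapRingHom ψ)).map cps)
          ((g'.map (Polynomial.map (mapRingHom ψ))).map (Polynomial.map cps)) a b := by
    intro S _ ψ a b
    have e1 : (B'.map cps).map (PowerSeries.map ψ) = (B'.map (mapRingHom ψ)).map cps :=
      Matrix.ext fun a b => ar1_cps ψ _
    have e2 : (g'.map (Polynomial.map cps)).map (mps ψ) =
        (g'.map (Polynomial.map (mapRingHom ψ))).map (Polynomial.map cps) :=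
      Matrix.ext fun a b => ar1_cps2 ψ _
    rw [ar1_nfB, e1, e2]
    simp only [arith_mps_mps]
  have hE' : ∀ a b, C (PowerSeries.X ^ (K * r)) ∣
      nfB (mps j H) (fun k => mps j (Nn k)) (B'.map cps) (g'.map (Polynomial.map cps)) a b := by
    intro a b
    have h := hE a b
    rw [eB, eg, ← ej, ← key, ar1_dvd] at h
    refine ar1_dvd.2 fun i m hm => R'.subtype_injective ?_
    rw [← ar1_coeff, h i m hm, map_zero]
  have hu' : (g'.map (Polynomial.map (evalRingHom 0))).det.coeff j0 ≠ 0 := fun h => hu (by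
    have h1 := congrArg (coeff · j0) hdet
    simp only [eg, ← ar1_ev, coeff_map, h, map_zero, coeff_C_mul, coeff_X_pow_self, mul_one] at h1
    exact h1.symm)
  obtain ⟨l, hl⟩ : ∃ l, (red H).coeff l ≠ 0 := ⟨_, leadingCoeff_ne_zero.2 hH⟩
  rw [eB, ar1_tr, coe_mapRingHom, coeff_map]
  by_contra hw
  have hw' : (B' ^ k).trace.coeff i ≠ 0 := fun h => hw (by rw [h, map_zero])
  obtain ⟨P, hP⟩ := spread (mul_ne_zero (mul_ne_zero ((map_ne_zero_iff j hjinj).2 hx)
    ((map_ne_zero_iff j hjinj).2 hl)) (mul_ne_zero hu' hw'))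
  obtain ⟨p, hp1, hp⟩ := Nat.exists_infinite_primes (P + P0 + 1)
  have : Fact p.Prime := ⟨hp⟩
  obtain ⟨κ, _, _, φ, hφ⟩ := hP p hp (by omega)
  simp only [map_mul, mul_ne_zero_iff] at hφ
  obtain ⟨⟨f1, f2⟩, f3, f4⟩ := hφ
  have h1 := const_core p (H := mps (φ.comp j) H) (Nn := fun k => mps (φ.comp j) (Nn k))
    (fun h => f2 (by
      have h2 := congrArg (coeff · l) h
      simpa only [arith_red_mps, coeff_map, coeff_zero, RingHom.comp_apply] using h2))
    (ho p hp (by omega) κ (φ.comp j) f1) (B := (B'.map (mapRingHom φ)).map cps)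
    (g := (g'.map (Polynomial.map (mapRingHom φ))).map (Polynomial.map cps)) (fun h => f3 (by
      have e : ((g'.map (Polynomial.map (mapRingHom φ))).map (Polynomial.map cps)).map red =
          (g'.map (Polynomial.map (mapRingHom φ))).map (Polynomial.map (evalRingHom 0)) :=
        Matrix.ext fun a b => ar1_red _
      rw [e, ← ar1_ev] at h
      rw [← coeff_map, h, coeff_zero])) (K := K * r) fun a b => by
      rw [← key]
      refine ar1_dvd.2 fun i m hm => ?_
      rw [ar1_coeff, ar1_dvd.1 (hE' a b) i m hm, map_zero]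
  have h2 := trace_const p h1 k i h0 hi
  rw [ar1_tr, ar1_tr] at h2
  exact f4 (by simpa [cps] using h2)

theorem nfB_mul {R : Type} [CommRing R] (c H : (PowerSeries R)[X])
    (Nn : Fin r → (PowerSeries R)[X]) (B : Matrix (Fin r) (Fin r) (PowerSeries R))
    (g : Matrix (Fin r) (Fin r) (PowerSeries R)[X]) :
    nfB (c * H) (fun k => c * Nn k) B g = c • nfB H Nn B g := by
  have h : cmp (c * H) (fun k => c * Nn k) = c • cmp H Nn := by
    refine Matrix.ext fun a b => ?_
    simp only [cmp, Matrix.of_apply, Matrix.smul_apply, smul_eq_mul]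
    split_ifs
    exacts [(mul_neg _ _).symm, rfl, (mul_zero _).symm]
  rw [nfB, nfB, h, smul_sub, mul_smul, smul_mul_assoc]

theorem arithN [NeZero r] {R : Type} [CommRing R] [Algebra.FiniteType ℤ R] (ι : R →+* ℂ)
    (hι : Function.Injective ι) {e : ℕ} (he : 2 * (r * r * (n + 1)) + 4 ≤ e)
    {τ : Fin n → PowerSeries R} {G : PowerSeries R} (hG : G ≠ 0)
    {Q : Fin n → Matrix (Fin r) (Fin r) (PowerSeries R)} (ho : OrcN τ G Q) :
    ∃ ϱ : ℕ, 0 < ϱ ∧ ϱ < e ∧ NFD (sc (PowerSeries.X ^ ϱ) (mps ι (HF τ G Q)))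
      fun k => sc (PowerSeries.X ^ ϱ) (mps ι (NF τ G Q k)) := by
  classical
  have hdom : IsDomain R := hι.isDomain ι
  have hcz : CharZero R := RingHom.charZero ι
  obtain ⟨ϱ, v, j0, c0, ν, H1, N1, hϱ0, hϱe, hc0, hH, hN, hrH, hrN⟩ := arith_radiusN he hG ho
  have hc : ι c0 ≠ 0 := fun h => hc0 (hι (h.trans (map_zero ι).symm))
  obtain ⟨i0, hi0⟩ : ∃ i0, PowerSeries.coeff i0 G ≠ 0 := by
    by_contra h
    push Not at h
    exact hG (PowerSeries.ext fun i => by simpa using h i)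
  have hs : OrcS H1 N1 := by
    obtain ⟨P0, hP0⟩ := ho
    refine ⟨_, P0, hi0, fun p hp hlt κ _ _ φ hφ => ?_⟩
    have : Fact p.Prime := ⟨hp⟩
    have hG' : PowerSeries.map φ G ≠ 0 := fun h => hφ (by
      rw [← PowerSeries.coeff_map, h, map_zero])
    obtain ⟨h1, h2⟩ := hP0 p hp hlt κ φ hG'
    exact (orc_scal p φ hG' h1 h2 hH hN).2
  have h1 : red (mps ι H1) = C (ι c0) * X ^ j0 := by
    rw [arith_red_mps, hrH]
    simp
  obtain ⟨E, hE, hnf⟩ := exists_nfB (H := mps ι H1) (Nn := fun k => mps ι (N1 k)) hc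
    (ν := fun k => ι (ν k) / ι c0) h1 (fun k => by
      rw [arith_red_mps, hrN, mul_div_cancel₀ _ hc]
      simp) (rat_exp ι hι hs hc0 hrH hrN)
  have hH' : sc (PowerSeries.X ^ ϱ) (mps ι (HF τ G Q)) = C (PowerSeries.X ^ v) * mps ι H1 := by
    rw [← arith_mps_sc, hH, map_mul, arith_mps_CX]
  have hN' : (fun k => sc (PowerSeries.X ^ ϱ) (mps ι (NF τ G Q k))) =
      fun k => C (PowerSeries.X ^ v) * mps ι (N1 k) := by
    funext k
    rw [← arith_mps_sc, hN, map_mul, arith_mps_CX]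
  refine ⟨ϱ, hϱ0, hϱe, v, j0, E, ι c0, hc, hE, ?_, fun K => ?_⟩
  · rw [hH', pow_succ, map_mul, map_mul, mul_assoc, ← mul_sub]
    refine mul_dvd_mul_left _ ?_
    rw [C_dvd_iff_dvd_coeff]
    intro i
    rw [PowerSeries.X_dvd_iff]
    have h1 : red (mps ι H1 - C (PowerSeries.C (ι c0)) * X ^ j0) = 0 := by
      rw [map_sub, h1]
      simp [red]
    have h2 := congrArg (fun P => P.coeff i) h1
    simpa only [red, coe_mapRingHom, coeff_map, coeff_zero] using h2
  · obtain ⟨B, g, hg⟩ := hnf (K * r)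
    refine ⟨B, g, ⟨hg.1, hg.2.1, fun a b => ?_⟩, nf_const ι hι hs (by
      rw [hrH]
      exact mul_ne_zero (C_ne_zero.2 hc0) (pow_ne_zero _ X_ne_zero)) hg⟩
    rw [hH', hN', nfB_mul, pow_add, map_mul, Matrix.smul_apply, smul_eq_mul]
    exact mul_dvd_mul_left _ ((_root_.map_dvd C (pow_dvd_pow _
      (Nat.le_mul_of_pos_right K (NeZero.pos r)))).trans (hg.2.2 a b))

end Pool.Agent.GR.NP
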