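import Pool.Agent.Lib.MP_aa40d3_nt.NP.Stmt
import Pool.Agent.Lib.MP_aa40d3_nt.CV.Defs
import Pool.Agent.Lib.MP_aa40d3_nt.GR.Cartier
import Pool.Agent.Lib.MP_aa40d3_nt.GR.CP
import Pool.Agent.Lib.MP_aa40d3_nt.GC.Defs
import Pool.Agent.Lib.MP_aa40d3_nt.MR.ADefs

/-! Nilpotent curvature: definitions. -/

open Polynomial Matrix
open scoped Polynomial.Bivariate

namespace Pool.Agent.GR.NP

variable {n r N m : ℕ}

/-- Strictly upper triangular. -/
def Up {R : Type*} [Zero R] (T : Matrix (Fin N) (Fin N) R) : Prop := ∀ a b, b ≤ a → T a b = 0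

section charp
variable {R : Type} [CommRing R]

/-- A polynomial basis in which `D U' = B U` becomes strictly triangular. -/
def HT (D : R[X]) (B : Matrix (Fin N) (Fin N) R[X]) : Prop :=
  ∃ (Φ T : Matrix (Fin N) (Fin N) R[X]) (c : R[X]), Φ.det ≠ 0 ∧ c ≠ 0 ∧ Up T ∧
    c • (D • Φ.map derivative - B * Φ) = Φ * T

/-- The `N`-th power of the curvature of `D U' = B U` vanishes. -/
def NilB (p : ℕ) (D : R[X]) (B : Matrix (Fin N) (Fin N) R[X]) : Prop := iterB D B (p * N) = 0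

/-- The same for the scalar equation `H θ^r y + ∑ Nn k θ^k y = 0`. -/
def ScN (p : ℕ) (H : R[X]) (Nn : Fin r → R[X]) : Prop := NilB p (X * H) (cmp H Nn)

/-- `d` is a derivation of `K` that extends the derivative of polynomials. -/
structure Der (R K : Type) [CommRing R] [Field K] [Algebra R[X] K] (d : K →+ K) : Prop where
  mul : ∀ a b, d (a * b) = a * d b + b * d a
  ext : ∀ f : R[X], d (algebraMap R[X] K f) = algebraMap R[X] K (derivative f)

/-- The operator `l ↦ ξ l' + l M` on rows. -/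
def rowOp {K : Type} [Field K] (ξ : K) (d : K →+ K) (M : Matrix (Fin N) (Fin N) K) :
    AddMonoid.End (Fin N → K) where
  toFun l := (fun a => ξ * d (l a)) + l ᵥ* M
  map_zero' := by
    funext a
    simp
  map_add' u v := by
    funext a
    simp only [Pi.add_apply, map_add, mul_add, add_vecMul]
    ring

theorem rowOp_apply {K : Type} [Field K] (ξ : K) (d : K →+ K) (M : Matrix (Fin N) (Fin N) K)
    (l : Fin N → K) : rowOp ξ d M l = (fun a => ξ * d (l a)) + l ᵥ* M := rfl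

/-- The companion matrix of `X ^ r + ∑ a k X ^ k`. -/
def cmK (a : Fin r → R) : Matrix (Fin r) (Fin r) R :=
  Matrix.of fun k j => if (k : ℕ) + 1 = r then -a j else if (j : ℕ) = (k : ℕ) + 1 then 1 else 0

/-- The error term of a gauge `g` from `θ + B` to the companion system of `(H, Nn)`. -/
noncomputable def nfB (H : (PowerSeries R)[X]) (Nn : Fin r → (PowerSeries R)[X])
    (B : Matrix (Fin r) (Fin r) (PowerSeries R)) (g : Matrix (Fin r) (Fin r) (PowerSeries R)[X]) :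
    Matrix (Fin r) (Fin r) (PowerSeries R)[X] :=
  H • (g.map th + g * B.map C) - cmp H Nn * g

/-- Polynomials as power series. -/
noncomputable def cps : R[X] →+* PowerSeries R := Polynomial.coeToPowerSeries.ringHom

end charp

/-- A gauge to order `K`, polynomial in both variables, invertible on the annulus, to a matrix that
does not depend on `x` and whose eigenvalues at `s = 0` lie in `E⁻¹ ℤ`. -/
def GauN (H : (PowerSeries ℂ)[X]) (Nn : Fin r → (PowerSeries ℂ)[X]) (E K : ℕ)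
    (B : Matrix (Fin r) (Fin r) ℂ[X]) (g : Matrix (Fin r) (Fin r) ℂ[X][Y]) : Prop :=
  (∃ (u : ℂ) (j : ℕ), u ≠ 0 ∧ (g.map (Polynomial.map (evalRingHom 0))).det = C u * X ^ j) ∧
    (∀ μ ∈ spectrum ℂ (B.map (eval 0)), ∃ z : ℤ, (E : ℂ) * μ = z) ∧
    ∀ a b, C (PowerSeries.X ^ K) ∣ nfB H Nn (B.map cps) (g.map (Polynomial.map cps)) a b

/-- Formal normal form to every order on the annulus, with constant traces. -/
def NFD (H : (PowerSeries ℂ)[X]) (Nn : Fin r → (PowerSeries ℂ)[X]) : Prop :=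
  ∃ (v j0 E : ℕ) (c : ℂ), c ≠ 0 ∧ 0 < E ∧
    C (PowerSeries.X ^ (v + 1)) ∣ H - C (PowerSeries.X ^ v * PowerSeries.C c) * X ^ j0 ∧
    ∀ K : ℕ, ∃ B g, GauN H Nn E (v + K) B g ∧
      ∀ k i : ℕ, 0 < i → i < K → (B ^ k).trace.coeff i = 0

/-- Working form of the hypothesis on reductions. -/
def PCN (t : Fin n → ℂ) (A : Fin n → Matrix (Fin r) (Fin r) ℂ) : Prop :=
  ∃ (S : Finset ℂ) (P0 : ℕ), ∀ (R : Type) [CommRing R] (ι : R →+* ℂ), Function.Injective ι →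
    (∀ s ∈ S, s ∈ ι.range) → ∀ (t' : Fin n → R) (A' : Fin n → Matrix (Fin r) (Fin r) R),
    (∀ i, ι (t' i) = t i) → (∀ i, (A' i).map ι = A i) →
    ∀ p : ℕ, p.Prime → P0 < p → ∀ (k : Type) [Field k] [CharP k p] (φ : R →+* k),
      NilB p (dl fun i => φ (t' i)) (pm (fun i => φ (t' i)) fun i => (A' i).map φ)

/-- The reductions of a formal family. -/
def OrcN [NeZero r] {R : Type} [CommRing R] (τ : Fin n → PowerSeries R) (G : PowerSeries R)
    (Q : Fin n → Matrix (Fin r) (Fin r) (PowerSeries R)) : Prop :=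
  ∃ P0 : ℕ, ∀ p : ℕ, p.Prime → P0 < p → ∀ (κ : Type) [Field κ] [CharP κ p] (φ : R →+* κ),
    PowerSeries.map φ G ≠ 0 →
      cycH 1 (dl fun i => toF φ (τ i))
        (pm (fun i => toF φ (τ i)) fun i => (toF φ G)⁻¹ • (Q i).map (toF φ)) ≠ 0 ∧
      NilB p (dl fun i => toF φ (τ i))
        (pm (fun i => toF φ (τ i)) fun i => (toF φ G)⁻¹ • (Q i).map (toF φ))

/-- A family as `Model3`, with nilpotent curvature. The fields `F`, `D`, `a` of the underlying
`Model2` play no role. -/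
structure Model4 (n r : ℕ) [NeZero r] (Mov : Finset (Fin n)) extends Model2 n r where
  F3 : (MvPolynomial (Fin n ⊕ Fin m) ℤ)[X]
  Z : Set (MvPolynomial (Fin n ⊕ Fin m) ℤ)
  monic3 : F3.Monic
  loc : ∀ z ∈ Z, Loc Mov z
  sep3 : ∀ (k : Type) [Field k] (w : Fin n ⊕ Fin m → k) (θ : k), (∀ z ∈ Z, ev1 w z = 0) →
    ev2 w θ F3 = 0 → ev1 w G ≠ 0 → ev2 w θ (derivative F3) ≠ 0
  cyc4 : ∀ (k : Type) [Field k] (w : Fin n ⊕ Fin m → k) (θ : k), (∀ z ∈ Z, ev1 w z = 0) →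
    ev2 w θ F3 = 0 → ev1 w G ≠ 0 → cycH 1 (dl fun i => w (Sum.inl i))
      (pm (fun i => w (Sum.inl i)) fun i => (ev1 w G)⁻¹ • (Q i).map (ev2 w θ)) ≠ 0
  nil4 : ∀ (k : Type) [Field k] (w : Fin n ⊕ Fin m → k) (θ : k), (∀ z ∈ Z, ev1 w z = 0) →
    ev2 w θ F3 = 0 → ev1 w G ≠ 0 → ∀ p : ℕ, p.Prime → P0 < p → CharP k p →
      NilB p (dl fun i => w (Sum.inl i))
        (pm (fun i => w (Sum.inl i)) fun i => (ev1 w G)⁻¹ • (Q i).map (ev2 w θ))

theorem Model4.on_sl [NeZero r] {Mov : Finset (Fin n)} (M : Model4 n r Mov) {k : Type} [CommRing k]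
    {w w' : Fin n ⊕ Fin M.m → k} (h : Sl Mov w w') (hZ : ∀ z ∈ M.Z, ev1 w' z = 0) :
    ∀ z ∈ M.Z, ev1 w z = 0 := fun z hz => (M.loc z hz k w w' h).trans (hZ z hz)

/-- Some power is unipotent. -/
def QU (x : Mt N) : Prop := ∃ E : ℕ, 0 < E ∧ IsNilpotent (x ^ E - 1)

/-- The loops around movable clusters are quasi-unipotent. -/
def LoopsQ (Mov : Finset (Fin n)) (ρ : Fin n → ℝ) (g : Fin n → GLr r) : Prop :=
  ∀ μ, ValidM Mov μ ρ → ∀ l, LowerL (rhoL μ ρ) l → (∀ a ∈ l, a ∈ Mov) →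
    QU ((l.map (mvTL μ ρ g)).prod).val

section group
variable {G : Type} [Group G]

/-- All initial products of equivalent lists are quasi-unipotent. -/
def QuL (σ : G →* Mt m) (l : List G) : Prop := ∀ A B, GC.Hur l (A ++ B) → QU (σ A.prod)

/-- All products of `k` factors `σ x - 1`, `x ∈ H`, kill `e`. -/
def Unip (σ : G →* Mt m) (H : Subgroup G) (k : ℕ) (e : Mt m) : Prop :=
  ∀ l : List G, (∀ x ∈ l, x ∈ H) → l.length = k → (l.map fun x => σ x - 1).prod * e = 0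

/-- A subgroup of finite index is unipotent. -/
def VU (σ : G →* Mt m) : Prop := ∃ (H : Subgroup G) (k : ℕ), H.FiniteIndex ∧ Unip σ H k 1

end group

/-- `m` independent formal solutions of the dual system at `x`. -/
def FS (m : ℕ) (D : ℂ[X]) (B : CV.PM N) (x : CV.LL) : Prop :=
  ∃ u : Fin m → Fin N → CV.LL, LinearIndependent ℂ u ∧ ∀ j,
    (CV.ev x D • fun a => CV.dL (u j a)) + CV.dL x • (u j ᵥ* B.map (CV.ev x)) = 0

/-- `m` single valued solutions of the dual system on `W`, independent at each point. -/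
def AS (m : ℕ) (t : Fin n → ℂ) (A : Fin n → Matrix (Fin N) (Fin N) ℂ) (W : Set ℂ) : Prop :=
  ∃ u : Fin m → ℂ → Fin N → ℂ, ∀ x ∈ W, (LinearIndependent ℂ fun j => u j x) ∧ ∀ j a,
    HasDerivAt (fun z => u j z a) (-(u j x ᵥ* ∑ i, (x - t i)⁻¹ • A i) a) x

/-- Near the point `t i`. -/
def ASp (m : ℕ) (t : Fin n → ℂ) (A : Fin n → Matrix (Fin N) (Fin N) ℂ) (i : Fin n) : Prop :=
  ∃ ε : ℝ, 0 < ε ∧ AS m t A (Metric.ball (t i) ε \ {t i})

/-- Near infinity. -/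
def ASi (m : ℕ) (t : Fin n → ℂ) (A : Fin n → Matrix (Fin N) (Fin N) ℂ) : Prop :=
  ∃ ρ : ℝ, AS m t A {x | ρ < ‖x‖}

/-- A basis of algebraic functions on a disc in which the system is strictly triangular. -/
def AlgMT (D : ℂ[X]) (B : CV.PM N) : Prop :=
  ∃ (x₀ : ℂ) (ε : ℝ) (U T : ℂ → Matrix (Fin N) (Fin N) ℂ), 0 < ε ∧
    (∀ x ∈ Metric.ball x₀ ε, D.eval x ≠ 0 ∧ (U x).det ≠ 0 ∧ Up (T x) ∧ ∀ a b,
      HasDerivAt (fun z => U z a b)
        (((D.eval x)⁻¹ • (B.map (eval x) * U x) + U x * T x) a b) x) ∧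
    ∀ a b, ∃ Q : ℂ[X][Y], Q ≠ 0 ∧ ∀ x ∈ Metric.ball x₀ ε, Q.evalEval x (U x a b) = 0

/-- The same for a Fuchsian system. -/
def AlgSolT (t : Fin n → ℂ) (A : Fin n → Matrix (Fin r) (Fin r) ℂ) : Prop :=
  ∃ (x₀ : ℂ) (ε : ℝ) (U T : ℂ → Matrix (Fin r) (Fin r) ℂ), 0 < ε ∧
    (∀ x ∈ Metric.ball x₀ ε, (∀ i, x ≠ t i) ∧ (U x).det ≠ 0 ∧ Up (T x) ∧ ∀ a b,
      HasDerivAt (fun z => U z a b) (((∑ i, (x - t i)⁻¹ • A i) * U x + U x * T x) a b) x) ∧
    ∀ a b, ∃ P : ℂ[X][X], P ≠ 0 ∧ ∀ x ∈ Metric.ball x₀ ε, P.evalEval x (U x a b) = 0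

end Pool.Agent.GR.NP
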