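import Pool.Agent.Lib.MP_aa40d3_nt.GE.GM
import Pool.Agent.Lib.MP_aa40d3_nt.NP.GeT
import Pool.Agent.Lib.MP_aa40d3_nt.NP.AlgG
import Pool.Agent.Lib.MP_aa40d3_nt.NP.Main8

/-! Nilpotent systems on the generic curve. -/

open Polynomial
open scoped Polynomial.Bivariate IntermediateField

namespace Pool.Agent.GR.NP

open Pool.Agent.GR.CV Pool.Agent.GR.GE
open Pool.Agent.Lib.MP_a01f70_lc.QQ (Place)

theorem final9N (r : ℕ) (hr : 1 ≤ r) : ∃ g₀ : ℕ, ∀ (R : Type) [CommRing R] [Algebra.FiniteType ℤ R]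
    (ι : R →+* ℂ) (S : CV.Sys R r) (F : Type) [Field F] [Algebra ℂ F] (x y z : F)
    (Sg : Finset (Place ℂ F)), S.P.Monic → Irreducible (S.map ι).P → (S.map ι).D ≠ 0 →
    Transcendental ℂ x → ℂ⟮x, y⟯ = ⊤ → aevalAeval x y (S.map ι).P = 0 → g₀ ≤ genus F →
    r + 2 ≤ Module.finrank ℂ⟮z⟯ F →
    Moduli Sg (min (3 * genus F - 3) (2 * genus F + 2 * Module.finrank ℂ⟮z⟯ F - 5) + Sg.card) →
    (∀ p ∉ Sg, ∀ φ, At φ p → (S.map ι).Loc (φ x) (φ y)) →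
    (∀ m : Ideal R, m.IsMaximal → (S.map (Ideal.Quotient.mk m)).Tri) → (S.map ι).AlgTri := by
  obtain ⟨k, hk⟩ := final8N r hr
  refine ⟨k + 2, fun R _ _ ι S F _ _ x y z Sg hP hI hD hx hxy hy hg hz hG hL hF => ?_⟩
  have hM : GE.Model x y (S.map ι).P := ⟨hx, hxy, hP.map _, hI, hy⟩
  have : IsFF F := isFF_of_gen hx hxy hI.ne_zero hy
  obtain ⟨d, f, w, P', n, t, M, hd', hM', hd, hC, hc⟩ := exists_cov Sg hz (by omega) hG
  obtain ⟨S', E, rfl, h⟩ := exists_chg (S.map ι) hM hD hM'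
  obtain ⟨R', _, _, ι', S₀, q1, rfl, q2⟩ := transportT ι S hP h hF
  have hL' : ∀ p, p ∉ Sg → ∀ φ, At φ p → (S₀.map ι').Loc (φ f) (φ w) :=
    fun p hp φ hφ => h.loc φ (hL p hp φ hφ)
  exact chg_algT h (hk _ n R' ι' S₀ t M q1 ((q1.natDegree_map _).symm.trans hd) hd' h.D' hC.ind
    (by omega) (fun i hi => ⟨unr_fin hM' hL' (hC.bra i hi).1, loc_bra hM' hL' (hC.bra i hi).2⟩)
    (fun i hi => unr_fin hM' hL' (hC.pun i hi)) (fun c hc => unr_fin hM' hL' (hC.gen c hc))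
    (unr_inf hM' hL' hC.inf) hM'.irr q2)

end Pool.Agent.GR.NP
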