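import Pool.Agent.Lib.MP_aa40d3_nt.NP.Qu
import Pool.Agent.Lib.MP_aa40d3_nt.GC.Link
import Pool.Agent.Lib.MP_aa40d3_nt.GD.Lift

/-! Moves in both directions keep quasi-unipotence. -/

open Polynomial Matrix

namespace Pool.Agent.GR.NP

open GC

variable {G : Type} [Group G] {n m : ℕ} {σ : G →* Mt m} {l l' : List G}

theorem QuL.hur (hf : QuL σ l) (h : Hur l l') : QuL σ l' := fun A B h' => hf A B (h.trans h')

theorem QuL.left {A B : List G} (hf : QuL σ (A ++ B)) : QuL σ A := fun C D h =>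
  hf C (D ++ B) (by simpa using h.app_right B)

theorem QuL.mem (hf : QuL σ l) {x : G} (hx : x ∈ l) : QU (σ x) := by
  obtain ⟨A, B, rfl⟩ := List.append_of_mem hx
  have h := (hur_oneL A x).app_right B
  have h2 := hf [x] ((A.map fun y => x⁻¹ * y * x) ++ B) (by simpa using h)
  simpa using h2

theorem QuL.map {G' : Type} [Group G'] {m' : ℕ} {σ' : G' →* Mt m'} (φ : G →* G')
    (hφ : ∀ x, QU (σ x) → QU (σ' (φ x))) (h : QuL σ l) : QuL σ' (l.map φ) := by
  intro A B hAB
  obtain ⟨l', hl, he⟩ := Hur.lift φ hAB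
  obtain ⟨A', B', rfl, rfl, rfl⟩ := List.map_eq_append_iff.1 he
  rw [← map_list_prod]
  exact hφ _ (h A' B' hl)

theorem loop_of_quL {Mov : Finset (Fin n)} {L0 : List (Fin n)} {g : Fin n → G} (h0 : L0.Nodup)
    (hf : QuL σ (L0.map g)) (x : G) (hx : IsLoop Mov L0 g x) : QU (σ x) := by
  obtain ⟨l, R, h, hs, -, rfl⟩ := hx
  exact hf _ (R.map h) (by simpa using hur_of_st h0 hs)

/-- Moves to the left only. -/
inductive HurL {G : Type} [Group G] : List G → List G → Prop
  | refl (l : List G) : HurL l l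
  | left {l A B : List G} {x y : G} : HurL l (A ++ x :: y :: B) →
      HurL l (A ++ y :: (y⁻¹ * x * y) :: B)

theorem HurL.trans {l₁ l₂ l₃ : List G} (h : HurL l₁ l₂) (h' : HurL l₂ l₃) : HurL l₁ l₃ := by
  induction h' with
  | refl => exact h
  | left _ ih => exact ih.left

/-- All initial products of the lists reached by moves to the left are quasi-unipotent. -/
def QuF (σ : G →* Mt m) (l : List G) : Prop := ∀ A B, HurL l (A ++ B) → QU (σ A.prod)

theorem hq1_map {G' : Type} [Group G'] (φ : G →* G') (h : HurL l l') :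
    HurL (l.map φ) (l'.map φ) := by
  induction h with
  | refl => exact HurL.refl _
  | @left A B x y _ ih =>
    have h2 : HurL (l.map φ) (A.map φ ++ φ x :: φ y :: B.map φ) := by simpa using ih
    simpa using h2.left

theorem hq1_lift {G' : Type} [Group G'] (φ : G →* G') {p : List G'} (hp : HurL (l.map φ) p) :
    ∃ l', HurL l l' ∧ l'.map φ = p := by
  induction hp with
  | refl => exact ⟨l, HurL.refl _, rfl⟩
  | left _ ih =>
    obtain ⟨l', hl, e⟩ := ih
    obtain ⟨A', l₂, rfl, rfl, e2⟩ := List.map_eq_append_iff.1 e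
    obtain ⟨x', l₃, rfl, rfl, e3⟩ := List.map_eq_cons_iff.1 e2
    obtain ⟨y', B', rfl, rfl, rfl⟩ := List.map_eq_cons_iff.1 e3
    exact ⟨_, hl.left, by simp⟩

theorem hq1_front (A : List G) : ∀ (P B : List G) (b : G),
    ∃ A', HurL (P ++ (A ++ b :: B)) (P ++ b :: (A' ++ B)) := by
  induction A with
  | nil => exact fun P B b => ⟨[], HurL.refl _⟩
  | cons a A ih =>
    intro P B b
    obtain ⟨A', h⟩ := ih (P ++ [a]) B b
    have h2 : HurL (P ++ (a :: A ++ b :: B)) (P ++ a :: b :: (A' ++ B)) := by simpa using h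
    exact ⟨(b⁻¹ * a * b) :: A', h2.left⟩

theorem hq1_adj {A B : List G} {x y : G} (h : QuF σ (A ++ x :: y :: B)) : QU (σ (x * y)) := by
  obtain ⟨A', h1⟩ := hq1_front A [] (y :: B) x
  obtain ⟨A'', h2⟩ := hq1_front A' [x] B y
  have h3 : HurL (A ++ x :: y :: B) ([x, y] ++ (A'' ++ B)) := by
    simpa using HurL.trans h1 h2
  simpa using h _ _ h3

theorem hq1_turn (A B : List G) (x y : G) (j : ℕ) :
    HurL (A ++ x :: y :: B) (A ++ (((x * y) ^ (j + 1))⁻¹ * (x * y * x⁻¹) * (x * y) ^ (j + 1)) ::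
      (((x * y) ^ (j + 1))⁻¹ * x * (x * y) ^ (j + 1)) :: B) := by
  induction j with
  | zero =>
    have h := (HurL.refl (A ++ x :: y :: B)).left
    have e1 : ((x * y) ^ (0 + 1))⁻¹ * (x * y * x⁻¹) * (x * y) ^ (0 + 1) = y := by group
    have e2 : ((x * y) ^ (0 + 1))⁻¹ * x * (x * y) ^ (0 + 1) = y⁻¹ * x * y := by group
    rwa [e1, e2]
  | succ j ih =>
    have h := ih.left.left
    have hc : (x * y) ^ (j + 1 + 1) = (x * y) * (x * y) ^ (j + 1) := pow_succ' _ _
    rw [hc]
    generalize (x * y) ^ (j + 1) = v at h ⊢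
    have e1 : (x * y * v)⁻¹ * (x * y * x⁻¹) * (x * y * v) =
        (v⁻¹ * x * v)⁻¹ * (v⁻¹ * (x * y * x⁻¹) * v) * (v⁻¹ * x * v) := by group
    have e2 : (x * y * v)⁻¹ * x * (x * y * v) =
        ((v⁻¹ * x * v)⁻¹ * (v⁻¹ * (x * y * x⁻¹) * v) * (v⁻¹ * x * v))⁻¹ * (v⁻¹ * x * v) *
          ((v⁻¹ * x * v)⁻¹ * (v⁻¹ * (x * y * x⁻¹) * v) * (v⁻¹ * x * v)) := by group
    rwa [e1, e2]

/-- The values of a polynomial matrix at the natural numbers. -/
noncomputable def hq1_ev (m : ℕ) : Matrix (Fin m) (Fin m) ℂ[X] →+* (ℕ → Mt m) :=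
  RingHom.pi fun j : ℕ => (evalRingHom (j : ℂ)).mapMatrix

theorem hq1_ev_apply (M : Matrix (Fin m) (Fin m) ℂ[X]) (j : ℕ) (a b : Fin m) :
    hq1_ev m M j a b = (M a b).eval (j : ℂ) := rfl

theorem hq1_zero {F : ℕ → Mt m} (hF : F ∈ (hq1_ev m).range) (h : ∀ j, F (j + 1) = 0) :
    F 0 = 0 := by
  obtain ⟨M, rfl⟩ := hF
  ext a b
  have h0 : M a b = 0 := by
    refine Polynomial.eq_zero_of_infinite_isRoot _ (Set.infinite_of_injective_forall_mem
      (f := fun j : ℕ => ((j + 1 : ℕ) : ℂ)) (fun i j e => ?_) fun j => ?_)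
    · simpa using e
    · exact congrFun (congrFun (h j) a) b
  rw [hq1_ev_apply, h0]
  simp

theorem hq1_const (w : Mt m) : (fun _ : ℕ => w) ∈ (hq1_ev m).range :=
  ⟨w.map C, by
    funext j
    ext a b
    simp [hq1_ev_apply]⟩

theorem hq1_pow {w : Mt m} (hw : IsNilpotent (w - 1)) :
    (fun j : ℕ => w ^ j) ∈ (hq1_ev m).range := by
  obtain ⟨K, hK⟩ := hw
  obtain ⟨z, rfl⟩ : ∃ z, w = z + 1 := ⟨w - 1, by simp⟩
  rw [add_sub_cancel_right] at hK
  have e : (fun j : ℕ => (z + 1) ^ j) =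
      ∑ i ∈ Finset.range K, (fun _ : ℕ => z ^ i) * fun j : ℕ => ((j.choose i : ℕ) : Mt m) := by
    funext j
    rw [Finset.sum_apply, (Commute.one_right z).add_pow]
    simp only [one_pow, mul_one, Pi.mul_apply]
    refine (Finset.sum_subset (Finset.range_subset_range.2 (Nat.le_add_right (j + 1) K))
      fun i _ hi => ?_).trans (Finset.sum_subset
        (Finset.range_subset_range.2 (Nat.le_add_left K (j + 1))) fun i _ hi => ?_).symm
    · rw [Nat.choose_eq_zero_of_lt (by simpa using hi), Nat.cast_zero, mul_zero]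
    · rw [pow_eq_zero_of_le (by simpa using hi) hK, zero_mul]
  rw [e]
  refine sum_mem fun i _ => mul_mem (hq1_const _)
    ⟨Matrix.scalar (Fin m) (C ((i.factorial : ℂ)⁻¹) * descPochhammer ℂ i), ?_⟩
  funext j
  ext a b
  have hi : (i.factorial : ℂ) ≠ 0 := Nat.cast_ne_zero.2 i.factorial_ne_zero
  rw [hq1_ev_apply, Matrix.scalar_apply, Matrix.natCast_apply, Matrix.diagonal_apply]
  split_ifs
  · rw [eval_mul, eval_C, descPochhammer_eval_eq_descFactorial,
      Nat.descFactorial_eq_factorial_mul_choose, Nat.cast_mul, inv_mul_cancel_left₀ hi]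
  · simp

/-- Sequences whose images, and the images of whose inverses, are polynomial. -/
def hq1_S (σ : G →* Mt m) : Subgroup (ℕ → G) where
  carrier := {f | (fun j => σ (f j)) ∈ (hq1_ev m).range ∧
    (fun j => σ (f j)⁻¹) ∈ (hq1_ev m).range}
  one_mem' := ⟨hq1_const (σ 1), hq1_const (σ 1⁻¹)⟩
  mul_mem' := fun {f g} hf hg => ⟨by
      have := mul_mem hf.1 hg.1
      rwa [show ((fun j => σ (f j)) * fun j => σ (g j)) = fun j => σ ((f * g) j) from
        funext fun j => (map_mul σ _ _).symm] at this, by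
      have := mul_mem hg.2 hf.2
      rwa [show ((fun j => σ (g j)⁻¹) * fun j => σ (f j)⁻¹) = fun j => σ ((f * g) j)⁻¹ from
        funext fun j => by rw [Pi.mul_apply, Pi.mul_apply, _root_.mul_inv_rev, map_mul]] at this⟩
  inv_mem' := fun {f} hf => ⟨hf.2, by simpa using hf.1⟩

theorem hq1_iff {f : ℕ → G} : f ∈ hq1_S σ ↔ (fun j => σ (f j)) ∈ (hq1_ev m).range ∧
    (fun j => σ (f j)⁻¹) ∈ (hq1_ev m).range := Iff.rfl

/-- Constant sequences. -/
def hq1_c (σ : G →* Mt m) : G →* hq1_S σ where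
  toFun g := ⟨fun _ => g, hq1_iff.2 ⟨hq1_const (σ g), hq1_const (σ g⁻¹)⟩⟩
  map_one' := rfl
  map_mul' _ _ := rfl

/-- The value at `j`. -/
def hq1_at (σ : G →* Mt m) (j : ℕ) : hq1_S σ →* G :=
  (Pi.evalMonoidHom (fun _ : ℕ => G) j).comp (hq1_S σ).subtype

theorem hq1_at_map (j : ℕ) (A : List G) : (A.map (hq1_c σ)).map (hq1_at σ j) = A := by
  rw [List.map_map]
  exact List.map_id'' (fun _ => rfl) A

theorem hq1_mem {u : G} (hu : IsNilpotent (σ u - 1)) : (fun j : ℕ => u ^ j) ∈ hq1_S σ := by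
  have h2 : IsNilpotent (σ u⁻¹ - 1) := by
    have e : σ u⁻¹ - 1 = (-σ u⁻¹) * (σ u - 1) := by
      rw [mul_sub, neg_mul, ← map_mul, inv_mul_cancel, map_one, mul_one]
      abel
    rw [e]
    refine Commute.isNilpotent_mul_left ?_ hu
    exact (((Commute.refl u).inv_left.map σ).sub_right (Commute.one_right _)).neg_left
  exact hq1_iff.2 ⟨by simpa using hq1_pow hu, by simpa [← inv_pow] using hq1_pow h2⟩

/-- Let `E` be given by `exists_unif`, `u = x * y`, `w = σ u ^ E`; `u` is an initial product of a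
list reached from `l` (move the pair to the front), so `(w - 1) ^ m = 0`. There are matrices `U`,
`V` over `ℂ[X]` with `U (k) = w ^ k`, `V (k) = (w ^ k)⁻¹` for all `k : ℕ` (binomial series), so
`U * V = 1`. Let `L` be the list of units of matrices over `ℂ[X]` obtained from the image of the new
list by conjugating the two new members by `U⁻¹`. Its value at `k ≥ 1` is the image of a list
reached from `l` by `2 k E - 1` moves to the left, and its value at `0` is the image of the new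
list. A sequence of moves lifts to `L` (as `Hur.lift`), and `(f ^ E - 1) ^ m` vanishes at all
`k ≥ 1`, hence at `0`. -/
theorem QuF.right [Group.FG G] {A B : List G} {x y : G} (h : QuF σ (A ++ x :: y :: B)) :
    QuF σ (A ++ (x * y * x⁻¹) :: x :: B) := by
  obtain ⟨E, hE, hU⟩ := exists_unif σ
  have hu : IsNilpotent (σ ((x * y) ^ E) - 1) := ⟨m, by rw [map_pow]; exact hU _ (hq1_adj h)⟩
  let v : hq1_S σ := ⟨_, hq1_mem hu⟩
  let L : List (hq1_S σ) := A.map (hq1_c σ) ++ (v⁻¹ * hq1_c σ (x * y * x⁻¹) * v) ::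
    (v⁻¹ * hq1_c σ x * v) :: B.map (hq1_c σ)
  have hL : ∀ j, L.map (hq1_at σ j) =
      A ++ ((((x * y) ^ E) ^ j)⁻¹ * (x * y * x⁻¹) * ((x * y) ^ E) ^ j) ::
        ((((x * y) ^ E) ^ j)⁻¹ * x * ((x * y) ^ E) ^ j) :: B := fun j => by
    simp only [L, List.map_append, List.map_cons, hq1_at_map]
    rfl
  intro C D hCD
  have h0 : HurL (L.map (hq1_at σ 0)) (C ++ D) := by simpa [hL] using hCD
  obtain ⟨L', hl, e⟩ := hq1_lift _ h0
  obtain ⟨C', D', rfl, rfl, rfl⟩ := List.map_eq_append_iff.1 e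
  refine ⟨E, hE, m, ?_⟩
  rw [← map_list_prod]
  refine hq1_zero (F := ((fun j => σ (C'.prod.1 j)) ^ E - 1) ^ m)
    (pow_mem (sub_mem (pow_mem (hq1_iff.1 C'.prod.2).1 E) (one_mem _)) m) fun j => ?_
  obtain ⟨i, hi⟩ : ∃ i, E * (j + 1) = i + 1 :=
    Nat.exists_eq_succ_of_ne_zero (Nat.mul_ne_zero hE.ne' j.succ_ne_zero)
  have h1 := hq1_map (hq1_at σ (j + 1)) hl
  rw [hL, ← pow_mul, hi, List.map_append] at h1
  have h2 := hU _ (h _ _ ((hq1_turn A B x y i).trans h1))
  rw [← map_list_prod] at h2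
  exact h2

theorem link_stL {L0 : List (Fin n)} {g : Fin n → G} (h0 : L0.Nodup) {l : List G}
    (hl : HurL (L0.map g) l) : ∃ L h, St Finset.univ L0 g L h ∧ l = L.map h := by
  induction hl with
  | refl => exact ⟨L0, g, St.init, rfl⟩
  | left _ ih =>
    obtain ⟨L, h, hs, e⟩ := ih
    obtain ⟨L₁, L₂, a, c, rfl, rfl, rfl, rfl, rfl⟩ := link_split e
    obtain ⟨n1, n2, n3⟩ := link_nodup (dbl_nodup h0 hs)
    obtain ⟨h', hs', e1, e2⟩ := st_left h0 hs
    refine ⟨_, h', hs', ?_⟩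
    rw [List.map_append, List.map_cons, List.map_cons, e1, e2 c n1.symm,
      List.map_congr_left fun e he => e2 e (n2 e he).1,
      List.map_congr_left fun e he => e2 e (n3 e he).1]

theorem quL_of_loops {L0 : List (Fin n)} {g : Fin n → G} (h0 : L0.Nodup)
    (hg : Subgroup.closure (Set.range g) = ⊤)
    (hf : ∀ x, IsLoop Finset.univ L0 g x → QU (σ x)) : QuL σ (L0.map g) := by
  have : Group.FG G := Group.fg_iff.2 ⟨Set.range g, hg, Set.finite_range g⟩
  have key : ∀ l, Hur (L0.map g) l → QuF σ l := fun l hl => by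
    induction hl with
    | refl =>
      intro A B hl
      obtain ⟨L, h, hs, e⟩ := link_stL h0 hl
      obtain ⟨l, R, rfl, rfl, rfl⟩ := List.map_eq_append_iff.1 e.symm
      exact hf _ ⟨l, R, h, hs, fun a _ => Finset.mem_univ a, rfl⟩
    | left _ ih => exact fun C D h => ih C D ((HurL.left (HurL.refl _)).trans h)
    | right _ ih => exact ih.right
  exact fun A B h => key _ h A B (HurL.refl _)

end Pool.Agent.GR.NP
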