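import Pool.Agent.Lib.MP_aa40d3_nt.NP.OpA

/-! A nilpotent scalar equation has integral coefficients. -/

open Polynomial Matrix

namespace Pool.Agent.GR.NP

variable {r : ℕ}

section in1
variable {K : Type} [Field K] {n : ℕ}

/-- The weighted sup norm. -/
noncomputable def in1_N (v : AbsoluteValue K ℝ) (lam : ℝ) (b : Fin (n + 1) → K) : ℝ :=
  Finset.univ.sup' Finset.univ_nonempty fun i => v (b i) * lam ^ (i : ℕ)

theorem in1_le (v : AbsoluteValue K ℝ) (lam : ℝ) (b : Fin (n + 1) → K) (i : Fin (n + 1)) :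
    v (b i) * lam ^ (i : ℕ) ≤ in1_N v lam b :=
  Finset.le_sup' (fun i : Fin (n + 1) => v (b i) * lam ^ (i : ℕ)) (Finset.mem_univ i)

theorem in1_le_of {v : AbsoluteValue K ℝ} {lam c : ℝ} {b : Fin (n + 1) → K}
    (h : ∀ i, v (b i) * lam ^ (i : ℕ) ≤ c) : in1_N v lam b ≤ c :=
  Finset.sup'_le _ _ fun i _ => h i

theorem in1_nonneg (v : AbsoluteValue K ℝ) (lam : ℝ) (b : Fin (n + 1) → K) :
    0 ≤ in1_N v lam b := by
  refine le_trans ?_ (in1_le v lam b 0)
  simp

theorem in1_zero (v : AbsoluteValue K ℝ) (lam : ℝ) : in1_N v lam (0 : Fin (n + 1) → K) = 0 :=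
  le_antisymm (in1_le_of fun i => by simp) (in1_nonneg _ _ _)

theorem in1_add {v : AbsoluteValue K ℝ} (hv : IsNonarchimedean v) {lam : ℝ} (hl : 0 ≤ lam)
    (b b' : Fin (n + 1) → K) :
    in1_N v lam (b + b') ≤ max (in1_N v lam b) (in1_N v lam b') := by
  refine in1_le_of fun i => ?_
  have h0 : 0 ≤ lam ^ (i : ℕ) := pow_nonneg hl _
  have h1 := hv (b i) (b' i)
  rcases le_total (v (b i)) (v (b' i)) with h | h
  · rw [max_eq_right h] at h1
    exact le_max_of_le_right ((mul_le_mul_of_nonneg_right h1 h0).trans (in1_le v lam b' i))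
  · rw [max_eq_left h] at h1
    exact le_max_of_le_left ((mul_le_mul_of_nonneg_right h1 h0).trans (in1_le v lam b i))

theorem in1_neg (v : AbsoluteValue K ℝ) (lam : ℝ) (b : Fin (n + 1) → K) :
    in1_N v lam (-b) = in1_N v lam b := by
  simp [in1_N]

theorem in1_smul (v : AbsoluteValue K ℝ) (lam : ℝ) (f : K) (b : Fin (n + 1) → K) :
    in1_N v lam (f • b) ≤ v f * in1_N v lam b := by
  refine in1_le_of fun i => ?_
  rw [Pi.smul_apply, smul_eq_mul, map_mul, mul_assoc]
  exact mul_le_mul_of_nonneg_left (in1_le v lam b i) (v.nonneg f)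

theorem in1_sum_lt {v : AbsoluteValue K ℝ} (hv : IsNonarchimedean v) {lam : ℝ} (hl : 0 ≤ lam)
    {ι : Type} (s : Finset ι) (g : ι → Fin (n + 1) → K) {c : ℝ} (hc : 0 < c)
    (h : ∀ k ∈ s, in1_N v lam (g k) < c) : in1_N v lam (∑ k ∈ s, g k) < c := by
  classical
  induction s using Finset.induction_on with
  | empty => simpa [in1_zero] using hc
  | insert x s hx ih =>
    rw [Finset.sum_insert hx]
    refine (in1_add hv hl _ _).trans_lt (max_lt (h x (Finset.mem_insert_self _ _)) ?_)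
    exact ih fun k hk => h k (Finset.mem_insert_of_mem hk)

/-- A bound for an additive operator. -/
def in1_Op (v : AbsoluteValue K ℝ) (lam : ℝ) (T : AddMonoid.End (Fin (n + 1) → K)) (c : ℝ) :
    Prop := ∀ b, in1_N v lam (T b) ≤ c * in1_N v lam b

theorem in1_Op_mono {v : AbsoluteValue K ℝ} {lam : ℝ} {T : AddMonoid.End (Fin (n + 1) → K)}
    {c c' : ℝ} (h : in1_Op v lam T c) (hc : c ≤ c') : in1_Op v lam T c' := fun b =>
  (h b).trans (mul_le_mul_of_nonneg_right hc (in1_nonneg _ _ _))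

theorem in1_Op_add {v : AbsoluteValue K ℝ} (hv : IsNonarchimedean v) {lam : ℝ} (hl : 0 ≤ lam)
    {S T : AddMonoid.End (Fin (n + 1) → K)} {c : ℝ} (hS : in1_Op v lam S c)
    (hT : in1_Op v lam T c) : in1_Op v lam (S + T) c := fun b =>
  (in1_add hv hl (S b) (T b)).trans (max_le (hS b) (hT b))

theorem in1_Op_neg {v : AbsoluteValue K ℝ} {lam : ℝ} {T : AddMonoid.End (Fin (n + 1) → K)} {c : ℝ}
    (hT : in1_Op v lam T c) : in1_Op v lam (-T) c := fun b =>
  (in1_neg v lam (T b)).trans_le (hT b)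

theorem in1_Op_mul {v : AbsoluteValue K ℝ} {lam : ℝ} {S T : AddMonoid.End (Fin (n + 1) → K)}
    {c c' : ℝ} (hc : 0 ≤ c) (hS : in1_Op v lam S c) (hT : in1_Op v lam T c') :
    in1_Op v lam (S * T) (c * c') := fun b => by
  refine (hS (T b)).trans ?_
  rw [mul_assoc]
  exact mul_le_mul_of_nonneg_left (hT b) hc

theorem in1_Op_pow {v : AbsoluteValue K ℝ} {lam : ℝ} {T : AddMonoid.End (Fin (n + 1) → K)}
    {c : ℝ} (hc : 0 ≤ c) (hT : in1_Op v lam T c) (m : ℕ) : in1_Op v lam (T ^ m) (c ^ m) := by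
  induction m with
  | zero => intro b; simp
  | succ m ih =>
    rw [pow_succ', pow_succ']
    exact in1_Op_mul hc hT ih

theorem in1_Op_pow_sub {v : AbsoluteValue K ℝ} (hv : IsNonarchimedean v) {lam : ℝ} (hl : 0 ≤ lam)
    {S T : AddMonoid.End (Fin (n + 1) → K)} {c D : ℝ} (hc : 0 ≤ c) (hD : 0 ≤ D)
    (hS : in1_Op v lam S c) (hT : in1_Op v lam T c) (hST : in1_Op v lam (S - T) D) (m : ℕ) :
    in1_Op v lam (S ^ (m + 1) - T ^ (m + 1)) (D * c ^ m) := by
  induction m with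
  | zero => simpa using hST
  | succ m ih =>
    have e : S ^ (m + 1 + 1) - T ^ (m + 1 + 1) =
        S * (S ^ (m + 1) - T ^ (m + 1)) + (S - T) * T ^ (m + 1) := by
      rw [pow_succ' S (m + 1), pow_succ' T (m + 1), mul_sub, sub_mul]
      abel
    rw [e]
    refine in1_Op_add hv hl ?_ (in1_Op_mul hD hST (in1_Op_pow hc hT _))
    refine in1_Op_mono (in1_Op_mul hc hS ih) (le_of_eq ?_)
    ring

theorem in1_vecMul (a b : Fin (n + 1) → K) (j : Fin (n + 1)) :
    (b ᵥ* cmK a) j = (if h : 0 < (j : ℕ) then b ⟨j - 1, by omega⟩ else 0) +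
      b (Fin.last n) * -a j := by
  rw [Matrix.vecMul, dotProduct, Fin.sum_univ_castSucc]
  congr 1
  · have e : ∀ i : Fin n, b i.castSucc * cmK a i.castSucc j =
        if (j : ℕ) = (i : ℕ) + 1 then b i.castSucc else 0 := by
      intro i
      have hi : ¬ ((i : ℕ) + 1 = n + 1) := by omega
      simp only [cmK, Matrix.of_apply, Fin.val_castSucc, if_neg hi]
      split_ifs <;> simp
    rw [Finset.sum_congr rfl fun i _ => e i]
    split_ifs with h
    · rw [Finset.sum_eq_single (⟨j - 1, by omega⟩ : Fin n)]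
      · rw [if_pos (by simp; omega)]
        rfl
      · intro i _ hi
        rw [if_neg]
        intro hj
        exact hi (Fin.ext (by simp; omega))
      · simp
    · refine Finset.sum_eq_zero fun i _ => if_neg (by omega)
  · simp [cmK]

theorem in1_vecMul_le {v : AbsoluteValue K ℝ} (hv : IsNonarchimedean v) {lam : ℝ} (hl : 0 ≤ lam)
    {a : Fin (n + 1) → K} (ha : ∀ k, v (a k) ≤ lam ^ (n + 1 - (k : ℕ))) (b : Fin (n + 1) → K) :
    in1_N v lam (b ᵥ* cmK a) ≤ lam * in1_N v lam b := by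
  refine in1_le_of fun j => ?_
  have h0 : 0 ≤ lam ^ (j : ℕ) := pow_nonneg hl _
  rw [in1_vecMul]
  refine (mul_le_mul_of_nonneg_right (hv _ _) h0).trans ?_
  rw [max_mul_of_nonneg _ _ h0]
  refine max_le ?_ ?_
  · split_ifs with h
    · have h1 := in1_le v lam b ⟨j - 1, by omega⟩
      have e : lam ^ (j : ℕ) = lam * lam ^ ((j : ℕ) - 1) := by
        rw [← pow_succ']
        congr 1
        omega
      rw [e, mul_left_comm]
      exact mul_le_mul_of_nonneg_left h1 hl
    · simpa using mul_nonneg hl (in1_nonneg v lam b)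
  · have h1 := in1_le v lam b (Fin.last n)
    have e : lam ^ (n + 1 - (j : ℕ)) * lam ^ (j : ℕ) = lam * lam ^ n := by
      rw [← pow_add, ← pow_succ']
      congr 1
      omega
    rw [map_mul, v.map_neg, mul_assoc]
    calc v (b (Fin.last n)) * (v (a j) * lam ^ (j : ℕ))
        ≤ v (b (Fin.last n)) * (lam ^ (n + 1 - (j : ℕ)) * lam ^ (j : ℕ)) :=
          mul_le_mul_of_nonneg_left (mul_le_mul_of_nonneg_right (ha j) h0) (v.nonneg _)
      _ = lam * (v (b (Fin.last n)) * lam ^ n) := by rw [e]; ring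
      _ ≤ lam * in1_N v lam b := mul_le_mul_of_nonneg_left h1 hl

/-- The rows `e₀ M ^ m`. -/
def in1_u (a : Fin (n + 1) → K) (m : ℕ) : Fin (n + 1) → K := Pi.single 0 1 ᵥ* cmK a ^ m

theorem in1_u_add (a : Fin (n + 1) → K) (m j : ℕ) :
    in1_u a (m + j) = in1_u a m ᵥ* cmK a ^ j := by
  rw [in1_u, in1_u, Matrix.vecMul_vecMul, pow_add]

theorem in1_u_succ (a : Fin (n + 1) → K) (m : ℕ) : in1_u a (m + 1) = in1_u a m ᵥ* cmK a := by
  rw [in1_u_add, pow_one]

theorem in1_u_lt (a : Fin (n + 1) → K) (m : ℕ) (hm : m < n + 1) :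
    in1_u a m = Pi.single ⟨m, hm⟩ 1 := by
  induction m with
  | zero => simp [in1_u]
  | succ m ih =>
    rw [in1_u_succ, ih (by omega)]
    funext j
    have h1 : (Fin.last n) ≠ ⟨m, by omega⟩ := fun h => by
      have := congrArg Fin.val h
      simp at this
      omega
    rw [in1_vecMul, Pi.single_eq_of_ne h1, zero_mul, add_zero]
    by_cases hj : j = ⟨m + 1, hm⟩
    · subst hj
      simp
    · rw [Pi.single_eq_of_ne hj]
      split_ifs with h
      · refine Pi.single_eq_of_ne (fun h' => hj (Fin.ext ?_)) _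
        have := congrArg Fin.val h'
        simp at this ⊢
        omega
      · rfl

theorem in1_u_top (a : Fin (n + 1) → K) : in1_u a (n + 1) = -∑ k, a k • in1_u a k := by
  rw [in1_u_succ, in1_u_lt a n (by omega), Finset.sum_congr rfl fun k _ => by
    rw [in1_u_lt a k k.2]]
  funext j
  simp [cmK, Pi.single_apply, Finset.sum_apply]

theorem in1_u_rec (a : Fin (n + 1) → K) (j : ℕ) :
    in1_u a (n + 1 + j) = -∑ k, a k • in1_u a (k + j) := by
  rw [in1_u_add, in1_u_top, Matrix.neg_vecMul, Matrix.sum_vecMul]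
  congr 1
  refine Finset.sum_congr rfl fun k _ => ?_
  rw [Matrix.smul_vecMul, in1_u_add]

theorem in1_u_le {v : AbsoluteValue K ℝ} (hv : IsNonarchimedean v) {lam : ℝ} (hl : 0 ≤ lam)
    {a : Fin (n + 1) → K} (ha : ∀ k, v (a k) ≤ lam ^ (n + 1 - (k : ℕ))) (m j : ℕ) :
    in1_N v lam (in1_u a (m + j)) ≤ lam ^ j * in1_N v lam (in1_u a m) := by
  induction j with
  | zero => simp
  | succ j ih =>
    rw [← add_assoc, in1_u_succ, pow_succ', mul_assoc]
    exact (in1_vecMul_le hv hl ha _).trans (mul_le_mul_of_nonneg_left ih hl)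

theorem in1_u_zero (v : AbsoluteValue K ℝ) (lam : ℝ) (a : Fin (n + 1) → K) :
    in1_N v lam (in1_u a 0) ≤ 1 := by
  refine in1_le_of fun i => ?_
  rw [in1_u_lt a 0 (by omega)]
  by_cases h : i = ⟨0, by omega⟩
  · subst h
    simp
  · rw [Pi.single_eq_of_ne h]
    simp

theorem in1_u_ge {v : AbsoluteValue K ℝ} (hv : IsNonarchimedean v) {lam : ℝ} (hl : 0 < lam)
    {a : Fin (n + 1) → K} (ha : ∀ k, v (a k) ≤ lam ^ (n + 1 - (k : ℕ))) (k0 : Fin (n + 1))
    (h0 : v (a k0) = lam ^ (n + 1 - (k0 : ℕ)))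
    (hlt : ∀ k, k < k0 → v (a k) < lam ^ (n + 1 - (k : ℕ))) (j : ℕ) :
    lam ^ ((k0 : ℕ) + j) ≤ in1_N v lam (in1_u a (k0 + j)) := by
  induction j with
  | zero =>
    have := in1_le v lam (in1_u a k0) k0
    rw [in1_u_lt a k0 k0.2] at this
    rw [add_zero, in1_u_lt a k0 k0.2]
    simpa using this
  | succ j ih =>
    by_contra hc
    rw [not_le] at hc
    have hup : ∀ m, (k0 : ℕ) + (j + 1) ≤ m → in1_N v lam (in1_u a m) < lam ^ m := by
      intro m hm
      obtain ⟨t, rfl⟩ := Nat.exists_eq_add_of_le hm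
      refine (in1_u_le hv hl.le ha _ t).trans_lt ?_
      rw [pow_add lam _ t, mul_comm]
      exact mul_lt_mul_of_pos_right hc (pow_pos hl _)
    have hall : ∀ m, in1_N v lam (in1_u a m) ≤ lam ^ m := by
      intro m
      have := in1_u_le hv hl.le ha 0 m
      rw [zero_add] at this
      refine this.trans ?_
      simpa using mul_le_mul_of_nonneg_left (in1_u_zero v lam a) (pow_pos hl m).le
    have e : a k0 • in1_u a (k0 + j) =
        -(in1_u a (n + 1 + j) + ∑ k ∈ Finset.univ.erase k0, a k • in1_u a (k + j)) := by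
      rw [in1_u_rec, ← Finset.add_sum_erase _ _ (Finset.mem_univ k0)]
      abel
    have h1 : in1_N v lam (a k0 • in1_u a (k0 + j)) < lam ^ (n + 1 + j) := by
      rw [e, in1_neg]
      refine (in1_add hv hl.le _ _).trans_lt (max_lt (hup _ (by omega)) ?_)
      refine in1_sum_lt hv hl.le _ _ (pow_pos hl _) fun k hk => ?_
      have e2 : lam ^ (n + 1 + j) = lam ^ (n + 1 - (k : ℕ)) * lam ^ ((k : ℕ) + j) := by
        rw [← pow_add]
        congr 1
        omega
      refine (in1_smul v lam _ _).trans_lt ?_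
      rw [e2]
      rcases lt_or_gt_of_ne (Finset.ne_of_mem_erase hk) with h | h
      · exact (mul_le_mul_of_nonneg_left (hall _) (v.nonneg _)).trans_lt
          (mul_lt_mul_of_pos_right (hlt k h) (pow_pos hl _))
      · have hk' : (k0 : ℕ) < k := h
        exact (mul_le_mul_of_nonneg_right (ha k) (in1_nonneg _ _ _)).trans_lt
          (mul_lt_mul_of_pos_left (hup _ (by omega)) (pow_pos hl _))
    have hp : 0 < v (a k0) := h0 ▸ pow_pos hl _
    have hne : a k0 ≠ 0 := fun h => by simp [h] at hp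
    have h2 := in1_smul v lam (a k0)⁻¹ (a k0 • in1_u a (k0 + j))
    rw [inv_smul_smul₀ hne, map_inv₀, ← div_eq_inv_mul, le_div_iff₀ hp, h0] at h2
    have e3 : lam ^ (n + 1 + j) = lam ^ ((k0 : ℕ) + j) * lam ^ (n + 1 - (k0 : ℕ)) := by
      rw [← pow_add]
      congr 1
      omega
    have h3 := mul_le_mul_of_nonneg_right ih (pow_pos hl (n + 1 - (k0 : ℕ))).le
    rw [e3] at h1
    linarith

theorem in1_lam (v : AbsoluteValue K ℝ) (a : Fin (n + 1) → K) (k : Fin (n + 1))
    (hk : 1 < v (a k)) : ∃ (lam : ℝ) (k0 : Fin (n + 1)), 1 < lam ∧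
      (∀ k, v (a k) ≤ lam ^ (n + 1 - (k : ℕ))) ∧ v (a k0) = lam ^ (n + 1 - (k0 : ℕ)) ∧
      ∀ k, k < k0 → v (a k) < lam ^ (n + 1 - (k : ℕ)) := by
  classical
  let x : Fin (n + 1) → ℝ := fun k => v (a k) ^ (((n + 1 - (k : ℕ) : ℕ) : ℝ)⁻¹)
  have hx0 : ∀ k, 0 ≤ x k := fun k => Real.rpow_nonneg (v.nonneg _) _
  have hx : ∀ k, x k ^ (n + 1 - (k : ℕ)) = v (a k) := fun k =>
    Real.rpow_inv_natCast_pow (v.nonneg _) (by omega)
  obtain ⟨k1, -, hk1⟩ := Finset.exists_max_image Finset.univ x Finset.univ_nonempty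
  have hle : ∀ k, v (a k) ≤ x k1 ^ (n + 1 - (k : ℕ)) := fun k =>
    hx k ▸ pow_le_pow_left₀ (hx0 k) (hk1 k (Finset.mem_univ k)) _
  obtain ⟨k0, hk0, hmin⟩ := Finset.exists_min_image
    (Finset.univ.filter fun k : Fin (n + 1) => v (a k) = x k1 ^ (n + 1 - (k : ℕ))) id
    ⟨k1, by simp [hx]⟩
  refine ⟨x k1, k0, ?_, hle, (Finset.mem_filter.1 hk0).2, fun k hk => ?_⟩
  · by_contra hc
    rw [not_lt] at hc
    have := pow_le_one₀ (hx0 k1) hc (n := n + 1 - (k : ℕ))
    linarith [hle k]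
  · refine lt_of_le_of_ne (hle k) fun h => ?_
    exact absurd (hmin k (Finset.mem_filter.2 ⟨Finset.mem_univ _, h⟩)) (not_le.2 hk)

end in1

/-- Let `E` be the operator, `w m = (E ^ m) e₀`, so `w k = e_k` for `k < r` and
`w r + ∑ a k • w k = 0`. `w m` is an integer combination of the preceding `p r` vectors, so it is
bounded in every ultrametric norm. Suppose `lam = max (v (a k)) ^ (1 / (r - k)) > 1` and put
`‖b‖ = max (v (b i) * lam ^ i)`; `‖E b‖ ≤ lam ‖b‖`. `ε j = w (r + j) + ∑ a k • w (k + j)` has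
`ε (j + 1) = E (ε j) - ∑ ξ d (a k) • w (k + j)`, so `‖ε j‖ ≤ lam ^ (r + j - 1)`.
`c m = ‖w m‖ / lam ^ m ≤ 1` does not increase. Let `k0` be least with
`v (a k0) = lam ^ (r - k0)`; isolating this term gives `c (k0 + j) ≤ max (c (k0 + j + 1)) δ` with
`δ < 1`, and `c k0 = 1`, so `c m = 1` for all `m`. -/
theorem int_abs {K : Type} [Field K] (v : AbsoluteValue K ℝ) (hv : IsNonarchimedean v) {ξ : K}
    {d : K →+ K} (hd : ∀ a b, d (a * b) = a * d b + b * d a) (hθ : ∀ f, v (ξ * d f) ≤ v f)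
    {a : Fin r → K} {p : ℕ} (hp : 2 ≤ p)
    (h : (rowOp ξ d (cmK a) ^ p - rowOp ξ d (cmK a)) ^ r = 0) (k : Fin r) : v (a k) ≤ 1 := by
  obtain ⟨n, rfl⟩ : ∃ n, r = n + 1 := ⟨r - 1, by have := k.2; omega⟩
  obtain ⟨q, rfl⟩ : ∃ q, p = q + 1 := ⟨p - 1, by omega⟩
  by_contra hc
  obtain ⟨lam, k0, hl1, ha, h0, hlt⟩ := in1_lam v a k (not_le.1 hc)
  have hl : 0 < lam := by linarith
  set E := rowOp ξ d (cmK a) with hE
  let Mo : AddMonoid.End (Fin (n + 1) → K) := rowOp 0 d (cmK a)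
  have hMo : ∀ b, Mo b = b ᵥ* cmK a := fun b => by
    funext j
    simp [Mo, rowOp_apply]
  have hMp : ∀ (m : ℕ) b, (Mo ^ m) b = b ᵥ* cmK a ^ m := fun m => by
    induction m with
    | zero => intro b; simp
    | succ m ih =>
      intro b
      rw [pow_succ', pow_succ, ← Matrix.vecMul_vecMul, ← ih, ← hMo]
      rfl
  have oM : in1_Op v lam Mo lam := fun b => by
    rw [hMo]
    exact in1_vecMul_le hv hl.le ha b
  have oT : in1_Op v lam (E - Mo) 1 := fun b => by
    have e : (E - Mo) b = fun j => ξ * d (b j) := by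
      change E b - Mo b = _
      rw [hMo, hE, rowOp_apply, add_sub_cancel_right]
    rw [e, one_mul]
    exact in1_le_of fun i =>
      (mul_le_mul_of_nonneg_right (hθ _) (pow_pos hl _).le).trans (in1_le v lam b i)
  have oE : in1_Op v lam E lam := by
    have := in1_Op_add hv hl.le (in1_Op_mono oT hl1.le) oM
    rwa [sub_add_cancel] at this
  have hq : lam ≤ lam ^ q := by
    simpa using pow_le_pow_right₀ hl1.le (show 1 ≤ q by omega)
  have hq' : lam ^ q ≤ lam ^ (q + 1) := pow_le_pow_right₀ hl1.le (by omega)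
  have o1 : in1_Op v lam (E ^ (q + 1) - Mo ^ (q + 1)) (lam ^ q) := by
    simpa using in1_Op_pow_sub hv hl.le hl.le zero_le_one oE oM oT q
  have o2 : in1_Op v lam (E ^ (q + 1) - E) (lam ^ (q + 1)) := by
    rw [sub_eq_add_neg]
    exact in1_Op_add hv hl.le (in1_Op_pow hl.le oE _) (in1_Op_neg (in1_Op_mono oE (hq.trans hq')))
  have o3 : in1_Op v lam (E ^ (q + 1) - E - Mo ^ (q + 1)) (lam ^ q) := by
    have e : E ^ (q + 1) - E - Mo ^ (q + 1) = (E ^ (q + 1) - Mo ^ (q + 1)) + -E := by abel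
    rw [e]
    exact in1_Op_add hv hl.le o1 (in1_Op_neg (in1_Op_mono oE hq))
  have o4 := in1_Op_neg (in1_Op_pow_sub hv hl.le (pow_pos hl _).le (pow_pos hl _).le o2
    (in1_Op_pow hl.le oM _) o3 n)
  rw [h, zero_sub, neg_neg, ← pow_mul, ← pow_mul, ← pow_add] at o4
  have h1 := o4 (in1_u a 0)
  rw [hMp, ← in1_u_add, zero_add] at h1
  have h2 : in1_N v lam (in1_u a ((q + 1) * (n + 1))) ≤ lam ^ (q + (q + 1) * n) := by
    refine h1.trans ?_
    simpa using mul_le_mul_of_nonneg_left (in1_u_zero v lam a) (pow_pos hl _).le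
  obtain ⟨j, hj⟩ : ∃ j, (q + 1) * (n + 1) = (k0 : ℕ) + j :=
    Nat.exists_eq_add_of_le (by have := k0.2; nlinarith)
  have h3 := in1_u_ge hv hl ha k0 h0 hlt j
  rw [← hj] at h3
  have h4 : lam ^ (q + (q + 1) * n) < lam ^ ((q + 1) * (n + 1)) :=
    pow_lt_pow_right₀ hl1 (by nlinarith)
  linarith

theorem in2_val {A : Type} [CommRing A] [IsDomain A] [WfDvdMonoid A] {π : A} (hπ : Prime π) :
    ∃ w : Valuation A NNReal, (∀ (f : A) (j : ℕ), π ^ j ∣ f ↔ w f ≤ (1 / 2) ^ j) ∧
      ∀ f : A, f ≠ 0 → ∃ j : ℕ, w f = (1 / 2) ^ j := by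
  classical
  let u : A → NNReal := fun f => if f = 0 then 0 else (1 / 2) ^ multiplicity π f
  have u0 : u 0 = 0 := if_pos rfl
  have u1 : ∀ f, f ≠ 0 → u f = (1 / 2) ^ multiplicity π f := fun f hf => if_neg hf
  have fin : ∀ f, f ≠ 0 → FiniteMultiplicity π f := fun f hf =>
    FiniteMultiplicity.of_prime_left hπ hf
  have h1 : ∀ (f : A) (j : ℕ), π ^ j ∣ f ↔ u f ≤ (1 / 2) ^ j := by
    intro f j
    by_cases hf : f = 0
    · simp [hf, u0]
    · rw [u1 f hf, (fin f hf).pow_dvd_iff_le_multiplicity,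
        pow_le_pow_iff_right_of_lt_one₀ (by norm_num) (by norm_num)]
  refine ⟨⟨⟨⟨u, u0⟩, ?_, fun f g => ?_⟩, fun f g => ?_⟩, h1, fun f hf => ⟨_, u1 f hf⟩⟩
  · show u 1 = 1
    rw [u1 1 one_ne_zero, multiplicity_eq_zero.2 hπ.not_dvd_one, pow_zero]
  · show u (f * g) = u f * u g
    by_cases hf : f = 0
    · rw [hf, zero_mul, u0, zero_mul]
    by_cases hg : g = 0
    · rw [hg, mul_zero, u0, mul_zero]
    rw [u1 _ (mul_ne_zero hf hg), u1 f hf, u1 g hg,
      multiplicity_mul hπ (fin _ (mul_ne_zero hf hg)), pow_add]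
  · show u (f + g) ≤ max (u f) (u g)
    by_cases hf : f = 0
    · rw [hf, zero_add]
      exact le_max_right _ _
    by_cases hg : g = 0
    · rw [hg, add_zero]
      exact le_max_left _ _
    rcases le_total (u f) (u g) with k | k
    · refine le_max_of_le_right ?_
      rw [u1 g hg] at k ⊢
      exact (h1 _ _).1 (dvd_add ((h1 _ _).2 k) (pow_multiplicity_dvd π g))
    · refine le_max_of_le_left ?_
      rw [u1 f hf] at k ⊢
      exact (h1 _ _).1 (dvd_add (pow_multiplicity_dvd π f) ((h1 _ _).2 k))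

/-- The Gauss absolute value: `C X` is a prime element of the noetherian domain `κ⟦X⟧[X]`. -/
theorem exists_gauss (κ K : Type) [Field κ] [Field K] [Algebra (PowerSeries κ)[X] K]
    [IsFractionRing (PowerSeries κ)[X] K] : ∃ v : AbsoluteValue K ℝ, IsNonarchimedean v ∧
      (∀ (f : (PowerSeries κ)[X]) (j : ℕ), C (PowerSeries.X ^ j) ∣ f ↔
        v (algebraMap _ K f) ≤ (1 / 2) ^ j) ∧
      ∀ f : (PowerSeries κ)[X], f ≠ 0 → ∃ j : ℕ, v (algebraMap _ K f) = (1 / 2) ^ j := by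
  obtain ⟨w, h1, h2⟩ := in2_val (A := (PowerSeries κ)[X])
    (Polynomial.prime_C_iff.2 (PowerSeries.X_prime (R := κ)))
  have hS : nonZeroDivisors (PowerSeries κ)[X] ≤ w.supp.primeCompl := by
    intro f hf k
    obtain ⟨j, hj⟩ := h2 f (nonZeroDivisors.ne_zero hf)
    have k0 : w f = 0 := k
    rw [k0] at hj
    exact (pow_ne_zero j (by norm_num)) hj.symm
  let V := w.extendToLocalization hS K
  have hV : ∀ f, V (algebraMap _ K f) = w f := fun f =>
    Valuation.extendToLocalization_apply_map_apply w hS K f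
  let v : AbsoluteValue K ℝ :=
    { toFun := fun z => (V z : ℝ)
      map_mul' := fun x y => by rw [map_mul, NNReal.coe_mul]
      nonneg' := fun x => (V x).2
      eq_zero' := fun x => by rw [NNReal.coe_eq_zero, map_eq_zero]
      add_le' := fun x y => by
        have := V.map_add x y
        rw [← NNReal.coe_add, NNReal.coe_le_coe]
        exact this.trans (max_le le_self_add le_add_self) }
  have hv : ∀ z, v z = (V z : ℝ) := fun _ => rfl
  refine ⟨v, fun x y => ?_, fun f j => ?_, fun f hf => ?_⟩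
  · rw [hv, hv, hv, ← NNReal.coe_max, NNReal.coe_le_coe]
    exact V.map_add x y
  · rw [map_pow, h1, hv, hV, ← NNReal.coe_le_coe]
    simp
  · obtain ⟨j, hj⟩ := h2 f hf
    exact ⟨j, by rw [hv, hV, hj]; simp⟩

/-- The quotient rule and the bound on polynomials. -/
theorem gauss_der {κ K : Type} [Field κ] [Field K] [Algebra (PowerSeries κ)[X] K]
    [IsFractionRing (PowerSeries κ)[X] K] {d : K →+ K} (hd : Der (PowerSeries κ) K d)
    {v : AbsoluteValue K ℝ} (hv : IsNonarchimedean v)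
    (h1 : ∀ (f : (PowerSeries κ)[X]) (j : ℕ), C (PowerSeries.X ^ j) ∣ f ↔
      v (algebraMap _ K f) ≤ (1 / 2) ^ j)
    (h2 : ∀ f : (PowerSeries κ)[X], f ≠ 0 → ∃ j : ℕ, v (algebraMap _ K f) = (1 / 2) ^ j) (f : K) :
    v (algebraMap (PowerSeries κ)[X] K X * d f) ≤ v f := by
  have a1 : ∀ g : (PowerSeries κ)[X], v (algebraMap _ K g) ≤ 1 := fun g => by
    simpa using (h1 g 0).1 (by simp)
  have a2 : ∀ g : (PowerSeries κ)[X], v (d (algebraMap _ K g)) ≤ v (algebraMap _ K g) := by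
    intro g
    rw [hd.ext]
    by_cases hg : g = 0
    · simp [hg]
    obtain ⟨j, hj⟩ := h2 g hg
    obtain ⟨c, hc⟩ := (h1 g j).2 hj.le
    rw [hj]
    exact (h1 _ j).1 ⟨derivative c, by rw [hc, derivative_C_mul]⟩
  obtain ⟨a, b, hb, e⟩ := IsFractionRing.div_surjective (A := (PowerSeries κ)[X]) f
  have b0 : algebraMap (PowerSeries κ)[X] K b ≠ 0 :=
    (map_ne_zero_iff _ (IsFractionRing.injective _ K)).2 (nonZeroDivisors.ne_zero hb)
  have e1 : algebraMap (PowerSeries κ)[X] K a = f * algebraMap _ K b := by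
    rw [← e, div_mul_cancel₀ _ b0]
  have e2 : algebraMap (PowerSeries κ)[X] K b * d f =
      d (algebraMap _ K a) + -(f * d (algebraMap _ K b)) := by
    rw [e1, hd.mul]
    ring
  have k : v (algebraMap (PowerSeries κ)[X] K b) * v (d f) ≤
      v (algebraMap (PowerSeries κ)[X] K b) * v f := by
    rw [← map_mul, e2]
    refine (hv _ _).trans (max_le ?_ ?_)
    · refine (a2 a).trans ?_
      rw [e1, map_mul, mul_comm]
    · rw [v.map_neg, map_mul, mul_comm]
      exact mul_le_mul_of_nonneg_right (a2 b) (v.nonneg f)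
  rw [map_mul]
  exact (mul_le_of_le_one_left (v.nonneg _) (a1 X)).trans (le_of_mul_le_mul_left k (v.pos b0))

/-- `euler_nil`, `exists_gauss`, `gauss_der`, `int_abs` with `a k = Nn k / H`. -/
theorem int_dvd {κ : Type} [Field κ] (p : ℕ) [Fact p.Prime] [CharP κ p] {H : (PowerSeries κ)[X]}
    {Nn : Fin r → (PowerSeries κ)[X]} (hH : H ≠ 0) (h : ScN p H Nn) (v : ℕ)
    (hv : C (PowerSeries.X ^ v) ∣ H) (k : Fin r) : C (PowerSeries.X ^ v) ∣ Nn k := by
  let K := FractionRing (PowerSeries κ)[X]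
  have : CharP (PowerSeries κ) p :=
    charP_of_injective_algebraMap (algebraMap κ (PowerSeries κ)).injective p
  obtain ⟨d, hd⟩ := exists_der (R := PowerSeries κ) (K := K)
  obtain ⟨w, hw, h1, h2⟩ := exists_gauss κ K
  have H0 : algebraMap (PowerSeries κ)[X] K H ≠ 0 :=
    (map_ne_zero_iff _ (IsFractionRing.injective _ K)).2 hH
  have e := euler_nil hd p hH h
  have c : (algebraMap (PowerSeries κ)[X] K H)⁻¹ • (cmp H Nn).map (algebraMap _ K) =
      cmK fun j => algebraMap (PowerSeries κ)[X] K (Nn j) / algebraMap _ K H := by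
    ext i j
    simp only [cmp, cmK, Matrix.smul_apply, Matrix.map_apply, Matrix.of_apply, smul_eq_mul]
    split_ifs
    · rw [map_neg, mul_neg, div_eq_inv_mul]
    · exact inv_mul_cancel₀ H0
    · rw [map_zero, mul_zero]
  rw [c] at e
  have b := int_abs w hw hd.mul (gauss_der hd hw h1 h2) (Fact.out : p.Prime).two_le e k
  rw [map_div₀, div_le_one (w.pos H0)] at b
  exact (h1 _ v).2 (b.trans ((h1 H v).1 hv))

end Pool.Agent.GR.NP
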