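import Pool.Agent.Lib.MP_aa40d3_nt.NP.Qu
import Pool.Agent.Lib.MP_aa40d3_nt.GR.Loop

/-! Estimates with a moving base point. -/

open Polynomial Matrix Set Filter Topology Asymptotics
open scoped Matrix.Norms.Operator

namespace Pool.Agent.GR.NP

variable {r : ℕ}

/-- A holomorphic map between Banach spaces is Lipschitz near each point: it is bounded on a ball,
apply the lemma of Schwarz (`Complex.dist_le_div_mul_dist_of_mapsTo_ball`) on complex lines. -/
theorem isBigO_sub_of_diff {E F : Type} [NormedAddCommGroup E] [NormedSpace ℂ E]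
    [NormedAddCommGroup F] [NormedSpace ℂ F] {f : E → F} (hf : Differentiable ℂ f) {ι : Type}
    {l : Filter ι} {a b : ι → E} {c : E} (ha : Tendsto a l (𝓝 c)) (hb : Tendsto b l (𝓝 c)) :
    (fun z => f (a z) - f (b z)) =O[l] fun z => a z - b z := by
  obtain ⟨δ, hδ, h1⟩ := Metric.continuousAt_iff.1 (hf c).continuousAt 1 one_pos
  refine IsBigO.of_bound (2 / (δ / 2)) ?_
  filter_upwards [ha.eventually (Metric.ball_mem_nhds c (by positivity : 0 < δ / 4)),
    hb.eventually (Metric.ball_mem_nhds c (by positivity : 0 < δ / 4))] with z h2 h3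
  rw [← dist_eq_norm, ← dist_eq_norm]
  have h4 : dist (a z) c < δ / 4 := h2
  have h5 : dist (b z) c < δ / 4 := h3
  refine Complex.dist_le_div_mul_dist_of_mapsTo_ball hf.differentiableOn (fun x hx => ?_) ?_
  · have h6 : dist x (b z) < δ / 2 := hx
    have h7 := h1 (x := x) (by linarith [dist_triangle x (b z) c])
    have h8 := h1 (x := b z) (by linarith)
    rw [Metric.mem_closedBall]
    linarith [dist_triangle_right (f x) (f (b z)) (f c)]
  · rw [Metric.mem_ball]
    linarith [dist_triangle_right (a z) (b z) c]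

theorem la1_sum (x : Mat r) : HasSum (fun k : ℕ => ((k.factorial : ℂ))⁻¹ * (x ^ k).trace)
    (NormedSpace.exp x).trace := by
  have h := (LinearMap.toContinuousLinearMap (Matrix.traceLinearMap (Fin r) ℂ ℂ)).hasSum
    (NormedSpace.exp_series_hasSum_exp' (𝕂 := ℂ) x)
  simp only [map_smul, smul_eq_mul] at h
  exact h

theorem la1_poly {p : ℂ[X]} {K : ℕ} {M : ℝ} (h : ∀ i, 0 < i → i < K → p.coeff i = 0)
    (hM : ∀ w ∈ Metric.ball (0 : ℂ) 1, ‖p.eval w - p.eval 0‖ ≤ M) {z : ℂ}
    (hz : z ∈ Metric.ball (0 : ℂ) 1) : ‖p.eval z - p.eval 0‖ ≤ M * ‖z‖ ^ K := by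
  cases K with
  | zero => simpa using hM z hz
  | succ K =>
    obtain ⟨q, hq⟩ : X ^ (K + 1) ∣ p - C (p.eval 0) := X_pow_dvd_iff.2 fun i hi => by
      rcases i.eq_zero_or_pos with rfl | h0
      · simp [coeff_zero_eq_eval_zero]
      · rw [coeff_sub, h i h0 hi, coeff_C_of_ne_zero h0.ne', sub_zero]
    have h1 : ∀ w : ℂ, p.eval w - p.eval 0 = w * q.eval w * w ^ K := fun w => by
      have := congrArg (eval w) hq
      simp only [eval_sub, eval_C, eval_mul, eval_pow, eval_X] at this
      rw [this]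
      ring
    have h2 := Complex.dist_le_mul_div_pow_of_mapsTo_ball_of_isLittleO (f := fun w => p.eval w)
      (c := 0) (n := K) (R₂ := M) p.differentiable.differentiableOn
      (fun w hw => by rw [Metric.mem_closedBall, dist_eq_norm]; exact hM w hw) ?_ hz
    · simpa [dist_eq_norm] using h2
    · have h3 : (fun w : ℂ => w * q.eval w) =o[𝓝 0] fun _ => (1 : ℝ) := by
        rw [isLittleO_one_iff]
        exact (continuous_id.mul q.continuous).tendsto' (0 : ℂ) 0 (zero_mul _)
      have h4 := h3.mul_isBigO (isBigO_refl (fun w : ℂ => w ^ K) (𝓝 0)).norm_right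
      simpa only [h1, sub_zero, one_mul, norm_pow] using h4

/-- The trace of the exponential is `∑ c ^ k / k! * trace (B ^ k)`. Either bound the tails
`trace (B (z) ^ k) - trace (B (0) ^ k) = z ^ K h_k (z)` by the maximum principle, or note that the
function is entire and its Taylor coefficients of degree `0 < i < K` vanish (Cauchy integrals,
uniform convergence on the unit circle). -/
theorem trace_exp_asy {B : Matrix (Fin r) (Fin r) ℂ[X]} {K : ℕ}
    (h : ∀ k i : ℕ, 0 < i → i < K → (B ^ k).trace.coeff i = 0) (c : ℂ) :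
    (fun z : ℂ => (NormedSpace.exp (c • B.map (eval z) : Mat r)).trace -
      (NormedSpace.exp (c • B.map (eval 0) : Mat r)).trace) =O[𝓝 0] fun z : ℂ => z ^ K := by
  have hc : Continuous fun z : ℂ => (c • B.map (eval z) : Mat r) :=
    Continuous.const_smul (continuous_matrix fun i j => (B i j).continuous) c
  obtain ⟨M, hM⟩ := (isCompact_closedBall (0 : ℂ) 1).exists_bound_of_continuousOn hc.continuousOn
  have hM0 : 0 ≤ M := (norm_nonneg _).trans (hM 0 (by simp))
  obtain ⟨T, hT0, hT1⟩ : ∃ T : ℝ, 0 < T ∧ ∀ x : Mat r, ‖x.trace‖ ≤ T * ‖x‖ :=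
    SemilinearMapClass.bound_of_continuous (Matrix.traceLinearMap (Fin r) ℂ ℂ)
      continuous_id.matrix_trace
  have hT : ∀ (k : ℕ) (z : ℂ), z ∈ Metric.ball (0 : ℂ) 1 →
      ‖((c • B.map (eval z) : Mat r) ^ (k + 1)).trace‖ ≤ T * M ^ (k + 1) := fun k z hz =>
    (hT1 _).trans (mul_le_mul_of_nonneg_left ((norm_pow_le' _ k.succ_pos).trans
      (pow_le_pow_left₀ (norm_nonneg _) (hM z (Metric.ball_subset_closedBall hz)) _))
      hT0.le)
  have he : ∀ (k : ℕ) (z : ℂ), ((c • B.map (eval z) : Mat r) ^ k).trace =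
      (C (c ^ k) * (B ^ k).trace).eval z := fun k z => by
    have h1 : (B.map (eval z) : Mat r) ^ k = (B ^ k).map (eval z) :=
      (map_pow (evalRingHom z).mapMatrix B k).symm
    rw [_root_.smul_pow, trace_smul, h1, eval_mul, eval_C, smul_eq_mul]
    exact congrArg _ (AddMonoidHom.map_trace (evalRingHom z) (B ^ k)).symm
  have hb : ∀ (k : ℕ) (z : ℂ), z ∈ Metric.ball (0 : ℂ) 1 →
      ‖((c • B.map (eval z) : Mat r) ^ k).trace - ((c • B.map (eval 0) : Mat r) ^ k).trace‖ ≤
        2 * T * M ^ k * ‖z‖ ^ K := fun k z hz => by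
    rw [he, he]
    refine la1_poly (fun i h1 h2 => by rw [coeff_C_mul, h k i h1 h2, mul_zero]) (fun w hw => ?_) hz
    rw [← he, ← he]
    cases k with
    | zero =>
      rw [pow_zero, pow_zero, sub_self, norm_zero]
      positivity
    | succ k =>
      refine (norm_sub_le _ _).trans ?_
      linarith [hT k w hw, hT k 0 (by simp)]
  refine IsBigO.of_bound (2 * T * NormedSpace.exp M) ?_
  filter_upwards [(Metric.ball_mem_nhds 0 one_pos : Metric.ball (0 : ℂ) 1 ∈ 𝓝 0)] with z hz
  have h1 := (la1_sum (c • B.map (eval z) : Mat r)).sub (la1_sum (c • B.map (eval 0) : Mat r))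
  have h2 := ((NormedSpace.expSeries_div_hasSum_exp M).mul_left (2 * T)).mul_right (‖z‖ ^ K)
  rw [norm_pow]
  refine h1.norm_le_of_bounded h2 fun k => ?_
  rw [← mul_sub, norm_mul, norm_inv, Complex.norm_natCast]
  refine (mul_le_mul_of_nonneg_left (hb k z hz) (by positivity)).trans_eq ?_
  ring

/-- `exists_eig`: the trace is `∑ exp (2 π i E k v i)`. -/
theorem trace_exp_int {B : Mat r} {E : ℕ} (h : ∀ μ ∈ spectrum ℂ B, ∃ z : ℤ, (E : ℂ) * μ = z)
    (k : ℕ) :
    (NormedSpace.exp (((E * k : ℕ) * (2 * Real.pi * Complex.I) : ℂ) • B)).trace = r := by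
  obtain ⟨v, h1, -, h2⟩ := exists_eig B
  generalize hs : ((E * k : ℕ) * (2 * Real.pi * Complex.I) : ℂ) = s
  have h3 := hasSum_sum (s := Finset.univ) fun i _ =>
    NormedSpace.expSeries_div_hasSum_exp (s * v i)
  have h4 := la1_sum (s • B)
  simp only [_root_.smul_pow, trace_smul, h1, smul_eq_mul, Finset.mul_sum, ← mul_pow,
    ← div_eq_inv_mul] at h4
  rw [h4.unique h3, Finset.sum_congr rfl (g := fun _ => 1) fun i _ => ?_]
  · simp
  · obtain ⟨z, hz⟩ := h _ (h2 i)
    rw [← Complex.exp_eq_exp_ℂ, ← hs, ← Complex.exp_int_mul_two_pi_mul_I (k * z)]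
    congr 1
    push_cast
    rw [← hz]
    ring

end Pool.Agent.GR.NP
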