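import Pool.Agent.Lib.MP_aa40d3_nt.NP.Defs

/-! The connection as an operator on rows over the field of fractions. -/

open Polynomial Matrix

namespace Pool.Agent.GR.NP

variable {N : ℕ} {R K : Type} [CommRing R] [IsDomain R] [Field K] [Algebra R[X] K]
  [IsFractionRing R[X] K] {d : K →+ K}

/-- Lift `f ↦ (f, f')` to `K →+* TrivSqZeroExt K K` (`IsLocalization.lift`). -/
theorem exists_der : ∃ d : K →+ K, Der R K d := by
  let φ : R[X] →+* TrivSqZeroExt K K :=
    { toFun f := ⟨algebraMap R[X] K f, algebraMap R[X] K (derivative f)⟩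
      map_one' := TrivSqZeroExt.ext (map_one _) (by simp)
      map_mul' f g := TrivSqZeroExt.ext (map_mul _ f g) (by
        change algebraMap R[X] K _ = algebraMap R[X] K f * algebraMap R[X] K (derivative g) +
          algebraMap R[X] K (derivative f) * algebraMap R[X] K g
        rw [derivative_mul, map_add, map_mul, map_mul, add_comm])
      map_zero' := TrivSqZeroExt.ext (map_zero _) (by simp)
      map_add' f g := TrivSqZeroExt.ext (map_add _ f g)
        ((congrArg _ derivative_add).trans (map_add (algebraMap R[X] K) _ _)) }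
  have hu : ∀ y : nonZeroDivisors R[X], IsUnit (φ y) := fun y =>
    TrivSqZeroExt.isUnit_iff_isUnit_fst.2 (IsLocalization.map_units K y)
  let ψ : K →+* TrivSqZeroExt K K := IsLocalization.lift hu
  have h1 : ∀ a, (ψ a).fst = a := fun a => RingHom.congr_fun
    (IsLocalization.ringHom_ext (nonZeroDivisors R[X])
      (j := (TrivSqZeroExt.fstHom K K K).toRingHom.comp ψ) (k := RingHom.id K)
      (RingHom.ext fun f => congrArg TrivSqZeroExt.fst (IsLocalization.lift_eq hu f))) a
  refine ⟨(TrivSqZeroExt.sndHom K K).toAddMonoidHom.comp ψ.toAddMonoidHom, fun a b => ?_,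
    fun f => congrArg TrivSqZeroExt.snd (IsLocalization.lift_eq hu f)⟩
  change (ψ (a * b)).snd = a * (ψ b).snd + b * (ψ a).snd
  rw [map_mul, TrivSqZeroExt.snd_mul, h1, h1, smul_eq_mul, op_smul_eq_mul, mul_comm b]

/-- Induction on `k`. -/
theorem rowOp_iter (hd : Der R K d) {D : R[X]} (hD : D ≠ 0) (B : Matrix (Fin N) (Fin N) R[X])
    (k : ℕ) (i : Fin N) :
    (rowOp 1 d ((algebraMap R[X] K D)⁻¹ • B.map (algebraMap R[X] K)) ^ k) (Pi.single i 1) =
      (algebraMap R[X] K D ^ k)⁻¹ • (iterB D B k).map (algebraMap R[X] K) i := by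
  have h0 : algebraMap R[X] K D ≠ 0 := (map_ne_zero_iff _ (IsFractionRing.injective _ _)).2 hD
  induction k with
  | zero =>
    funext a
    simp [iterB, Matrix.one_apply, Pi.single_apply, eq_comm]
  | succ k ih =>
    have h1 : d (algebraMap R[X] K D ^ k)⁻¹ =
        -(k * algebraMap R[X] K (derivative D)) * (algebraMap R[X] K D ^ (k + 1))⁻¹ := by
      have h2 := hd.mul (algebraMap R[X] K D ^ k)⁻¹ (algebraMap R[X] K (D ^ k))
      have h3 := congrArg (algebraMap R[X] K) (cart_D_pow D k)
      rw [hd.ext, map_pow, inv_mul_cancel₀ (pow_ne_zero k h0), ← map_one (algebraMap R[X] K),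
        hd.ext, derivative_one, map_zero] at h2
      simp only [map_mul, map_pow, map_natCast] at h3
      generalize algebraMap R[X] K (derivative (D ^ k)) = y at h2 h3
      generalize d (algebraMap R[X] K D ^ k)⁻¹ = z at h2
      field_simp at h2 ⊢
      refine mul_left_cancel₀ (pow_ne_zero k h0) ?_
      linear_combination -algebraMap R[X] K D * h2 - h3
    rw [pow_succ', AddMonoid.End.coe_mul, Function.comp_apply, ih, rowOp_apply, iterB]
    funext a
    simp only [Pi.add_apply, Pi.smul_apply, smul_eq_mul, one_mul, hd.mul, h1, Matrix.map_apply,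
      hd.ext, Matrix.add_apply, Matrix.sub_apply, Matrix.smul_apply, Matrix.mul_apply, map_add,
      map_sub, map_mul, map_sum, map_natCast, vecMul, dotProduct, mul_add, Finset.mul_sum]
    congr 1
    · field_simp
      ring
    · refine Finset.sum_congr rfl fun b _ => ?_
      rw [pow_succ, mul_inv]
      ring

theorem oa2_const (hd : Der R K d) {c : K} (hc : d c = 0) (k : ℕ) (a : K) :
    d^[k] (c * a) = c * d^[k] a := by
  induction k with
  | zero => rfl
  | succ k ih => rw [Function.iterate_succ_apply', Function.iterate_succ_apply', ih, hd.mul, hc,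
      mul_zero, add_zero]

theorem oa2_poly (hd : Der R K d) (k : ℕ) (f : R[X]) :
    d^[k] (algebraMap R[X] K f) = algebraMap R[X] K (derivative^[k] f) := by
  induction k with
  | zero => rfl
  | succ k ih => rw [Function.iterate_succ_apply', Function.iterate_succ_apply', ih, hd.ext]

theorem oa2_pow (hd : Der R K d) (p : ℕ) [Fact p.Prime] [CharP R p] (b : R[X]) :
    d (algebraMap R[X] K b ^ p) = 0 := by
  rw [← map_pow, hd.ext, derivative_pow, CharP.cast_eq_zero, map_zero, zero_mul, zero_mul, map_zero]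

theorem oa2_nil (hd : Der R K d) (p : ℕ) [hp : Fact p.Prime] [CharP R p] (f : K) :
    d^[p] f = 0 := by
  obtain ⟨a, b, hb, rfl⟩ := IsFractionRing.div_surjective (A := R[X]) f
  have h0 : algebraMap R[X] K b ≠ 0 := IsFractionRing.to_map_ne_zero_of_mem_nonZeroDivisors hb
  have h1 : d (algebraMap R[X] K b ^ p)⁻¹ = 0 := by
    have h2 := hd.mul (algebraMap R[X] K b ^ p)⁻¹ (algebraMap R[X] K b ^ p)
    have h3 := hd.ext 1
    rw [map_one, derivative_one, map_zero] at h3
    rw [inv_mul_cancel₀ (pow_ne_zero _ h0), h3, oa2_pow hd, mul_zero, zero_add] at h2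
    exact (mul_eq_zero.1 h2.symm).resolve_left (pow_ne_zero _ h0)
  have h2 : algebraMap R[X] K a / algebraMap R[X] K b =
      (algebraMap R[X] K b ^ p)⁻¹ * algebraMap R[X] K (a * b ^ (p - 1)) := by
    obtain ⟨q, rfl⟩ := Nat.exists_eq_add_one_of_ne_zero hp.out.ne_zero
    rw [map_mul, map_pow, Nat.add_sub_cancel, pow_succ]
    field_simp
  have h3 : derivative^[p] (a * b ^ (p - 1)) = 0 := Polynomial.ext fun m => by
    rw [coeff_iterate_derivative, coeff_zero, nsmul_eq_mul, (CharP.cast_eq_zero_iff R p _).2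
      ((Nat.dvd_factorial hp.out.pos le_rfl).trans (Nat.factorial_dvd_descFactorial _ _)), zero_mul]
  rw [h2, oa2_const hd h1, oa2_poly hd, h3, map_zero, mul_zero]

/-- Multiplication by an element of the field. -/
abbrev oa2_m (N : ℕ) (K : Type) [Field K] : K →+* AddMonoid.End (Fin N → K) :=
  Module.toAddMonoidEnd K (Fin N → K)

theorem oa2_comm (hd : Der R K d) (M : Matrix (Fin N) (Fin N) K) (f : K) :
    rowOp 1 d M * oa2_m N K f = oa2_m N K f * rowOp 1 d M + oa2_m N K (d f) :=
  AddMonoidHom.ext fun l => funext fun a => by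
    change rowOp 1 d M (f • l) a = (f • rowOp 1 d M l + d f • l) a
    simp only [rowOp_apply, smul_vecMul, Pi.add_apply, Pi.smul_apply, smul_eq_mul, hd.mul]
    ring

theorem oa2_char (K : Type) [Field K] [Algebra R[X] K] (p : ℕ) [CharP R p] :
    (p : AddMonoid.End (Fin N → K)) = 0 := by
  rw [← map_natCast (oa2_m N K), ← map_natCast (algebraMap R[X] K), ← map_natCast (C : R →+* R[X]),
    CharP.cast_eq_zero, map_zero, map_zero, map_zero]

theorem oa2_ad {A : Type} [Ring A] {p : ℕ} (hp : p.Prime) (h0 : (p : A) = 0) (D y : A)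
    (h : (fun z => D * z - z * D)^[p] y = 0) : Commute (D ^ p) y := by
  have h1 : Commute (LinearMap.mulLeft ℤ D - LinearMap.mulRight ℤ D) (LinearMap.mulRight ℤ D) :=
    (LinearMap.commute_mulLeft_right D D).sub_left (Commute.refl _)
  obtain ⟨r, hr⟩ := h1.exists_add_pow_prime_eq hp
  have h2 := LinearMap.congr_fun hr y
  rw [sub_add_cancel, LinearMap.pow_mulLeft, LinearMap.pow_mulRight, mul_assoc, mul_assoc,
    LinearMap.add_apply, LinearMap.add_apply, Module.End.mul_apply, Module.End.natCast_apply,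
    nsmul_eq_mul, h0, zero_mul, add_zero, Module.End.pow_apply] at h2
  exact h2.trans ((congrArg (· + _) h).trans (zero_add _))

theorem oa2_commute (hd : Der R K d) (p : ℕ) [hp : Fact p.Prime] [CharP R p]
    (M : Matrix (Fin N) (Fin N) K) (f : K) : Commute (rowOp 1 d M ^ p) (oa2_m N K f) := by
  have h : ∀ k, (fun z => rowOp 1 d M * z - z * rowOp 1 d M)^[k] (oa2_m N K f) =
      oa2_m N K (d^[k] f) := fun k => by
    induction k with
    | zero => rfl
    | succ k ih => rw [Function.iterate_succ_apply', Function.iterate_succ_apply', ih,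
        oa2_comm hd, add_sub_cancel_left]
  exact oa2_ad hp.out (oa2_char (R := R) K p) _ _ (by rw [h, oa2_nil hd, map_zero])

/-- `d ^ p = 0` on `K` (write `a / b = a b ^ (p - 1) / b ^ p`), so the `p`-th power of the operator
commutes with multiplication by `f : K` (`sub_pow_char_of_commute` for left and right
multiplication in the ring of endomorphisms, or the binomial formula). -/
theorem rowOp_pow_smul (hd : Der R K d) (p : ℕ) [Fact p.Prime] [CharP R p]
    (M : Matrix (Fin N) (Fin N) K) (k : ℕ) (f : K) (l : Fin N → K) :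
    (rowOp 1 d M ^ (p * k)) (f • l) = f • (rowOp 1 d M ^ (p * k)) l := by
  rw [pow_mul]
  exact DFunLike.congr_fun ((oa2_commute hd p M f).pow_left k).eq l

theorem nilB_iff (hd : Der R K d) (p : ℕ) [Fact p.Prime] [CharP R p] {D : R[X]} (hD : D ≠ 0)
    (B : Matrix (Fin N) (Fin N) R[X]) : NilB p D B ↔
      rowOp 1 d ((algebraMap R[X] K D)⁻¹ • B.map (algebraMap R[X] K)) ^ (p * N) = 0 := by
  have hi := IsFractionRing.injective R[X] K
  have h0 : algebraMap R[X] K D ≠ 0 := (map_ne_zero_iff _ hi).2 hD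
  refine ⟨fun h => AddMonoidHom.ext fun l => ?_, fun h => ?_⟩
  · refine (congrArg _ (pi_eq_sum_univ' l)).trans ((map_sum _ _ _).trans
      (Finset.sum_eq_zero fun i _ => ?_))
    refine (rowOp_pow_smul hd p _ N _ _).trans ?_
    rw [rowOp_iter hd hD, h, Matrix.map_zero _ (map_zero _)]
    funext a
    simp
  · ext1 i a
    have h1 := congrFun (rowOp_iter hd hD B (p * N) i) a
    rw [h] at h1
    exact (map_eq_zero_iff _ hi).1
      ((mul_eq_zero.1 h1.symm).resolve_left (inv_ne_zero (pow_ne_zero _ h0)))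

theorem oa2_weyl {A : Type} [Ring A] {x D : A} (h : D * x = x * D + 1) (k : ℕ) :
    aeval (x * D) (descPochhammer ℤ k) = x ^ k * D ^ k := by
  have h1 : ∀ k : ℕ, D ^ k * (x * D) = x * D ^ (k + 1) + k * D ^ k := fun k => by
    induction k with
    | zero => simp
    | succ k ih =>
      rw [pow_succ', mul_assoc, ih, mul_add, ← mul_assoc, h, ← mul_assoc,
        ← (Nat.cast_commute k D).eq, Nat.cast_succ, pow_succ' D (k + 1), pow_succ' D k]
      noncomm_ring
  induction k with
  | zero => simp
  | succ k ih =>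
    rw [descPochhammer_succ_right, map_mul, ih, map_sub, aeval_X, map_natCast, mul_assoc, mul_sub,
      h1, (Nat.cast_commute k (D ^ k)).eq, add_sub_cancel_right, ← mul_assoc, ← pow_succ]

theorem oa2_poch (p : ℕ) [hp : Fact p.Prime] :
    C (p : ℤ) ∣ descPochhammer ℤ p - (X ^ p - X) := by
  have h : descPochhammer (ZMod p) p = X ^ p - X := by
    have h1 : (X ^ p - X : (ZMod p)[X]).Monic :=
      monic_X_pow_sub (by rw [degree_X]; exact_mod_cast hp.out.one_lt)
    have h2 : (descPochhammer (ZMod p) p).degree = p := by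
      rw [degree_eq_natDegree (monic_descPochhammer _ _).ne_zero, descPochhammer_natDegree]
    refine eq_of_degree_sub_lt_of_eval_finset_eq Finset.univ ?_ fun z _ => ?_
    · rw [Finset.card_univ, ZMod.card, ← h2]
      refine degree_sub_lt_left ?_ (monic_descPochhammer _ _).ne_zero
        ((monic_descPochhammer _ _).leadingCoeff.trans h1.leadingCoeff.symm)
      rw [h2, degree_eq_natDegree h1.ne_zero,
        FiniteField.X_pow_card_sub_X_natDegree_eq _ hp.out.one_lt]
    · rw [descPochhammer_eval_eq_prod_range, eval_sub, eval_pow, eval_X, ZMod.pow_card, sub_self]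
      exact Finset.prod_eq_zero (Finset.mem_range.2 z.val_lt) (by simp)
  refine (C_dvd_iff_dvd_coeff _ _).2 fun i => (ZMod.intCast_zmod_eq_zero_iff_dvd _ _).1 ?_
  rw [← eq_intCast (Int.castRingHom (ZMod p)), ← coeff_map, Polynomial.map_sub, descPochhammer_map,
    h, Polynomial.map_sub, Polynomial.map_pow, map_X, sub_self, coeff_zero]

/-- With `x = X`, `Dl = rowOp 1 d ((x H)⁻¹ • M)`, `E = x Dl`: `∏_{i < k} (E - i) = x ^ k Dl ^ k`,
`∏_{i < p} (T - i) = T ^ p - T` in characteristic `p`, and `x ^ p` commutes with `Dl`. -/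
theorem euler_nil (hd : Der R K d) (p : ℕ) [Fact p.Prime] [CharP R p] {H : R[X]} (hH : H ≠ 0)
    {M : Matrix (Fin N) (Fin N) R[X]} (h : NilB p (X * H) M) :
    (rowOp (algebraMap R[X] K X) d ((algebraMap R[X] K H)⁻¹ • M.map (algebraMap R[X] K)) ^ p -
      rowOp (algebraMap R[X] K X) d ((algebraMap R[X] K H)⁻¹ • M.map (algebraMap R[X] K))) ^ N =
      0 := by
  have hx : algebraMap R[X] K X ≠ 0 := (map_ne_zero_iff _ (IsFractionRing.injective _ _)).2 X_ne_zero
  have h1 := (nilB_iff hd p (mul_ne_zero X_ne_zero hH) M).1 h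
  generalize hD : rowOp 1 d ((algebraMap R[X] K (X * H))⁻¹ • M.map (algebraMap R[X] K)) = D at h1
  have h2 : rowOp (algebraMap R[X] K X) d ((algebraMap R[X] K H)⁻¹ • M.map (algebraMap R[X] K)) =
      oa2_m N K (algebraMap R[X] K X) * D := by
    rw [← hD]
    refine AddMonoidHom.ext fun l => funext fun a => ?_
    change rowOp _ d _ l a = (algebraMap R[X] K X • rowOp 1 d _ l) a
    simp only [rowOp_apply, vecMul_smul, Pi.add_apply, Pi.smul_apply, smul_eq_mul, map_mul]
    field_simp
  have h3 : D * oa2_m N K (algebraMap R[X] K X) = oa2_m N K (algebraMap R[X] K X) * D + 1 := by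
    rw [← hD, oa2_comm hd, hd.ext, derivative_X, map_one, map_one]
  have h4 : Commute (oa2_m N K (algebraMap R[X] K X) ^ p) (D ^ p) := by
    rw [← hD, ← map_pow]
    exact (oa2_commute hd p _ _).symm
  obtain ⟨r, hr⟩ := oa2_poch p
  have h5 := congrArg (aeval (oa2_m N K (algebraMap R[X] K X) * D)) hr
  rw [map_sub, map_sub, map_pow, aeval_X, oa2_weyl h3, map_mul, aeval_C, map_natCast,
    oa2_char (R := R) K p, zero_mul, sub_eq_zero] at h5
  rw [h2, ← h5, h4.mul_pow, ← pow_mul D, h1, mul_zero]

end Pool.Agent.GR.NP
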