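import Pool.Agent.Lib.MP_aa40d3_nt.NP.Defs
import Pool.Agent.Lib.MP_aa40d3_nt.CV.Spr

/-! Triangular bases in characteristic `p`: direct image, gauge, nilpotence. -/

open Polynomial Matrix
open scoped Polynomial.Bivariate

namespace Pool.Agent.GR.NP

open Pool.Agent.GR.CV

variable {N r d : ℕ}

theorem tri_map {R R' : Type} [CommRing R] [CommRing R'] {S : CV.Sys R r} (h : S.Tri) {φ : R →+* R'}
    (hφ : Function.Injective φ) : (S.map φ).Tri := by
  obtain ⟨Φ, T, q, c, hc, hq, hT, hΦ⟩ := h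
  refine ⟨Φ.map (mapRingHom (mapRingHom φ)), T.map (mapRingHom (mapRingHom φ)),
    q.map (mapRingHom φ), c.map φ, fun e => hc ((Polynomial.map_eq_zero_iff hφ).1 e), ?_,
    fun a b hab => by rw [Matrix.map_apply, hT a b hab, map_zero], fun a b => ?_⟩
  · have h1 := Polynomial.map_dvd (mapRingHom φ) hq
    have h2 : (Φ.map (mapRingHom (mapRingHom φ))).det = Φ.det.map (mapRingHom φ) :=
      (RingHom.map_det (mapRingHom (mapRingHom φ)) Φ).symm
    rw [Polynomial.map_sub, Polynomial.map_mul, Polynomial.map_C, coe_mapRingHom, ← h2] at h1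
    exact h1
  · have h1 := Polynomial.map_dvd (mapRingHom φ) (hΦ a b)
    rw [Polynomial.map_sub, Polynomial.map_mul, Polynomial.map_C, ← nab_map] at h1
    rw [← Matrix.map_mul]
    exact h1

theorem co_mono {i j : Fin (r * d)} (h : j ≤ i) : co j ≤ co i :=
  Nat.div_le_div_right (c := d) h

section field
variable {k : Type} [Field k] {S : CV.Sys k r} {q : k[X][Y]} {δ : k[X]}

theorem push_cancel {Φ : Matrix (Fin r) (Fin r) k[X][Y]} {q' : k[X][Y]} {e : k[X]}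
    (hq' : S.P ∣ q' * Φ.det - C e) {w : Fin r → k[X][Y]} (h1 : ∀ a, S.P ∣ (Φ *ᵥ w) a) (b : Fin r) :
    S.P ∣ C e * w b := by
  have h6 : S.P ∣ (Φ.adjugate *ᵥ (Φ *ᵥ w)) b := by
    change S.P ∣ ∑ a, Φ.adjugate b a * (Φ *ᵥ w) a
    exact Finset.dvd_sum fun a _ => (h1 a).mul_left _
  rw [mulVec_mulVec, adjugate_mul, smul_mulVec, one_mulVec, Pi.smul_apply, smul_eq_mul] at h6
  have h7 : C e * w b = q' * (Φ.det * w b) - (q' * Φ.det - C e) * w b := by ring
  rw [h7]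
  exact (h6.mul_left _).sub (hq'.mul_right _)

theorem push_tri (h : Prep S d q δ) (hδ : δ ≠ 0) (p : ℕ) [Fact p.Prime] [CharP k p]
    (hS : S.Tri) : HT (δ * S.D) (pB S d q δ) := by
  obtain ⟨Φ, T, q', e, he, hq', hT, hΦ⟩ := hS
  choose u hu using fun j : Fin (r * d) =>
    h.exists_asm ((Y ^ (p * (sh j : ℕ)) : k[X][Y]) • fun i => Φ i (co j))
  obtain ⟨Ψ, hΨ⟩ : ∃ Ψ : Matrix (Fin (r * d)) (Fin (r * d)) k[X], Ψ = Matrix.of fun i j => u j i :=
    ⟨_, rfl⟩
  have key : ∀ (c : Fin (r * d) → k[X]) (a : Fin r), S.P ∣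
      (Φ *ᵥ fun b => ∑ l : Fin d, C (c (ix b l)) * Y ^ (p * (l : ℕ))) a - asm r d (Ψ *ᵥ c) a := by
    intro c a
    have h4 : (Φ *ᵥ fun b => ∑ l : Fin d, C (c (ix b l)) * Y ^ (p * (l : ℕ))) a =
        ∑ j, C (c j) * (Y ^ (p * (sh j : ℕ)) * Φ a (co j)) := by
      rw [sum_ix]
      simp only [mulVec, dotProduct, Finset.mul_sum, co_ix, sh_ix]
      exact Finset.sum_congr rfl fun b _ => Finset.sum_congr rfl fun l _ => by ring
    rw [pushp_asm, h4, ← Finset.sum_sub_distrib, hΨ]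
    refine Finset.dvd_sum fun j _ => ?_
    rw [← mul_sub]
    exact (hu j a).mul_left _
  have fin : ∀ (c : Fin (r * d) → k[X]) (e' : k[X]) (j : Fin (r * d)), e' ≠ 0 →
      S.P ∣ C e' * ∑ l : Fin d, C (c (ix (co j) l)) * Y ^ (p * (l : ℕ)) → c j = 0 := by
    intro c e' j he' h8
    simp only [Finset.mul_sum, ← mul_assoc, ← C_mul] at h8
    have h9 := congrFun (frob_indep h hδ p h8) (sh j)
    simp only [ix_co_sh, Pi.zero_apply] at h9
    exact (mul_eq_zero.1 h9).resolve_left he'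
  have hdet : Ψ.det ≠ 0 := by
    intro h0
    obtain ⟨c, hc0, hc⟩ := exists_mulVec_eq_zero_iff.2 h0
    refine hc0 (funext fun j => fin c e j he (push_cancel hq'
      (w := fun b => ∑ l : Fin d, C (c (ix b l)) * Y ^ (p * (l : ℕ))) (fun a => ?_) (co j)))
    have h2 := key c a
    rwa [hc, show asm r d (0 : Fin (r * d) → k[X]) a = 0 by simp [asm], sub_zero] at h2
  refine ⟨Ψ, Ψ.adjugate * ((δ * S.D) • Ψ.map derivative - pB S d q δ * Ψ), Ψ.det, hdet, hdet,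
    fun i j hij => ?_, by rw [← Matrix.mul_assoc, mul_adjugate, Matrix.smul_mul, Matrix.one_mul]⟩
  obtain ⟨W, hW⟩ : ∃ W : Fin (r * d) → k[X],
      W = ((δ * S.D) • fun i => derivative (u j i)) - pB S d q δ *ᵥ u j := ⟨_, rfl⟩
  have e1 : (Ψ.adjugate * ((δ * S.D) • Ψ.map derivative - pB S d q δ * Ψ)) i j =
      (Ψ.adjugate *ᵥ W) i := by
    rw [hW, hΨ]
    rfl
  rw [e1]
  refine fin _ (e * e) i (mul_ne_zero he he) ?_
  have h1 := push_cancel hq' (w := (C e • fun b => ∑ l : Fin d,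
      C ((Ψ.adjugate *ᵥ W) (ix b l)) * Y ^ (p * (l : ℕ))) -
      (C Ψ.det * q * Y ^ (p * (sh j : ℕ))) • fun b => T b (co j)) (fun a => ?_) (co i)
  · rw [Pi.sub_apply, Pi.smul_apply, Pi.smul_apply, hT _ _ (co_mono hij), smul_zero, sub_zero,
      smul_eq_mul] at h1
    rwa [C_mul, mul_assoc]
  have h2 := key (Ψ.adjugate *ᵥ W) a
  rw [mulVec_mulVec, mul_adjugate, smul_mulVec, one_mulVec] at h2
  have e2 : asm r d (Ψ.det • W) a = C Ψ.det * asm r d W a := by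
    simp only [asm, Pi.smul_apply, smul_eq_mul, C_mul, Finset.mul_sum, mul_assoc]
  have h3 := h.asm_nab (u j) a
  have h4 := nab_congr S (hu j) a
  rw [nab_frob, Pi.smul_apply, smul_eq_mul] at h4
  have h5 := hΦ a (co j)
  rw [← hW] at h3
  rw [e2] at h2
  rw [mulVec_sub, mulVec_smul, mulVec_smul, Pi.sub_apply, Pi.smul_apply, Pi.smul_apply,
    smul_eq_mul, smul_eq_mul, show (Φ *ᵥ fun b => T b (co j)) a = (Φ * T) a (co j) from rfl]
  obtain ⟨a2, h2⟩ := h2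
  obtain ⟨a3, h3⟩ := h3
  obtain ⟨a4, h4⟩ := h4
  obtain ⟨a5, h5⟩ := h5
  refine ⟨C e * a2 - C e * C Ψ.det * a3 - C e * C Ψ.det * q * a4 +
    C Ψ.det * q * Y ^ (p * (sh j : ℕ)) * a5, ?_⟩
  linear_combination C e * h2 - C e * C Ψ.det * h3 - C e * C Ψ.det * q * h4 +
    C Ψ.det * q * Y ^ (p * (sh j : ℕ)) * h5

end field

section ring
variable {R : Type} [CommRing R] [IsDomain R] {D D' ρ : R[X]} {B B' G : Matrix (Fin N) (Fin N) R[X]}

theorem gau_ht {p : ℕ} (hp : 0 < p) (hc : (p : R) = 0) (h : Gau D B D' B' ρ G)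
    (hD : D ≠ 0) (hρ : ρ ≠ 0) (hG : G.det ≠ 0) (hf : HT D B) : HT D' B' := by
  obtain ⟨Φ, T, c, h0, hc0, hT, hf⟩ := hf
  obtain ⟨m, rfl⟩ : ∃ m, p = m + 1 := ⟨p - 1, by omega⟩
  have hq : derivative (ρ ^ m * ρ) = 0 := by
    rw [← pow_succ, derivative_pow, hc, C_0, zero_mul, zero_mul]
  rw [derivative_mul] at hq
  refine ⟨ρ ^ m • (G * Φ), D' • T, c * D, ?_, mul_ne_zero hc0 hD,
    fun a b hab => by rw [Matrix.smul_apply, hT a b hab, smul_zero], ?_⟩
  · rw [det_smul, det_mul]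
    exact mul_ne_zero (pow_ne_zero _ (pow_ne_zero _ hρ)) (mul_ne_zero hG h0)
  have h1 := congrArg (· * Φ) h
  have h2 := congrArg (G * ·) hf
  simp only [Matrix.mul_smul, Matrix.smul_mul, Matrix.add_mul, Matrix.sub_mul, Matrix.mul_sub,
    Matrix.mul_assoc] at h1 h2
  rw [map_deriv_smul, map_deriv_mul, Matrix.mul_smul, Matrix.mul_smul, Matrix.smul_mul,
    Matrix.mul_assoc]
  refine Matrix.ext fun a b => mul_left_cancel₀ hρ ?_
  have h3 := congrFun (congrFun h1 a) b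
  have h4 := congrFun (congrFun h2 a) b
  simp only [Matrix.smul_apply, Matrix.add_apply, Matrix.sub_apply, smul_eq_mul] at h3 h4 ⊢
  linear_combination c * ρ ^ m * h3 + (ρ * D' * ρ ^ m) * h4 + c * D * D' * (G * Φ) a b * hq

end ring

end Pool.Agent.GR.NP
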