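import Pool.Agent.Lib.MP_aa40d3_nt.NP.Defs
import Pool.Agent.Lib.MP_aa40d3_nt.MG.Cong
import Pool.Agent.Lib.MP_aa40d3_nt.MG.Eig
import Pool.Agent.Lib.MP_aa40d3_nt.GR2.Rig

/-! Quasi-unipotent matrices. -/

open Polynomial Matrix Set
open scoped Matrix.Norms.Operator

namespace Pool.Agent.GR.NP

variable {N : ℕ}

theorem QU.one : QU (1 : Mt N) := ⟨1, one_pos, by simp⟩

theorem QU.of_isConj {a b : (Mt N)ˣ} (h : IsConj a b) (hb : QU b.val) : QU a.val := by
  obtain ⟨c, hc⟩ := isConj_iff.1 h.symm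
  obtain ⟨E, hE, k, hk⟩ := hb
  refine ⟨E, hE, k, ?_⟩
  have h1 : a.val ^ E - 1 = c.val * (b.val ^ E - 1) * (c⁻¹).val := by
    rw [← hc, Units.val_mul, Units.val_mul, Units.conj_pow, mul_sub, sub_mul, mul_one,
      Units.mul_inv]
  rw [h1, Units.conj_pow, hk, mul_zero, zero_mul]

theorem qu1_chp (x : Mt N) : ∃ v : Fin N → ℂ, x.charpoly = ∏ i, (X - C (v i)) := by
  have hs := IsAlgClosed.splits x.charpoly
  obtain ⟨v, hv⟩ := eig_enum (n := N) x.charpoly.roots (by
    rw [← hs.natDegree_eq_card_roots, charpoly_natDegree_eq_dim, Fintype.card_fin])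
  refine ⟨v, ?_⟩
  rw [hs.eq_prod_roots_of_monic x.charpoly_monic, hv, Multiset.map_map]
  rfl

theorem qu1_spec {x : Mt N} {v : Fin N → ℂ} (h : x.charpoly = ∏ i, (X - C (v i))) (μ : ℂ) :
    μ ∈ spectrum ℂ x ↔ ∃ i, v i = μ := by
  rw [mem_spectrum_iff_isRoot_charpoly, ← mem_roots x.charpoly_monic.ne_zero, eig_roots h]
  simp

/-- Forward: an eigenvalue `μ` of `x` gives the eigenvalue `μ ^ E - 1` of a nilpotent matrix.
Backward: the characteristic polynomial splits and divides `(X ^ E - 1) ^ N`; Cayley-Hamilton. -/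
theorem pow_of_spec {x : Mt N} {E : ℕ} (h : ∀ μ ∈ spectrum ℂ x, μ ^ E = 1) :
    (x ^ E - 1) ^ N = 0 := by
  obtain ⟨v, hv⟩ := qu1_chp x
  have h3 : x.charpoly ∣ (X ^ E - 1) ^ N := by
    have := Finset.prod_dvd_prod_of_dvd (s := Finset.univ) (fun j => X - C (v j))
      (fun _ => (X ^ E - 1 : ℂ[X])) fun j _ => dvd_iff_isRoot.2 (by
        rw [IsRoot, eval_sub, eval_pow, eval_X, eval_one, h _ ((qu1_spec hv _).2 ⟨j, rfl⟩),
          sub_self])
    rwa [Finset.prod_const, Finset.card_univ, Fintype.card_fin, ← hv] at this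
  obtain ⟨q, hq⟩ := h3
  have h4 := congrArg (aeval x) hq
  rwa [map_mul, aeval_self_charpoly, zero_mul, map_pow, map_sub, map_pow, aeval_X, map_one] at h4

theorem qu_iff {x : Mt N} : QU x ↔ ∀ μ ∈ spectrum ℂ x, IsOfFinOrder μ := by
  constructor
  · rintro ⟨E, hE, k, hk⟩ μ hμ
    refine isOfFinOrder_iff_pow_eq_one.2 ⟨E, hE, ?_⟩
    have h1 := spectrum.subset_polynomial_aeval x ((X ^ E - 1) ^ k) ⟨μ, hμ, rfl⟩
    rw [map_pow, map_sub, map_pow, aeval_X, map_one, hk] at h1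
    rcases subsingleton_or_nontrivial (Mt N) with h2 | h2
    · exact absurd (isUnit_of_subsingleton _) (spectrum.mem_iff.1 hμ)
    · rw [spectrum.zero_eq, Set.mem_singleton_iff] at h1
      simp only [eval_pow, eval_sub, eval_X, eval_one] at h1
      exact sub_eq_zero.1 (eq_zero_of_pow_eq_zero h1)
  · intro h
    obtain ⟨v, hv⟩ := qu1_chp x
    have h1 : ∀ j, IsOfFinOrder (v j) := fun j => h _ ((qu1_spec hv _).2 ⟨j, rfl⟩)
    obtain ⟨m, hm, hm'⟩ := isOfFinOrder_iff_pow_eq_one.1 (IsOfFinOrder.pi h1)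
    refine ⟨m, hm, N, pow_of_spec fun μ hμ => ?_⟩
    obtain ⟨j, rfl⟩ := (qu1_spec hv _).1 hμ
    exact congrFun hm' j

theorem QU.det {x : Mt N} (h : QU x) : IsOfFinOrder x.det := by
  obtain ⟨v, -, h2, h3⟩ := exists_eig' x
  have h1 : ∀ j, IsOfFinOrder (v j) := fun j => qu_iff.1 h _ ((h3 _).2 ⟨j, rfl⟩)
  obtain ⟨m, hm, hm'⟩ := isOfFinOrder_iff_pow_eq_one.1 (IsOfFinOrder.pi h1)
  refine isOfFinOrder_iff_pow_eq_one.2 ⟨m, hm, ?_⟩
  rw [h2, ← Finset.prod_pow]
  exact Finset.prod_eq_one fun j _ => congrFun hm' j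

theorem QU.pow {x : Mt N} (h : QU x) (k : ℕ) : QU (x ^ k) := by
  obtain ⟨E, hE, hn⟩ := h
  refine ⟨E, hE, ?_⟩
  rw [← pow_mul, mul_comm, pow_mul, ← geom_sum_mul]
  refine Commute.isNilpotent_mul_left ?_ hn
  exact Commute.sum_left _ _ _ fun i _ =>
    ((Commute.refl (x ^ E)).pow_left i).sub_right (Commute.one_right _)

/-- `exists_expo`, `qu_iff`, `pow_of_spec`. -/
theorem exists_unif {G : Type} [Group G] [Group.FG G] (σ : G →* Mt N) :
    ∃ E : ℕ, 0 < E ∧ ∀ x, QU (σ x) → (σ x ^ E - 1) ^ N = 0 := by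
  obtain ⟨E, hE, h⟩ := exists_expo σ
  exact ⟨E, hE, fun x hx => pow_of_spec fun μ hμ => h x μ hμ (qu_iff.1 hx μ hμ)⟩

theorem qu1_ones {v : Fin N → ℂ} (h : ∀ k ≤ N, ∑ i, v i ^ k = N) (j : Fin N) : v j = 1 := by
  classical
  by_contra hj
  let T : Finset ℂ := insert 1 (Finset.univ.image v)
  let φ : ℂ → ℂ := fun z => if z = 1 then 0 else 1
  have hq : ∀ z ∈ T, (Lagrange.interpolate T id φ).eval z = φ z := fun z hz =>
    Lagrange.eval_interpolate_at_node (v := id) φ (Set.injOn_id _) hz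
  have hd : (Lagrange.interpolate T id φ).degree < T.card :=
    Lagrange.degree_interpolate_lt φ (Set.injOn_id _)
  generalize Lagrange.interpolate T id φ = q at hq hd
  have hT : T.card ≤ N + 1 := by
    refine (Finset.card_insert_le _ _).trans (Nat.succ_le_succ ?_)
    simpa using Finset.card_image_le (s := Finset.univ) (f := v)
  have hn : q.natDegree < N + 1 := by
    by_cases h0 : q = 0
    · simp [h0]
    · exact ((natDegree_lt_iff_degree_lt h0).2 hd).trans_le hT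
  have h1 : ∑ i, q.eval (v i) = N * q.eval 1 := by
    simp only [eval_eq_sum_range' hn]
    rw [Finset.sum_comm, Finset.mul_sum]
    refine Finset.sum_congr rfl fun k hk => ?_
    rw [← Finset.mul_sum, h k (Nat.lt_succ_iff.1 (Finset.mem_range.1 hk)), one_pow]
    ring
  have ha : ∀ i, q.eval (v i) = if v i = 1 then 0 else 1 := fun i => hq _ (by simp [T])
  have hb : q.eval 1 = 0 := (hq 1 (by simp [T])).trans (by simp [φ])
  simp only [ha, hb, mul_zero, Finset.sum_ite, Finset.sum_const_zero, zero_add,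
    Finset.sum_const, nsmul_eq_mul, mul_one, Nat.cast_eq_zero, Finset.card_eq_zero] at h1
  exact Finset.eq_empty_iff_forall_notMem.1 h1 j (by simp [hj])

/-- `exists_eig'`: the power sums of the `v i - 1` vanish in degrees `1, …, N`, so all `v i = 1`
(interpolate on the set of values by a polynomial without constant term); `pow_of_spec`. -/
theorem unip_of_trace {x : Mt N} (h : ∀ k ≤ N, (x ^ k).trace = N) : IsNilpotent (x - 1) := by
  obtain ⟨v, h1, -, h3⟩ := exists_eig' x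
  have h2 := qu1_ones (v := v) fun k hk => (h1 k).symm.trans (h k hk)
  have h4 := pow_of_spec (x := x) (E := 1) fun μ hμ => by
    obtain ⟨j, rfl⟩ := (h3 _).1 hμ
    rw [h2, one_pow]
  rw [pow_one] at h4
  exact ⟨N, h4⟩

theorem qu1_cnt : {z : ℂ | IsOfFinOrder z}.Countable := by
  have : {z : ℂ | IsOfFinOrder z} ⊆ ⋃ m : ℕ, ((nthRoots (m + 1) (1 : ℂ)).toFinset : Set ℂ) := by
    intro z hz
    obtain ⟨m, hm, h⟩ := isOfFinOrder_iff_pow_eq_one.1 hz
    obtain ⟨m, rfl⟩ := Nat.exists_eq_succ_of_ne_zero hm.ne'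
    exact Set.mem_iUnion.2 ⟨m, by simpa [mem_nthRoots hm] using h⟩
  exact (Set.countable_iUnion fun m => Finset.countable_toSet _).mono this

/-- As `rigid_orrM`: the characteristic polynomial takes countably many values, so it is constant;
or find `E` with `(g ^ E - 1) ^ N = 0` on an uncountable subset of the interval. -/
theorem rigid_QU : Rigid {x : Mat N | QU x} := by
  intro g u₀ ρ hg u₁ d hd h
  obtain ⟨c, hc⟩ : ∃ c : ℂ → Fin (N + 1) → ℂ,
      c = fun u (k : Fin (N + 1)) => (g u).charpoly.coeff k := ⟨_, rfl⟩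
  have hcd : DifferentiableOn ℂ c (Metric.ball u₀ ρ) := by
    rw [hc]
    exact differentiableOn_pi.2 fun k =>
      (differentiable_charpoly_coeff (r := N) k).comp_differentiableOn hg
  have hS := (Set.countable_pi (α := Fin N) fun _ => qu1_cnt).image
    fun (ω : Fin N → ℂ) (k : Fin (N + 1)) => (∏ j, (X - C (ω j))).coeff k
  intro u hu
  obtain ⟨ω, hω, e⟩ := mem_of_countable hcd hS hd (fun s hs => ⟨(h s hs).1, by
    obtain ⟨v, hv⟩ := qu1_chp (g (u₁ + s * d))
    exact ⟨v, fun j => qu_iff.1 (h s hs).2 _ ((qu1_spec hv _).2 ⟨j, rfl⟩), by simp only [hc, hv]⟩⟩) u hu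
  rw [hc] at e
  have h2 : (g u).charpoly = ∏ j, (X - C (ω j)) := by
    refine Polynomial.ext fun k => ?_
    by_cases hk : k < N + 1
    · exact (congrFun e ⟨k, hk⟩).symm
    · rw [coeff_eq_zero_of_natDegree_lt, coeff_eq_zero_of_natDegree_lt]
      · rw [natDegree_finsetProd_X_sub_C_eq_card, Finset.card_univ, Fintype.card_fin]
        omega
      · rw [Matrix.charpoly_natDegree_eq_dim, Fintype.card_fin]
        omega
  refine qu_iff.2 fun μ hμ => ?_
  obtain ⟨j, rfl⟩ := (qu1_spec h2 _).1 hμ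
  exact hω j

end Pool.Agent.GR.NP
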