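import Pool.Agent.Lib.MP_aa40d3_nt.NP.OpB
import Pool.Agent.Lib.MP_aa40d3_nt.NP.Int
import Pool.Agent.Lib.MP_aa40d3_nt.GR2.ArithA2

/-! The scalar equation on an annulus. -/

open Polynomial Matrix

namespace Pool.Agent.GR.NP

variable {n r : ℕ} [NeZero r]

theorem rd1_smul {k : Type} [CommRing k] (ξ δ : k[X]) (c : k) (P : Matrix (Fin r) (Fin r) k[X])
    (j : ℕ) : rowL ξ (C c * δ) ((C c : k[X]) • P) j = (C c : k[X]) ^ j • rowL ξ δ P j := by
  induction j with
  | zero => simp [rowL]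
  | succ j ih =>
    funext a
    have e : derivative ((C c : k[X]) ^ j) = 0 := by rw [← C_pow, derivative_C]
    simp only [rowL, ih, vecMul_smul, smul_vecMul, Pi.smul_apply, Pi.add_apply, Pi.sub_apply,
      smul_eq_mul, derivative_mul, derivative_C, e]
    ring

theorem rd1_tri {k : Type} [CommRing k] (ξ δ : k[X]) (P : Matrix (Fin r) (Fin r) k[X]) (j : ℕ) :
    ∃ s : ℕ → k[X], s j = ξ ^ j ∧ ∀ a, rowL ξ δ P j a =
      ∑ i ∈ Finset.range (j + 1), s i * δ ^ (j - i) * rowL 1 δ P i a := by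
  induction j with
  | zero => exact ⟨fun _ => 1, by simp, fun a => by simp [rowL]⟩
  | succ j ih =>
    obtain ⟨s, h1, h2⟩ := ih
    refine ⟨fun i => ξ * ((if i ≤ j then derivative (s i) else 0) +
      if i = 0 then 0 else s (i - 1)), by simp [h1, pow_succ'], fun a => ?_⟩
    have e1 : (rowL ξ δ P j ᵥ* P) a =
        ∑ i ∈ Finset.range (j + 1), s i * δ ^ (j - i) * (rowL 1 δ P i ᵥ* P) a := by
      simp only [vecMul, dotProduct, h2, Finset.sum_mul, Finset.mul_sum, mul_assoc]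
      exact Finset.sum_comm
    have e2 : ∑ i ∈ Finset.range (j + 1 + 1), ξ * ((if i ≤ j then derivative (s i) else 0) +
        if i = 0 then 0 else s (i - 1)) * δ ^ (j + 1 - i) * rowL 1 δ P i a =
        ∑ i ∈ Finset.range (j + 1), ξ * (derivative (s i) * δ ^ (j - i + 1) * rowL 1 δ P i a +
          s i * δ ^ (j - i) * rowL 1 δ P (i + 1) a) := by
      simp only [mul_add, add_mul, Finset.sum_add_distrib]
      congr 1
      · rw [Finset.sum_range_succ, if_neg (by omega)]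
        simp only [mul_zero, zero_mul, add_zero]
        refine Finset.sum_congr rfl fun i hi => ?_
        have := Finset.mem_range.1 hi
        rw [if_pos (by omega), show j + 1 - i = j - i + 1 by omega]
        ring
      · rw [Finset.sum_range_succ']
        simp only [if_true, mul_zero, zero_mul, add_zero]
        refine Finset.sum_congr rfl fun i _ => ?_
        rw [if_neg (by omega), Nat.add_sub_cancel, Nat.add_sub_add_right]
        ring
    rw [e2, rowL]
    simp only [Pi.smul_apply, Pi.add_apply, Pi.sub_apply, smul_eq_mul]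
    rw [e1, h2, derivative_sum, Finset.mul_sum, Finset.mul_sum, ← Finset.sum_sub_distrib,
      ← Finset.sum_add_distrib, Finset.mul_sum]
    refine Finset.sum_congr rfl fun i hi => ?_
    have h3 := cyc_dpow δ (j - i)
    rw [Nat.cast_sub (Nat.lt_succ_iff.1 (Finset.mem_range.1 hi))] at h3
    simp only [rowL, Pi.smul_apply, Pi.add_apply, Pi.sub_apply, smul_eq_mul, derivative_mul]
    linear_combination ξ * s i * rowL 1 δ P i a * h3

/-- `rowL ξ (C c * δ) (C c • P) k` is `(C c * ξ) ^ k • rowL 1 δ P k` plus a combination of the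
`δ ^ (k - j) • rowL 1 δ P j`, `j < k`; so the two matrices differ by a triangular matrix. -/
theorem cycH_ne {k : Type} [CommRing k] [IsDomain k] {ξ δ : k[X]} {c : k} (hξ : ξ ≠ 0) (hc : c ≠ 0)
    {P : Matrix (Fin r) (Fin r) k[X]} (h : cycH 1 δ P ≠ 0) :
    cycH ξ (C c * δ) ((C c : k[X]) • P) ≠ 0 := by
  choose s h1 h2 using rd1_tri ξ δ P
  have e : cycM ξ (C c * δ) ((C c : k[X]) • P) = (C c : k[X]) ^ r •
      ((Matrix.of fun j i : Fin r => if (i : ℕ) ≤ j then s j i else 0) * cycM 1 δ P) := by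
    refine Matrix.ext fun j a => ?_
    have e1 : ((Matrix.of fun j i : Fin r => if (i : ℕ) ≤ j then s j i else 0) * cycM 1 δ P) j a =
        ∑ i ∈ Finset.range r, (if i ≤ j then s j i else 0) * (δ ^ (r - i) * rowL 1 δ P i a) := by
      rw [Matrix.mul_apply, Finset.sum_range]
      rfl
    have hj := j.2
    rw [Matrix.smul_apply, e1, ← Finset.sum_subset (Finset.range_mono (show (j : ℕ) + 1 ≤ r by omega))
      (fun i _ hi => by rw [if_neg (by simpa using hi), zero_mul])]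
    simp only [cycM, of_apply, rd1_smul, Pi.smul_apply, smul_eq_mul, h2, Finset.mul_sum]
    refine Finset.sum_congr rfl fun i hi => ?_
    have hi' := Nat.lt_succ_iff.1 (Finset.mem_range.1 hi)
    have e2 : (C c : k[X]) ^ r = C c ^ (r - j) * C c ^ (j : ℕ) := by
      rw [← pow_add, Nat.sub_add_cancel hj.le]
    rw [if_pos hi', show r - i = r - j + (j - i) by omega, e2]
    ring
  rw [cycH, e, det_smul, det_mul, det_of_isLowerTriangular _ (fun i j hij => by
    rw [of_apply, if_neg (by simpa using hij)])]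
  refine mul_ne_zero (pow_ne_zero _ (pow_ne_zero _ (C_ne_zero.2 hc))) (mul_ne_zero ?_ h)
  refine Finset.prod_ne_zero_iff.2 fun i _ => ?_
  rw [of_apply, if_pos le_rfl, h1]
  exact pow_ne_zero _ hξ

theorem rd1_hom {k : Type} [CommRing k] (φ : k[X] →+* k[X])
    (hφ : ∀ f, derivative (φ f) = φ (derivative f)) (δ : k[X]) (P : Matrix (Fin r) (Fin r) k[X])
    (j : ℕ) (a : Fin r) : rowL 1 (φ δ) (P.map φ) j a = φ (rowL 1 δ P j a) := by
  induction j generalizing a with
  | zero =>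
    simp only [rowL, Pi.single_apply]
    split_ifs <;> simp
  | succ j ih =>
    have ih' : rowL 1 (φ δ) (P.map φ) j = fun a => φ (rowL 1 δ P j a) := funext ih
    simp only [rowL, ih', vecMul, dotProduct, Pi.smul_apply, Pi.add_apply, Pi.sub_apply,
      smul_eq_mul, map_mul, map_add, map_sub, map_sum, map_natCast, hφ, Matrix.map_apply, map_one]

/-- Substitute `X + C b`. -/
theorem cycH_shift {k : Type} [CommRing k] {t t' : Fin n → k} {b : k} (h : ∀ i, t i = t' i + b)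
    {A : Fin n → Matrix (Fin r) (Fin r) k} (hc : cycH 1 (dl t) (pm t A) ≠ 0) :
    cycH 1 (dl t') (pm t' A) ≠ 0 := by
  have e0 : ∀ S : Finset (Fin n), compRingHom (X + C b) (∏ j ∈ S, (X - C (t j))) =
      ∏ j ∈ S, (X - C (t' j)) := fun S => by
    rw [map_prod]
    refine Finset.prod_congr rfl fun j _ => ?_
    rw [coe_compRingHom_apply, sub_comp, X_comp, C_comp, h j, C_add]
    ring
  have e1 : dl t' = compRingHom (X + C b) (dl t) := (e0 _).symm
  have e2 : pm t' A = (pm t A).map (compRingHom (X + C b)) := by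
    refine Matrix.ext fun a a' => ?_
    rw [Matrix.map_apply, cyca_pm_apply, cyca_pm_apply, map_sum]
    refine Finset.sum_congr rfl fun i _ => ?_
    rw [map_mul, e0, coe_compRingHom_apply, C_comp]
  have e3 : cycM 1 (dl t') (pm t' A) = (cycM 1 (dl t) (pm t A)).map (compRingHom (X + C b)) := by
    refine Matrix.ext fun j a => ?_
    rw [e1, e2]
    simp only [cycM, of_apply, Matrix.map_apply, map_mul, map_pow]
    rw [rd1_hom _ fun f => by simp [derivative_comp]]
  rw [cycH, e3, ← RingHom.mapMatrix_apply, ← RingHom.map_det, coe_compRingHom_apply]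
  exact fun h0 => hc (comp_X_add_C_eq_zero_iff.1 h0)

/-- The cyclic vector matrix is a gauge transformation to the companion system. -/
theorem gau_cyc {k : Type} [CommRing k] [IsDomain k] {δ : k[X]} (hδ : δ ≠ 0)
    (P : Matrix (Fin r) (Fin r) k[X]) :
    CV.Gau δ P (X * cycH X δ P) (cmp (cycH X δ P) (cycN X δ P)) (δ ^ r) (cycM X δ P) := by
  refine Matrix.ext fun a b => ?_
  have h1 := congrFun (congrFun (cyc_gauge X δ P) a) b
  have h2 := cyc_dpow δ r
  simp only [Matrix.smul_apply, Matrix.add_apply, Matrix.sub_apply, smul_eq_mul] at h1 ⊢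
  linear_combination δ ^ r * h1 - X * cycH X δ P * cycM X δ P a b * h2

/-- Over `FF κ`: `pm t Q = C G • pm t (G⁻¹ • Q)`, `nilB_smul`, `cycH_ne`, `NilB.gau` with `gau_cyc`,
`NilB.comp` with `u = X ^ ϱ`, `v = 0`, `nilB_smul` to cancel `u` and `X ^ v`, `NilB.of_map`. -/
theorem orc_scal {R κ : Type} [CommRing R] [Field κ] (p : ℕ) [Fact p.Prime] [CharP κ p]
    (φ : R →+* κ) {τ : Fin n → PowerSeries R} {G : PowerSeries R}
    {Q : Fin n → Matrix (Fin r) (Fin r) (PowerSeries R)} (hG : PowerSeries.map φ G ≠ 0)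
    (hc : cycH 1 (dl fun i => toF φ (τ i))
      (pm (fun i => toF φ (τ i)) fun i => (toF φ G)⁻¹ • (Q i).map (toF φ)) ≠ 0)
    (hn : NilB p (dl fun i => toF φ (τ i))
      (pm (fun i => toF φ (τ i)) fun i => (toF φ G)⁻¹ • (Q i).map (toF φ)))
    {ϱ v : ℕ} {H1 : (PowerSeries R)[X]} {N1 : Fin r → (PowerSeries R)[X]}
    (hH : sc (PowerSeries.X ^ ϱ) (HF τ G Q) = C (PowerSeries.X ^ v) * H1)
    (hN : ∀ k, sc (PowerSeries.X ^ ϱ) (NF τ G Q k) = C (PowerSeries.X ^ v) * N1 k) :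
    mps φ H1 ≠ 0 ∧ ScN p (mps φ H1) fun k => mps φ (N1 k) := by
  have := cp_charP κ p
  have hG' := cp_toF_ne φ hG
  have hi := IsFractionRing.injective (PowerSeries κ) (FF κ)
  have hπ : toF φ PowerSeries.X ≠ 0 := cp_toF_ne φ (by simp)
  have hP : (pm (fun i => toF φ (τ i)) fun i => (Q i).map (toF φ)) = (C (toF φ G) : (FF κ)[X]) •
      pm (fun i => toF φ (τ i)) fun i => (toF φ G)⁻¹ • (Q i).map (toF φ) := by
    rw [← pm_smul]
    simp only [smul_smul, mul_inv_cancel₀ hG', one_smul]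
  have hδ : C (toF φ G) * (dl fun i => toF φ (τ i)) ≠ 0 :=
    mul_ne_zero (C_ne_zero.2 hG') (dl_monic _).ne_zero
  have h1 := cycH_ne X_ne_zero hG' hc
  have h2 := (nilB_smul hG').2 hn
  rw [← hP] at h1 h2
  have h3 := (NilB.gau p (gau_cyc hδ _) hδ (mul_ne_zero X_ne_zero h1) (pow_ne_zero _ hδ) h1 h2).comp
    (toF φ PowerSeries.X ^ ϱ) 0
  have hm : ∀ f : (PowerSeries R)[X],
      f.map (toF φ) = (mps φ f).map (algebraMap (PowerSeries κ) (FF κ)) := fun f => by
    simp [mps, toF, Polynomial.map_map]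
  have e1 := congrArg (Polynomial.map (toF φ)) hH
  have e2 := fun k => congrArg (Polynomial.map (toF φ)) (hN k)
  rw [cp_sc_map, HF_map, Polynomial.map_mul, map_C, map_pow, map_pow, HF, sc] at e1
  have e2' : ∀ k, (cycN X (C (toF φ G) * dl fun i => toF φ (τ i))
      (pm (fun i => toF φ (τ i)) fun i => (Q i).map (toF φ)) k).comp
      (C (toF φ PowerSeries.X ^ ϱ) * X) = C (toF φ PowerSeries.X ^ v) * (N1 k).map (toF φ) := by
    intro k
    have := e2 k
    rwa [cp_sc_map, NF_map, Polynomial.map_mul, map_C, map_pow, map_pow, NF, sc] at this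
  have e3 : C (toF φ PowerSeries.X ^ ϱ) * X + C 0 = C (toF φ PowerSeries.X ^ ϱ) * X := by
    rw [C_0, add_zero]
  refine ⟨fun h0 => h1 (aff_inj (b := 0) (pow_ne_zero ϱ hπ) ?_), ?_⟩
  · rw [e3, e1, hm, h0, Polynomial.map_zero, mul_zero]
  · rw [e3, mul_comp, X_comp, e1, mul_assoc, nilB_smul (pow_ne_zero ϱ hπ)] at h3
    have e4 : ((cmp (cycH X (C (toF φ G) * dl fun i => toF φ (τ i))
        (pm (fun i => toF φ (τ i)) fun i => (Q i).map (toF φ)))
        (cycN X (C (toF φ G) * dl fun i => toF φ (τ i))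
        (pm (fun i => toF φ (τ i)) fun i => (Q i).map (toF φ)))).map fun f =>
        f.comp (C (toF φ PowerSeries.X ^ ϱ) * X)) = (C (toF φ PowerSeries.X ^ v) : (FF κ)[X]) •
        cmp (H1.map (toF φ)) fun k => (N1 k).map (toF φ) := by
      refine Matrix.ext fun a b => ?_
      simp only [cmp, Matrix.map_apply, Matrix.smul_apply, of_apply, smul_eq_mul]
      split_ifs
      · rw [neg_comp, e2']
        ring
      · exact e1
      · rw [zero_comp, mul_zero]
    rw [e4, mul_left_comm, nilB_smul (pow_ne_zero v hπ)] at h3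
    refine NilB.of_map hi ?_
    rw [cmp_map, Polynomial.map_mul, map_X, ← hm]
    simpa only [← hm] using h3

theorem radn_mps_sc {R S : Type*} [CommRing R] [CommRing S] (φ : R →+* S)
    (Q : (PowerSeries R)[X]) (ϱ : ℕ) :
    mps φ (sc (PowerSeries.X ^ ϱ) Q) = sc (PowerSeries.X ^ ϱ) (mps φ Q) := by
  simp [mps, sc, Polynomial.map_comp]

theorem radn_coeff_mps {R S : Type*} [CommRing R] [CommRing S] (φ : R →+* S)
    (Q : (PowerSeries R)[X]) (j i : ℕ) :
    PowerSeries.coeff i ((mps φ Q).coeff j) = φ (PowerSeries.coeff i (Q.coeff j)) := by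
  simp [mps]

/-- As `arith_radius2`, with `orc_scal` and `int_dvd`. -/
theorem arith_radiusN {R : Type} [CommRing R] [IsDomain R] [CharZero R]
    [Algebra.FiniteType ℤ R] {e : ℕ} (he : 2 * (r * r * (n + 1)) + 4 ≤ e)
    {τ : Fin n → PowerSeries R} {G : PowerSeries R} (hG : G ≠ 0)
    {Q : Fin n → Matrix (Fin r) (Fin r) (PowerSeries R)} (ho : OrcN τ G Q) :
    ∃ (ϱ v j0 : ℕ) (c0 : R) (ν : Fin r → R) (H1 : (PowerSeries R)[X])
      (N1 : Fin r → (PowerSeries R)[X]), 0 < ϱ ∧ ϱ < e ∧ c0 ≠ 0 ∧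
      sc (PowerSeries.X ^ ϱ) (HF τ G Q) = C (PowerSeries.X ^ v) * H1 ∧
      (∀ k, sc (PowerSeries.X ^ ϱ) (NF τ G Q k) = C (PowerSeries.X ^ v) * N1 k) ∧
      red H1 = C c0 * X ^ j0 ∧ ∀ k, red (N1 k) = C (ν k) * X ^ j0 := by
  classical
  obtain ⟨P0, hP0⟩ := ho
  obtain ⟨g, hg⟩ : ∃ g, PowerSeries.coeff g G ≠ 0 := by
    by_contra hc'
    push Not at hc'
    exact hG (PowerSeries.ext fun i => by simpa using hc' i)
  have hsp : ∀ x : R, x ≠ 0 → ∃ (p : ℕ) (_ : Fact p.Prime) (κ : Type) (_ : Field κ)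
      (_ : CharP κ p) (φ : R →+* κ), P0 < p ∧ φ x ≠ 0 ∧ PowerSeries.map φ G ≠ 0 := by
    intro x hx
    obtain ⟨P, hP⟩ := spread (mul_ne_zero hx hg)
    obtain ⟨p, hp1, hp⟩ := Nat.exists_infinite_primes (max P P0 + 1)
    obtain ⟨κ, _, _, φ, hφ⟩ := hP p hp (by omega)
    simp only [map_mul, ne_eq, mul_eq_zero, not_or] at hφ
    obtain ⟨h1, h2⟩ := hφ
    refine ⟨p, ⟨hp⟩, κ, inferInstance, inferInstance, φ, by omega, h1, fun h0 => h2 ?_⟩
    rw [← PowerSeries.coeff_map, h0, map_zero]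
  have hH : HF τ G Q ≠ 0 := by
    obtain ⟨p, hp, κ, _, _, φ, h0, -, h2⟩ := hsp 1 one_ne_zero
    obtain ⟨h5, h6⟩ := hP0 p hp.out h0 κ φ h2
    intro h7
    refine (orc_scal p φ h2 h5 h6 (ϱ := 0) (v := 0) (H1 := sc (PowerSeries.X ^ 0) (HF τ G Q))
      (N1 := fun k => sc (PowerSeries.X ^ 0) (NF τ G Q k)) (by simp) (fun k => by simp)).1 ?_
    simp [h7, sc]
  have hdeg : (HF τ G Q).natDegree ≤ r * r * (n + 1) :=
    natDegree_cycH ((natDegree_C_mul_le _ _).trans (natDegree_dl _)) (natDegree_pm _ _)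
  obtain ⟨ϱ₁, ϱ, ϱ₂, j0, o, h0, h1, h2, h3, h4, h5⟩ := exists_radii _ hH hdeg he
  have hN : ∀ k j i, PowerSeries.coeff i ((NF τ G Q k).coeff j) ≠ 0 →
      o + ϱ₁ * j0 ≤ i + ϱ₁ * j ∧ o + ϱ₂ * j0 ≤ i + ϱ₂ * j := by
    intro k j i hi
    obtain ⟨p, hp, κ, _, _, φ, hp0, hx, hG'⟩ := hsp _ hi
    obtain ⟨h6, h7⟩ := hP0 p hp.out hp0 κ φ hG'
    have key : ∀ ρ v : ℕ, 0 < ρ → ρ < e →
        (∀ j i, PowerSeries.coeff i ((HF τ G Q).coeff j) ≠ 0 → v ≤ i + ρ * j) →
        v ≤ i + ρ * j := by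
      intro ρ v hρ hρe hv
      have h8 := orc_scal p φ hG' h6 h7 (ϱ := ρ) (v := 0)
        (H1 := sc (PowerSeries.X ^ ρ) (HF τ G Q))
        (N1 := fun k => sc (PowerSeries.X ^ ρ) (NF τ G Q k)) (by simp)
        (fun k => by simp)
      have h9 := int_dvd p h8.1 h8.2 v (by
        rw [radn_mps_sc, dvd_sc_iff]
        intro j i hi
        rw [radn_coeff_mps] at hi
        exact hv j i fun h0 => hi (by rw [h0, map_zero])) k
      simp only [radn_mps_sc, dvd_sc_iff] at h9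
      exact h9 j i (by rwa [radn_coeff_mps])
    exact ⟨key ϱ₁ _ h0 (by omega) fun j i h => (h5 j i h).1,
      key ϱ₂ _ (by omega) h3 fun j i h => (h5 j i h).2⟩
  obtain ⟨H1, hH1, hH2⟩ := exists_sc_eq _ h1 h2 h5
  choose N1 hN1 hN2 using fun k => exists_sc_eq _ h1 h2 (hN k)
  exact ⟨ϱ, o + ϱ * j0, j0, _, fun k => PowerSeries.coeff o ((NF τ G Q k).coeff j0),
    H1, N1, by omega, by omega, h4, hH1, hN1, hH2, hN2⟩

end Pool.Agent.GR.NP
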