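import Mathlib

/-! Extension of complex points to valuation rings, and integral bases of flags. -/

open Polynomial Matrix IsLocalRing

namespace Pool.Agent.GR.NP

theorem root_ext {k L : Type} [Field k] [Field L] [Algebra k L] [Algebra k ℂ] (x : L) :
    ∃ ξ : ℂ, ∀ f : k[X], aeval x f = 0 → aeval ξ f = 0 := by
  by_cases h : IsIntegral k x
  · obtain ⟨ξ, hξ⟩ := IsAlgClosed.exists_aeval_eq_zero ℂ (minpoly k x) (minpoly.degree_pos h).ne'
    exact ⟨ξ, fun f hf => aeval_eq_zero_of_dvd_aeval_eq_zero (minpoly.dvd k x hf) hξ⟩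
  · refine ⟨0, fun f hf => ?_⟩
    rw [by_contra fun h0 : f ≠ 0 => h (IsAlgebraic.isIntegral ⟨f, h0, hf⟩), map_zero]

theorem chev_step {A : Type} [CommRing A] (ι χ : A →+* ℂ) (hι : Function.Injective ι) (x : ℂ) :
    ∃ x' ξ : ℂ, (x' = x ∨ x' = x⁻¹) ∧ ∀ f : A[X], f.eval₂ ι x' = 0 → f.eval₂ χ ξ = 0 := by
  have := RingHom.ker_isPrime χ
  let L := Localization.AtPrime (RingHom.ker χ)
  have h1 : ∀ a : (RingHom.ker χ).primeCompl, IsUnit (χ a) := fun a => Ne.isUnit a.2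
  have h2 : ∀ a : (RingHom.ker χ).primeCompl, IsUnit (ι a) := fun a => Ne.isUnit fun h =>
    (h1 a).ne_zero (by rw [hι (h.trans (map_zero ι).symm), map_zero])
  let f : L →+* ℂ := IsLocalization.lift h2
  let g : L →+* ℂ := IsLocalization.lift h1
  have hf : f.comp (algebraMap A L) = ι := IsLocalization.lift_comp h2
  have hg : g.comp (algebraMap A L) = χ := IsLocalization.lift_comp h1
  have : IsLocalHom g := ⟨fun z hz => by
    obtain ⟨⟨a, s⟩, h⟩ := IsLocalization.surj (RingHom.ker χ).primeCompl z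
    have h3 := congrArg g h
    rw [map_mul, ← RingHom.comp_apply, ← RingHom.comp_apply, hg] at h3
    have h4 : IsUnit (algebraMap A L a) :=
      (IsLocalization.AtPrime.isUnit_to_map_iff L (RingHom.ker χ) a).2 (h3 ▸ hz.mul (h1 s)).ne_zero
    exact isUnit_of_mul_isUnit_left (h ▸ h4)⟩
  obtain ⟨V, hV, hl⟩ := IsLocalRing.exists_factor_valuationRing f
  let j : L →+* V := f.codRestrict V.toSubring hV
  have : IsLocalHom j := hl
  let _ := (ResidueField.map j).toAlgebra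
  let _ := (ResidueField.lift g).toAlgebra
  obtain ⟨x', hx, hx'⟩ : ∃ x', (x' = x ∨ x' = x⁻¹) ∧ x' ∈ V :=
    (V.mem_or_inv_mem x).elim (fun h => ⟨x, .inl rfl, h⟩) fun h => ⟨_, .inr rfl, h⟩
  obtain ⟨ξ, hξ⟩ := root_ext (k := ResidueField L) (residue V ⟨x', hx'⟩)
  refine ⟨x', ξ, hx, fun p hp => ?_⟩
  have h3 := hξ (p.map ((residue L).comp (algebraMap A L))) (by
    have h4 : p.eval₂ (j.comp (algebraMap A L)) ⟨x', hx'⟩ = 0 := Subtype.ext (by
      refine (hom_eval₂ p _ V.subtype _).trans ?_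
      rw [← hf] at hp
      exact hp)
    have h5 := hom_eval₂ p (j.comp (algebraMap A L)) (residue V) ⟨x', hx'⟩
    rw [h4, map_zero] at h5
    rw [aeval_def, eval₂_map]
    exact h5.symm)
  rw [aeval_def, eval₂_map] at h3
  rw [← hg]
  exact h3

theorem chev (Γ₀ : Subalgebra ℚ (ℂ × ℂ)) (h : ∀ z ∈ Γ₀, z.1 = 0 → z.2 = 0) :
    ∃ Γ : Subalgebra ℚ (ℂ × ℂ), Γ₀ ≤ Γ ∧ (∀ z ∈ Γ, z.1 = 0 → z.2 = 0) ∧
      ∀ x : ℂ, (∃ z ∈ Γ, z.1 = x) ∨ ∃ z ∈ Γ, z.1 = x⁻¹ := by
  obtain ⟨Γ, h1, h2⟩ := zorn_le_nonempty₀ {Γ : Subalgebra ℚ (ℂ × ℂ) | ∀ z ∈ Γ, z.1 = 0 → z.2 = 0}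
    (fun c hc hch y hy => by
      have : Nonempty c := ⟨⟨y, hy⟩⟩
      refine ⟨⨆ i : c, i.1, fun z hz => ?_, fun z hz => le_iSup (fun i : c => i.1) ⟨z, hz⟩⟩
      rw [← SetLike.mem_coe, Subalgebra.coe_iSup_of_directed hch.directed, Set.mem_iUnion] at hz
      obtain ⟨i, hi⟩ := hz
      exact hc i.2 z hi) Γ₀ h
  refine ⟨Γ, h1, h2.1, fun x => ?_⟩
  obtain ⟨x', ξ, hx, hξ⟩ := chev_step ((RingHom.fst ℂ ℂ).comp Γ.val.toRingHom)
    ((RingHom.snd ℂ ℂ).comp Γ.val.toRingHom) ((injective_iff_map_eq_zero _).2 fun z hz =>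
      Subtype.ext (Prod.ext hz (h2.1 z.1 z.2 hz))) x
  let g : Γ[X] →ₐ[ℚ] ℂ × ℂ := (aeval (x', ξ) : Γ[X] →ₐ[Γ] ℂ × ℂ).restrictScalars ℚ
  have h3 : g.range ≤ Γ := h2.2 (by
    rintro _ ⟨p, rfl⟩ hp
    exact (hom_eval₂ p _ (RingHom.snd ℂ ℂ) _).trans
      (hξ p ((hom_eval₂ p _ (RingHom.fst ℂ ℂ) _).symm.trans hp)))
    fun z hz => ⟨C ⟨z, hz⟩, aeval_C _ _⟩
  have h4 : (x', ξ) ∈ Γ := h3 ⟨X, aeval_X _⟩
  exact hx.imp (fun e => ⟨_, h4, e⟩) fun e => ⟨_, h4, e⟩

variable {K : Type} [Field K] {r : ℕ}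

theorem iwa_step (V : ValuationSubring K) {c : Matrix (Fin r) (Fin r) K} (hc : c.det ≠ 0) (j : ℕ) :
    ∃ (b : Matrix (Fin r) (Fin r) K) (σ : Fin r → Fin r), b.BlockTriangular id ∧ b.det ≠ 0 ∧
      ∀ a : Fin r, (a : ℕ) < j → (∀ i, (c * b) i a ∈ V) ∧ (c * b) (σ a) a = 1 ∧
        ∀ a', a < a' → (c * b) (σ a) a' = 0 := by
  induction j with
  | zero => exact ⟨1, id, blockTriangular_one, by simp, fun a ha => absurd ha (Nat.not_lt_zero _)⟩
  | succ j ih =>
    obtain ⟨b, σ, h1, h2, h3⟩ := ih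
    by_cases hj : j < r
    swap
    · exact ⟨b, σ, h1, h2, fun a _ => h3 a (by omega)⟩
    obtain ⟨J, rfl⟩ : ∃ J : Fin r, (J : ℕ) = j := ⟨⟨j, hj⟩, rfl⟩
    have hM : (c * b).det ≠ 0 := by
      rw [det_mul]
      exact mul_ne_zero hc h2
    obtain ⟨i, -, hi⟩ := Finset.exists_max_image Finset.univ
      (fun i => V.valuation ((c * b) i J)) ⟨J, Finset.mem_univ _⟩
    have hu : (c * b) i J ≠ 0 := fun h0 => hM (det_eq_zero_of_column_eq_zero J fun i' => by
      have h4 := hi i' (Finset.mem_univ _)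
      rwa [h0, map_zero, le_zero_iff, map_eq_zero] at h4)
    let e : Matrix (Fin r) (Fin r) K := (1 : Matrix (Fin r) (Fin r) K).updateRow J fun a =>
      if a < J then 0 else if a = J then ((c * b) i J)⁻¹ else -(c * b) i a * ((c * b) i J)⁻¹
    have he : e.BlockTriangular id := fun u v huv => by
      have h4 : v < u := huv
      by_cases h5 : u = J
      · simp [e, h5, h5 ▸ h4]
      · simp [e, updateRow_ne h5, Matrix.one_apply_ne h4.ne']
    have hm : ∀ u a, (c * (b * e)) u a =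
        (if a = J then 0 else (c * b) u a) + (c * b) u J * e J a := fun u a => by
      rw [← Matrix.mul_assoc, Matrix.mul_apply, ← Finset.sum_erase_add _ _ (Finset.mem_univ J)]
      congr 1
      rw [Finset.sum_congr rfl fun l hl => by
        rw [show e l a = if l = a then 1 else 0 by
          simp [e, updateRow_ne (Finset.ne_of_mem_erase hl), Matrix.one_apply]]]
      simp [Finset.sum_ite_eq']
    refine ⟨b * e, Function.update σ J i, h1.mul he, ?_, fun a ha => ?_⟩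
    · rw [det_mul, det_of_isUpperTriangular he]
      refine mul_ne_zero h2 (Finset.prod_ne_zero_iff.2 fun u _ => ?_)
      by_cases h5 : u = J
      · simpa [e, h5] using hu
      · simp [e, updateRow_ne h5]
    by_cases h5 : a = J
    · subst h5
      simp only [hm, Function.update_self, e, updateRow_self, lt_irrefl, if_true, if_false,
        zero_add]
      refine ⟨fun u => ?_, mul_inv_cancel₀ hu, fun a' h6 => ?_⟩
      · obtain ⟨z, hz⟩ := (V.valuation_le_iff _ _).1 (hi u (Finset.mem_univ _))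
        rw [← hz, mul_inv_cancel_right₀ hu]
        exact z.2
      · rw [if_neg h6.ne', if_neg h6.not_gt, if_neg h6.ne']
        field_simp
        ring
    · have h6 : a < J := by
        have : (a : ℕ) ≠ J := fun e => h5 (Fin.ext e)
        change (a : ℕ) < J
        omega
      obtain ⟨k1, k2, k3⟩ := h3 a h6
      simp only [hm, Function.update_of_ne h5, if_neg h5, k3 J h6, zero_mul, add_zero]
      refine ⟨fun u => ?_, k2, fun a' h7 => ?_⟩
      · simpa [e, h6] using k1 u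
      · rw [k3 a' h7, ite_self]

theorem iwasawa (V : ValuationSubring K) {c : Matrix (Fin r) (Fin r) K} (hc : c.det ≠ 0) :
    ∃ (k : Matrix (Fin r) (Fin r) V) (b : Matrix (Fin r) (Fin r) K), IsUnit k.det ∧
      b.BlockTriangular id ∧ b.det ≠ 0 ∧ k.map V.subtype = c * b := by
  obtain ⟨b, σ, h1, h2, h3⟩ := iwa_step V hc r
  let k : Matrix (Fin r) (Fin r) V := Matrix.of fun i a => ⟨_, (h3 a a.2).1 i⟩
  refine ⟨k, b, ?_, h1, h2, rfl⟩
  have h4 : (k.submatrix σ id).det = 1 := by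
    rw [det_of_isLowerTriangular _ fun u v huv => Subtype.ext ((h3 u u.2).2.2 v huv)]
    exact Finset.prod_eq_one fun u _ => Subtype.ext (h3 u u.2).2.1
  have h5 : k.submatrix σ id = (1 : Matrix (Fin r) (Fin r) V).submatrix σ id * k := by
    conv_lhs => rw [← Matrix.one_mul k]
    rfl
  rw [h5, det_mul] at h4
  exact IsUnit.of_mul_eq_one_right _ h4

end Pool.Agent.GR.NP
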