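import Pool.Agent.Lib.MP_aa40d3_nt.CV.Stmt

/-! Definitions used in the statement: systems that can be made strictly triangular. -/

open Polynomial Matrix
open scoped Polynomial.Bivariate

namespace Pool.Agent.GR.CV

variable {R : Type} [CommRing R] {r : ℕ}

/-- In some basis of functions on the curve the connection matrix is strictly upper triangular;
in positive characteristic this is nilpotence of the curvature. -/
def Sys.Tri (S : Sys R r) : Prop :=
  ∃ (Φ T : Matrix (Fin r) (Fin r) R[X][Y]) (q : R[X][Y]) (c : R[X]), c ≠ 0 ∧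
    S.P ∣ q * Φ.det - C c ∧ (∀ a b, b ≤ a → T a b = 0) ∧
    ∀ a b, S.P ∣ C c * S.nab (fun i => Φ i b) a - (Φ * T) a b

/-- On some disc there are a branch of the curve and a basis of algebraic functions in which the
connection matrix is strictly upper triangular. -/
def Sys.AlgTri (S : Sys ℂ r) : Prop :=
  ∃ (x₀ : ℂ) (ε : ℝ) (y : ℂ → ℂ) (Z T : ℂ → Matrix (Fin r) (Fin r) ℂ), 0 < ε ∧
    (∀ x ∈ Metric.ball x₀ ε, DifferentiableAt ℂ y x ∧ S.P.evalEval x (y x) = 0 ∧
      S.D.eval x ≠ 0 ∧ (Z x).det ≠ 0 ∧ (∀ a b, b ≤ a → T x a b = 0) ∧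
      ∀ a b, HasDerivAt (fun z => Z z a b)
        (((S.D.eval x)⁻¹ • (S.A.map (evalEval x (y x)) * Z x) + Z x * T x) a b) x) ∧
    ∀ a b, ∃ Q : ℂ[X][Y], Q ≠ 0 ∧ ∀ x ∈ Metric.ball x₀ ε, Q.evalEval x (Z x a b) = 0

end Pool.Agent.GR.CV
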